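import Pool.Agent.W_1b8d5d_h85.Model
import Pool.Agent.W_1b8d5d_h85.Grid3

/-!
MP_1b8d5d_pr (N2): the limit shape of planar first-passage percolation has no corner.
Definitions. The basic notions (grid, environments, passage times, finite models, coordinates) are those of
`W_1b8d5d_h85` (`V`, `nm`, `Edge`, `Env`, `T`, `res`, `sh`, `rf`, `edg`, `Mdl`, `Par`, `Crd`, `IsMean`).
The structure `Good` of this file is the one of `W_1b8d5d_h85` without exponential concentration and with the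
variance bound `K * l` (Efron-Stein).
-/

set_option autoImplicit false

namespace Pool.Agent.W_1b8d5d_c1

open Finset Pool.Agent.W_1b8d5d_h85

/-- The comparison function for the fluctuations. -/
noncomputable def S (x : ℝ) : ℝ := Real.sqrt x

/-- The properties of a model, at the range `R`, with the mean passage times `g`. -/
structure Good (Q : Par) (g : V → ℝ) (R : ℝ) (M : Mdl Q.a Q.b) : Prop where
  inv : ∀ (z : V) (F : Env → ℝ), M.E (fun τ => F (sh z τ)) = M.E F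
  refl : ∀ F : Env → ℝ, M.E (fun τ => F (rf τ)) = M.E F
  indep : ∀ A B : Set Edge, Disjoint A B → (∀ e ∈ A ∪ B, nm e.1 ≤ R) →
    ∀ F G : Env → ℝ, DependsOn F A → DependsOn G B →
      M.E (fun τ => F τ * G τ) = M.E F * M.E G
  mean : ∀ z, nm z ≤ R → |M.E (fun τ => T τ 0 z) - g z| ≤ 1
  var : ∀ (l : ℝ) (z : V), 1 ≤ l → nm z ≤ l → l ≤ R →
    M.E (fun τ => (T τ 0 z - M.E fun τ => T τ 0 z) ^ 2) ≤ Q.K * S l ^ 2
  peierls : ∀ l : ℕ, 1 ≤ l → M.P (fun τ => ∃ (y : V) (w : grid.Walk 0 y), w.IsPath ∧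
      l ≤ w.length ∧ (w.length : ℝ) ≤ R ∧ (nHigh Q.su τ w : ℝ) < w.length / 2)
      ≤ Q.K * (1 / 2) ^ l
  tilt : ∀ (C : Finset Edge) (d : ℝ), (∀ e ∈ C, nm e.1 ≤ R) → 0 ≤ d → d ≤ 1 / 2 →
    ∃ J : M.Ω → M.Ω → ℝ, (∀ ω ω', 0 ≤ J ω ω') ∧ (∀ ω, ∑ ω', J ω ω' = 1) ∧
      (∀ ω ω', J ω ω' ≠ 0 → (∀ e, M.env ω' e ≤ M.env ω e) ∧
        ∀ e, e ∉ C → nm e.1 ≤ R → M.env ω' e = M.env ω e) ∧
      (∀ (ω : M.Ω) (H : Finset Edge), H ⊆ C → (∀ e ∈ H, Q.su ≤ M.env ω e) →
        ∑ ω' ∈ univ.filter (fun ω' => ∑ e ∈ H, (M.env ω e - M.env ω' e)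
          < (Q.su - Q.sl) * (d * H.card / 4)), J ω ω' ≤ Real.exp (-(d * H.card / 16))) ∧
      (∀ m : ℕ, m * d ≤ Q.pl → Ex (fun ω' => if 2 < ∑ ω, J ω ω' then ∑ ω, J ω ω' else 0)
        ≤ 2 * (1 / 2) ^ m * Real.exp (Q.K * m ^ 2 * d ^ 2 * C.card))

/-- There are good models at all ranges. -/
def HasModels (Q : Par) (g : V → ℝ) : Prop := ∀ R : ℝ, ∃ (R' : ℝ) (M : Mdl Q.a Q.b), R ≤ R' ∧ Good Q g R' M

/-- A corner of the limit shape at the vector with the coordinates `(1, 0)`; the two one-sided derivatives are `p + q` and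
`p - q`. -/
structure Cnr (g : V → ℝ) (c : Crd) : Prop where
  low : ∀ z, c.p z + |c.q z| ≤ g z
  upp : ∀ ε : ℝ, 0 < ε → ∃ δ : ℝ, 0 < δ ∧ ∀ η : ℝ, 0 < η → ∃ N : ℝ, ∀ z, N ≤ c.p z →
    |c.q z| ≤ δ * c.p z → g z ≤ c.p z + (1 + ε) * |c.q z| + η * c.p z

/-- The corner bound: the mean excess in the direction of the corner. -/
def CornerBound (g : V → ℝ) (c : Crd) : Prop :=
  ∀ C₀ : ℝ, ∃ C₁ : ℝ, 0 ≤ C₁ ∧ ∀ (l : ℝ) (z : V), 1 ≤ l → |c.p z - l| ≤ C₀ → |c.q z| ≤ C₀ →
    g z ≤ l + C₁ * Real.sqrt l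

/-- The mirror image of the coordinates. -/
def mir (c : Crd) : Crd where
  p := c.p
  q := -c.q
  C := c.C
  one_le := c.one_le
  p_le := c.p_le
  q_le := fun x => by simpa using c.q_le x
  nm_le := fun x => by simpa using c.nm_le x
  rd := fun α β => c.rd α (-β)
  rd_p := fun α β => c.rd_p α (-β)
  rd_q := fun α β => by
    have h := c.rd_q α (-β)
    rw [abs_le] at h ⊢
    simp only [AddMonoidHom.neg_apply]
    constructor <;> linarith [h.1, h.2]

/-- The narrow cone `|q| ≤ p / 3`. -/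
def Kn (c : Crd) : Set V := {z | 3 * |c.q z| ≤ c.p z}

/-- The wedge with the vertex `x` in which `p + q` is increasing: `q ≤ p`, `- p ≤ 3 q` (relative to `x`). It contains
`x + Kn c`. -/
def Wd (c : Crd) (x : V) : Set V := {z | 0 ≤ c.p (z - x) - c.q (z - x) ∧ 0 ≤ c.p (z - x) + 3 * c.q (z - x)}

/-- The double cone between `x` and `y`. -/
def Db (c : Crd) (x y : V) : Set V := {z | z - x ∈ Kn c ∧ y - z ∈ Kn c}

/-- The passage time with the weights of the double cone (`b` outside). -/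
noncomputable def Ts (b : ℝ) (c : Crd) (τ : Env) (x y : V) : ℝ := T (res b (edg (Db c x y)) τ) x y

/-- The part of the double cone at height at most `H` from `x`. -/
def Tb (c : Crd) (x y : V) (H : ℝ) : Set V := {z | z ∈ Db c x y ∧ |c.q (z - x)| ≤ H}

/-- The passage time with the weights of the tube (`b` outside). -/
noncomputable def Tt (b : ℝ) (c : Crd) (τ : Env) (x y : V) (H : ℝ) : ℝ := T (res b (edg (Tb c x y H)) τ) x y

/-- The mean positive excess. -/
noncomputable def Sx {a b : ℝ} (M : Mdl a b) (c : Crd) (y : V) : ℝ := M.E fun τ => max (Ts b c τ 0 y - c.p y) 0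

/-- `B` bounds the mean positive excess up to the scale `n`. -/
def Ub {a b : ℝ} (M : Mdl a b) (c : Crd) (n B : ℝ) : Prop :=
  ∀ y, 0 ≤ c.p y → c.p y ≤ n → |c.q y| ≤ 9 * c.C → Sx M c y ≤ B

/-- No point near `0` is reached much faster than the supporting functionals allow (paths in the cone at `0`). -/
def Fw (b : ℝ) (c : Crd) (n θ : ℝ) (τ : Env) : Prop :=
  ∀ z, nm z ≤ n → c.p z + |c.q z| - θ ≤ T (res b (edg (Kn c)) τ) 0 z

/-- The same seen from the end point `y`. -/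
def Bw (b : ℝ) (c : Crd) (n θ : ℝ) (y : V) (τ : Env) : Prop :=
  ∀ z, nm (y - z) ≤ n → c.p (y - z) + |c.q (y - z)| - θ ≤ T (res b (edg {w | y - w ∈ Kn c}) τ) z y

/-- The region around a block of length `l`, half width `W`, based at `x`. -/
def Rg (c : Crd) (x : V) (l W : ℝ) : Set V := {z | |c.q (z - x)| ≤ W ∧ -W ≤ c.p (z - x) ∧ c.p (z - x) ≤ l + W}

/-- A lucky region: some crossing of the block is faster than `p + q` by `s`. -/
def Lucky (b : ℝ) (c : Crd) (x : V) (l W s : ℝ) (τ : Env) : Prop :=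
  ∃ u ∈ Rg c x l W, ∃ v ∈ Rg c x l W, |c.p (u - x)| ≤ 9 * c.C ∧ |c.p (v - x) - l| ≤ 9 * c.C ∧
    T (res b (edg (Rg c x l W)) τ) u v ≤ c.p (v - u) + c.q (v - u) - s

/-- `(p - q) / 2` -/
noncomputable def skp (c : Crd) : V →+ ℝ :=
  AddMonoidHom.mk' (fun z => (c.p z - c.q z) / 2) (fun x y => by rw [map_add, map_add]; ring)

/-- `(p + 3 q) / 2` -/
noncomputable def skq (c : Crd) : V →+ ℝ :=
  AddMonoidHom.mk' (fun z => (c.p z + 3 * c.q z) / 2) (fun x y => by rw [map_add, map_add]; ring)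

theorem skp_apply (c : Crd) (z : V) : skp c z = (c.p z - c.q z) / 2 := rfl

theorem skq_apply (c : Crd) (z : V) : skq c z = (c.p z + 3 * c.q z) / 2 := rfl

/-- The skewed coordinates `p' = (p - q) / 2`, `q' = (p + 3 q) / 2`; `p' + q' = p + q` and the quadrant of `sk c` is the wedge
`Wd c`. -/
noncomputable def sk (c : Crd) : Crd where
  p := skp c
  q := skq c
  C := 3 * c.C
  one_le := by linarith [c.one_le]
  p_le := fun x => by
    have h1 := abs_le.1 (c.p_le x)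
    have h2 := abs_le.1 (c.q_le x)
    have h3 : 0 ≤ c.C * nm x := (abs_nonneg _).trans (c.p_le x)
    rw [skp_apply, abs_le]
    constructor <;> linarith [h1.1, h1.2, h2.1, h2.2]
  q_le := fun x => by
    have h1 := abs_le.1 (c.p_le x)
    have h2 := abs_le.1 (c.q_le x)
    have h3 : 0 ≤ c.C * nm x := (abs_nonneg _).trans (c.p_le x)
    rw [skq_apply, abs_le]
    constructor <;> linarith [h1.1, h1.2, h2.1, h2.2]
  nm_le := fun x => by
    have h0 := c.nm_le x
    have hC : 0 ≤ c.C := by linarith [c.one_le]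
    rw [skp_apply, skq_apply]
    have key : |c.p x| + |c.q x| ≤ 3 * (|(c.p x - c.q x) / 2| + |(c.p x + 3 * c.q x) / 2|) := by
      have a1 := le_abs_self ((c.p x - c.q x) / 2)
      have a2 := neg_abs_le ((c.p x - c.q x) / 2)
      have a3 := le_abs_self ((c.p x + 3 * c.q x) / 2)
      have a4 := neg_abs_le ((c.p x + 3 * c.q x) / 2)
      rcases abs_cases (c.p x) with ⟨e1, _⟩ | ⟨e1, _⟩ <;> rcases abs_cases (c.q x) with ⟨e2, _⟩ | ⟨e2, _⟩ <;>
        rw [e1, e2] <;> linarith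
    have := mul_le_mul_of_nonneg_left key hC
    linarith
  rd := fun α β => c.rd ((3 * α + β) / 2) ((β - α) / 2)
  rd_p := fun α β => by
    have h1 := abs_le.1 (c.rd_p ((3 * α + β) / 2) ((β - α) / 2))
    have h2 := abs_le.1 (c.rd_q ((3 * α + β) / 2) ((β - α) / 2))
    have hC := c.one_le
    rw [skp_apply, abs_le]
    constructor <;> linarith [h1.1, h1.2, h2.1, h2.2]
  rd_q := fun α β => by
    have h1 := abs_le.1 (c.rd_p ((3 * α + β) / 2) ((β - α) / 2))
    have h2 := abs_le.1 (c.rd_q ((3 * α + β) / 2) ((β - α) / 2))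
    have hC := c.one_le
    rw [skq_apply, abs_le]
    constructor <;> linarith [h1.1, h1.2, h2.1, h2.2]

end Pool.Agent.W_1b8d5d_c1
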