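import Pool.Agent.W_1b8d5d_c1.Climb

/-!
MP_1b8d5d_pr (N2): geometry of the lucky regions; the list of candidates.
-/

set_option autoImplicit false

namespace Pool.Agent.W_1b8d5d_c1

open Finset Pool.Agent.W_1b8d5d_h85

/-- The base point of the region number `k`: at distance `L B`, height `(3 k + 2) W`, `W = Λ B`. -/
noncomputable def bp (c : Crd) (L Λ B : ℝ) (k : ℕ) : V := c.rd (L * B) ((3 * k + 2) * (Λ * B))

theorem Rg_sub (c : Crd) (x u : V) (l W : ℝ) : u ∈ Rg c x l W ↔ u - x ∈ Rg c 0 l W := by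
  unfold Rg
  simp only [Set.mem_ofPred_eq, sub_zero]

theorem Rg_nm {c : Crd} {x u : V} {l W : ℝ} (hl : 0 ≤ l) (hW : 0 ≤ W) (h : u ∈ Rg c x l W) : nm (u - x) ≤ 2 * c.C * (l + W) := by
  obtain ⟨h1, h2, h3⟩ := h
  have h4 := c.nm_le (u - x)
  have hC := c.one_le
  have h5 : |c.p (u - x)| ≤ l + W := by
    rw [abs_le]
    constructor <;> linarith
  have h6 : c.C * (|c.p (u - x)| + |c.q (u - x)|) ≤ c.C * (2 * (l + W)) :=
    mul_le_mul_of_nonneg_left (by linarith) (by linarith)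
  linarith

/-- Heights in the region `k`. -/
private theorem Luck1_q {c : Crd} {L Λ B l : ℝ} {k : ℕ} {z : V}
    (hz : z ∈ Rg c (bp c L Λ B k) l (Λ * B)) :
    (3 * (k : ℝ) + 2) * (Λ * B) - c.C - Λ * B ≤ c.q z ∧
      c.q z ≤ (3 * (k : ℝ) + 2) * (Λ * B) + c.C + Λ * B := by
  have h1 := hz.1
  have h2 := abs_le.1 (c.rd_q (L * B) ((3 * (k : ℝ) + 2) * (Λ * B)))
  have h3 : c.q (z - bp c L Λ B k) = c.q z - c.q (c.rd (L * B) ((3 * (k : ℝ) + 2) * (Λ * B))) := by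
    rw [map_sub]
    rfl
  rw [h3, abs_le] at h1
  constructor <;> linarith [h1.1, h1.2]

/-- Distances in the region `k`. -/
private theorem Luck1_p {c : Crd} {L Λ B l : ℝ} {k : ℕ} {z : V}
    (hz : z ∈ Rg c (bp c L Λ B k) l (Λ * B)) :
    L * B - c.C - Λ * B ≤ c.p z ∧ c.p z ≤ L * B + c.C + l + Λ * B := by
  have h1 := hz.2.1
  have h1' := hz.2.2
  have h2 := abs_le.1 (c.rd_p (L * B) ((3 * (k : ℝ) + 2) * (Λ * B)))
  have h3 : c.p (z - bp c L Λ B k) = c.p z - c.p (c.rd (L * B) ((3 * (k : ℝ) + 2) * (Λ * B))) := by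
    rw [map_sub]
    rfl
  rw [h3] at h1 h1'
  constructor <;> linarith

/-- Points of the wedge are to the right of its vertex. -/
private theorem Luck1_Wd {c : Crd} {x z : V} (hz : z ∈ Wd c x) : c.p x ≤ c.p z := by
  obtain ⟨h1, h2⟩ := hz
  rw [map_sub, map_sub] at h1 h2
  linarith

/-- Regions are finite. -/
private theorem Luck1_fin (c : Crd) (x : V) {l W : ℝ} (hl : 0 ≤ l) (hW : 0 ≤ W) :
    (Rg c x l W).Finite := by
  have h1 : Rg c x l W ⊆ (fun u : V => u + x) ''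
      (Set.Icc (-⌈2 * c.C * (l + W)⌉) ⌈2 * c.C * (l + W)⌉ ×ˢ
        Set.Icc (-⌈2 * c.C * (l + W)⌉) ⌈2 * c.C * (l + W)⌉) := by
    intro u hu
    refine ⟨u - x, ?_, sub_add_cancel u x⟩
    have h3 : nm (u - x) ≤ (⌈2 * c.C * (l + W)⌉ : ℤ) := (Rg_nm hl hW hu).trans (Int.le_ceil _)
    unfold nm at h3
    have h4 : |((u - x).1 : ℝ)| ≤ (⌈2 * c.C * (l + W)⌉ : ℤ) := by
      linarith [abs_nonneg ((u - x).2 : ℝ)]
    have h5 : |((u - x).2 : ℝ)| ≤ (⌈2 * c.C * (l + W)⌉ : ℤ) := by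
      linarith [abs_nonneg ((u - x).1 : ℝ)]
    have h6 : |(u - x).1| ≤ ⌈2 * c.C * (l + W)⌉ := by exact_mod_cast h4
    have h7 : |(u - x).2| ≤ ⌈2 * c.C * (l + W)⌉ := by exact_mod_cast h5
    exact ⟨abs_le.1 h6, abs_le.1 h7⟩
  exact (((Set.finite_Icc _ _).prod (Set.finite_Icc _ _)).image _).subset h1

/-- Different regions have no common vertex. -/
theorem bp_disj (c : Crd) {L Λ B l : ℝ} (hΛ : 1 ≤ Λ) (hB : 3 * c.C ≤ B) {j k : ℕ} (hjk : j ≠ k) :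
    Disjoint (Rg c (bp c L Λ B j) l (Λ * B)) (Rg c (bp c L Λ B k) l (Λ * B)) := by
  rw [Set.disjoint_left]
  intro z hz hz'
  obtain ⟨a1, a2⟩ := Luck1_q hz
  obtain ⟨b1, b2⟩ := Luck1_q hz'
  have hC := c.one_le
  have hW : B ≤ Λ * B := le_mul_of_one_le_left (by linarith) hΛ
  have hW0 : 0 ≤ Λ * B := by linarith
  rcases lt_or_gt_of_ne hjk with hlt | hlt
  · have h1 : (j : ℝ) + 1 ≤ k := by exact_mod_cast hlt
    have h2 : ((j : ℝ) + 1) * (Λ * B) ≤ k * (Λ * B) := mul_le_mul_of_nonneg_right h1 hW0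
    linarith
  · have h1 : (k : ℝ) + 1 ≤ j := by exact_mod_cast hlt
    have h2 : ((k : ℝ) + 1) * (Λ * B) ≤ j * (Λ * B) := mul_le_mul_of_nonneg_right h1 hW0
    linarith

/-- The regions are in the wedge at `0`. -/
theorem bp_Wd (c : Crd) {L Λ B l : ℝ} (hΛ : 1 ≤ Λ) (hB : 3 * c.C ≤ B) (hl : 0 ≤ l) {K k : ℕ} (hk : k < K)
    (hL : 10 * (3 * K + 3) * Λ ≤ L) : Rg c (bp c L Λ B k) l (Λ * B) ⊆ Wd c 0 := by
  intro z hz
  obtain ⟨a1, a2⟩ := Luck1_q hz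
  obtain ⟨b1, b2⟩ := Luck1_p hz
  have hC := c.one_le
  have hB0 : 0 ≤ B := by linarith
  have hW : B ≤ Λ * B := le_mul_of_one_le_left hB0 hΛ
  have hW0 : 0 ≤ Λ * B := by linarith
  have h1 : (k : ℝ) + 1 ≤ K := by exact_mod_cast hk
  have h2 : ((k : ℝ) + 1) * (Λ * B) ≤ K * (Λ * B) := mul_le_mul_of_nonneg_right h1 hW0
  have h3 : 10 * (3 * (K : ℝ) + 3) * Λ * B ≤ L * B := mul_le_mul_of_nonneg_right hL hB0
  have h4 : 10 * (3 * (K : ℝ) + 3) * Λ * B = 30 * (K * (Λ * B)) + 30 * (Λ * B) := by ring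
  have h5 : 0 ≤ (k : ℝ) * (Λ * B) := mul_nonneg (Nat.cast_nonneg _) hW0
  constructor
  · show 0 ≤ c.p (z - 0) - c.q (z - 0)
    rw [sub_zero]
    linarith
  · show 0 ≤ c.p (z - 0) + 3 * c.q (z - 0)
    rw [sub_zero]
    linarith

/-- The wedge at a point `v + c.rd (L₂ B) 0`, `v` an end point of a region, does not meet the regions. -/
theorem bp_end (c : Crd) {L L₂ Λ B l : ℝ} (hΛ : 1 ≤ Λ) (hB : 3 * c.C ≤ B) (hl : 0 ≤ l) {K j k : ℕ} (hj : j < K) (hk : k < K)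
    (hL : 40 * (3 * K + 3) * Λ ≤ L₂) {v : V} (hv : v ∈ Rg c (bp c L Λ B k) l (Λ * B))
    (hv' : |c.p (v - bp c L Λ B k) - l| ≤ 9 * c.C) :
    Disjoint (Rg c (bp c L Λ B j) l (Λ * B)) (Wd c (v + c.rd (L₂ * B) 0)) := by
  have hC := c.one_le
  have hB0 : 0 ≤ B := by linarith
  have hW : B ≤ Λ * B := le_mul_of_one_le_left hB0 hΛ
  have hW0 : 0 ≤ Λ * B := by linarith
  have h3 : 40 * (3 * (K : ℝ) + 3) * Λ * B ≤ L₂ * B := mul_le_mul_of_nonneg_right hL hB0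
  have h4 : 40 * (3 * (K : ℝ) + 3) * Λ * B = 120 * (K * (Λ * B)) + 120 * (Λ * B) := by ring
  have h5 : 0 ≤ (K : ℝ) * (Λ * B) := mul_nonneg (Nat.cast_nonneg _) hW0
  rw [Set.disjoint_left]
  intro z hz hz'
  obtain ⟨b1, b2⟩ := Luck1_p hz
  have h6 := Luck1_Wd hz'
  have h7 := abs_le.1 (c.rd_p (L₂ * B) 0)
  have h8 := abs_le.1 (c.rd_p (L * B) ((3 * (k : ℝ) + 2) * (Λ * B)))
  have h9 := abs_le.1 hv'
  have h10 : c.p (v - bp c L Λ B k) = c.p v - c.p (c.rd (L * B) ((3 * (k : ℝ) + 2) * (Λ * B))) := by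
    rw [map_sub]
    rfl
  rw [h10] at h9
  rw [map_add] at h6
  linarith

/-- The wedge at the default point. -/
theorem bp_end_default (c : Crd) {L L₂ Λ B l : ℝ} (hΛ : 1 ≤ Λ) (hB : 3 * c.C ≤ B) (hl : 0 ≤ l) {K k : ℕ} (hk : k < K)
    (hL : 40 * (3 * K + 3) * Λ ≤ L₂) :
    Disjoint (Rg c (bp c L Λ B k) l (Λ * B)) (Wd c (c.rd ((L + L₂) * B + l) 0)) := by
  have hC := c.one_le
  have hB0 : 0 ≤ B := by linarith
  have hW : B ≤ Λ * B := le_mul_of_one_le_left hB0 hΛ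
  have hW0 : 0 ≤ Λ * B := by linarith
  have h3 : 40 * (3 * (K : ℝ) + 3) * Λ * B ≤ L₂ * B := mul_le_mul_of_nonneg_right hL hB0
  have h4 : 40 * (3 * (K : ℝ) + 3) * Λ * B = 120 * (K * (Λ * B)) + 120 * (Λ * B) := by ring
  have h5 : 0 ≤ (K : ℝ) * (Λ * B) := mul_nonneg (Nat.cast_nonneg _) hW0
  rw [Set.disjoint_left]
  intro z hz hz'
  obtain ⟨b1, b2⟩ := Luck1_p hz
  have h6 := Luck1_Wd hz'
  have h7 := abs_le.1 (c.rd_p ((L + L₂) * B + l) 0)
  linarith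

/-- The candidates: a number `k < K` of a region and two points of the region. -/
theorem exists_cands (c : Crd) (L Λ B l : ℝ) (K : ℕ) (hl : 0 ≤ l) (hW : 0 ≤ Λ * B) :
    ∃ (m : ℕ) (k : Fin m → ℕ) (u v : Fin m → V),
      (∀ i, k i < K ∧ u i ∈ Rg c (bp c L Λ B (k i)) l (Λ * B) ∧ v i ∈ Rg c (bp c L Λ B (k i)) l (Λ * B) ∧
        |c.p (u i - bp c L Λ B (k i))| ≤ 9 * c.C ∧ |c.p (v i - bp c L Λ B (k i)) - l| ≤ 9 * c.C) ∧
      (∀ k' < K, ∀ u' ∈ Rg c (bp c L Λ B k') l (Λ * B), ∀ v' ∈ Rg c (bp c L Λ B k') l (Λ * B),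
        |c.p (u' - bp c L Λ B k')| ≤ 9 * c.C → |c.p (v' - bp c L Λ B k') - l| ≤ 9 * c.C →
        ∃ i, k i = k' ∧ u i = u' ∧ v i = v') := by
  classical
  set s : Set (ℕ × V × V) := {t | t.1 < K ∧ t.2.1 ∈ Rg c (bp c L Λ B t.1) l (Λ * B) ∧
    t.2.2 ∈ Rg c (bp c L Λ B t.1) l (Λ * B) ∧ |c.p (t.2.1 - bp c L Λ B t.1)| ≤ 9 * c.C ∧
    |c.p (t.2.2 - bp c L Λ B t.1) - l| ≤ 9 * c.C} with hs
  have hfin : s.Finite := by
    have h1 : s ⊆ ⋃ k ∈ Finset.range K, ({k} : Set ℕ) ×ˢ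
        ((Rg c (bp c L Λ B k) l (Λ * B)) ×ˢ (Rg c (bp c L Λ B k) l (Λ * B))) := by
      rintro ⟨k, u, v⟩ ⟨h2, h3, h4, -, -⟩
      simp only [Set.mem_iUnion]
      exact ⟨k, Finset.mem_range.2 h2, ⟨rfl, h3, h4⟩⟩
    refine Set.Finite.subset (Set.Finite.biUnion (Finset.finite_toSet _) fun k _ => ?_) h1
    exact (Set.finite_singleton k).prod ((Luck1_fin c _ hl hW).prod (Luck1_fin c _ hl hW))
  set e := hfin.toFinset.equivFin with he
  refine ⟨hfin.toFinset.card, fun i => (e.symm i : ℕ × V × V).1, fun i => (e.symm i : ℕ × V × V).2.1,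
    fun i => (e.symm i : ℕ × V × V).2.2, ?_, ?_⟩
  · intro i
    have h1 : (e.symm i : ℕ × V × V) ∈ s := hfin.mem_toFinset.1 (e.symm i).2
    exact ⟨h1.1, h1.2.1, h1.2.2.1, h1.2.2.2.1, h1.2.2.2.2⟩
  · intro k' hk' u' hu' v' hv' h1 h2
    have h3 : ((k', u', v') : ℕ × V × V) ∈ hfin.toFinset := hfin.mem_toFinset.2 ⟨hk', hu', hv', h1, h2⟩
    refine ⟨e ⟨(k', u', v'), h3⟩, ?_, ?_, ?_⟩ <;> simp

/-- The dependence of the lucky event. -/
theorem Lucky_dep (b : ℝ) (c : Crd) (x : V) (l W s : ℝ) :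
    DependsOn (fun τ : Env => Lucky b c x l W s τ) (edg (Rg c x l W)) := by
  intro τ τ' h
  have h1 : ∀ u v, T (res b (edg (Rg c x l W)) τ) u v = T (res b (edg (Rg c x l W)) τ') u v :=
    fun u v => dependsOn_T_res b (edg (Rg c x l W)) u v h
  simp only [Lucky, h1]

/-- Invariance of the probability of the lucky event. -/
theorem P_Lucky {Q : Par} {g : V → ℝ} {R : ℝ} {M : Mdl Q.a Q.b} (h : Good Q g R M) (c : Crd) (x : V) (l W s : ℝ) :
    M.P (Lucky Q.b c x l W s) = M.P (Lucky Q.b c 0 l W s) := by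
  classical
  have h1 : ∀ τ : Env, Lucky Q.b c 0 l W s (sh x τ) ↔ Lucky Q.b c x l W s τ := by
    intro τ
    have hset : {w | w - x ∈ Rg c 0 l W} = Rg c x l W := by
      ext w
      exact (Rg_sub c x w l W).symm
    have hT : ∀ u v, T (res Q.b (edg (Rg c 0 l W)) (sh x τ)) u v =
        T (res Q.b (edg (Rg c x l W)) τ) (u + x) (v + x) := by
      intro u v
      rw [T_res_sh, hset]
    constructor
    · rintro ⟨u, hu, v, hv, h2, h3, h4⟩
      rw [hT] at h4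
      refine ⟨u + x, ?_, v + x, ?_, ?_, ?_, ?_⟩
      · rw [Rg_sub, add_sub_cancel_right]
        exact hu
      · rw [Rg_sub, add_sub_cancel_right]
        exact hv
      · rw [add_sub_cancel_right]
        rwa [sub_zero] at h2
      · rw [add_sub_cancel_right]
        rwa [sub_zero] at h3
      · rw [add_sub_add_right_eq_sub]
        exact h4
    · rintro ⟨u, hu, v, hv, h2, h3, h4⟩
      refine ⟨u - x, (Rg_sub c x u l W).1 hu, v - x, (Rg_sub c x v l W).1 hv, ?_, ?_, ?_⟩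
      · rw [sub_zero]
        exact h2
      · rw [sub_zero]
        exact h3
      · rw [hT, sub_add_cancel, sub_add_cancel, sub_sub_sub_cancel_right]
        exact h4
  have h2 := h.inv x (fun τ => if Lucky Q.b c 0 l W s τ then (1 : ℝ) else 0)
  have h3 : M.P (Lucky Q.b c x l W s) =
      M.E (fun τ => if Lucky Q.b c 0 l W s (sh x τ) then (1 : ℝ) else 0) := by
    rw [Mdl.P_def]
    congr 1
    funext τ
    simp only [h1]
  rw [h3, h2, Mdl.P_def]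

end Pool.Agent.W_1b8d5d_c1
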