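import Pool.Agent.W_1b8d5d_c1.Tube

/-!
MP_1b8d5d_pr (N2): exponential tails of the excess at the scale `B`, second moment, lower bound at records.
-/

set_option autoImplicit false

namespace Pool.Agent.W_1b8d5d_c1

open Finset Pool.Agent.W_1b8d5d_h85

/-- Independence of a list of events which depend on pairwise disjoint sets of edges: none of them occurs.
PROOF. Induction with `Good.indep` for the indicator functions. -/
theorem Good.none_le {Q : Par} {g : V → ℝ} {R : ℝ} {M : Mdl Q.a Q.b} (h : Good Q g R M) (m : ℕ) (A : ℕ → Set Edge)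
    (hA : ∀ i j, i < j → j < m → Disjoint (A i) (A j)) (hR : ∀ i < m, ∀ e ∈ A i, nm e.1 ≤ R) (p : ℕ → Env → Prop)
    (hp : ∀ i < m, DependsOn (p i) (A i)) {s : ℝ} (hs : ∀ i < m, s ≤ M.P (p i)) (hs1 : s ≤ 1) :
    M.P (fun τ => ∀ i < m, ¬ p i τ) ≤ (1 - s) ^ m := by
  classical
  induction m with
  | zero => simpa using M.P_le_one _
  | succ m ih =>
    have ih' := ih (fun i j hij hj => hA i j hij (hj.trans (Nat.lt_succ_self m)))
      (fun i hi => hR i (hi.trans (Nat.lt_succ_self m)))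
      (fun i hi => hp i (hi.trans (Nat.lt_succ_self m)))
      (fun i hi => hs i (hi.trans (Nat.lt_succ_self m)))
    set F : Env → ℝ := fun τ => if (∀ i < m, ¬ p i τ) then (1 : ℝ) else 0 with hF
    set G : Env → ℝ := fun τ => if ¬ p m τ then (1 : ℝ) else 0 with hG
    have e1 : M.P (fun τ => ∀ i < m + 1, ¬ p i τ) = M.E (fun τ => F τ * G τ) := by
      rw [M.P_def]
      refine M.E_congr fun τ _ => ?_
      rw [hF, hG]
      simp only
      by_cases h1 : ∀ i < m, ¬ p i τ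
      · by_cases h2 : ¬ p m τ
        · rw [if_pos h1, if_pos h2, if_pos, mul_one]
          intro i hi
          rcases Nat.lt_succ_iff_lt_or_eq.1 hi with h3 | h3
          · exact h1 i h3
          · rw [h3]; exact h2
        · rw [if_neg h2, mul_zero, if_neg]
          intro h3
          exact h2 (h3 m (Nat.lt_succ_self m))
      · rw [if_neg h1, zero_mul, if_neg]
        intro h3
        exact h1 fun i hi => h3 i (hi.trans (Nat.lt_succ_self m))
    have e2 : M.E F = M.P (fun τ => ∀ i < m, ¬ p i τ) := by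
      rw [M.P_def]
      refine M.E_congr fun τ _ => ?_
      rw [hF]
      beta_reduce
      first | rfl | congr
    have e3 : M.E G = M.P (fun τ => ¬ p m τ) := by
      rw [M.P_def]
      refine M.E_congr fun τ _ => ?_
      rw [hG]
      beta_reduce
      first | rfl | congr
    have hi := h.indep (⋃ i ∈ Set.Iio m, A i) (A m) (by
      rw [Set.disjoint_left]
      intro e he he'
      simp only [Set.mem_iUnion, Set.mem_Iio, exists_prop] at he
      obtain ⟨i, hi, hei⟩ := he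
      exact Set.disjoint_left.1 (hA i m hi (Nat.lt_succ_self m)) hei he') (by
      intro e he
      rcases he with he | he
      · simp only [Set.mem_iUnion, Set.mem_Iio, exists_prop] at he
        obtain ⟨i, hi, hei⟩ := he
        exact hR i (hi.trans (Nat.lt_succ_self m)) e hei
      · exact hR m (Nat.lt_succ_self m) e he) F G (by
      intro x y hxy
      have h3 : ∀ i < m, p i x = p i y := fun i hi =>
        hp i (hi.trans (Nat.lt_succ_self m)) fun e he => hxy e (by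
          simp only [Set.mem_iUnion, Set.mem_Iio, exists_prop]
          exact ⟨i, hi, he⟩)
      have h4 : (∀ i < m, ¬ p i x) = (∀ i < m, ¬ p i y) := by
        refine propext ⟨fun h5 i hi => ?_, fun h5 i hi => ?_⟩
        · rw [← h3 i hi]; exact h5 i hi
        · rw [h3 i hi]; exact h5 i hi
      rw [hF]
      simp only [h4]) (by
      intro x y hxy
      have h3 : p m x = p m y := hp m (Nat.lt_succ_self m) hxy
      rw [hG]
      simp only [h3])
    rw [e1, hi, e2, e3, M.P_not, pow_succ]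
    refine mul_le_mul ih' ?_ ?_ (pow_nonneg (by linarith) _)
    · linarith [hs m (Nat.lt_succ_self m)]
    · linarith [M.P_le_one (p m)]

/-- Exponential tail.  PROOF. Let `C₁` be the constant of `lane_half`, `H = C₁ B`.  If `C B (k + 1)` is larger than `C' p y + C'`, the event is
impossible (`Ts_upper`).  Otherwise consider the lanes `j = 1, ..., k`: `x_j = c.rd (9 H j + 20 C) (3 H j + q y / 2)`,
`y_j = y - c.rd (9 H j + 20 C) (q y / 2 - 3 H j)`; `x_j, y - y_j ∈ Kn c`, `|q (y_j - x_j)| ≤ 2 C`, `0 ≤ p (y_j - x_j) ≤ n`,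
`y_j - x_j ∈ Kn c`.  The lane `j` succeeds if `Tt τ x_j y_j H ≤ p (y_j - x_j) + 8 B` (probability `≥ 1/2`, `Good.E_Tt`); these events depend on the
disjoint sets `edg (Tb c x_j y_j H)`.  If the lane `j` succeeds then by `Ts_triangle` (twice), `Ts_upper`:
`Ts τ 0 y ≤ b nm x_j + p (y_j - x_j) + 8 B + b nm (y - y_j) ≤ p y + C B j`.  `Good.none_le`. -/
theorem tail (Q : Par) (g : V → ℝ) (c : Crd) (hg : IsMean Q g) (hl : ∀ z, c.p z + |c.q z| ≤ g z) :
    ∃ C : ℝ, 1 ≤ C ∧ ∀ (n R : ℝ) (M : Mdl Q.a Q.b), 1 ≤ n → C * n ^ 12 ≤ R → Good Q g R M →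
    ∀ B : ℝ, 1 ≤ B → Ub M c (C * n) B → ∀ y, 0 ≤ c.p y → c.p y ≤ n → |c.q y| ≤ 9 * c.C → ∀ k : ℕ,
      M.P (fun τ => C * B * (k + 1) ≤ Ts Q.b c τ 0 y - c.p y) ≤ (1 / 2) ^ k := by
  classical
  obtain ⟨C₁, hC₁, hL⟩ := lane_half Q g c hg hl
  have ha := Q.ha
  have hab := Q.hab
  have hc := c.one_le
  have hb0 : 0 < Q.b := ha.trans hab
  have hC₁0 : 0 < C₁ := by linarith
  set c0 : ℝ := c.C with hc0
  have hc00 : 0 < c0 := by linarith
  set C₂ : ℝ := C₁ + 3 * c0 with hC₂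
  have hC₂0 : 0 < C₂ := by linarith
  have hb1 : 0 < Q.b * c0 := mul_pos hb0 hc00
  have hb2 : 0 < Q.b * c0 * C₂ := mul_pos hb1 hC₂0
  have hb3 : 0 < Q.b * c0 * c0 := mul_pos hb1 hc00
  set C : ℝ := C₁ + 4 * c0 + 9 + 24 * (Q.b * c0 * C₂) + 57 * (Q.b * c0 * c0) with hC
  refine ⟨C, by linarith, ?_⟩
  intro n R M hn hR hgood B hB hUb y hy0 hyn hyq k
  have hn0 : 0 < n := by linarith
  have hB0 : 0 < B := by linarith
  have hn12 : 0 ≤ n ^ 12 := by positivity
  have hnn : n ≤ n ^ 12 := by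
    calc n = n ^ 1 := (pow_one n).symm
      _ ≤ n ^ 12 := pow_le_pow_right₀ hn (by norm_num)
  have hR₁ : C₁ * n ^ 12 ≤ R := (mul_le_mul_of_nonneg_right (by linarith) hn12).trans hR
  have hR₂ : 4 * c0 * n ≤ R := by
    refine le_trans ?_ hR
    have h1 : 4 * c0 * n ≤ 4 * c0 * n ^ 12 := mul_le_mul_of_nonneg_left hnn (by linarith)
    have h2 : 4 * c0 * n ^ 12 ≤ C * n ^ 12 := mul_le_mul_of_nonneg_right (by linarith) hn12
    linarith
  have hUb' : Ub M c (C₁ * n) B := by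
    intro z h0 h1 h2
    exact hUb z h0 (h1.trans (mul_le_mul_of_nonneg_right (by linarith) hn0.le)) h2
  set H : ℝ := C₂ * B with hH
  have hH1 : C₁ * B ≤ H := mul_le_mul_of_nonneg_right (by linarith) hB0.le
  have hH2 : 3 * c0 ≤ H := by
    have h1 : 3 * c0 * 1 ≤ 3 * c0 * B := mul_le_mul_of_nonneg_left hB (by linarith)
    have h2 : 3 * c0 * B ≤ C₂ * B := mul_le_mul_of_nonneg_right (by linarith) hB0.le
    linarith
  have hH0 : 0 < H := by linarith
  have hk0 : (0 : ℝ) ≤ k := Nat.cast_nonneg k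
  have hyq' := abs_le.1 hyq
  -- the two kinds of bounds
  have hbig : ∀ j : ℝ, 0 ≤ j → j ≤ k → 8 * B + 8 / 3 * Q.b * c0 * (9 * H * j + 21 * c0) < C * B * (k + 1) := by
    intro j hj0 hjk
    have h1 : 8 / 3 * Q.b * c0 * (9 * H * j + 21 * c0) =
        24 * (Q.b * c0 * C₂) * (B * j) + 56 * (Q.b * c0 * c0) := by
      rw [hH]; ring
    rw [h1]
    have h2 : B * j ≤ B * k := mul_le_mul_of_nonneg_left hjk hB0.le
    have h3 : 24 * (Q.b * c0 * C₂) * (B * j) ≤ 24 * (Q.b * c0 * C₂) * (B * k) :=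
      mul_le_mul_of_nonneg_left h2 (by linarith)
    have h4 : 56 * (Q.b * c0 * c0) * 1 ≤ 56 * (Q.b * c0 * c0) * B :=
      mul_le_mul_of_nonneg_left hB (by linarith)
    have h5 : C * B * (k + 1) = C * (B * k) + C * B := by ring
    have h6 : 24 * (Q.b * c0 * C₂) * (B * k) ≤ C * (B * k) :=
      mul_le_mul_of_nonneg_right (by linarith) (mul_nonneg hB0.le hk0)
    have h7 : (9 + 56 * (Q.b * c0 * c0)) * B ≤ C * B :=
      mul_le_mul_of_nonneg_right (by linarith) hB0.le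
    linarith
  by_cases hfit : 18 * H * k + 48 * c0 ≤ c.p y
  swap
  · push Not at hfit
    have hzero : M.P (fun τ => C * B * (k + 1) ≤ Ts Q.b c τ 0 y - c.p y) ≤ M.P (fun _ => False) := by
      refine M.P_mono fun τ hτ h1 => ?_
      have h2 := Ts_upper (b := Q.b) ha.le hab.le hτ c 0 y
      rw [sub_zero] at h2
      have h3 := c.nm_le y
      rw [abs_of_nonneg hy0] at h3
      have h4 : nm y ≤ c0 * (18 * H * k + 57 * c0) :=
        h3.trans (mul_le_mul_of_nonneg_left (by linarith) hc00.le)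
      have h5 : Q.b * nm y ≤ Q.b * (c0 * (18 * H * k + 57 * c0)) := mul_le_mul_of_nonneg_left h4 hb0.le
      have h6 : Q.b * (c0 * (18 * H * k + 57 * c0)) =
          18 * (Q.b * c0 * C₂) * (B * k) + 57 * (Q.b * c0 * c0) := by
        rw [hH]; ring
      have h7 : C * B * (k + 1) = C * (B * k) + C * B := by ring
      have h8 : 18 * (Q.b * c0 * C₂) * (B * k) ≤ C * (B * k) :=
        mul_le_mul_of_nonneg_right (by linarith) (mul_nonneg hB0.le hk0)
      have h9 : 57 * (Q.b * c0 * c0) * 1 ≤ 57 * (Q.b * c0 * c0) * B :=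
        mul_le_mul_of_nonneg_left hB (by linarith)
      have h10 : (9 + 57 * (Q.b * c0 * c0)) * B ≤ C * B :=
        mul_le_mul_of_nonneg_right (by linarith) hB0.le
      linarith
    refine hzero.trans ?_
    have h1 : M.P (fun _ => False) = 0 := by
      rw [M.P_def]
      simp only [if_false]
      exact M.E_const 0
    rw [h1]
    positivity
  -- the lanes
  set xs : ℕ → V := fun i => c.rd (9 * H * (i + 1) + 20 * c0) (3 * H * (i + 1) + c.q y / 2) with hxs
  set zs : ℕ → V := fun i => c.rd (9 * H * (i + 1) + 20 * c0) (c.q y / 2 - 3 * H * (i + 1)) with hzs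
  have hxp : ∀ i, |c.p (xs i) - (9 * H * (i + 1) + 20 * c0)| ≤ c0 := fun i => c.rd_p _ _
  have hxq : ∀ i, |c.q (xs i) - (3 * H * (i + 1) + c.q y / 2)| ≤ c0 := fun i => c.rd_q _ _
  have hzp : ∀ i, |c.p (zs i) - (9 * H * (i + 1) + 20 * c0)| ≤ c0 := fun i => c.rd_p _ _
  have hzq : ∀ i, |c.q (zs i) - (c.q y / 2 - 3 * H * (i + 1))| ≤ c0 := fun i => c.rd_q _ _
  have hi0 : ∀ i : ℕ, 0 ≤ H * ((i : ℝ) + 1) := fun i => mul_nonneg hH0.le (by positivity)
  have hxK : ∀ i, xs i ∈ Kn c := by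
    intro i
    rw [mem_Kn]
    have h1 := abs_le.1 (hxp i)
    have h2 := abs_le.1 (hxq i)
    have h3 := hi0 i
    have h4 : |c.q (xs i)| ≤ 3 * (H * (i + 1)) + 11 / 2 * c0 := by
      rw [abs_le]; constructor <;> linarith
    linarith
  have hzK : ∀ i, zs i ∈ Kn c := by
    intro i
    rw [mem_Kn]
    have h1 := abs_le.1 (hzp i)
    have h2 := abs_le.1 (hzq i)
    have h3 := hi0 i
    have h4 : |c.q (zs i)| ≤ 3 * (H * (i + 1)) + 11 / 2 * c0 := by
      rw [abs_le]; constructor <;> linarith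
    linarith
  set ys : ℕ → V := fun i => y - zs i with hys
  have hyx : ∀ i, ys i - xs i = y - zs i - xs i := fun i => rfl
  have hdp : ∀ i, c.p (ys i - xs i) = c.p y - c.p (zs i) - c.p (xs i) := by
    intro i
    rw [hyx, map_sub, map_sub]
  have hdq : ∀ i, c.q (ys i - xs i) = c.q y - c.q (zs i) - c.q (xs i) := by
    intro i
    rw [hyx, map_sub, map_sub]
  have hdq' : ∀ i, |c.q (ys i - xs i)| ≤ 2 * c0 := by
    intro i
    have h2 := abs_le.1 (hxq i)
    have h3 := abs_le.1 (hzq i)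
    rw [hdq, abs_le]
    constructor <;> linarith
  have hik : ∀ i < k, (i : ℝ) + 1 ≤ k := fun i hi => by exact_mod_cast hi
  have hdlow : ∀ i < k, 6 * c0 ≤ c.p (ys i - xs i) := by
    intro i hi
    have h1 := abs_le.1 (hxp i)
    have h2 := abs_le.1 (hzp i)
    have h3 : H * (i + 1) ≤ H * k := mul_le_mul_of_nonneg_left (hik i hi) hH0.le
    rw [hdp]
    linarith
  have hdK : ∀ i < k, ys i - xs i ∈ Kn c := by
    intro i hi
    rw [mem_Kn]
    linarith [hdq' i, hdlow i hi]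
  have hxp0 : ∀ i, 0 ≤ c.p (xs i) := fun i => Kn_p_nonneg (hxK i)
  have hzp0 : ∀ i, 0 ≤ c.p (zs i) := fun i => Kn_p_nonneg (hzK i)
  have hdupp : ∀ i, c.p (ys i - xs i) ≤ n := by
    intro i
    rw [hdp]
    linarith [hxp0 i, hzp0 i]
  -- nonexistence of a fast path means that all lanes fail
  have hsub : M.P (fun τ => C * B * (k + 1) ≤ Ts Q.b c τ 0 y - c.p y) ≤
      M.P (fun τ => ∀ i < k, ¬ (Tt Q.b c τ (xs i) (ys i) H ≤ c.p (ys i - xs i) + 8 * B)) := by
    refine M.P_mono fun τ hτ h1 i hi h2 => ?_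
    have hab' := hab.le
    have h3 : y - xs i ∈ Kn c := by
      have e : y - xs i = (ys i - xs i) + zs i := by rw [hyx]; abel
      rw [e]
      exact Kn_add (hdK i hi) (hzK i)
    have h4 := Ts_triangle (b := Q.b) (c := c) ha.le hab' hτ (x := 0) (y := y) (z := xs i)
      (by rw [sub_zero]; exact hxK i) h3
    have h5 := Ts_triangle (b := Q.b) (c := c) ha.le hab' hτ (x := xs i) (y := y) (z := ys i)
      (hdK i hi) (by
        have e : y - ys i = zs i := by rw [hys]; simp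
        rw [e]; exact hzK i)
    have h6 := Ts_le_Tt (b := Q.b) ha.le hab' hτ c (xs i) (ys i) H
    have h7 := Ts_upper (b := Q.b) ha.le hab' hτ c 0 (xs i)
    have h8 := Ts_upper (b := Q.b) ha.le hab' hτ c (ys i) y
    have e8 : y - ys i = zs i := by rw [hys]; simp
    rw [e8] at h8
    rw [sub_zero] at h7
    have hnmK : ∀ z ∈ Kn c, nm z ≤ 4 / 3 * c0 * c.p z := by
      intro z hz
      rw [mem_Kn] at hz
      have h9 := c.nm_le z
      have h10 : 0 ≤ c.p z := by linarith [abs_nonneg (c.q z)]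
      rw [abs_of_nonneg h10] at h9
      have h11 : c.C * (c.p z + |c.q z|) ≤ c0 * (4 / 3 * c.p z) :=
        mul_le_mul_of_nonneg_left (by linarith) hc00.le
      linarith
    have h9 : nm (xs i) ≤ 4 / 3 * c0 * (9 * H * (i + 1) + 21 * c0) := by
      refine (hnmK _ (hxK i)).trans (mul_le_mul_of_nonneg_left ?_ (by linarith))
      linarith [(abs_le.1 (hxp i)).2]
    have h10 : nm (zs i) ≤ 4 / 3 * c0 * (9 * H * (i + 1) + 21 * c0) := by
      refine (hnmK _ (hzK i)).trans (mul_le_mul_of_nonneg_left ?_ (by linarith))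
      linarith [(abs_le.1 (hzp i)).2]
    have h11 : Q.b * nm (xs i) ≤ Q.b * (4 / 3 * c0 * (9 * H * (i + 1) + 21 * c0)) :=
      mul_le_mul_of_nonneg_left h9 hb0.le
    have h12 : Q.b * nm (zs i) ≤ Q.b * (4 / 3 * c0 * (9 * H * (i + 1) + 21 * c0)) :=
      mul_le_mul_of_nonneg_left h10 hb0.le
    have h13 := hbig (i + 1) (by positivity) (hik i hi)
    have h14 : c.p (ys i - xs i) ≤ c.p y := by
      rw [hdp]
      linarith [hxp0 i, hzp0 i]
    have e9 : 8 / 3 * Q.b * c0 * (9 * H * (i + 1) + 21 * c0) =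
        2 * (Q.b * (4 / 3 * c0 * (9 * H * (i + 1) + 21 * c0))) := by ring
    linarith
  refine hsub.trans ?_
  have h12 : (1 / 2 : ℝ) ^ k = (1 - 1 / 2) ^ k := by norm_num
  rw [h12]
  refine hgood.none_le k (fun i => edg (Tb c (xs i) (ys i) H)) ?_ ?_
    (fun i τ => Tt Q.b c τ (xs i) (ys i) H ≤ c.p (ys i - xs i) + 8 * B) ?_ ?_ (by norm_num)
  · intro i j hij hj
    rw [Set.disjoint_left]
    rintro e ⟨he1, _⟩ ⟨he2, _⟩
    have h1 := abs_le.1 he1.2
    have h2 := abs_le.1 he2.2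
    rw [map_sub] at h1 h2
    have h3 := abs_le.1 (hxq i)
    have h4 := abs_le.1 (hxq j)
    have h5 : (i : ℝ) + 1 ≤ j := by exact_mod_cast hij
    have h6 : H * (i + 1) + H ≤ H * (j + 1) := by
      have := mul_le_mul_of_nonneg_left h5 hH0.le
      linarith
    linarith
  · intro i hi e he
    have h1 := Db_nm he.1.1
    have h2 := hdupp i
    have h3 : nm (e.1 - xs i) ≤ 2 * c0 * n :=
      h1.trans (mul_le_mul_of_nonneg_left h2 (by linarith))
    have h4 : nm (xs i) ≤ 4 / 3 * c0 * n := by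
      have h5 := c.nm_le (xs i)
      have h6 := hxK i
      rw [mem_Kn] at h6
      rw [abs_of_nonneg (hxp0 i)] at h5
      have h7 : c.p (xs i) ≤ n := by
        have h8 := hdlow i hi
        rw [hdp] at h8
        linarith [hzp0 i]
      have h8 : c.C * (c.p (xs i) + |c.q (xs i)|) ≤ c0 * (4 / 3 * n) :=
        mul_le_mul_of_nonneg_left (by linarith) hc00.le
      linarith
    have h5 : nm e.1 ≤ nm (e.1 - xs i) + nm (xs i) := by
      have := nm_add_le (e.1 - xs i) (xs i)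
      rwa [sub_add_cancel] at this
    have h6 : 0 ≤ c0 * n := mul_nonneg hc00.le hn0.le
    linarith
  · intro i _ τ τ' hττ
    have h1 := Tt_dep Q.b c (xs i) (ys i) H hττ
    simp only at h1
    show (Tt Q.b c τ (xs i) (ys i) H ≤ _) = (Tt Q.b c τ' (xs i) (ys i) H ≤ _)
    rw [h1]
  · intro i hi
    have h1 := hL n R M hn hR₁ hgood B hB hUb' (ys i - xs i) (by linarith [hdlow i hi]) (hdupp i)
      ((hdq' i).trans (by linarith)) H hH1
    refine h1.trans (le_of_eq ?_)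
    rw [M.P_def, M.P_def]
    have h2 := hgood.E_Tt c (fun t => @ite ℝ (t ≤ c.p (ys i - xs i) + 8 * B)
      (Classical.propDecidable _) 1 0) (xs i) (ys i) H
    exact h2.symm

/-- Second moment.  PROOF. `max (X, 0)² ≤ (C B)² + ∑_{k < N} (C B)² (k + 2)² 1_{C B (k + 1) ≤ X}` for `N` large (`X ≤ b nm y` is bounded),
`∑ (k + 2)² 2^{-k} ≤ 20`. -/
theorem second (Q : Par) (g : V → ℝ) (c : Crd) (hg : IsMean Q g) (hl : ∀ z, c.p z + |c.q z| ≤ g z) :
    ∃ C : ℝ, 1 ≤ C ∧ ∀ (n R : ℝ) (M : Mdl Q.a Q.b), 1 ≤ n → C * n ^ 12 ≤ R → Good Q g R M →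
    ∀ B : ℝ, 1 ≤ B → Ub M c (C * n) B → ∀ y, 0 ≤ c.p y → c.p y ≤ n → |c.q y| ≤ 9 * c.C →
      M.E (fun τ => max (Ts Q.b c τ 0 y - c.p y) 0 ^ 2) ≤ C * B ^ 2 := by
  classical
  obtain ⟨C₁, hC₁, hT⟩ := tail Q g c hg hl
  refine ⟨23 * C₁ ^ 2, by nlinarith, ?_⟩
  intro n R M hn hR hgood B hB hUb y hy0 hyn hyq
  have ha := Q.ha
  have hab := Q.hab
  have hn0 : 0 < n := by linarith
  have hB0 : 0 < B := by linarith
  have hC₁0 : 0 < C₁ := by linarith
  have hCle : C₁ ≤ 23 * C₁ ^ 2 := by nlinarith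
  have hR' : C₁ * n ^ 12 ≤ R := (mul_le_mul_of_nonneg_right hCle (by positivity)).trans hR
  have hUb' : Ub M c (C₁ * n) B := by
    intro z h0 h1 h2
    exact hUb z h0 (h1.trans (mul_le_mul_of_nonneg_right hCle hn0.le)) h2
  have hT' := hT n R M hn hR' hgood B hB hUb' y hy0 hyn hyq
  set D : ℝ := C₁ * B with hD
  have hD0 : 0 < D := mul_pos hC₁0 hB0
  obtain ⟨N, hN⟩ := exists_nat_gt (Q.b * nm y / D)
  have hN' : Q.b * nm y < D * N := by
    rw [div_lt_iff₀ hD0] at hN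
    linarith
  have hpt : ∀ τ, Bd Q.a Q.b τ → max (Ts Q.b c τ 0 y - c.p y) 0 ^ 2 ≤
      D ^ 2 + ∑ k ∈ range N, D ^ 2 * ((k : ℝ) + 2) ^ 2 *
        (if D * (k + 1) ≤ Ts Q.b c τ 0 y - c.p y then (1 : ℝ) else 0) := by
    intro τ hτ
    set X : ℝ := Ts Q.b c τ 0 y - c.p y with hX
    have hnn : ∀ k ∈ range N, 0 ≤ D ^ 2 * ((k : ℝ) + 2) ^ 2 *
        (if D * (k + 1) ≤ X then (1 : ℝ) else 0) := by
      intro k _
      have : (0 : ℝ) ≤ (if D * (k + 1) ≤ X then (1 : ℝ) else 0) := by split_ifs <;> norm_num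
      positivity
    rcases lt_or_ge X D with h1 | h1
    · have h2 : max X 0 ^ 2 ≤ D ^ 2 :=
        pow_le_pow_left₀ (le_max_right _ _) (max_le h1.le hD0.le) 2
      linarith [sum_nonneg hnn]
    · have hX0 : 0 ≤ X := by linarith
      rw [max_eq_left hX0]
      have hXN : X < D * N := by
        have h2 := Ts_upper (b := Q.b) ha.le hab.le hτ c 0 y
        rw [sub_zero] at h2
        linarith
      have hdiv1 : 1 ≤ X / D := by rwa [le_div_iff₀ hD0, one_mul]
      set K : ℕ := ⌊X / D⌋₊ with hK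
      have hK1 : 1 ≤ K := Nat.le_floor (by exact_mod_cast hdiv1)
      have hKle : (K : ℝ) ≤ X / D := Nat.floor_le (by positivity)
      have hKlt : X / D < K + 1 := Nat.lt_floor_add_one _
      rw [le_div_iff₀ hD0] at hKle
      rw [div_lt_iff₀ hD0] at hKlt
      have hKN : K < N := by
        have h3 : (K : ℝ) * D < N * D := by linarith
        have h4 : (K : ℝ) < N := lt_of_mul_lt_mul_right h3 hD0.le
        exact_mod_cast h4
      obtain ⟨k, hk⟩ : ∃ k, K = k + 1 := ⟨K - 1, by omega⟩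
      rw [hk] at hKle hKlt hKN
      push_cast at hKle hKlt
      have h5 := single_le_sum hnn (mem_range.2 (show k < N by omega))
      rw [if_pos (show D * (k + 1) ≤ X by linarith), mul_one] at h5
      have h6 : X ^ 2 ≤ (D * (k + 2)) ^ 2 := pow_le_pow_left₀ hX0 (by linarith) 2
      have h7 : (D * ((k : ℝ) + 2)) ^ 2 = D ^ 2 * ((k : ℝ) + 2) ^ 2 := by ring
      have h8 : 0 ≤ D ^ 2 := sq_nonneg D
      linarith
  refine (M.E_mono hpt).trans ?_
  have e1 : M.E (fun τ => D ^ 2 + ∑ k ∈ range N, D ^ 2 * ((k : ℝ) + 2) ^ 2 *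
      (if D * (k + 1) ≤ Ts Q.b c τ 0 y - c.p y then (1 : ℝ) else 0)) =
      D ^ 2 + ∑ k ∈ range N, D ^ 2 * ((k : ℝ) + 2) ^ 2 *
        M.P (fun τ => D * (k + 1) ≤ Ts Q.b c τ 0 y - c.p y) := by
    rw [M.E_add (fun _ => D ^ 2), M.E_const, M.E_sum]
    congr 1
    refine sum_congr rfl fun k _ => ?_
    rw [M.E_mul_left, M.P_def]
  rw [e1]
  have h1 : ∀ k ∈ range N, D ^ 2 * ((k : ℝ) + 2) ^ 2 *
      M.P (fun τ => D * (k + 1) ≤ Ts Q.b c τ 0 y - c.p y) ≤ D ^ 2 * (((k : ℝ) + 2) ^ 2 * (1 / 2) ^ k) := by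
    intro k _
    rw [mul_assoc]
    refine mul_le_mul_of_nonneg_left ?_ (sq_nonneg D)
    exact mul_le_mul_of_nonneg_left (hT' k) (sq_nonneg _)
  have h2 : ∀ m : ℕ, ∑ k ∈ range m, (((k : ℝ) + 2) ^ 2 * (1 / 2) ^ k) +
      (2 * (m : ℝ) ^ 2 + 12 * m + 22) * (1 / 2) ^ m = 22 := by
    intro m
    induction m with
    | zero => simp
    | succ m ih =>
      rw [sum_range_succ, pow_succ]
      push_cast
      linear_combination ih
  have h3 : ∑ k ∈ range N, (((k : ℝ) + 2) ^ 2 * (1 / 2) ^ k) ≤ 22 := by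
    have h4 := h2 N
    have h5 : (0 : ℝ) ≤ (2 * (N : ℝ) ^ 2 + 12 * N + 22) * (1 / 2) ^ N := by positivity
    linarith
  have h4 := sum_le_sum h1
  rw [← mul_sum] at h4
  have h5 : D ^ 2 * ∑ k ∈ range N, (((k : ℝ) + 2) ^ 2 * (1 / 2) ^ k) ≤ D ^ 2 * 22 :=
    mul_le_mul_of_nonneg_left h3 (sq_nonneg D)
  have h6 : D ^ 2 = C₁ ^ 2 * B ^ 2 := by rw [hD]; ring
  rw [h6] at h4 h5 ⊢
  linarith

/-- Paley-Zygmund on a finite probability space. -/
theorem paley_zygmund {Ω : Type*} [Fintype Ω] [Nonempty Ω] {f : Ω → ℝ} (hf : ∀ ω, 0 ≤ f ω) {s D : ℝ} (hs : 0 < s)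
    (h1 : s ≤ Ex f) (h2 : Ex (fun ω => f ω ^ 2) ≤ D) : s ^ 2 / (4 * D) ≤ Pr (fun ω => s / 2 ≤ f ω) := by
  classical
  have hD : 0 < D := by
    have h3 := sq_Ex_le f
    have h4 : 0 < Ex f ^ 2 := by
      have : 0 < Ex f := by linarith
      positivity
    linarith
  have hP : Pr (fun ω => s / 2 ≤ f ω) = Ex (fun ω => if s / 2 ≤ f ω then (1 : ℝ) else 0) := by
    rw [Pr_def]
  have h3 : Ex f ≤ Ex (fun ω => s / 2 + (s / (4 * D)) * f ω ^ 2 +
      (D / s) * (if s / 2 ≤ f ω then (1 : ℝ) else 0)) := by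
    refine Ex_mono fun ω => ?_
    split_ifs with h4
    · have h5 : 0 ≤ (s / (4 * D)) * (f ω - 2 * D / s) ^ 2 := by positivity
      have h6 : (s / (4 * D)) * (f ω - 2 * D / s) ^ 2 =
          (s / (4 * D)) * f ω ^ 2 - f ω + D / s := by
        field_simp
        ring
      linarith
    · push Not at h4
      have h5 : 0 ≤ (s / (4 * D)) * f ω ^ 2 := by positivity
      linarith
  rw [Ex_add (fun ω => s / 2 + (s / (4 * D)) * f ω ^ 2), Ex_add (fun _ => s / 2), Ex_const,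
    Ex_mul_left, Ex_mul_left, ← hP] at h3
  have h4 : (s / (4 * D)) * Ex (fun ω => f ω ^ 2) ≤ (s / (4 * D)) * D :=
    mul_le_mul_of_nonneg_left h2 (by positivity)
  have h5 : (s / (4 * D)) * D = s / 4 := by
    field_simp
  have h6 : s / 4 ≤ (D / s) * Pr (fun ω => s / 2 ≤ f ω) := by linarith
  have h7 : (s / D) * (s / 4) ≤ (s / D) * ((D / s) * Pr (fun ω => s / 2 ≤ f ω)) :=
    mul_le_mul_of_nonneg_left h6 (by positivity)
  have h8 : (s / D) * ((D / s) * Pr (fun ω => s / 2 ≤ f ω)) = Pr (fun ω => s / 2 ≤ f ω) := by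
    field_simp
  have h9 : (s / D) * (s / 4) = s ^ 2 / (4 * D) := by
    field_simp
  rw [h8, h9] at h7
  exact h7

/-- At a record the excess is at least `B / 4` with a fixed probability. -/
theorem record_prob (Q : Par) (g : V → ℝ) (c : Crd) (hg : IsMean Q g) (hl : ∀ z, c.p z + |c.q z| ≤ g z) :
    ∃ C : ℝ, 1 ≤ C ∧ ∀ (n R : ℝ) (M : Mdl Q.a Q.b), 1 ≤ n → C * n ^ 12 ≤ R → Good Q g R M →
    ∀ B B' : ℝ, 1 ≤ B → Ub M c (C * n) B → ∀ y, 0 ≤ c.p y → c.p y ≤ n → |c.q y| ≤ 9 * c.C → 0 < B' → B' ≤ Sx M c y →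
      B' ^ 2 / (C * B ^ 2) ≤ M.P (fun τ => B' / 2 ≤ Ts Q.b c τ 0 y - c.p y) := by
  obtain ⟨C₁, hC₁, hS⟩ := second Q g c hg hl
  refine ⟨4 * C₁, by linarith, ?_⟩
  intro n R M hn hR hgood B B' hB hUb y hy0 hyn hyq hB'0 hB'
  have hn0 : 0 < n := by linarith
  have hR' : C₁ * n ^ 12 ≤ R :=
    (mul_le_mul_of_nonneg_right (by linarith) (by positivity)).trans hR
  have hUb' : Ub M c (C₁ * n) B := by
    intro z h0 h1 h2
    exact hUb z h0 (h1.trans (mul_le_mul_of_nonneg_right (by linarith) hn0.le)) h2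
  have h1 := hS n R M hn hR' hgood B hB hUb' y hy0 hyn hyq
  have h2 := paley_zygmund (Ω := M.Ω) (f := fun ω => max (Ts Q.b c (M.env ω) 0 y - c.p y) 0)
    (fun ω => le_max_right _ _) hB'0 hB' h1
  have h3 : B' ^ 2 / (4 * (C₁ * B ^ 2)) = B' ^ 2 / (4 * C₁ * B ^ 2) := by ring_nf
  rw [← h3]
  refine h2.trans ?_
  refine Pr_mono fun ω hω => ?_
  rcases le_max_iff.1 hω with h4 | h4
  · exact h4
  · exfalso
    linarith

end Pool.Agent.W_1b8d5d_c1
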