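import Pool.Agent.W_1b8d5d_c1.Mean2
import Pool.Agent.W_1b8d5d_c1.Tail
import Pool.Agent.W_1b8d5d_c1.Luck1

/-!
MP_1b8d5d_pr (N2): at a record the restricted blocks are slow with a fixed probability.
-/

set_option autoImplicit false

namespace Pool.Agent.W_1b8d5d_c1

open Finset Pool.Agent.W_1b8d5d_h85

/-- The vector of a block: `y₀` shortened by `10 C` and by the buffers `D` at both ends. -/
noncomputable def bv (c : Crd) (y₀ : V) (D : ℝ) : V := y₀ - c.rd (10 * c.C) 0 - c.rd D 0 - c.rd D 0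

private theorem Fin2_Bd_res {a b : ℝ} (hab : a ≤ b) {τ : Env} (hτ : Bd a b τ) (S : Set Edge) : Bd a b (res b S τ) := by
  intro e
  unfold res
  split_ifs
  · exact hτ e
  · exact ⟨hab, le_refl b⟩

private theorem Fin2_res_mono {a b : ℝ} {τ : Env} (hτ : Bd a b τ) {S S' : Set Edge} (h : S ⊆ S') (e : Edge) :
    res b S' τ e ≤ res b S τ e := by
  unfold res
  by_cases h1 : e ∈ S
  · rw [if_pos h1, if_pos (h h1)]
  · rw [if_neg h1]
    split_ifs
    · exact (hτ e).2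
    · exact le_refl b

/-- Comparison of the restricted block with `Ts` of the full vector.  PROOF. `x⁻ = e - c.rd D 0`, `y⁺ = e + bv c y₀ D + c.rd D 0`, so
`y⁺ - x⁻ = y₁ = y₀ - c.rd (10 C) 0`.  `Rg c x l W ⊆ Db c x⁻ y⁺` since `D ≥ 10 (W + C)`, hence
`Ts x⁻ y⁺ ≤ Ts x⁻ e + T (region) e (e + bv) + Ts (e + bv) y⁺`. -/
theorem block_cmp {a b : ℝ} (ha : 0 ≤ a) (hab : a ≤ b) {τ : Env} (hτ : Bd a b τ) (c : Crd) (y₀ x e : V) {W D : ℝ}
    (hW : 30 * c.C ≤ W) (hD : 20 * W ≤ D) (hq : |c.q y₀| ≤ 9 * c.C) (hp : 4 * D ≤ c.p y₀)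
    (he : |c.p (e - x)| ≤ 4 * c.C) (he' : |c.q (e - x)| ≤ W / 2) :
    Ts b c τ (e - c.rd D 0) (e + bv c y₀ D + c.rd D 0) ≤ Ts b c τ (e - c.rd D 0) e +
      T (res b (edg (Rg c x (c.p (bv c y₀ D)) W)) τ) e (e + bv c y₀ D) +
      Ts b c τ (e + bv c y₀ D) (e + bv c y₀ D + c.rd D 0) := by
  have hC := c.one_le
  set X : V := e - c.rd D 0 with hX
  set Y : V := e + bv c y₀ D + c.rd D 0 with hY
  have d1 := abs_le.1 (c.rd_p D 0)
  have d2 := abs_le.1 (c.rd_q D 0)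
  have t1 := abs_le.1 (c.rd_p (10 * c.C) 0)
  have t2 := abs_le.1 (c.rd_q (10 * c.C) 0)
  have hq' := abs_le.1 hq
  have he1 := abs_le.1 he
  have he2 := abs_le.1 he'
  have bp : c.p (bv c y₀ D) = c.p y₀ - c.p (c.rd (10 * c.C) 0) - c.p (c.rd D 0) - c.p (c.rd D 0) := by
    unfold bv
    rw [map_sub, map_sub, map_sub]
  have bq : c.q (bv c y₀ D) = c.q y₀ - c.q (c.rd (10 * c.C) 0) - c.q (c.rd D 0) - c.q (c.rd D 0) := by
    unfold bv
    rw [map_sub, map_sub, map_sub]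
  -- the long vector
  have hlong : bv c y₀ D + c.rd D 0 ∈ Kn c := by
    rw [mem_Kn, map_add, map_add, bp, bq]
    have : |c.q y₀ - c.q (c.rd (10 * c.C) 0) - c.q (c.rd D 0) - c.q (c.rd D 0) + c.q (c.rd D 0)| ≤ 11 * c.C := by
      rw [abs_le]
      constructor <;> linarith [d2.1, d2.2, t2.1, t2.2, hq'.1, hq'.2]
    linarith [d1.1, d1.2, t1.1, t1.2]
  have hYe : Y - e ∈ Kn c := by
    have e1 : Y - e = bv c y₀ D + c.rd D 0 := by
      rw [hY]
      abel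
    rw [e1]
    exact hlong
  have hXe : e + bv c y₀ D - X ∈ Kn c := by
    have e1 : e + bv c y₀ D - X = bv c y₀ D + c.rd D 0 := by
      rw [hX]
      abel
    rw [e1]
    exact hlong
  have hsub : Rg c x (c.p (bv c y₀ D)) W ⊆ Db c X Y := by
    rintro z ⟨h1, h2, h3⟩
    have h1' := abs_le.1 h1
    constructor
    · rw [mem_Kn]
      have e1 : z - X = (z - x) - (e - x) + c.rd D 0 := by
        rw [hX]
        abel
      have ep : c.p (z - X) = c.p (z - x) - c.p (e - x) + c.p (c.rd D 0) := by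
        rw [e1, map_add, map_sub c.p (z - x)]
      have eq : c.q (z - X) = c.q (z - x) - c.q (e - x) + c.q (c.rd D 0) := by
        rw [e1, map_add, map_sub c.q (z - x)]
      have : |c.q (z - X)| ≤ 2 * W := by
        rw [eq, abs_le]
        constructor <;> linarith [d2.1, d2.2, h1'.1, h1'.2, he2.1, he2.2]
      linarith [d1.1, d1.2, he1.1, he1.2]
    · rw [mem_Kn]
      have e1 : Y - z = (e - x) - (z - x) + (bv c y₀ D + c.rd D 0) := by
        rw [hY]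
        abel
      have ep : c.p (Y - z) = c.p (e - x) - c.p (z - x) + (c.p (bv c y₀ D) + c.p (c.rd D 0)) := by
        rw [e1, map_add, map_sub c.p (e - x), map_add]
      have eq : c.q (Y - z) = c.q (e - x) - c.q (z - x) + (c.q (bv c y₀ D) + c.q (c.rd D 0)) := by
        rw [e1, map_add, map_sub c.q (e - x), map_add]
      have : |c.q (Y - z)| ≤ 3 * W := by
        rw [eq, bq, abs_le]
        constructor <;> linarith [d2.1, d2.2, t2.1, t2.2, hq'.1, hq'.2, h1'.1, h1'.2, he2.1, he2.2]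
      linarith [d1.1, d1.2, he1.1, he1.2]
  have hBd := Fin2_Bd_res hab hτ (edg (Db c X Y))
  have h1 : T (res b (edg (Db c X Y)) τ) X e ≤ Ts b c τ X e := T_res_le_Ts ha hab hτ (Db_left hYe)
  have h2 : T (res b (edg (Db c X Y)) τ) (e + bv c y₀ D) Y ≤ Ts b c τ (e + bv c y₀ D) Y :=
    T_res_le_Ts ha hab hτ (Db_right hXe)
  have h3 : T (res b (edg (Db c X Y)) τ) e (e + bv c y₀ D) ≤
      T (res b (edg (Rg c x (c.p (bv c y₀ D)) W)) τ) e (e + bv c y₀ D) :=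
    T_mono ha hBd (Fin2_res_mono hτ (edg_mono hsub)) _ _
  have h4 := T_triangle hBd ha X e Y
  have h5 := T_triangle hBd ha e (e + bv c y₀ D) Y
  have h6 : Ts b c τ X Y = T (res b (edg (Db c X Y)) τ) X Y := rfl
  linarith

private theorem Fin2_P_Ts {Q : Par} {g : V → ℝ} {R : ℝ} {M : Mdl Q.a Q.b} (h : Good Q g R M) (c : Crd) (s : ℝ) (x y : V) :
    M.P (fun τ => s ≤ Ts Q.b c τ x y) = M.P (fun τ => s ≤ Ts Q.b c τ 0 (y - x)) := by
  classical
  rw [Mdl.P_def, Mdl.P_def]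
  exact h.E_Ts c (fun t => @ite ℝ (s ≤ t) (Classical.propDecidable _) 1 0) x y

/-- Markov's inequality for the positive excess. -/
private theorem Fin2_markov {Q : Par} {g : V → ℝ} {R : ℝ} {M : Mdl Q.a Q.b} (h : Good Q g R M) (c : Crd) {s : ℝ} (hs : 0 < s)
    (x y : V) : M.P (fun τ => c.p (y - x) + s ≤ Ts Q.b c τ x y) ≤ Sx M c (y - x) / s := by
  rw [Fin2_P_Ts h]
  refine le_trans (M.P_mono fun τ _ hτ => ?_)
    (M.markov (F := fun τ => max (Ts Q.b c τ 0 (y - x) - c.p (y - x)) 0) (fun τ _ => le_max_right _ _) hs)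
  exact le_trans (by linarith) (le_max_left _ _)

private theorem Fin2_pow {X Y : ℝ} (hY : 0 < Y) (hX : Y ^ 4 ≤ X) : Y * X ^ (3 / 4 : ℝ) ≤ X := by
  have hX0 : 0 < X := lt_of_lt_of_le (by positivity) hX
  have h1 : Y ≤ X ^ (1 / 4 : ℝ) := by
    have h2 : (Y ^ 4) ^ (1 / 4 : ℝ) = Y := by
      rw [← Real.rpow_natCast, ← Real.rpow_mul hY.le]
      norm_num
    rw [← h2]
    exact Real.rpow_le_rpow (by positivity) hX (by norm_num)
  have h3 : X ^ (1 / 4 : ℝ) * X ^ (3 / 4 : ℝ) = X := by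
    rw [← Real.rpow_add hX0]
    norm_num
  calc Y * X ^ (3 / 4 : ℝ) ≤ X ^ (1 / 4 : ℝ) * X ^ (3 / 4 : ℝ) :=
        mul_le_mul_of_nonneg_right h1 (Real.rpow_nonneg hX0.le _)
    _ = X := h3

/-- PROOF. `n = p y₀`.  By `record_prob` (with the bound `C B` at the scale `C n`, `B' = B`) `P (Ts 0 y₀ - p y₀ ≥ B / 2) ≥ c₁`;
`Ts 0 y₀ ≤ Ts 0 y₁ + b nm (y₀ - y₁)` (`Ts_triangle`, `Ts_upper`; `y₀ - y₁ = c.rd (10 C) 0 ∈ Kn c`), so
`P (Ts x⁻ y⁺ - p y₁ ≥ B / 2 - C) ≥ c₁` (`Good.E_Ts` for an indicator function `F`).  `block_cmp` with `W = Λ B`, `D = 20 Λ B`: the two buffers have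
`P (Ts - p ≥ B / 16) ≤ 16 Sx / B ≤ C (Λ B)^(3/4) / B ≤ c₁ / 8` (`mean34`, Markov) for `B` large. -/
theorem block_slow (Q : Par) (g : V → ℝ) (c : Crd) (hg : IsMean Q g) (hl : ∀ z, c.p z + |c.q z| ≤ g z)
    (hcb : CornerBound g c) :
    ∃ C₁ : ℝ, 1 ≤ C₁ ∧ ∀ C₂ : ℝ, 1 ≤ C₂ → ∃ c₁ : ℝ, 0 < c₁ ∧ c₁ ≤ 1 ∧ ∀ Λ : ℝ, 1 ≤ Λ → ∃ B₀ : ℝ, 1 ≤ B₀ ∧
    ∀ (B R : ℝ) (M : Mdl Q.a Q.b) (y₀ : V), B₀ ≤ B → |c.q y₀| ≤ 9 * c.C → B₀ * B ≤ c.p y₀ → B₀ * c.p y₀ ^ 12 ≤ R →
      Good Q g R M → Ub M c (C₁ * c.p y₀) (C₂ * B) → B ≤ Sx M c y₀ →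
      ∀ x e : V, |c.p (e - x)| ≤ 4 * c.C → |c.q (e - x)| ≤ Λ * B / 2 →
        c₁ ≤ M.P (fun τ => c.p (bv c y₀ (20 * (Λ * B))) + B / 8 ≤
          T (res Q.b (edg (Rg c x (c.p (bv c y₀ (20 * (Λ * B)))) (Λ * B))) τ) e (e + bv c y₀ (20 * (Λ * B)))) := by
  obtain ⟨Cr, hCr, hrec⟩ := record_prob Q g c hg hl
  obtain ⟨Cm, hCm, hmean⟩ := mean34 Q g c hg hl hcb
  have hC := c.one_le
  have hb0 : 0 < Q.b := Q.ha.trans Q.hab
  refine ⟨Cr, hCr, ?_⟩
  intro C₂ hC₂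
  set c₂ : ℝ := 1 / (Cr * C₂ ^ 2) with hc₂
  have hc₂0 : 0 < c₂ := by positivity
  have hc₂1 : c₂ ≤ 1 := by
    rw [hc₂, div_le_one (by positivity)]
    nlinarith [one_le_pow₀ hC₂ (n := 2)]
  refine ⟨c₂ / 2, by positivity, by linarith, ?_⟩
  intro Λ hΛ
  set Y : ℝ := 672 * Λ * Cm / c₂ with hYdef
  have hY0 : 0 < Y := by positivity
  have hY4 : 0 < Y ^ 4 := by positivity
  set B₀ : ℝ := 1 + Cr + 80 * Λ + 100 * c.C + 96 * (Q.b * (12 * c.C ^ 2)) + 21 * Λ * Cm + Y ^ 4 with hB₀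
  have hp1 : 0 < 96 * (Q.b * (12 * c.C ^ 2)) := by positivity
  have hp2 : 0 < 21 * Λ * Cm := by positivity
  have hB₀1 : 1 ≤ B₀ := by linarith
  refine ⟨B₀, hB₀1, ?_⟩
  intro B R M y₀ hB hq hBp hR hG hUb hSx x e he he'
  have hB1 : 1 ≤ B := hB₀1.trans hB
  have hB0 : 0 < B := by linarith
  set n : ℝ := c.p y₀ with hn
  have hB₀B : B₀ ≤ B₀ * B := le_mul_of_one_le_right (by linarith) hB1
  have hn1 : 1 ≤ n := by linarith
  have hn12 : n ≤ n ^ 12 := le_self_pow₀ hn1 (by norm_num)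
  have hn12' : (1 : ℝ) ≤ n ^ 12 := one_le_pow₀ hn1
  have hR1 : Cr * n ^ 12 ≤ R := by
    refine le_trans ?_ hR
    apply mul_le_mul_of_nonneg_right _ (by positivity)
    linarith
  have hrp := hrec n R M hn1 hR1 hG (C₂ * B) B (by nlinarith) hUb y₀ (by linarith) le_rfl hq hB0 hSx
  have hrp' : c₂ ≤ M.P (fun τ => B / 2 ≤ Ts Q.b c τ 0 y₀ - c.p y₀) := by
    refine le_trans (le_of_eq ?_) hrp
    rw [hc₂]
    field_simp
  -- shorten the vector
  set D : ℝ := 20 * (Λ * B) with hD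
  have hΛB : B ≤ Λ * B := le_mul_of_one_le_left hB0.le hΛ
  set y₁ : V := y₀ - c.rd (10 * c.C) 0 with hy₁
  have t1 := abs_le.1 (c.rd_p (10 * c.C) 0)
  have t2 := abs_le.1 (c.rd_q (10 * c.C) 0)
  have t2' := c.rd_q (10 * c.C) 0
  have d1 := abs_le.1 (c.rd_p D 0)
  have d2' := c.rd_q D 0
  have hq' := abs_le.1 hq
  have hy₁K : y₁ - 0 ∈ Kn c := by
    rw [sub_zero, mem_Kn, hy₁, map_sub, map_sub]
    have : |c.q y₀ - c.q (c.rd (10 * c.C) 0)| ≤ 10 * c.C := by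
      rw [abs_le]
      constructor <;> linarith [t2.1, t2.2, hq'.1, hq'.2]
    linarith [t1.1, t1.2]
  have hshort : y₀ - y₁ = c.rd (10 * c.C) 0 := by
    rw [hy₁]
    abel
  have hy₁K' : y₀ - y₁ ∈ Kn c := by
    rw [hshort, mem_Kn]
    rw [sub_zero] at t2'
    linarith [t1.1]
  have hnm : nm (y₀ - y₁) ≤ 12 * c.C ^ 2 := by
    rw [hshort]
    refine (c.nm_le _).trans ?_
    have h1 : |c.p (c.rd (10 * c.C) 0)| ≤ 11 * c.C := by
      rw [abs_le]
      constructor <;> linarith [t1.1, t1.2]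
    have h2 : |c.q (c.rd (10 * c.C) 0)| ≤ c.C := by
      rw [sub_zero] at t2'
      exact t2'
    nlinarith
  have hA : c₂ ≤ M.P (fun τ => c.p y₁ + 3 * B / 8 ≤ Ts Q.b c τ 0 y₁) := by
    refine hrp'.trans (M.P_mono fun τ hτ h => ?_)
    have h1 := Ts_triangle Q.ha.le Q.hab.le hτ hy₁K hy₁K'
    have h2 := Ts_upper Q.ha.le Q.hab.le hτ c y₁ y₀
    have h3 : Q.b * nm (y₀ - y₁) ≤ Q.b * (12 * c.C ^ 2) := mul_le_mul_of_nonneg_left hnm hb0.le
    have h4 : c.p y₁ = c.p y₀ - c.p (c.rd (10 * c.C) 0) := by rw [hy₁, map_sub]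
    have h5 : 96 * (Q.b * (12 * c.C ^ 2)) ≤ B := by linarith
    linarith [t1.1]
  -- the comparison
  have hcmp : ∀ τ, Bd Q.a Q.b τ → _ := fun τ hτ =>
    block_cmp Q.ha.le Q.hab.le hτ c y₀ x e (W := Λ * B) (D := D) (by linarith) (by linarith) hq
      (by
        have : 80 * Λ * B ≤ B₀ * B := mul_le_mul_of_nonneg_right (by linarith) hB0.le
        linarith) he (by linarith)
  set X : V := e - c.rd D 0 with hX
  set Z : V := e + bv c y₀ D with hZ
  have eXZ : Z + c.rd D 0 - X = y₁ := by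
    rw [hZ, hX, hy₁]
    unfold bv
    abel
  have eX : e - X = c.rd D 0 := by
    rw [hX]
    abel
  have eZ : Z + c.rd D 0 - Z = c.rd D 0 := by abel
  have hA' : c₂ ≤ M.P (fun τ => c.p y₁ + 3 * B / 8 ≤ Ts Q.b c τ X (Z + c.rd D 0)) := by
    rw [Fin2_P_Ts hG, eXZ]
    exact hA
  -- the buffers
  have hDC : D + c.C ≤ 21 * Λ * B := by linarith
  have hBuf : Sx M c (c.rd D 0) ≤ Cm * (21 * Λ * B) ^ (3 / 4 : ℝ) := by
    refine hmean (21 * Λ * B) R M (by linarith) ?_ hG (c.rd D 0) (by linarith [d1.1]) (by linarith [d1.2]) ?_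
    · have h1 : B₀ * n ≤ R := le_trans (mul_le_mul_of_nonneg_left hn12 (by linarith)) hR
      have h2 : B₀ * B ≤ B₀ * (B₀ * B) := le_mul_of_one_le_left (by positivity) hB₀1
      have h3 : B₀ * (B₀ * B) ≤ B₀ * n := mul_le_mul_of_nonneg_left hBp (by linarith)
      have h4 : Cm * (21 * Λ * B) ≤ B₀ * B := by
        have : Cm * (21 * Λ * B) = 21 * Λ * Cm * B := by ring
        rw [this]
        apply mul_le_mul_of_nonneg_right _ hB0.le
        linarith
      linarith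
    · rw [sub_zero] at d2'
      linarith
  have hX1 : Y ^ 4 ≤ 21 * Λ * B := by
    have : Y ^ 4 ≤ B := by linarith
    linarith
  have hpow := Fin2_pow hY0 hX1
  have hBufP : Sx M c (c.rd D 0) / (B / 8) ≤ c₂ / 4 := by
    have h0 : 0 ≤ (21 * Λ * B) ^ (3 / 4 : ℝ) := Real.rpow_nonneg (by positivity) _
    rw [div_le_iff₀ (by positivity)]
    refine hBuf.trans ?_
    have h1 : Cm * (21 * Λ * B) ^ (3 / 4 : ℝ) * Y ≤ c₂ / 4 * (B / 8) * Y := by
      have e1 : c₂ / 4 * (B / 8) * Y = Cm * (21 * Λ * B) := by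
        rw [hYdef]
        field_simp
        ring
      rw [e1]
      calc Cm * (21 * Λ * B) ^ (3 / 4 : ℝ) * Y = Cm * (Y * (21 * Λ * B) ^ (3 / 4 : ℝ)) := by ring
        _ ≤ Cm * (21 * Λ * B) := mul_le_mul_of_nonneg_left hpow (by linarith)
    exact le_of_mul_le_mul_right h1 hY0
  have hB1' := Fin2_markov hG c (s := B / 8) (by positivity) X e
  rw [eX] at hB1'
  have hB2' := Fin2_markov hG c (s := B / 8) (by positivity) Z (Z + c.rd D 0)
  rw [eZ] at hB2'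
  have hsum : M.P (fun τ => c.p y₁ + 3 * B / 8 ≤ Ts Q.b c τ X (Z + c.rd D 0)) ≤
      M.P (fun τ => c.p (bv c y₀ D) + B / 8 ≤
          T (res Q.b (edg (Rg c x (c.p (bv c y₀ D)) (Λ * B))) τ) e (e + bv c y₀ D)) +
      (M.P (fun τ => c.p (c.rd D 0) + B / 8 ≤ Ts Q.b c τ X e) +
        M.P (fun τ => c.p (c.rd D 0) + B / 8 ≤ Ts Q.b c τ Z (Z + c.rd D 0))) := by
    refine le_trans (M.P_mono fun τ hτ h => ?_) (le_trans (M.P_or _ _) (add_le_add_right (M.P_or _ _) _))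
    have h1 := hcmp τ hτ
    by_contra hcon
    push Not at hcon
    obtain ⟨h2, h3, h4⟩ := hcon
    have h5 : c.p y₁ = c.p (bv c y₀ D) + c.p (c.rd D 0) + c.p (c.rd D 0) := by
      have e1 : y₁ = bv c y₀ D + c.rd D 0 + c.rd D 0 := by
        rw [hy₁]
        unfold bv
        abel
      rw [e1, map_add, map_add]
    linarith
  linarith

/-- The bound `Ub` at a multiple of the scale.  PROOF. Cut `y` with `n < p y ≤ k n` into `2 k` pieces `x_(i+1) - x_i`, `x_i = c.rd (i p y / (2 k)) (i q y / (2 k))`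
(for `i = 0` and `i = 2 k` the exact points `0`, `y`): `|q (x_(i+1) - x_i)| ≤ 9 C / 2 + 2 C`, `0 ≤ p (x_(i+1) - x_i) ≤ n`, in `Kn c` if `n` is large;
`Ts_triangle`, `Good.E_Ts`; `Ub` for every piece. (The number of pieces is `⌈2 p y / n⌉`.) -/
theorem Ub_mul (Q : Par) (g : V → ℝ) (c : Crd) : ∃ C : ℝ, 1 ≤ C ∧ ∀ (n R : ℝ) (M : Mdl Q.a Q.b), C ≤ n → Good Q g R M →
    ∀ B : ℝ, 0 ≤ B → Ub M c n B → ∀ k : ℕ, 1 ≤ k → Ub M c (k * n) (C * k * B + C * k) := by
  have hC := c.one_le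
  refine ⟨100 * c.C, by linarith, ?_⟩
  intro n R M hn hG B hB hUb k hk y hy0 hy1 hyq
  have hn0 : 0 < n := by linarith
  have hk1 : (1 : ℝ) ≤ k := by exact_mod_cast hk
  have hkB : (2 : ℝ) * k * B ≤ 100 * c.C * k * B + 100 * c.C * k := by
    have h1 : (2 : ℝ) * (k * B) ≤ 100 * c.C * (k * B) := by
      apply mul_le_mul_of_nonneg_right _ (by positivity)
      linarith
    have h2 : 0 ≤ 100 * c.C * k := by positivity
    linarith
  by_cases hsm : c.p y ≤ n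
  · refine (hUb y hy0 hsm hyq).trans (le_trans ?_ hkB)
    nlinarith
  push Not at hsm
  set α : ℝ := c.p y with hα
  set β : ℝ := c.q y with hβ
  have hα0 : 0 < α := by linarith
  -- the number of pieces
  set m : ℕ := ⌈2 * α / n⌉₊ with hm
  have hm1 : 2 * α / n ≤ m := Nat.le_ceil _
  have hm2 : (m : ℝ) < 2 * α / n + 1 := Nat.ceil_lt_add_one (by positivity)
  have hgt : 2 < 2 * α / n := by
    rw [lt_div_iff₀ hn0]
    linarith
  have hm0 : (2 : ℝ) < m := by linarith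
  have hmpos : (0 : ℝ) < m := by linarith
  have hmk : (m : ℝ) ≤ 2 * k := by
    have h1 : m ≤ 2 * k := by
      rw [hm, Nat.ceil_le]
      push_cast
      rw [div_le_iff₀ hn0]
      linarith
    exact_mod_cast h1
  have hpm1 : α / m ≤ n / 2 := by
    rw [div_le_iff₀ hmpos]
    rw [div_le_iff₀ hn0] at hm1
    linarith
  have hpm2 : n / 3 ≤ α / m := by
    rw [le_div_iff₀ hmpos]
    have h1 : (m : ℝ) ≤ 3 * α / n := by
      have : 3 * α / n = 2 * α / n + α / n := by ring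
      rw [this]
      have : 1 ≤ α / n := by
        rw [le_div_iff₀ hn0]
        linarith
      linarith
    rw [le_div_iff₀ hn0] at h1
    linarith
  have hqm : |β / m| ≤ 9 * c.C / 2 := by
    rw [abs_div, abs_of_pos hmpos, div_le_iff₀ hmpos]
    nlinarith
  have hqm' := abs_le.1 hqm
  -- the points
  set x : ℕ → V := fun i => if i = 0 then 0 else if i = m then y else c.rd (i * (α / m)) (i * (β / m)) with hx
  have hxp : ∀ i, |c.p (x i) - i * (α / m)| ≤ c.C ∧ |c.q (x i) - i * (β / m)| ≤ c.C := by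
    intro i
    simp only [hx]
    by_cases h0 : i = 0
    · rw [if_pos h0, h0]
      simp only [map_zero, Nat.cast_zero, zero_mul, sub_zero, abs_zero]
      exact ⟨by linarith, by linarith⟩
    · rw [if_neg h0]
      by_cases h1 : i = m
      · rw [if_pos h1, h1]
        have e1 : (m : ℝ) * (α / m) = α := by field_simp
        have e2 : (m : ℝ) * (β / m) = β := by field_simp
        rw [e1, e2, ← hα, ← hβ, sub_self, sub_self, abs_zero]
        exact ⟨by linarith, by linarith⟩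
      · rw [if_neg h1]
        exact ⟨c.rd_p _ _, c.rd_q _ _⟩
  have hx0 : x 0 = 0 := by
    simp only [hx, if_true]
  have hmne : m ≠ 0 := by
    intro h
    rw [h] at hm0
    norm_num at hm0
  have hxm : x m = y := by
    simp only [hx, if_neg hmne, if_true]
  have hstep : ∀ i, n / 3 - 2 * c.C ≤ c.p (x (i + 1) - x i) ∧ c.p (x (i + 1) - x i) ≤ n / 2 + 2 * c.C ∧
      |c.q (x (i + 1) - x i)| ≤ 9 * c.C / 2 + 2 * c.C := by
    intro i
    obtain ⟨h1, h2⟩ := hxp i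
    obtain ⟨h3, h4⟩ := hxp (i + 1)
    rw [abs_le] at h1 h2 h3 h4
    push_cast at h3 h4
    rw [map_sub, map_sub]
    refine ⟨by linarith [h1.1, h1.2, h3.1, h3.2], by linarith [h1.1, h1.2, h3.1, h3.2], ?_⟩
    rw [abs_le]
    constructor <;> linarith [h2.1, h2.2, h4.1, h4.2, hqm'.1, hqm'.2]
  have hKn : ∀ i, x (i + 1) - x i ∈ Kn c := by
    intro i
    obtain ⟨h1, h2, h3⟩ := hstep i
    rw [mem_Kn]
    linarith
  have hKn' : ∀ i, x i - 0 ∈ Kn c := by
    intro i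
    rw [sub_zero]
    induction i with
    | zero =>
      rw [hx0]
      exact Kn_zero c
    | succ i ih =>
      have e1 : x (i + 1) = x i + (x (i + 1) - x i) := by abel
      rw [e1]
      exact Kn_add ih (hKn i)
  have hpt : ∀ τ, Bd Q.a Q.b τ → ∀ j, Ts Q.b c τ 0 (x j) - c.p (x j) ≤
      ∑ i ∈ range j, (Ts Q.b c τ (x i) (x (i + 1)) - c.p (x (i + 1) - x i)) := by
    intro τ hτ j
    induction j with
    | zero =>
      rw [hx0, range_zero, sum_empty, map_zero, sub_zero]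
      have h1 := Ts_upper Q.ha.le Q.hab.le hτ c 0 0
      rw [sub_zero, nm_zero, mul_zero] at h1
      exact h1
    | succ j ih =>
      rw [sum_range_succ]
      have h1 := Ts_triangle Q.ha.le Q.hab.le hτ (hKn' j) (hKn j)
      have h2 : c.p (x (j + 1) - x j) = c.p (x (j + 1)) - c.p (x j) := map_sub _ _ _
      linarith
  have hE : Sx M c y ≤ ∑ i ∈ range m, Sx M c (x (i + 1) - x i) := by
    have h1 : ∀ i, Sx M c (x (i + 1) - x i) =
        M.E (fun τ => max (Ts Q.b c τ (x i) (x (i + 1)) - c.p (x (i + 1) - x i)) 0) := by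
      intro i
      exact (hG.E_Ts c (fun t => max (t - c.p (x (i + 1) - x i)) 0) (x i) (x (i + 1))).symm
    rw [sum_congr rfl fun i _ => h1 i, ← Mdl.E_sum]
    refine M.E_mono fun τ hτ => ?_
    have h2 := hpt τ hτ m
    rw [hxm] at h2
    refine max_le (h2.trans (sum_le_sum fun i _ => le_max_left _ _)) (sum_nonneg fun i _ => le_max_right _ _)
  have hsum : ∑ i ∈ range m, Sx M c (x (i + 1) - x i) ≤ m * B := by
    have h1 : ∑ i ∈ range m, Sx M c (x (i + 1) - x i) ≤ (range m).card • B := by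
      refine sum_le_card_nsmul _ _ _ fun i _ => ?_
      obtain ⟨h1, h2, h3⟩ := hstep i
      exact hUb _ (by linarith) (by linarith) (by linarith)
    rwa [card_range, nsmul_eq_mul] at h1
  have hfin : (m : ℝ) * B ≤ 2 * k * B := mul_le_mul_of_nonneg_right hmk hB
  linarith

end Pool.Agent.W_1b8d5d_c1
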