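import Pool.Agent.W_1b8d5d_c1.Max2

/-!
MP_1b8d5d_pr (N2): the events `Fw`, `Bw` have large probability.
-/

set_option autoImplicit false

namespace Pool.Agent.W_1b8d5d_c1

open Finset Pool.Agent.W_1b8d5d_h85

/-- PROOF. If `Fw` fails at `z`, replace `c` by `mir c` if `c.q z < 0` (then `|c.q z| = (mir c).q z`; `Kn_mir`, `Ub_mir`); the weights of the cone
are larger than those of the wedge (`Kn_subset_Wd`, `T_res_anti`), so `T (wedge) 0 z < lev c z - θ`; `exit_wedge` gives a point `w` of the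
wedge with `T (wedge) 0 w ≤ lev c w - θ`, `lev c w ≤ 2 C nm w ≤ 2 C (b / a) n`.  `maxineq` for `c` and for `mir c`. -/
theorem P_Fw (Q : Par) (g : V → ℝ) (c : Crd) (hg : IsMean Q g) (hl : ∀ z, c.p z + |c.q z| ≤ g z) :
    ∃ C : ℝ, 1 ≤ C ∧ ∀ (n R : ℝ) (M : Mdl Q.a Q.b), 1 ≤ n → C * n ^ 12 ≤ R → Good Q g R M →
    ∀ B : ℝ, 1 ≤ B → Ub M c (C * n) B → ∀ θ : ℝ, 0 < θ →
      M.P (fun τ => ¬ Fw Q.b c n θ τ) ≤ C * B / θ := by
  have hl1 : ∀ z, c.p z + c.q z ≤ g z := fun z => by
    have h1 := hl z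
    have h2 := le_abs_self (c.q z)
    linarith
  have hl2 : ∀ z, (mir c).p z + (mir c).q z ≤ g z := fun z => by
    have h1 := hl z
    have h2 := neg_abs_le (c.q z)
    change c.p z + -(c.q z) ≤ g z
    linarith
  obtain ⟨C₁, hC1, h1⟩ := maxineq Q g c hg hl1
  obtain ⟨C₂, hC2, h2⟩ := maxineq Q g (mir c) hg hl2
  have ha := Q.ha
  have hab := Q.hab
  have hba : 1 ≤ Q.b / Q.a := by
    rw [le_div_iff₀ ha]
    linarith
  have hcC := c.one_le
  set D : ℝ := 2 * c.C * (Q.b / Q.a) with hD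
  have hD1 : 1 ≤ D := by
    have e1 : 1 * 1 ≤ (2 * c.C) * (Q.b / Q.a) :=
      mul_le_mul (by linarith) hba (by norm_num) (by linarith)
    linarith
  have hD12 : D ≤ D ^ 12 := le_self_pow₀ hD1 (by norm_num)
  have hD12' : 1 ≤ D ^ 12 := hD1.trans hD12
  refine ⟨(C₁ + C₂) * D ^ 12, ?_, ?_⟩
  · have e1 : 1 * 1 ≤ (C₁ + C₂) * D ^ 12 :=
      mul_le_mul (by linarith) hD12' (by norm_num) (by linarith)
    linarith
  intro n R M hn hR hGood B hB hUb θ hθ
  have hn0 : 0 < n := by linarith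
  have hDn : 1 ≤ D * n := by
    have e1 : 1 * 1 ≤ D * n := mul_le_mul hD1 hn (by norm_num) (by linarith)
    linarith
  have hn12 : 0 < n ^ 12 := by positivity
  have hD0 : 0 < D := by linarith
  have hD120 : 0 < D ^ 12 := by positivity
  have hR1 : C₁ * (D * n) ^ 12 ≤ R := by
    refine le_trans ?_ hR
    rw [mul_pow, ← mul_assoc]
    apply mul_le_mul_of_nonneg_right _ hn12.le
    apply mul_le_mul_of_nonneg_right _ hD120.le
    linarith
  have hR2 : C₂ * (D * n) ^ 12 ≤ R := by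
    refine le_trans ?_ hR
    rw [mul_pow, ← mul_assoc]
    apply mul_le_mul_of_nonneg_right _ hn12.le
    apply mul_le_mul_of_nonneg_right _ hD120.le
    linarith
  have hle : ∀ C' : ℝ, 0 ≤ C' → C' ≤ C₁ + C₂ → C' * (D * n) ≤ (C₁ + C₂) * D ^ 12 * n := by
    intro C' h0 h3
    rw [← mul_assoc]
    apply mul_le_mul_of_nonneg_right _ hn0.le
    exact mul_le_mul h3 hD12 hD0.le (by linarith)
  have hUb1 : Ub M c (C₁ * (D * n)) B := fun y hy1 hy2 hy3 =>
    hUb y hy1 (hy2.trans (hle C₁ (by linarith) (by linarith))) hy3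
  have hUb2 : Ub M (mir c) (C₂ * (D * n)) B := by
    rw [Ub_mir]
    exact fun y hy1 hy2 hy3 => hUb y hy1 (hy2.trans (hle C₂ (by linarith) (by linarith))) hy3
  have e1 := h1 (D * n) R M hDn hR1 hGood B hB hUb1 θ hθ
  have e2 := h2 (D * n) R M hDn hR2 hGood B hB hUb2 θ hθ
  have e3 : M.P (fun τ => ¬ Fw Q.b c n θ τ) ≤
      M.P (fun τ => (∃ z ∈ Wd c 0, lev c z ≤ D * n ∧
        T (res Q.b (edg (Wd c 0)) τ) 0 z ≤ lev c z - θ) ∨
        (∃ z ∈ Wd (mir c) 0, lev (mir c) z ≤ D * n ∧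
        T (res Q.b (edg (Wd (mir c) 0)) τ) 0 z ≤ lev (mir c) z - θ)) := by
    apply M.P_mono
    intro τ hτ hF
    unfold Fw at hF
    push Not at hF
    obtain ⟨z, hz, hzF⟩ := hF
    rcases le_or_gt 0 (c.q z) with hq | hq
    · left
      rw [abs_of_nonneg hq] at hzF
      have f1 := T_res_anti ha.le hab.le hτ (edg_mono (Kn_subset_Wd c)) 0 z
      obtain ⟨w, hw1, hw2, hw3⟩ := exit_wedge hg hl1 hτ z
      refine ⟨w, hw1, ?_, ?_⟩
      · have f2 := (le_abs_self _).trans (lev_le_nm c w)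
        have f3 : 2 * c.C * nm w ≤ 2 * c.C * (Q.b / Q.a * n) := by
          apply mul_le_mul_of_nonneg_left _ (by linarith)
          refine hw2.trans ?_
          exact mul_le_mul_of_nonneg_left hz (by linarith)
        have f4 : 2 * c.C * (Q.b / Q.a * n) = D * n := by
          rw [hD]
          ring
        linarith
      · have f2 : lev c z = c.p z + c.q z := rfl
        linarith
    · right
      rw [abs_of_neg hq] at hzF
      have f0 : edg (Kn c) ⊆ edg (Wd (mir c) 0) := by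
        have f00 := edg_mono (Kn_subset_Wd (mir c))
        rwa [Kn_mir] at f00
      have f1 := T_res_anti ha.le hab.le hτ f0 0 z
      obtain ⟨w, hw1, hw2, hw3⟩ := exit_wedge hg hl2 hτ z
      refine ⟨w, hw1, ?_, ?_⟩
      · have f2 := (le_abs_self _).trans (lev_le_nm (mir c) w)
        have f22 : (mir c).C = c.C := rfl
        rw [f22] at f2
        have f3 : 2 * c.C * nm w ≤ 2 * c.C * (Q.b / Q.a * n) := by
          apply mul_le_mul_of_nonneg_left _ (by linarith)
          refine hw2.trans ?_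
          exact mul_le_mul_of_nonneg_left hz (by linarith)
        have f4 : 2 * c.C * (Q.b / Q.a * n) = D * n := by
          rw [hD]
          ring
        linarith
      · have f2 : lev (mir c) z = c.p z + -(c.q z) := rfl
        linarith
  have e4 := e3.trans (M.P_or _ _)
  have e5 : C₁ * B / θ + C₂ * B / θ ≤ (C₁ + C₂) * D ^ 12 * B / θ := by
    rw [← add_div, ← add_mul]
    apply div_le_div_of_nonneg_right _ hθ.le
    apply mul_le_mul_of_nonneg_right _ (by linarith)
    exact le_mul_of_one_le_right (by linarith) hD12'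
  linarith

/-- PROOF. `Bw b c n θ y τ ↔ Fw b c n θ (rf (sh y τ))`-like: `T_res_sh`, `T_res_rf`, `T_symm`; `Good.inv`, `Good.refl`. -/
theorem P_Bw {Q : Par} {g : V → ℝ} {R : ℝ} {M : Mdl Q.a Q.b} (h : Good Q g R M) (c : Crd) (n θ : ℝ) (y : V) :
    M.P (fun τ => ¬ Bw Q.b c n θ y τ) = M.P (fun τ => ¬ Fw Q.b c n θ τ) := by
  classical
  have key : ∀ τ, Bw Q.b c n θ y τ ↔ Fw Q.b c n θ (rf (sh y τ)) := by
    intro τ
    have h1 : ∀ u, T (res Q.b (edg (Kn c)) (rf (sh y τ))) 0 u =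
        T (res Q.b (edg {w | y - w ∈ Kn c}) τ) (y - u) y := by
      intro u
      rw [T_res_rf, T_res_sh, T_symm]
      have e1 : {w | w - y ∈ {w | -w ∈ Kn c}} = {w | y - w ∈ Kn c} := by
        ext w
        rw [Set.mem_ofPred_eq, Set.mem_ofPred_eq, Set.mem_ofPred_eq, neg_sub]
      rw [e1, neg_zero, zero_add, neg_add_eq_sub]
    unfold Bw Fw
    constructor
    · intro h2 z hz
      have h3 := h2 (y - z)
      rw [sub_sub_cancel] at h3
      rw [h1]
      exact h3 hz
    · intro h2 z hz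
      have h3 := h2 (y - z) hz
      rw [h1, sub_sub_cancel] at h3
      exact h3
  simp only [key]
  rw [M.P_def, M.P_def]
  have e1 := h.inv y (fun σ => if ¬ Fw Q.b c n θ (rf σ) then (1 : ℝ) else 0)
  have e2 := h.refl (fun σ => if ¬ Fw Q.b c n θ σ then (1 : ℝ) else 0)
  calc _ = M.E (fun τ => if ¬ Fw Q.b c n θ (rf (sh y τ)) then (1 : ℝ) else 0) := by
        congr 1
        funext τ
        congr
    _ = _ := e1
    _ = _ := e2
    _ = _ := by
        congr 1
        funext τ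
        congr

end Pool.Agent.W_1b8d5d_c1
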