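import Pool.Agent.W_1b8d5d_c1.Conf
import Pool.Agent.W_1b8d5d_c1.Max3

/-!
MP_1b8d5d_pr (N2): the geodesics of `Ts` stay in tubes of width `C B`.
-/

set_option autoImplicit false

namespace Pool.Agent.W_1b8d5d_c1

open Finset Pool.Agent.W_1b8d5d_h85

/-- `Ub` is monotone in the scale. -/
private theorem Tube_Ub_mono {a b : ℝ} {M : Mdl a b} {c : Crd} {n n' B : ℝ} (h : Ub M c n B) (hn : n' ≤ n) :
    Ub M c n' B := fun y h0 h1 h2 => h y h0 (h1.trans hn) h2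

/-- Markov's inequality for the excess of `Ts`. -/
private theorem Tube_markov {a b : ℝ} (M : Mdl a b) (c : Crd) (y : V) {B s : ℝ} (hs : 0 < s)
    (hB : Sx M c y ≤ B) : M.P (fun τ => s < Ts b c τ 0 y - c.p y) ≤ B / s := by
  have h1 : M.P (fun τ => s < Ts b c τ 0 y - c.p y)
      ≤ M.P (fun τ => s ≤ max (Ts b c τ 0 y - c.p y) 0) :=
    M.P_mono fun τ _ h => h.le.trans (le_max_left _ _)
  have h2 := M.markov (F := fun τ => max (Ts b c τ 0 y - c.p y) 0) (fun τ _ => le_max_right _ _) hs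
  refine h1.trans (h2.trans ?_)
  exact div_le_div_of_nonneg_right hB hs.le

/-- PROOF. `tube_eq` with `θ = H / 4`: if `Tt ≠ Ts` then `Ts - p y > H / 2` (probability `≤ 2 Sx / H ≤ 2 B / H` by Markov), or `Fw` or `Bw`
fails with `n' = (b / a) * nm y ≤ C n` (`P_Fw`, `P_Bw`; `nm y ≤ c.C (p y + |q y|) ≤ c.C (n + 9 C)`). -/
theorem P_tube (Q : Par) (g : V → ℝ) (c : Crd) (hg : IsMean Q g) (hl : ∀ z, c.p z + |c.q z| ≤ g z) :
    ∃ C : ℝ, 1 ≤ C ∧ ∀ (n R : ℝ) (M : Mdl Q.a Q.b), 1 ≤ n → C * n ^ 12 ≤ R → Good Q g R M →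
    ∀ B : ℝ, 1 ≤ B → Ub M c (C * n) B → ∀ y, 0 ≤ c.p y → c.p y ≤ n → |c.q y| ≤ 9 * c.C → ∀ H : ℝ, 0 < H →
      M.P (fun τ => Tt Q.b c τ 0 y H ≠ Ts Q.b c τ 0 y) ≤ C * B / H := by
  obtain ⟨C₁, hC₁, hF⟩ := P_Fw Q g c hg hl
  have ha := Q.ha
  have hab := Q.hab
  have hc := c.one_le
  set K : ℝ := Q.b / Q.a * (c.C * (1 + 9 * c.C)) with hK
  have hba : 1 ≤ Q.b / Q.a := by
    rw [le_div_iff₀ ha]
    linarith
  have hcc : 1 ≤ c.C * (1 + 9 * c.C) := by nlinarith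
  have hK1 : 1 ≤ K := by
    rw [hK]
    nlinarith
  have hK0 : 0 < K := by linarith
  have hK12 : 1 ≤ K ^ 12 := one_le_pow₀ hK1
  have hC₁0 : 0 ≤ C₁ := by linarith
  have hp1 : 0 ≤ C₁ * K ^ 12 := mul_nonneg hC₁0 (by linarith)
  have hp2 : 0 ≤ C₁ * K := mul_nonneg hC₁0 hK0.le
  refine ⟨C₁ * K ^ 12 + C₁ * K + 8 * C₁ + 2, by linarith, ?_⟩
  intro n R M hn hR hgood B hB hUb y hy0 hyn hyq H hH
  have hn0 : 0 < n := by linarith
  have hn12 : 0 ≤ n ^ 12 := by positivity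
  have hKn : 1 ≤ K * n := by nlinarith
  have hR' : C₁ * (K * n) ^ 12 ≤ R := by
    refine le_trans ?_ hR
    rw [mul_pow, ← mul_assoc]
    refine mul_le_mul_of_nonneg_right ?_ hn12
    linarith
  have hUb' : Ub M c (C₁ * (K * n)) B := by
    refine Tube_Ub_mono hUb ?_
    rw [← mul_assoc]
    refine mul_le_mul_of_nonneg_right ?_ hn0.le
    linarith
  have hH4 : 0 < H / 4 := by linarith
  have h1 := hF (K * n) R M hKn hR' hgood B hB hUb' (H / 4) hH4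
  have h2 : M.P (fun τ => ¬ Bw Q.b c (K * n) (H / 4) y τ) ≤ C₁ * B / (H / 4) := by
    rw [P_Bw hgood c (K * n) (H / 4) y]
    exact h1
  have hSx : Sx M c y ≤ B := by
    refine hUb y hy0 (hyn.trans ?_) hyq
    have : 1 * n ≤ (C₁ * K ^ 12 + C₁ * K + 8 * C₁ + 2) * n :=
      mul_le_mul_of_nonneg_right (by linarith) hn0.le
    linarith
  have h3 := Tube_markov M c y (s := H / 2) (by linarith) hSx
  have hnm : Q.b / Q.a * nm y ≤ K * n := by
    have e1 := c.nm_le y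
    rw [abs_of_nonneg hy0] at e1
    have e2 : nm y ≤ c.C * (1 + 9 * c.C) * n := by
      refine e1.trans ?_
      rw [mul_assoc]
      refine mul_le_mul_of_nonneg_left ?_ (by linarith)
      nlinarith
    rw [hK, mul_assoc]
    exact mul_le_mul_of_nonneg_left e2 (by linarith)
  have hsub : M.P (fun τ => Tt Q.b c τ 0 y H ≠ Ts Q.b c τ 0 y)
      ≤ M.P (fun τ => (¬ Fw Q.b c (K * n) (H / 4) τ ∨ ¬ Bw Q.b c (K * n) (H / 4) y τ)
        ∨ H / 2 < Ts Q.b c τ 0 y - c.p y) := by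
    refine M.P_mono fun τ hτ hne => ?_
    by_contra hcon
    push Not at hcon
    obtain ⟨⟨f1, f2⟩, f3⟩ := hcon
    exact hne (tube_eq ha hab.le hτ f1 f2 hnm (by linarith))
  have h4 := M.P_or (fun τ => ¬ Fw Q.b c (K * n) (H / 4) τ ∨ ¬ Bw Q.b c (K * n) (H / 4) y τ)
    (fun τ => H / 2 < Ts Q.b c τ 0 y - c.p y)
  have h5 := M.P_or (fun τ => ¬ Fw Q.b c (K * n) (H / 4) τ) (fun τ => ¬ Bw Q.b c (K * n) (H / 4) y τ)
  have h6 : C₁ * B / (H / 4) + C₁ * B / (H / 4) + B / (H / 2) = (8 * C₁ + 2) * B / H := by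
    field_simp
    ring
  have h7 : (8 * C₁ + 2) * B / H ≤ (C₁ * K ^ 12 + C₁ * K + 8 * C₁ + 2) * B / H := by
    refine div_le_div_of_nonneg_right ?_ hH.le
    refine mul_le_mul_of_nonneg_right ?_ (by linarith)
    linarith
  linarith

/-- A lane: with probability at least `1/2` the tube of width `C B` contains a path of excess at most `8 B`. -/
theorem lane_half (Q : Par) (g : V → ℝ) (c : Crd) (hg : IsMean Q g) (hl : ∀ z, c.p z + |c.q z| ≤ g z) :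
    ∃ C : ℝ, 1 ≤ C ∧ ∀ (n R : ℝ) (M : Mdl Q.a Q.b), 1 ≤ n → C * n ^ 12 ≤ R → Good Q g R M →
    ∀ B : ℝ, 1 ≤ B → Ub M c (C * n) B → ∀ y, 0 ≤ c.p y → c.p y ≤ n → |c.q y| ≤ 9 * c.C → ∀ H : ℝ, C * B ≤ H →
      1 / 2 ≤ M.P (fun τ => Tt Q.b c τ 0 y H ≤ c.p y + 8 * B) := by
  obtain ⟨C₁, hC₁, hT⟩ := P_tube Q g c hg hl
  refine ⟨4 * C₁, by linarith, ?_⟩
  intro n R M hn hR hgood B hB hUb y hy0 hyn hyq H hH
  have hn0 : 0 < n := by linarith
  have hn12 : 0 ≤ n ^ 12 := by positivity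
  have hB0 : 0 < B := by linarith
  have hC₁0 : 0 < C₁ := by linarith
  have hCB : 0 < C₁ * B := mul_pos hC₁0 hB0
  have hH0 : 0 < H := by linarith
  have hR' : C₁ * n ^ 12 ≤ R := by
    refine le_trans (mul_le_mul_of_nonneg_right ?_ hn12) hR
    linarith
  have hUb' : Ub M c (C₁ * n) B := by
    refine Tube_Ub_mono hUb (mul_le_mul_of_nonneg_right ?_ hn0.le)
    linarith
  have h1 := hT n R M hn hR' hgood B hB hUb' y hy0 hyn hyq H hH0
  have hSx : Sx M c y ≤ B := by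
    refine hUb y hy0 (hyn.trans ?_) hyq
    have : 1 * n ≤ 4 * C₁ * n := mul_le_mul_of_nonneg_right (by linarith) hn0.le
    linarith
  have h2 := Tube_markov M c y (s := 8 * B) (by linarith) hSx
  have h3 : B / (8 * B) = 1 / 8 := by
    field_simp
  have h4 : C₁ * B / H ≤ 1 / 4 := by
    rw [div_le_iff₀ hH0]
    linarith
  have h5 := M.P_not (fun τ => Tt Q.b c τ 0 y H ≤ c.p y + 8 * B)
  have h6 : M.P (fun τ => ¬ Tt Q.b c τ 0 y H ≤ c.p y + 8 * B)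
      ≤ M.P (fun τ => Tt Q.b c τ 0 y H ≠ Ts Q.b c τ 0 y ∨ 8 * B < Ts Q.b c τ 0 y - c.p y) := by
    refine M.P_mono fun τ _ hne => ?_
    by_contra hcon
    push Not at hcon
    obtain ⟨f1, f2⟩ := hcon
    rw [f1] at hne
    exact hne (by linarith)
  have h7 := M.P_or (fun τ => Tt Q.b c τ 0 y H ≠ Ts Q.b c τ 0 y)
    (fun τ => 8 * B < Ts Q.b c τ 0 y - c.p y)
  linarith

end Pool.Agent.W_1b8d5d_c1
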