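import Pool.Agent.W_1b8d5d_c1.Grow1
import Pool.Agent.W_1b8d5d_c1.Tube

/-!
MP_1b8d5d_pr (N2): the fluctuations are not small: `n ≤ C B³`.
-/

set_option autoImplicit false

namespace Pool.Agent.W_1b8d5d_c1

open Finset Pool.Agent.W_1b8d5d_h85

/-- `(1/2)^l ≤ 1/l` -/
private lemma Grow2_half {l : ℕ} (hl : 1 ≤ l) : (1 / 2 : ℝ) ^ l ≤ 1 / l := by
  have h1 : (l : ℝ) ≤ 2 ^ l := by exact_mod_cast (Nat.lt_two_pow_self (n := l)).le
  have h0 : (0 : ℝ) < l := by exact_mod_cast hl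
  rw [one_div, inv_pow, ← one_div]
  exact one_div_le_one_div_of_le h0 h1

/-- the bad event of Peierls for `τ` -/
private def Grow2_bad (su R : ℝ) (l : ℕ) (τ : Env) : Prop :=
  ∃ (y : V) (w : grid.Walk 0 y), w.IsPath ∧
      l ≤ w.length ∧ (w.length : ℝ) ≤ R ∧ (nHigh su τ w : ℝ) < w.length / 2

/-- the good event -/
private def Grow2_E (Q : Par) (c : Crd) (y : V) (N θ B R : ℝ) (l : ℕ) (τ : Env) : Prop :=
  Fw Q.b c N θ τ ∧ Bw Q.b c N θ y τ ∧ Ts Q.b c τ 0 y - c.p y ≤ 8 * B ∧ ¬ Grow2_bad Q.su R l τ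

/-- the probability of the good event -/
private lemma Grow2_PE {Q : Par} {g : V → ℝ} {R : ℝ} {M : Mdl Q.a Q.b} (h : Good Q g R M) (c : Crd)
    (y : V) (N θ B : ℝ) (l : ℕ) (hB : 0 < B) (hSx : Sx M c y ≤ B) (hl : 1 ≤ l)
    (hKl : 8 * Q.K ≤ l) (hFw : M.P (fun τ => ¬ Fw Q.b c N θ τ) ≤ 1 / 8) :
    1 / 2 ≤ M.P (Grow2_E Q c y N θ B R l) := by
  have h1 : M.P (fun τ => ¬ Bw Q.b c N θ y τ) ≤ 1 / 8 := by rw [P_Bw h]; exact hFw
  have h2 : M.P (fun τ => 8 * B ≤ max (Ts Q.b c τ 0 y - c.p y) 0) ≤ 1 / 8 := by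
    have h3 := M.markov (F := fun τ => max (Ts Q.b c τ 0 y - c.p y) 0) (fun τ _ => le_max_right _ _)
      (s := 8 * B) (by linarith)
    refine h3.trans ?_
    rw [div_le_iff₀ (by linarith)]
    unfold Sx at hSx
    linarith
  have h4 : M.P (Grow2_bad Q.su R l) ≤ 1 / 8 := by
    have h5 := h.peierls l hl
    refine h5.trans ?_
    have h6 := Grow2_half hl
    have hK : 0 ≤ Q.K := by linarith [Q.hK]
    have h0 : (0 : ℝ) < l := by exact_mod_cast hl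
    calc Q.K * (1 / 2) ^ l ≤ Q.K * (1 / l) := mul_le_mul_of_nonneg_left h6 hK
      _ ≤ 1 / 8 := by
        rw [mul_one_div, div_le_div_iff₀ h0 (by norm_num)]
        linarith
  have h7 : M.P (fun τ => ¬ Grow2_E Q c y N θ B R l τ) ≤ 1 / 2 := by
    have h8 : M.P (fun τ => ¬ Grow2_E Q c y N θ B R l τ) ≤
        M.P (fun τ => (¬ Fw Q.b c N θ τ ∨ ¬ Bw Q.b c N θ y τ) ∨
          (8 * B ≤ max (Ts Q.b c τ 0 y - c.p y) 0 ∨ Grow2_bad Q.su R l τ)) := by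
      apply M.P_mono
      intro τ _ hE
      by_contra hcon
      push Not at hcon
      obtain ⟨⟨g1, g2⟩, g3, g4⟩ := hcon
      refine hE ⟨g1, g2, ?_, g4⟩
      have := le_max_left (Ts Q.b c τ 0 y - c.p y) 0
      linarith
    have h9 := M.P_or (fun τ => ¬ Fw Q.b c N θ τ ∨ ¬ Bw Q.b c N θ y τ)
      (fun τ => 8 * B ≤ max (Ts Q.b c τ 0 y - c.p y) 0 ∨ Grow2_bad Q.su R l τ)
    have h10 := M.P_or (fun τ => ¬ Fw Q.b c N θ τ) (fun τ => ¬ Bw Q.b c N θ y τ)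
    have h11 := M.P_or (fun τ => 8 * B ≤ max (Ts Q.b c τ 0 y - c.p y) 0)
      (Grow2_bad Q.su R l)
    linarith
  have h12 := M.P_not (Grow2_E Q c y N θ B R l)
  linarith

private lemma Grow2_Tb_sub (c : Crd) (y : V) (H : ℝ) : edg (Tb c 0 y H) ⊆ edg (Db c 0 y) :=
  fun _ he => ⟨he.1.1, he.2.1⟩

private lemma Grow2_Db_sub (c : Crd) (y : V) : edg (Db c 0 y) ⊆ edg (Kn c) := by
  rintro e ⟨h1, h2⟩
  refine ⟨?_, ?_⟩
  · have := h1.1
    rwa [sub_zero] at this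
  · have := h2.1
    rwa [sub_zero] at this

open Classical in
/-- the event transferred by the tilt -/
private lemma Grow2_A {Q : Par} {g : V → ℝ} {R : ℝ} {M : Mdl Q.a Q.b} (h : Good Q g R M) (c : Crd)
    (y : V) (N θ B H d k : ℝ) (l : ℕ) (hE : 1 / 2 ≤ M.P (Grow2_E Q c y N θ B R l))
    (hHigh : ∀ τ, Bd Q.a Q.b τ → Grow2_E Q c y N θ B R l τ → ∀ w : grid.Walk 0 y,
      IsGeo (res Q.b (edg (Db c 0 y)) τ) w →
      k ≤ (((wedges w).toFinset.filter fun e => Q.su ≤ τ e ∧ e ∈ edg (Tb c 0 y H)).card : ℝ))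
    (F : Finset Edge) (hF : ∀ e, e ∈ F ↔ e ∈ edg (Tb c 0 y H)) (hFR : ∀ e ∈ F, nm e.1 ≤ R)
    (hd0 : 0 ≤ d) (hd : d ≤ 1 / 2) (hm : 6 * d ≤ Q.pl)
    (hexp : Real.exp (Q.K * 6 ^ 2 * d ^ 2 * F.card) ≤ 2)
    (hk : Real.exp (-(d * k / 16)) ≤ 1 / 16) :
    3 / 16 ≤ M.P (fun τ => Ts Q.b c τ 0 y ≤ c.p y + 8 * B - (Q.su - Q.sl) * (d * k / 4)) := by
  classical
  have ha := Q.ha
  have hab := Q.hab
  have hgeo : ∀ ω : M.Ω, ∃ w : grid.Walk 0 y, IsGeo (res Q.b (edg (Db c 0 y)) (M.env ω)) w :=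
    fun ω => exists_geo (Bd_res hab.le (M.bd ω) _) ha 0 y
  choose w hw using hgeo
  have key := tilt_transfer h F d hFR hd0 hd 6 (by exact_mod_cast hm)
    (fun ω => Grow2_E Q c y N θ B R l (M.env ω))
    (fun ω => Ts Q.b c (M.env ω) 0 y ≤ c.p y + 8 * B - (Q.su - Q.sl) * (d * k / 4))
    (fun ω => (wedges (w ω)).toFinset.filter fun e => Q.su ≤ M.env ω e ∧ e ∈ edg (Tb c 0 y H)) k
    (fun ω hω => by
      refine ⟨fun e he => ?_, fun e he => ?_, ?_⟩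
      · rw [mem_filter] at he
        exact (hF e).mpr he.2.2
      · rw [mem_filter] at he
        exact he.2.1
      · exact hHigh (M.env ω) (M.bd ω) hω (w ω) (hw ω))
    (fun ω ω' hω hle hsum => by
      have h1 := Ts_drop ha hab.le (M.bd ω) (M.bd ω') c y (w ω) (hw ω) hle
        ((wedges (w ω)).toFinset.filter fun e => Q.su ≤ M.env ω e ∧ e ∈ edg (Tb c 0 y H))
        (fun e he => by
          rw [mem_filter, List.mem_toFinset] at he
          exact ⟨he.1, Grow2_Tb_sub c y H he.2.2⟩)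
      have h2 := hω.2.2.1
      linarith)
  have h3 : (2 : ℝ) * (1 / 2) ^ 6 * Real.exp (Q.K * (6 : ℕ) ^ 2 * d ^ 2 * F.card) ≤ 1 / 16 := by
    have h4 : Real.exp (Q.K * (6 : ℕ) ^ 2 * d ^ 2 * F.card) ≤ 2 := by exact_mod_cast hexp
    have h5 : (0 : ℝ) ≤ 2 * (1 / 2) ^ 6 := by norm_num
    have h6 := mul_le_mul_of_nonneg_left h4 h5
    refine h6.trans (by norm_num)
  have h7 : Pr (fun ω => Grow2_E Q c y N θ B R l (M.env ω)) = M.P (Grow2_E Q c y N θ B R l) := rfl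
  have h8 : Pr (fun ω => Ts Q.b c (M.env ω) 0 y ≤ c.p y + 8 * B - (Q.su - Q.sl) * (d * k / 4)) =
    M.P (fun τ => Ts Q.b c τ 0 y ≤ c.p y + 8 * B - (Q.su - Q.sl) * (d * k / 4)) := rfl
  rw [h7, h8] at key
  linarith

/-- the end: the event of `Grow2_A` contradicts `Fw` -/
private lemma Grow2_end {Q : Par} {M : Mdl Q.a Q.b} (c : Crd) (y : V) (N B dk CF : ℝ)
    (hy : nm y ≤ N) (hCF : 1 ≤ CF) (hB : 1 ≤ B)
    (hFw : ∀ θ : ℝ, 0 < θ → M.P (fun τ => ¬ Fw Q.b c N θ τ) ≤ CF * B / θ)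
    (hA : 3 / 16 ≤ M.P (fun τ => Ts Q.b c τ 0 y ≤ c.p y + 8 * B - (Q.su - Q.sl) * (dk / 4))) :
    (Q.su - Q.sl) * dk ≤ 64 * CF * B := by
  have hCB : B ≤ CF * B := le_mul_of_one_le_left (by linarith) hCF
  by_contra hcon
  push Not at hcon
  have hθ : 0 < (Q.su - Q.sl) * (dk / 4) - 8 * B - 1 := by linarith
  have h1 := hFw _ hθ
  have h2 : M.P (fun τ => Ts Q.b c τ 0 y ≤ c.p y + 8 * B - (Q.su - Q.sl) * (dk / 4)) ≤
      M.P (fun τ => ¬ Fw Q.b c N ((Q.su - Q.sl) * (dk / 4) - 8 * B - 1) τ) := by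
    apply M.P_mono
    intro τ hτ h3 h4
    have h5 := h4 y hy
    have h6 := T_res_anti Q.ha.le Q.hab.le hτ (Grow2_Db_sub c y) 0 y
    have h7 := abs_nonneg (c.q y)
    unfold Ts at h3
    linarith
  have h3 : 3 / 16 ≤ CF * B / ((Q.su - Q.sl) * (dk / 4) - 8 * B - 1) := hA.trans (h2.trans h1)
  rw [le_div_iff₀ hθ] at h3
  linarith

private lemma Grow2_exp : Real.exp (1 / 2) ≤ 2 := by
  have h2 := Real.add_one_le_exp (-(1 / 2 : ℝ))
  have h3 : Real.exp (1 / 2) * Real.exp (-(1 / 2)) = 1 := by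
    rw [← Real.exp_add]; simp
  have h4 := mul_le_mul_of_nonneg_left h2 (Real.exp_pos (1 / 2 : ℝ)).le
  rw [h3] at h4
  linarith

/-- pure numbers: `d k ≥ 240` -/
private lemma Grow2_dk {n H c0 Ch : ℝ} (hn : 0 < n) (hH : 0 < H) (hc0 : 0 < c0) (hCh : 0 < Ch)
    (h : 240 ^ 2 * Ch ^ 2 * H ≤ c0 ^ 2 * n) :
    240 ≤ c0 / Real.sqrt (n * H) * (n / Ch) := by
  have hs : 0 < Real.sqrt (n * H) := Real.sqrt_pos.mpr (by positivity)
  have hss : Real.sqrt (n * H) ^ 2 = n * H := Real.sq_sqrt (by positivity)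
  rw [div_mul_div_comm, le_div_iff₀ (by positivity)]
  refine (pow_le_pow_iff_left₀ (by positivity) (by positivity) two_ne_zero).mp ?_
  have h1 : (240 * (Real.sqrt (n * H) * Ch)) ^ 2 = n * (240 ^ 2 * Ch ^ 2 * H) := by
    rw [mul_pow, mul_pow, hss]
    ring
  have h2 : (c0 * n) ^ 2 = n * (c0 ^ 2 * n) := by ring
  rw [h1, h2]
  exact mul_le_mul_of_nonneg_left h hn.le

/-- pure numbers: the conclusion -/
private lemma Grow2_fin {n H c0 Ch D E : ℝ} (hn : 0 < n) (hH : 0 < H) (hc0 : 0 < c0) (hCh : 0 < Ch)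
    (hD : 0 < D) (h : D * (c0 / Real.sqrt (n * H) * (n / Ch)) ≤ E) :
    n ≤ (E * Ch / (D * c0)) ^ 2 * H := by
  have hs : 0 < Real.sqrt (n * H) := Real.sqrt_pos.mpr (by positivity)
  have hss : Real.sqrt (n * H) ^ 2 = n * H := Real.sq_sqrt (by positivity)
  rw [div_mul_div_comm, mul_div_assoc', div_le_iff₀ (by positivity)] at h
  have h1 : (D * (c0 * n)) ^ 2 ≤ (E * (Real.sqrt (n * H) * Ch)) ^ 2 :=
    pow_le_pow_left₀ (by positivity) h 2
  have h2 : (E * (Real.sqrt (n * H) * Ch)) ^ 2 = n * ((E * Ch) ^ 2 * H) := by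
    rw [mul_pow, mul_pow, hss]
    ring
  have h3 : (D * (c0 * n)) ^ 2 = n * ((D * c0) ^ 2 * n) := by ring
  rw [h2, h3] at h1
  have h4 := le_of_mul_le_mul_left h1 hn
  rw [div_pow, div_mul_eq_mul_div, le_div_iff₀ (by positivity)]
  linarith

/-- PROOF. We may assume `n ≥ C' B³` with `C'` large (`B ≥ 1`).  `y = c.rd (n - c.C) 0`, `H = C₁ B`, `θ = H / 4`, `N = C₂ n`,
`F` = the edges of the tube (`card_tube`: at most `C₃ n H`), `d = c₀ / √(n H)`, `m = 6`: `exp (K m² d² |F|) ≤ exp (36 K C₃ c₀²) ≤ 2` and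
`m d ≤ pl`.  `E` = {`Fw`, `Bw`, `Ts - p y ≤ 8 B`, no self avoiding path from `0` of length between `l` and `R` has less than half high
edges (`Good.peierls`)}: `Pr E ≥ 1/2`.  `Hs ω` = the high edges of the chosen geodesic of `res b (edg (Db c 0 y)) τ` in the tube,
`k = n / C` (`high_edges`).  `A` = {`Ts - p y ≤ 8 B - (su - sl) d k / 4`} (`Ts_drop`).  `tilt_transfer`: `1/2 ≤ 2 Pr A + 1/16 + 1/16`.
On `A` the event `Fw` fails with `θ' = (su - sl) d k / 4 - 8 B - 1` (take `z = y`, `T (cone) 0 y ≤ Ts`),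
so by `P_Fw` `3/16 ≤ C B / θ'`, `d k ≤ C B`, `√(n / H) ≤ C B`. -/
theorem growth (Q : Par) (g : V → ℝ) (c : Crd) (hg : IsMean Q g) (hl : ∀ z, c.p z + |c.q z| ≤ g z) :
    ∃ C : ℝ, 1 ≤ C ∧ ∀ (n R : ℝ) (M : Mdl Q.a Q.b), 1 ≤ n → C * n ^ 12 ≤ R → Good Q g R M →
    ∀ B : ℝ, 1 ≤ B → Ub M c (C * n) B → n ≤ C * B ^ 3 := by
  classical
  obtain ⟨CF, hCF, hFw⟩ := P_Fw Q g c hg hl
  obtain ⟨C3, hC3, hcard⟩ := card_tube c
  obtain ⟨Ch, hCh, hhigh⟩ := high_edges Q c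
  have ha := Q.ha
  have hab := Q.hab
  have hK := Q.hK
  have hpl := Q.hpl
  have hsl : 0 < Q.su - Q.sl := by linarith [Q.hs]
  have hcC := c.one_le
  have hba : 1 ≤ Q.b / Q.a := by rw [le_div_iff₀ ha]; linarith
  obtain ⟨C2, hC2def⟩ : ∃ x : ℝ, x = 2 * c.C * (Q.b / Q.a) := ⟨_, rfl⟩
  have hC2 : 1 ≤ C2 := by
    have e1 : 1 * 1 ≤ (2 * c.C) * (Q.b / Q.a) :=
      mul_le_mul (by linarith) hba (by norm_num) (by linarith)
    linarith
  obtain ⟨C1, hC1def⟩ : ∃ x : ℝ, x = 32 * CF := ⟨_, rfl⟩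
  have hKC : 0 < 72 * Q.K * C3 := by positivity
  obtain ⟨c0, hc0, hc0a, hc0b, hc0c⟩ : ∃ x : ℝ, 0 < x ∧ x ≤ 1 / 2 ∧ x ≤ Q.pl / 6 ∧
      x ≤ 1 / (72 * Q.K * C3) :=
    ⟨min (1 / 2) (min (Q.pl / 6) (1 / (72 * Q.K * C3))),
      lt_min (by norm_num) (lt_min (by positivity) (by positivity)), min_le_left _ _,
      (min_le_right _ _).trans (min_le_left _ _), (min_le_right _ _).trans (min_le_right _ _)⟩
  have hC20 : (0 : ℝ) ≤ C2 ^ 12 := by positivity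
  obtain ⟨A1, hA1⟩ : ∃ x : ℝ, x = 240 ^ 2 * Ch ^ 2 * C1 / c0 ^ 2 := ⟨_, rfl⟩
  obtain ⟨A2, hA2⟩ : ∃ x : ℝ, x = (64 * CF * Ch / ((Q.su - Q.sl) * c0)) ^ 2 * C1 := ⟨_, rfl⟩
  have hC10 : 0 < C1 := by linarith
  have hA10 : 0 ≤ A1 := by rw [hA1]; positivity
  have hA20 : 0 ≤ A2 := by rw [hA2]; positivity
  obtain ⟨A3, hA3⟩ : ∃ x : ℝ, x = 2 * c.C * (8 * Q.K + 1) := ⟨_, rfl⟩
  have hA30 : 0 ≤ A3 := by rw [hA3]; positivity
  have hCFC2 : 0 ≤ CF * C2 := by positivity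
  have hCFC12 : 0 ≤ CF * C2 ^ 12 := by positivity
  have hChC1 : 0 ≤ Ch * C1 := by positivity
  obtain ⟨C, hCdef⟩ : ∃ x : ℝ, x = CF * C2 + CF * C2 ^ 12 + 4 * c.C + C3 + Ch * C1 + A3 + A1 + A2 + C2 :=
    ⟨_, rfl⟩
  refine ⟨C, by linarith, ?_⟩
  intro n R M hn hR hG B hB hUb
  by_contra hcon
  push Not at hcon
  have hB3 : B ≤ B ^ 3 := by
    have h1 : 1 ≤ B ^ 2 := one_le_pow₀ hB
    calc B = B * 1 := (mul_one B).symm
      _ ≤ B * B ^ 2 := mul_le_mul_of_nonneg_left h1 (by linarith)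
      _ = B ^ 3 := by ring
  have hB31 : 1 ≤ B ^ 3 := hB.trans hB3
  have hB30 : 0 < B ^ 3 := by linarith
  -- lower bounds for `n`
  have hnB : ∀ x : ℝ, x ≤ C → x * B ^ 3 < n := fun x hx =>
    lt_of_le_of_lt (mul_le_mul_of_nonneg_right hx hB30.le) hcon
  have hnC : ∀ x : ℝ, 0 ≤ x → x ≤ C → x < n := fun x h0 hx =>
    lt_of_le_of_lt (le_mul_of_one_le_right h0 hB31) (hnB x hx)
  have hn0 : 0 < n := by linarith
  have hnn : n ≤ n ^ 12 := le_self_pow₀ hn (by norm_num)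
  have hn12 : 0 < n ^ 12 := by positivity
  have hRC : ∀ x : ℝ, 0 ≤ x → x ≤ C → x * n ≤ R := fun x h0 hx =>
    (mul_le_mul hx hnn hn0.le (h0.trans hx)).trans hR
  have h4 : 4 * c.C < n := hnC _ (by linarith) (by linarith)
  have hA3n : A3 < n := hnC _ hA30 (by linarith)
  -- the end point
  obtain ⟨y, hp, hq0⟩ : ∃ y : V, (-c.C ≤ c.p y - (n - c.C) ∧ c.p y - (n - c.C) ≤ c.C) ∧
      |c.q y| ≤ c.C := by
    refine ⟨c.rd (n - c.C) 0, abs_le.mp (c.rd_p (n - c.C) 0), ?_⟩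
    have h := c.rd_q (n - c.C) 0
    rwa [sub_zero] at h
  have hpn : c.p y ≤ n := by linarith [hp.2]
  have hpn2 : n / 2 ≤ c.p y := by linarith [hp.1]
  have hp0 : 0 ≤ c.p y := by linarith
  have hq9 : |c.q y| ≤ 9 * c.C := by linarith
  have hnmy : nm y ≤ 2 * c.C * n := by
    have h1 := c.nm_le y
    rw [abs_of_nonneg hp0] at h1
    have h2 : c.C * (c.p y + |c.q y|) ≤ c.C * (n + n) :=
      mul_le_mul_of_nonneg_left (by linarith) (by linarith)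
    linarith
  have hNy : Q.b / Q.a * nm y ≤ C2 * n := by
    have h1 := mul_le_mul_of_nonneg_left hnmy (show 0 ≤ Q.b / Q.a by linarith)
    have h2 : Q.b / Q.a * (2 * c.C * n) = C2 * n := by rw [hC2def]; ring
    linarith
  have hNy' : nm y ≤ C2 * n := by
    have h1 : 1 * nm y ≤ Q.b / Q.a * nm y := mul_le_mul_of_nonneg_right hba (nm_nonneg y)
    linarith
  have hC2n : C2 * n ≤ R := hRC _ (by linarith) (by linarith)
  -- the numbers
  obtain ⟨H, hH⟩ : ∃ x : ℝ, x = C1 * B := ⟨_, rfl⟩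
  have hC1one : 32 ≤ C1 := by rw [hC1def]; linarith
  have hH32 : 32 * B ≤ H := by rw [hH]; exact mul_le_mul_of_nonneg_right hC1one (by linarith)
  have hH1 : 1 ≤ H := by linarith
  have hH0 : 0 < H := by linarith
  have hC2n1 : 1 ≤ C2 * n := by
    have e1 : 1 * 1 ≤ C2 * n := mul_le_mul hC2 hn (by norm_num) (by linarith)
    linarith
  have hFwB : ∀ θ : ℝ, 0 < θ → M.P (fun τ => ¬ Fw Q.b c (C2 * n) θ τ) ≤ CF * B / θ := by
    refine hFw (C2 * n) R M hC2n1 ?_ hG B hB ?_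
    · refine le_trans ?_ hR
      rw [mul_pow, ← mul_assoc]
      exact mul_le_mul_of_nonneg_right (by linarith) hn12.le
    · intro z hz1 hz2 hz3
      refine hUb z hz1 (hz2.trans ?_) hz3
      rw [← mul_assoc]
      exact mul_le_mul_of_nonneg_right (by linarith) hn0.le
  have hF8 : M.P (fun τ => ¬ Fw Q.b c (C2 * n) (H / 4) τ) ≤ 1 / 8 := by
    refine (hFwB (H / 4) (by linarith)).trans ?_
    rw [div_le_div_iff₀ (by linarith) (by norm_num), hH, hC1def]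
    linarith
  -- Peierls
  obtain ⟨l, hl8, hl9⟩ : ∃ l : ℕ, 8 * Q.K ≤ l ∧ (l : ℝ) < 8 * Q.K + 1 :=
    ⟨⌈8 * Q.K⌉₊, Nat.le_ceil _, Nat.ceil_lt_add_one (by linarith)⟩
  have hl1 : 1 ≤ l := by
    have h1 : (1 : ℝ) ≤ l := by linarith
    exact_mod_cast h1
  have hCn : n ≤ C * n := le_mul_of_one_le_left hn0.le (by linarith)
  have hPE := Grow2_PE hG c y (C2 * n) (H / 4) B l (by linarith)
    (hUb y hp0 (hpn.trans hCn) hq9) hl1 hl8 hF8
  -- the tube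
  obtain ⟨F, hF1, hF2, hF3⟩ := hcard n H y hn hH1 hpn
  have hs : 0 < Real.sqrt (n * H) := Real.sqrt_pos.mpr (by positivity)
  have hss : Real.sqrt (n * H) ^ 2 = n * H := Real.sq_sqrt (by positivity)
  have hs1 : 1 ≤ Real.sqrt (n * H) := by
    rw [Real.one_le_sqrt]
    have e1 : 1 * 1 ≤ n * H := mul_le_mul hn hH1 (by norm_num) hn0.le
    linarith
  have hd0 : 0 ≤ c0 / Real.sqrt (n * H) := by positivity
  have hdc : c0 / Real.sqrt (n * H) ≤ c0 := div_le_self hc0.le hs1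
  have hexp : Real.exp (Q.K * 6 ^ 2 * (c0 / Real.sqrt (n * H)) ^ 2 * F.card) ≤ 2 := by
    have h1 : Q.K * 6 ^ 2 * (c0 / Real.sqrt (n * H)) ^ 2 * F.card ≤ 1 / 2 := by
      rw [div_pow, hss]
      have h2 : Q.K * 6 ^ 2 * (c0 ^ 2 / (n * H)) * F.card ≤
          Q.K * 6 ^ 2 * (c0 ^ 2 / (n * H)) * (C3 * n * H) :=
        mul_le_mul_of_nonneg_left hF2 (by positivity)
      have h3 : Q.K * 6 ^ 2 * (c0 ^ 2 / (n * H)) * (C3 * n * H) = 36 * Q.K * C3 * c0 ^ 2 := by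
        field_simp
        ring
      have h4 : c0 ^ 2 ≤ 1 / (72 * Q.K * C3) := by
        have h5 : c0 * c0 ≤ 1 * c0 := mul_le_mul_of_nonneg_right (by linarith) hc0.le
        rw [sq]
        linarith
      have h5 : 36 * Q.K * C3 * c0 ^ 2 ≤ 36 * Q.K * C3 * (1 / (72 * Q.K * C3)) :=
        mul_le_mul_of_nonneg_left h4 (by positivity)
      have h6 : 36 * Q.K * C3 * (1 / (72 * Q.K * C3)) = 1 / 2 := by
        have hK0 : Q.K ≠ 0 := by linarith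
        have hC30 : C3 ≠ 0 := by linarith
        field_simp
        norm_num
      linarith
    exact (Real.exp_le_exp.mpr h1).trans Grow2_exp
  have hdk := Grow2_dk (n := n) (H := H) hn0 hH0 hc0 (show 0 < Ch by linarith) (by
    have h1 : A1 * B ^ 3 < n := hnB _ (by linarith)
    have h2 : A1 * B ≤ A1 * B ^ 3 := mul_le_mul_of_nonneg_left hB3 hA10
    have h3 : c0 ^ 2 * (A1 * B) ≤ c0 ^ 2 * n := mul_le_mul_of_nonneg_left (by linarith)
      (by positivity)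
    have h4 : c0 ^ 2 * (A1 * B) = 240 ^ 2 * Ch ^ 2 * (C1 * B) := by
      rw [hA1]
      field_simp
    rw [h4] at h3
    rw [hH]
    exact h3)
  have hk : Real.exp (-(c0 / Real.sqrt (n * H) * (n / Ch) / 16)) ≤ 1 / 16 := by
    obtain ⟨x, hx⟩ : ∃ x : ℝ, x = c0 / Real.sqrt (n * H) * (n / Ch) / 16 := ⟨_, rfl⟩
    rw [← hx]
    have h1 : 15 ≤ x := by rw [hx]; linarith
    have h2 := Real.add_one_le_exp x
    rw [Real.exp_neg, inv_eq_one_div]
    exact one_div_le_one_div_of_le (by norm_num) (by linarith)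
  have hHigh : ∀ τ, Bd Q.a Q.b τ → Grow2_E Q c y (C2 * n) (H / 4) B R l τ → ∀ w : grid.Walk 0 y,
      IsGeo (res Q.b (edg (Db c 0 y)) τ) w → (n / Ch : ℝ) ≤
      (((wedges w).toFinset.filter fun e => Q.su ≤ τ e ∧ e ∈ edg (Tb c 0 y H)).card : ℝ) := by
    intro τ hτ hE w hw
    obtain ⟨e1, e2, e3, e4⟩ := hE
    have hlen1 : nm y ≤ w.length := by
      have := nm_le_length w
      rwa [sub_zero] at this
    have hlen2 : (w.length : ℝ) ≤ R := by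
      have h1 := geo_length (Bd_res hab.le hτ _) ha hw
      rw [sub_zero] at h1
      have h2 : (w.length : ℝ) ≤ Q.b / Q.a * nm y := by
        rw [div_mul_eq_mul_div, le_div_iff₀ ha]
        linarith
      linarith
    have hlen3 : l ≤ w.length := by
      have h1 : (l : ℝ) ≤ w.length := by
        have h2 : c.p y ≤ c.C * nm y := (le_abs_self _).trans (c.p_le y)
        have h3 : n / 2 ≤ c.C * w.length :=
          hpn2.trans (h2.trans (mul_le_mul_of_nonneg_left hlen1 (by linarith)))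
        have h4 : c.C * (8 * Q.K + 1) < c.C * w.length := by
          have : A3 = 2 * (c.C * (8 * Q.K + 1)) := by rw [hA3]; ring
          linarith
        have h5 := lt_of_mul_lt_mul_left h4 (by linarith)
        linarith
      exact_mod_cast h1
    have hhalf : (w.length : ℝ) / 2 ≤ nHigh Q.su τ w := by
      by_contra hc
      push Not at hc
      exact e4 ⟨y, w, hw.1, hlen3, hlen2, hc⟩
    refine hhigh τ y n (C2 * n) H (H / 4) hτ hH1 ?_ hpn2 hpn hq9 e1 e2 hNy (by linarith) w hw hhalf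
    have h1 : Ch * C1 * B ^ 3 < n := hnB _ (by linarith)
    have h2 : Ch * C1 * B ≤ Ch * C1 * B ^ 3 := mul_le_mul_of_nonneg_left hB3 hChC1
    rw [hH, ← mul_assoc]
    linarith
  have hA := Grow2_A hG c y (C2 * n) (H / 4) B H (c0 / Real.sqrt (n * H)) (n / Ch) l hPE hHigh F
    hF1 (fun e he => (hF3 e he).trans (hRC _ (by linarith) (by linarith))) hd0
    (by linarith) (by linarith) hexp hk
  have hend := Grow2_end c y (C2 * n) B _ CF hNy' hCF hB hFwB hA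
  have hfin := Grow2_fin hn0 hH0 hc0 (show 0 < Ch by linarith) hsl hend
  have h1 : (64 * CF * B * Ch / ((Q.su - Q.sl) * c0)) ^ 2 * H = A2 * B ^ 3 := by
    rw [hA2, hH]
    ring
  rw [h1] at hfin
  have h2 := hnB A2 (by linarith)
  linarith

end Pool.Agent.W_1b8d5d_c1
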