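import Pool.Agent.W_1b8d5d_c1.Mean1

/-!
MP_1b8d5d_pr (N2): the mean positive excess of `Ts` is at most `C n^(3/4)`.
-/

set_option autoImplicit false

namespace Pool.Agent.W_1b8d5d_c1

open Finset Pool.Agent.W_1b8d5d_h85

/-- The passage time with the weights of the cone at the starting point. -/
noncomputable def Tk (b : ℝ) (c : Crd) (τ : Env) (x y : V) : ℝ := T (res b (edg {z | z - x ∈ Kn c}) τ) x y

/-- A geodesic stays in `A`, or it leaves `A`. -/
private theorem Mean2_det {a b : ℝ} (ha : 0 < a) (hab : a ≤ b) {τ : Env} (hτ : Bd a b τ) (A : Set V)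
    (x y : V) : T (res b (edg A) τ) x y ≤ T τ x y ∨
      ∃ z, z ∉ A ∧ nm (z - x) ≤ b / a * nm (y - x) ∧ T τ x z + T τ z y ≤ T τ x y := by
  obtain ⟨w, hw⟩ := exists_geo hτ ha x y
  by_cases h : ∀ z ∈ w.support, z ∈ A
  · left
    refine (T_res_eq ha.le hab hτ hw.2 fun e he => ?_).le
    have h1 := wedges_support w he
    exact ⟨h _ h1.1, h _ h1.2⟩
  · right
    push Not at h
    obtain ⟨z, hz, hzA⟩ := h
    obtain ⟨i, hi, -⟩ := SimpleGraph.Walk.mem_support_iff_exists_getVert.1 hz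
    refine ⟨z, hzA, ?_, ?_⟩
    · rw [← hi]
      exact geo_near hτ ha hw i
    · rw [← hi]
      exact (geo_add hτ ha.le hw i).le

/-- The cost of forcing a geodesic to stay in `A`. -/
private theorem Mean2_leave (Q : Par) (g : V → ℝ) (hg : IsMean Q g) {c₀ C₀ : ℝ} (hc : 0 < c₀) (hC : 1 ≤ C₀) :
    ∃ C : ℝ, 1 ≤ C ∧ ∀ (α R : ℝ) (M : Mdl Q.a Q.b), 1 ≤ α → C * α ≤ R → Good Q g R M →
    ∀ (x y : V) (A B : Set V) (v : ℝ), nm (y - x) ≤ C₀ * α →
      (∀ z, z ∉ A → v + 2 * c₀ * α ≤ g (z - x) + g (y - z)) →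
      M.E (fun τ => T (res Q.b (edg A ∩ edg B) τ) x y) ≤
        M.E (fun τ => T (res Q.b (edg B) τ) x y) + C +
        C * M.E (fun τ => max (T (res Q.b (edg B) τ) x y - v) 0) := by
  classical
  have ha : 0 < Q.a := Q.ha
  have hb : 0 < Q.b := Q.ha.trans Q.hab
  have hba : 0 < Q.b / Q.a := by positivity
  obtain ⟨C, hC1, hle⟩ := leave Q g hg (c₀ := c₀) (C₀ := C₀ * (1 + Q.b / Q.a)) hc (by nlinarith)
  have k1 : 0 ≤ Q.b * C₀ * C := by positivity
  have k2 : 0 ≤ Q.b * C₀ / c₀ := by positivity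
  refine ⟨C + Q.b * C₀ * C + Q.b * C₀ / c₀, by linarith, ?_⟩
  intro α R M hα hαR hM x y A B v hxy hgap
  have hα0 : 0 < α := by linarith
  have hCα : C * α ≤ R := by nlinarith
  obtain ⟨p, hp⟩ : ∃ p : Env → Prop, p = fun τ => ∃ z ∈ {z : V | z ∉ A ∧
    nm (z - x) ≤ C₀ * (1 + Q.b / Q.a) * α}, T τ x z + T τ z y ≤ v + c₀ * α := ⟨_, rfl⟩
  have hP : M.P p ≤ C / α := by
    rw [hp]
    refine hle α R M hα hCα hM x y _ v ?_ ?_
    · refine hxy.trans (mul_le_mul_of_nonneg_right ?_ hα0.le)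
      nlinarith
    · rintro z ⟨h1, h2⟩
      exact ⟨h2, hgap z h1⟩
  have hn0 := nm_nonneg (y - x)
  have hpt : ∀ τ, Bd Q.a Q.b τ → T (res Q.b (edg A ∩ edg B) τ) x y ≤
      T (res Q.b (edg B) τ) x y + (Q.b * nm (y - x)) * ((if p τ then (1 : ℝ) else 0) +
        (1 / (c₀ * α)) * max (T (res Q.b (edg B) τ) x y - v) 0) := by
    intro τ hτ
    have hτB := Bd_res Q.hab.le hτ (edg B)
    have e1 : res Q.b (edg A ∩ edg B) τ = res Q.b (edg A) (res Q.b (edg B) τ) :=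
      (res_res Q.b (edg A) (edg B) τ).symm
    have hm0 : 0 ≤ max (T (res Q.b (edg B) τ) x y - v) 0 := le_max_right _ _
    have hr0 : 0 ≤ (1 / (c₀ * α)) * max (T (res Q.b (edg B) τ) x y - v) 0 := by positivity
    have hbn : 0 ≤ Q.b * nm (y - x) := by positivity
    have hi0 : (0 : ℝ) ≤ if p τ then (1 : ℝ) else 0 := by split_ifs <;> norm_num
    rw [e1]
    rcases Mean2_det ha Q.hab.le hτB A x y with h | ⟨z, hz, hzn, hzT⟩
    · have := mul_nonneg hbn (add_nonneg hi0 hr0)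
      linarith
    · have hup := T_upper (Bd_res Q.hab.le hτB (edg A)) ha.le x y
      have h0 := T_nonneg hτB ha.le x y
      have hone : 1 ≤ (if p τ then (1 : ℝ) else 0) +
          (1 / (c₀ * α)) * max (T (res Q.b (edg B) τ) x y - v) 0 := by
        by_cases hcase : T (res Q.b (edg B) τ) x y ≤ v + c₀ * α
        · have hpτ : p τ := by
            rw [hp]
            refine ⟨z, ⟨hz, ?_⟩, ?_⟩
            · have h3 : Q.b / Q.a * nm (y - x) ≤ Q.b / Q.a * (C₀ * α) :=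
                mul_le_mul_of_nonneg_left hxy hba.le
              have h4 : 0 ≤ C₀ * α := by positivity
              nlinarith
            · have h3 := T_le_res ha.le hτ (edg B) x z
              have h4 := T_le_res ha.le hτ (edg B) z y
              linarith
          rw [if_pos hpτ]
          linarith
        · push Not at hcase
          have h3 : c₀ * α ≤ max (T (res Q.b (edg B) τ) x y - v) 0 :=
            (by linarith : c₀ * α ≤ T (res Q.b (edg B) τ) x y - v).trans (le_max_left _ _)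
          have h4 : 1 ≤ (1 / (c₀ * α)) * max (T (res Q.b (edg B) τ) x y - v) 0 := by
            rw [div_mul_eq_mul_div, one_mul, le_div_iff₀ (by positivity)]
            linarith
          linarith
      have h5 : Q.b * nm (y - x) * 1 ≤ Q.b * nm (y - x) * ((if p τ then (1 : ℝ) else 0) +
          (1 / (c₀ * α)) * max (T (res Q.b (edg B) τ) x y - v) 0) :=
        mul_le_mul_of_nonneg_left hone hbn
      linarith
  have hE := M.E_mono hpt
  rw [Mdl.E_add, Mdl.E_mul_left, Mdl.E_add, Mdl.E_mul_left, ← Mdl.P_def] at hE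
  refine hE.trans ?_
  have hD0 : 0 ≤ M.E (fun τ => max (T (res Q.b (edg B) τ) x y - v) 0) :=
    M.E_nonneg fun τ _ => le_max_right _ _
  obtain ⟨D, hD⟩ : ∃ D : ℝ, D = M.E (fun τ => max (T (res Q.b (edg B) τ) x y - v) 0) := ⟨_, rfl⟩
  rw [← hD] at hD0 ⊢
  have h1 : Q.b * nm (y - x) ≤ Q.b * (C₀ * α) := mul_le_mul_of_nonneg_left hxy hb.le
  have h2 : M.P p + 1 / (c₀ * α) * D ≤ C / α + 1 / (c₀ * α) * D := by linarith
  have h3 : Q.b * nm (y - x) * (M.P p + 1 / (c₀ * α) * D) ≤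
      Q.b * (C₀ * α) * (C / α + 1 / (c₀ * α) * D) :=
    mul_le_mul h1 h2 (add_nonneg (M.P_nonneg _) (by positivity)) (by positivity)
  have h4 : Q.b * (C₀ * α) * (C / α + 1 / (c₀ * α) * D) = Q.b * C₀ * C + Q.b * C₀ / c₀ * D := by
    field_simp
  have h5 : 0 ≤ (C + Q.b * C₀ * C) * D := by positivity
  nlinarith

private theorem Mean2_univ (b : ℝ) (τ : Env) : res b (edg Set.univ) τ = τ := by
  funext e
  unfold res edg
  rw [if_pos]
  exact ⟨Set.mem_univ _, Set.mem_univ _⟩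

private theorem Mean2_zero (c : Crd) : {z : V | z - 0 ∈ Kn c} = Kn c := by
  ext z
  simp


private theorem Mean2_sqrtK {K α : ℝ} (hK : 1 ≤ K) : Real.sqrt (K * α) ≤ K * Real.sqrt α := by
  rw [Real.sqrt_mul (by linarith)]
  refine mul_le_mul_of_nonneg_right ?_ (Real.sqrt_nonneg α)
  rw [Real.sqrt_le_left (by linarith)]
  nlinarith

private theorem Mean2_half {s t : ℝ} (ht : 0 ≤ t) (h : s ≤ t / 2) : Real.sqrt s ≤ 3 / 4 * Real.sqrt t := by
  rw [Real.sqrt_le_left (by positivity), mul_pow, Real.sq_sqrt ht]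
  linarith

/-- `E T x y` and the positive part. -/
private theorem Mean2_pos {Q : Par} {g : V → ℝ} {M : Mdl Q.a Q.b} {x y : V} {v d e : ℝ}
    (h1 : g (y - x) ≤ v + e) (h2 : M.E (fun τ => |T τ x y - g (y - x)|) ≤ d) (he : 0 ≤ e) :
    M.E (fun τ => max (T τ x y - v) 0) ≤ d + e := by
  have h3 : M.E (fun τ => max (T τ x y - v) 0) ≤ M.E (fun τ => |T τ x y - g (y - x)| + e) := by
    refine M.E_mono fun τ _ => ?_
    have h4 := le_abs_self (T τ x y - g (y - x))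
    have h5 := abs_nonneg (T τ x y - g (y - x))
    refine max_le ?_ ?_ <;> linarith
  rw [Mdl.E_add, Mdl.E_const] at h3
  linarith

private theorem Mean2_k (Q : Par) (g : V → ℝ) (c : Crd) (hg : IsMean Q g) (hl : ∀ z, c.p z + |c.q z| ≤ g z)
    (hcb : CornerBound g c) :
    ∃ C : ℝ, 1 ≤ C ∧ ∀ (n R : ℝ) (M : Mdl Q.a Q.b), 1 ≤ n → C * n ≤ R → Good Q g R M →
    ∀ y, 0 ≤ c.p y → c.p y ≤ n → |c.q y| ≤ 9 * c.C →
      M.E (fun τ => Tk Q.b c τ 0 y) ≤ c.p y + C + C * Real.sqrt (c.p y) := by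
  have ha : 0 < Q.a := Q.ha
  have hb : 0 < Q.b := Q.ha.trans Q.hab
  obtain ⟨K, hKd⟩ : ∃ K : ℝ, K = c.C := ⟨_, rfl⟩
  have hK : 1 ≤ K := hKd ▸ c.one_le
  obtain ⟨c₁, hc₁, hgap⟩ := gap hg hl
  obtain ⟨C₁, hC₁0, hC₁⟩ := hcb (9 * K)
  obtain ⟨CL, hCL1, hleave⟩ := Mean2_leave Q g hg (c₀ := c₁ / 4) (C₀ := K) (by positivity) hK
  obtain ⟨CA, hCA1, habs⟩ := abs_dev Q g
  obtain ⟨C₂, hC₂⟩ : ∃ C₂ : ℝ, C₂ = C₁ + 1 + CL + CL * (CA * K + C₁) := ⟨_, rfl⟩
  obtain ⟨B₀, hB₀⟩ : ∃ B₀ : ℝ, B₀ = Q.b * (K * (2200 * K + 9 * K)) := ⟨_, rfl⟩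
  have hC₂0 : 0 ≤ C₂ := by rw [hC₂]; positivity
  have hB₀0 : 0 ≤ B₀ := by rw [hB₀]; positivity
  refine ⟨B₀ + 4 * C₂ + CL + K, by linarith, ?_⟩
  intro n R M hn hR hM
  rw [← hKd]
  have hR1 : CL * n ≤ R := by nlinarith
  have hR2 : K * n ≤ R := by nlinarith
  -- the step
  have hstep : ∀ y, 2200 * K ≤ c.p y → c.p y ≤ n → |c.q y| ≤ 9 * K → ∃ x, 0 ≤ c.p x ∧
      c.p x ≤ c.p y / 2 ∧ |c.q x| ≤ 9 * K ∧ M.E (fun τ => Tk Q.b c τ 0 y) ≤
        M.E (fun τ => Tk Q.b c τ 0 x) + c.p (y - x) + C₂ * Real.sqrt (c.p y) := by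
    intro y hy1 hy2 hy3
    obtain ⟨α, hα⟩ : ∃ α : ℝ, α = c.p y := ⟨_, rfl⟩
    rw [← hα] at hy1 hy2 ⊢
    obtain ⟨x, hx⟩ : ∃ x : V, x = c.rd (α / 2 - K) (c.q y / 2) := ⟨_, rfl⟩
    have px := c.rd_p (α / 2 - K) (c.q y / 2)
    have qx := c.rd_q (α / 2 - K) (c.q y / 2)
    rw [← hx, ← hKd, abs_le] at px qx
    obtain ⟨px1, px2⟩ := px
    obtain ⟨qx1, qx2⟩ := qx
    rw [abs_le] at hy3
    obtain ⟨qy1, qy2⟩ := hy3
    have hqx : |c.q x| ≤ 11 / 2 * K := abs_le.2 ⟨by linarith, by linarith⟩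
    have hα1 : 1 ≤ α := by linarith
    have hα0 : 0 < α := by linarith
    have pyx : c.p (y - x) = α - c.p x := by rw [map_sub, hα]
    have qyx : c.q (y - x) = c.q y - c.q x := map_sub _ _ _
    have nyx : nm (y - x) ≤ K * α := by
      have h1 := c.nm_le (y - x)
      rw [pyx, qyx, ← hKd] at h1
      have h2 : |α - c.p x| ≤ α / 2 + 2 * K := abs_le.2 ⟨by linarith, by linarith⟩
      have h3 : |c.q y - c.q x| ≤ 11 / 2 * K := abs_le.2 ⟨by linarith, by linarith⟩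
      exact h1.trans (mul_le_mul_of_nonneg_left (by linarith) (by linarith))
    refine ⟨x, by linarith, by linarith, by linarith, ?_⟩
    -- triangle
    have htri : M.E (fun τ => Tk Q.b c τ 0 y) ≤ M.E (fun τ => Tk Q.b c τ 0 x) +
        M.E (fun τ => T (res Q.b (edg (Kn c) ∩ edg Set.univ) τ) x y) := by
      rw [← Mdl.E_add]
      refine M.E_mono fun τ hτ => ?_
      unfold Tk
      rw [Mean2_zero, ← res_res, Mean2_univ]
      exact T_triangle (Bd_res Q.hab.le hτ _) ha.le 0 x y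
    have hL := hleave α R M hα1 (by nlinarith) hM x y (Kn c) Set.univ (c.p (y - x)) nyx (by
      intro z hz
      have h1 := hgap (α / 4) x y z (by positivity) (by linarith)
        (hqx.trans (by linarith)) hz
      linarith)
    simp only [Mean2_univ] at hL
    have hs1 : 1 ≤ Real.sqrt α := by
      rw [Real.one_le_sqrt]
      exact hα1
    have hg1 : g (y - x) ≤ c.p (y - x) + C₁ * Real.sqrt α := by
      have h1 := hC₁ (c.p (y - x)) (y - x) (by linarith) (by rw [sub_self, abs_zero]; linarith)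
        (by rw [qyx]; exact abs_le.2 ⟨by linarith, by linarith⟩)
      have h2 : Real.sqrt (c.p (y - x)) ≤ Real.sqrt α := Real.sqrt_le_sqrt (by linarith)
      have h3 := mul_le_mul_of_nonneg_left h2 hC₁0
      linarith
    have hdev := habs (K * α) R M (by nlinarith) (by nlinarith) hM x y nyx
    have hdev2 : M.E (fun τ => |T τ x y - g (y - x)|) ≤ CA * K * Real.sqrt α := by
      refine hdev.trans ?_
      have := mul_le_mul_of_nonneg_left (Mean2_sqrtK (α := α) hK) (show 0 ≤ CA by linarith)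
      linarith
    have hpos := Mean2_pos hg1 hdev2 (by positivity)
    have hmean := hM.mean' (x := x) (y := y) (nyx.trans (by nlinarith))
    rw [abs_le] at hmean
    have h6 : CL * M.E (fun τ => max (T τ x y - c.p (y - x)) 0) ≤
        CL * (CA * K * Real.sqrt α + C₁ * Real.sqrt α) :=
      mul_le_mul_of_nonneg_left hpos (by linarith)
    have h7 : C₂ * Real.sqrt α = C₁ * Real.sqrt α + Real.sqrt α + CL * Real.sqrt α +
        CL * (CA * K * Real.sqrt α + C₁ * Real.sqrt α) := by rw [hC₂]; ring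
    have h8 : CL * 1 ≤ CL * Real.sqrt α := mul_le_mul_of_nonneg_left hs1 (by linarith)
    linarith [hmean.2]
  -- the base
  have hbase : ∀ y, 0 ≤ c.p y → c.p y ≤ 2200 * K → |c.q y| ≤ 9 * K →
      M.E (fun τ => Tk Q.b c τ 0 y) ≤ B₀ := by
    intro y h0 h1 h2
    refine M.E_le_of_le fun τ hτ => ?_
    unfold Tk
    have h3 := T_upper (Bd_res Q.hab.le hτ (edg {z | z - 0 ∈ Kn c})) ha.le 0 y
    rw [sub_zero] at h3
    have h4 := c.nm_le y
    rw [← hKd, abs_of_nonneg h0] at h4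
    have h5 : K * (c.p y + |c.q y|) ≤ K * (2200 * K + 9 * K) :=
      mul_le_mul_of_nonneg_left (by linarith) (by linarith)
    have h6 : Q.b * nm y ≤ Q.b * (K * (2200 * K + 9 * K)) :=
      mul_le_mul_of_nonneg_left (h4.trans h5) hb.le
    rw [hB₀]
    exact h3.trans h6
  have hind : ∀ k : ℕ, ∀ y, 0 ≤ c.p y → c.p y ≤ 2 ^ k → c.p y ≤ n → |c.q y| ≤ 9 * K →
      M.E (fun τ => Tk Q.b c τ 0 y) ≤ c.p y + B₀ + 4 * C₂ * Real.sqrt (c.p y) := by
    intro k
    induction k with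
    | zero =>
      intro y h0 h1 h2 h3
      have h4 := hbase y h0 (by rw [pow_zero] at h1; linarith) h3
      have h5 : 0 ≤ 4 * C₂ * Real.sqrt (c.p y) := by positivity
      linarith
    | succ k ih =>
      intro y h0 h1 h2 h3
      by_cases hsm : c.p y ≤ 2200 * K
      · have h4 := hbase y h0 hsm h3
        have h5 : 0 ≤ 4 * C₂ * Real.sqrt (c.p y) := by positivity
        linarith
      · push Not at hsm
        obtain ⟨x, x0, x1, x2, x3⟩ := hstep y hsm.le h2 h3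
        have h4 := ih x x0 (by rw [pow_succ] at h1; linarith) (by linarith) x2
        have h5 := Mean2_half h0 x1
        have h6 : 4 * C₂ * Real.sqrt (c.p x) ≤ 4 * C₂ * (3 / 4 * Real.sqrt (c.p y)) :=
          mul_le_mul_of_nonneg_left h5 (by positivity)
        rw [map_sub] at x3
        linarith
  intro y h0 h1 h2
  obtain ⟨k, hk⟩ := pow_unbounded_of_one_lt (c.p y) (show (1 : ℝ) < 2 by norm_num)
  have h3 := hind k y h0 hk.le h1 h2
  have h4 := Real.sqrt_nonneg (c.p y)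
  nlinarith

private theorem Mean2_pow {n : ℝ} (hn : 1 ≤ n) : 1 ≤ n ^ (3 / 4 : ℝ) ∧ Real.sqrt n ≤ n ^ (3 / 4 : ℝ) := by
  refine ⟨Real.one_le_rpow hn (by norm_num), ?_⟩
  rw [Real.sqrt_eq_rpow]
  exact Real.rpow_le_rpow_of_exponent_le hn (by norm_num)

/-- PROOF. Let `U α` be the supremum of `E Tk 0 y - p y` over `0 ≤ p y ≤ α`, `|q y| ≤ 9 C` (finitely many `y`).  For `α ≥ α₀`, `α < p y ≤ 2 α`
let `x = c.rd (p y / 2 - C) (q y / 2)`; `Tk 0 y ≤ Tk 0 x + T (cone at 0) x y`.  A geodesic of `τ` from `x` to `y` which leaves `Kn c` contains a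
`z ∉ Kn c` with `T x z + T z y = T x y`; by `gap` (`D = p x ≥ α / 4`) and `leave` with `v = p (y - x)` the probability of this, given
`T x y ≤ v + c₀ α` (which fails with probability `≤ C / α` by Chebyshev and `g (y - x) ≤ p (y - x) + C √α`: `CornerBound`), is `≤ C / α`; otherwise
`T (cone) x y = T x y` (`T_res_eq`), and always `T (cone) x y ≤ b nm (y - x) ≤ C α`.  So
`E T (cone at 0) x y ≤ g (y - x) + 1 + C ≤ p (y - x) + C √α`, `U (2 α) ≤ U α + C √α`; iterate. -/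
theorem mean_k (Q : Par) (g : V → ℝ) (c : Crd) (hg : IsMean Q g) (hl : ∀ z, c.p z + |c.q z| ≤ g z)
    (hcb : CornerBound g c) :
    ∃ C : ℝ, 1 ≤ C ∧ ∀ (n R : ℝ) (M : Mdl Q.a Q.b), 1 ≤ n → C * n ≤ R → Good Q g R M →
    ∀ y, 0 ≤ c.p y → c.p y ≤ n → |c.q y| ≤ 9 * c.C → M.E (fun τ => Tk Q.b c τ 0 y) ≤ c.p y + C * n ^ (3 / 4 : ℝ) := by
  obtain ⟨C, hC, h⟩ := Mean2_k Q g c hg hl hcb
  refine ⟨2 * C, by linarith, ?_⟩
  intro n R M hn hR hM y h0 h1 h2
  have h3 := h n R M hn (by nlinarith) hM y h0 h1 h2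
  obtain ⟨h4, h5⟩ := Mean2_pow hn
  have h6 : Real.sqrt (c.p y) ≤ n ^ (3 / 4 : ℝ) := (Real.sqrt_le_sqrt h1).trans h5
  have h7 : C * Real.sqrt (c.p y) ≤ C * n ^ (3 / 4 : ℝ) := mul_le_mul_of_nonneg_left h6 (by linarith)
  have h8 : C * 1 ≤ C * n ^ (3 / 4 : ℝ) := mul_le_mul_of_nonneg_left h4 (by linarith)
  linarith


/-- Positive part from the mean. -/
private theorem Mean2_pos2 {Q : Par} {g : V → ℝ} {M : Mdl Q.a Q.b} {F : Env → ℝ} {x y : V} {v : ℝ}
    (hF : ∀ τ, Bd Q.a Q.b τ → T τ x y ≤ F τ) (hv : v ≤ g (y - x)) :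
    M.E (fun τ => max (F τ - v) 0) ≤ M.E F - v + M.E (fun τ => |T τ x y - g (y - x)|) := by
  have h3 : M.E (fun τ => max (F τ - v) 0) ≤
      M.E (fun τ => (F τ - v) + |T τ x y - g (y - x)|) := by
    refine M.E_mono fun τ hτ => ?_
    have h4 := neg_abs_le (T τ x y - g (y - x))
    have h5 := abs_nonneg (T τ x y - g (y - x))
    have h6 := hF τ hτ
    refine max_le ?_ ?_ <;> linarith
  rw [Mdl.E_add, Mdl.E_sub, Mdl.E_const] at h3
  linarith

private theorem Mean2_refl {Q : Par} {g : V → ℝ} {R : ℝ} {M : Mdl Q.a Q.b} (hM : Good Q g R M) (c : Crd)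
    (x y : V) : M.E (fun τ => T (res Q.b (edg (Db c 0 y)) τ) x y) =
      M.E (fun τ => T (res Q.b (edg (Db c 0 y)) τ) 0 (y - x)) := by
  have h1 := hM.refl (fun τ => T (res Q.b (edg (Db c 0 y)) τ) x y)
  have h2 := hM.inv y (fun τ => T (res Q.b (edg {w | -w ∈ Db c 0 y}) τ) (-x) (-y))
  rw [← h1]
  have h3 : (fun τ => T (res Q.b (edg (Db c 0 y)) (rf τ)) x y) =
      fun τ => T (res Q.b (edg {w | -w ∈ Db c 0 y}) τ) (-x) (-y) := funext fun τ => T_res_rf _ _ _ _ _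
  rw [h3, ← h2]
  refine congrArg M.E (funext fun τ => ?_)
  have h4 : {w : V | w - y ∈ {w : V | -w ∈ Db c 0 y}} = Db c 0 y := by
    ext w
    simp only [Db, Set.mem_ofPred_eq, sub_zero, neg_sub, sub_sub_cancel]
    exact and_comm
  rw [T_res_sh, T_symm, h4, neg_add_cancel, neg_add_eq_sub]

/-- PROOF. Let `α = p y` be large, `x = c.rd (p y / 2) (q y / 2)`; `Ts 0 y ≤ T (Db 0 y) 0 x + T (Db 0 y) x y`.  For the first piece take a geodesic `w` of
the weights of `Kn c` from `0` to `x`; if it stays in `{z | y - z ∈ Kn c}` then `T (Db 0 y) 0 x = Tk 0 x`.  Otherwise some `z` on it has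
`y - z ∉ Kn c` and `T 0 z + T z x ≤ Tk 0 x`; by `gap'` (`D = p (y - x)`) and `leave` (with `v = p x`) this has, up to probability `C / α`,
`Tk 0 x - p x ≥ c₀ α`, of probability `≤ C α^(-1/4)` by Markov (`mean_k` and `abs_dev`: `E (Tk 0 x - p x)⁺ ≤ C α^(3/4)`).  In the
exceptional case use `b nm x ≤ C α`.  So `E T (Db 0 y) 0 x ≤ p x + C α^(3/4)`; the second piece is the reflection of the first (`Good.refl`,
`T_res_rf`, `Ts_rf`).  Finally `(Ts - p y)⁺ = (Ts - p y) + (p y - Ts)⁺` and `(p y - Ts)⁺ ≤ (g y - T)⁺ ≤ |T 0 y - g y|`. -/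
theorem mean34 (Q : Par) (g : V → ℝ) (c : Crd) (hg : IsMean Q g) (hl : ∀ z, c.p z + |c.q z| ≤ g z)
    (hcb : CornerBound g c) :
    ∃ C : ℝ, 1 ≤ C ∧ ∀ (n R : ℝ) (M : Mdl Q.a Q.b), 1 ≤ n → C * n ≤ R → Good Q g R M →
    ∀ y, 0 ≤ c.p y → c.p y ≤ n → |c.q y| ≤ 9 * c.C → Sx M c y ≤ C * n ^ (3 / 4 : ℝ) := by
  have ha : 0 < Q.a := Q.ha
  have hb : 0 < Q.b := Q.ha.trans Q.hab
  obtain ⟨K, hKd⟩ : ∃ K : ℝ, K = c.C := ⟨_, rfl⟩
  have hK : 1 ≤ K := hKd ▸ c.one_le
  obtain ⟨c₁, hc₁, hgap⟩ := gap' hg hl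
  obtain ⟨CL, hCL1, hleave⟩ := Mean2_leave Q g hg (c₀ := c₁ / 4) (C₀ := K) (by positivity) hK
  obtain ⟨CA, hCA1, habs⟩ := abs_dev Q g
  obtain ⟨Ck, hCk1, hmk⟩ := mean_k Q g c hg hl hcb
  obtain ⟨C₃, hC₃⟩ : ∃ C₃ : ℝ, C₃ = Ck + CL + CL * (Ck + CA * K) := ⟨_, rfl⟩
  obtain ⟨B₀, hB₀⟩ : ∃ B₀ : ℝ, B₀ = Q.b * (K * (2200 * K + 9 * K)) := ⟨_, rfl⟩
  have hC₃0 : 0 ≤ C₃ := by rw [hC₃]; positivity
  have hB₀0 : 0 ≤ B₀ := by rw [hB₀]; positivity
  have hCAK : 0 ≤ CA * K := by positivity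
  refine ⟨B₀ + 2 * C₃ + CL + 10 * K + CA * (10 * K) + Ck, by linarith, ?_⟩
  intro n R M hn hR hM
  rw [← hKd]
  obtain ⟨N, hN⟩ : ∃ N : ℝ, N = n ^ (3 / 4 : ℝ) := ⟨_, rfl⟩
  obtain ⟨hN1, hN2⟩ := Mean2_pow hn
  rw [← hN] at hN1 hN2 ⊢
  have hR1 : CL * n ≤ R := by nlinarith
  have hR2 : 10 * K * n ≤ R := by nlinarith
  have hR3 : Ck * n ≤ R := by nlinarith
  -- the pieces
  have hpiece : ∀ x y, 2200 * K ≤ c.p y → c.p y ≤ n → |c.q y| ≤ 9 * K →
      |c.p x - c.p y / 2| ≤ K → |c.q x - c.q y / 2| ≤ K →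
      M.E (fun τ => T (res Q.b (edg (Db c 0 y)) τ) 0 x) ≤ c.p x + C₃ * N := by
    intro x y hy1 hy2 hy3 px qx
    obtain ⟨α, hα⟩ : ∃ α : ℝ, α = c.p y := ⟨_, rfl⟩
    rw [← hα] at hy1 hy2 px
    rw [abs_le] at px qx hy3
    obtain ⟨px1, px2⟩ := px
    obtain ⟨qx1, qx2⟩ := qx
    obtain ⟨qy1, qy2⟩ := hy3
    have hqx : |c.q x| ≤ 11 / 2 * K := abs_le.2 ⟨by linarith, by linarith⟩
    have hα1 : 1 ≤ α := by linarith
    have hα0 : 0 < α := by linarith
    have pyx : c.p (y - x) = α - c.p x := by rw [map_sub, hα]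
    have qyx : c.q (y - x) = c.q y - c.q x := map_sub _ _ _
    have nx : nm (x - 0) ≤ K * α := by
      rw [sub_zero]
      have h1 := c.nm_le x
      rw [← hKd] at h1
      have h2 : |c.p x| ≤ α / 2 + 2 * K := abs_le.2 ⟨by linarith, by linarith⟩
      exact h1.trans (mul_le_mul_of_nonneg_left (by linarith) (by linarith))
    have hL := hleave α R M hα1 (by nlinarith) hM 0 x {z | y - z ∈ Kn c} (Kn c) (c.p x) nx (by
      intro z hz
      have h1 := hgap (α / 4) 0 x z y (by positivity) (by rw [pyx]; linarith)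
        (by rw [qyx]; exact abs_le.2 ⟨by linarith, by linarith⟩) hz
      simp only [sub_zero] at h1 ⊢
      linarith)
    have hDb : {z : V | y - z ∈ Kn c} ∩ Kn c = Db c 0 y := by
      ext z
      simp only [Db, Set.mem_inter_iff, Set.mem_ofPred_eq, sub_zero]
      exact and_comm
    rw [← edg_inter, hDb] at hL
    have hTk : ∀ τ, T (res Q.b (edg (Kn c)) τ) 0 x = Tk Q.b c τ 0 x := by
      intro τ
      unfold Tk
      rw [Mean2_zero]
    simp only [hTk] at hL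
    have hk := hmk n R M hn hR3 hM x (by linarith) (by linarith) (by rw [← hKd]; linarith)
    rw [← hN] at hk
    have hdev := habs (K * α) R M (by nlinarith) (by nlinarith) hM 0 x nx
    have hdev2 : M.E (fun τ => |T τ 0 x - g (x - 0)|) ≤ CA * K * N := by
      refine hdev.trans ?_
      have h1 := mul_le_mul_of_nonneg_left (Mean2_sqrtK (α := α) hK) (show 0 ≤ CA by linarith)
      have h2 : Real.sqrt α ≤ N := (Real.sqrt_le_sqrt hy2).trans hN2
      have h3 := mul_le_mul_of_nonneg_left h2 hCAK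
      linarith
    have hpos := Mean2_pos2 (M := M) (g := g) (F := fun τ => Tk Q.b c τ 0 x) (x := 0) (y := x) (v := c.p x)
      (fun τ hτ => T_le_res ha.le hτ _ 0 x) (by
        rw [sub_zero]
        have := hl x
        have := abs_nonneg (c.q x)
        linarith)
    have h6 : CL * M.E (fun τ => max (Tk Q.b c τ 0 x - c.p x) 0) ≤ CL * ((Ck + CA * K) * N) :=
      mul_le_mul_of_nonneg_left (by linarith) (by linarith)
    have h7 : C₃ * N = Ck * N + CL * N + CL * ((Ck + CA * K) * N) := by rw [hC₃]; ring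
    have h8 : CL * 1 ≤ CL * N := mul_le_mul_of_nonneg_left hN1 (by linarith)
    linarith
  intro y hy0 hy2 hy3
  have hBN : B₀ * 1 ≤ B₀ * N := mul_le_mul_of_nonneg_left hN1 hB₀0
  have hrest : 0 ≤ (2 * C₃ + CL + 10 * K + CA * (10 * K) + Ck) * N := by positivity
  have hny := c.nm_le y
  rw [← hKd, abs_of_nonneg hy0] at hny
  by_cases hsm : c.p y ≤ 2200 * K
  · have h1 : Sx M c y ≤ B₀ := by
      refine M.E_le_of_le fun τ hτ => ?_
      have h3 := Ts_upper ha.le Q.hab.le hτ c 0 y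
      rw [sub_zero] at h3
      have h5 : K * (c.p y + |c.q y|) ≤ K * (2200 * K + 9 * K) :=
        mul_le_mul_of_nonneg_left (by linarith) (by linarith)
      have h6 : Q.b * nm y ≤ Q.b * (K * (2200 * K + 9 * K)) :=
        mul_le_mul_of_nonneg_left (hny.trans h5) hb.le
      refine max_le ?_ hB₀0
      rw [hB₀]
      linarith
    linarith
  · push Not at hsm
    obtain ⟨x, hx⟩ : ∃ x : V, x = c.rd (c.p y / 2) (c.q y / 2) := ⟨_, rfl⟩
    have px := c.rd_p (c.p y / 2) (c.q y / 2)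
    have qx := c.rd_q (c.p y / 2) (c.q y / 2)
    rw [← hx, ← hKd] at px qx
    have e1 := hpiece x y hsm.le hy2 hy3 px qx
    have e2 := hpiece (y - x) y hsm.le hy2 hy3
      (by
        rw [map_sub, show c.p y - c.p x - c.p y / 2 = -(c.p x - c.p y / 2) by ring, abs_neg]
        exact px)
      (by
        rw [map_sub, show c.q y - c.q x - c.q y / 2 = -(c.q x - c.q y / 2) by ring, abs_neg]
        exact qx)
    rw [← Mean2_refl hM, map_sub] at e2
    have htri : M.E (fun τ => Ts Q.b c τ 0 y) ≤ M.E (fun τ => T (res Q.b (edg (Db c 0 y)) τ) 0 x) +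
        M.E (fun τ => T (res Q.b (edg (Db c 0 y)) τ) x y) := by
      rw [← Mdl.E_add]
      refine M.E_mono fun τ hτ => ?_
      exact T_triangle (Bd_res Q.hab.le hτ _) ha.le 0 x y
    have hpos := Mean2_pos2 (M := M) (g := g) (F := fun τ => Ts Q.b c τ 0 y) (x := 0) (y := y) (v := c.p y)
      (fun τ hτ => T_le_Ts ha.le hτ c 0 y) (by
        rw [sub_zero]
        have := hl y
        have := abs_nonneg (c.q y)
        linarith)
    have ny : nm (y - 0) ≤ 10 * K * n := by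
      rw [sub_zero]
      have h5 : K * (c.p y + |c.q y|) ≤ K * (10 * n) :=
        mul_le_mul_of_nonneg_left (by linarith) (by linarith)
      linarith
    have hdev := habs (10 * K * n) R M (by nlinarith) hR2 hM 0 y ny
    have hdev2 : M.E (fun τ => |T τ 0 y - g (y - 0)|) ≤ CA * (10 * K) * N := by
      refine hdev.trans ?_
      have h1 := mul_le_mul_of_nonneg_left (Mean2_sqrtK (K := 10 * K) (α := n) (by linarith))
        (show 0 ≤ CA by linarith)
      have h3 := mul_le_mul_of_nonneg_left hN2 (show 0 ≤ CA * (10 * K) by positivity)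
      linarith
    have hSx : Sx M c y = M.E (fun τ => max (Ts Q.b c τ 0 y - c.p y) 0) := rfl
    rw [hSx]
    have hfin : (B₀ + 2 * C₃ + CL + 10 * K + CA * (10 * K) + Ck) * N = B₀ * N + 2 * C₃ * N + CL * N +
        10 * K * N + CA * (10 * K) * N + Ck * N := by ring
    have k1 : 0 ≤ CL * N := by positivity
    have k2 : 0 ≤ 10 * K * N := by positivity
    have k3 : 0 ≤ Ck * N := by positivity
    rw [hfin]
    linarith

end Pool.Agent.W_1b8d5d_c1
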