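import Pool.Agent.W_1b8d5d_c1.Comb
import Pool.Agent.W_1b8d5d_c1.Mean2
import Pool.Agent.W_1b8d5d_c1.Grow2
import Pool.Agent.W_1b8d5d_c1.Fin2

/-!
MP_1b8d5d_pr (N2): good scales and records.
-/

set_option autoImplicit false

namespace Pool.Agent.W_1b8d5d_c1

open Finset Pool.Agent.W_1b8d5d_h85

private theorem Fin5_ball (r : ℝ) : {w : V | nm w ≤ r}.Finite := by
  have h1 : ((Set.Icc (-(⌈r⌉)) ⌈r⌉) ×ˢ (Set.Icc (-(⌈r⌉)) ⌈r⌉) : Set (ℤ × ℤ)).Finite :=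
    (Set.finite_Icc _ _).prod (Set.finite_Icc _ _)
  refine h1.subset ?_
  intro w hw
  have h2 : |(w.1 : ℝ)| + |(w.2 : ℝ)| ≤ r := hw
  have h3 := Int.le_ceil r
  have h4 := abs_nonneg (w.1 : ℝ)
  have h5 := abs_nonneg (w.2 : ℝ)
  have h6 : |(w.1 : ℝ)| ≤ ⌈r⌉ := by linarith
  have h7 : |(w.2 : ℝ)| ≤ ⌈r⌉ := by linarith
  rw [abs_le] at h6 h7
  refine ⟨⟨?_, ?_⟩, ⟨?_, ?_⟩⟩ <;> [exact_mod_cast h6.1; exact_mod_cast h6.2; exact_mod_cast h7.1; exact_mod_cast h7.2]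

/-- The maximum of the mean excess. -/
theorem exists_record {a b : ℝ} (M : Mdl a b) (c : Crd) {n : ℝ} (hn : 0 ≤ n) :
    ∃ y, 0 ≤ c.p y ∧ c.p y ≤ n ∧ |c.q y| ≤ 9 * c.C ∧ Ub M c n (Sx M c y) := by
  have hC := c.one_le
  have hfin : {y : V | 0 ≤ c.p y ∧ c.p y ≤ n ∧ |c.q y| ≤ 9 * c.C}.Finite := by
    refine (Fin5_ball (c.C * (n + 9 * c.C))).subset ?_
    rintro y ⟨h1, h2, h3⟩
    refine (c.nm_le y).trans (mul_le_mul_of_nonneg_left ?_ (by linarith))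
    rw [abs_of_nonneg h1]
    linarith
  have hne : {y : V | 0 ≤ c.p y ∧ c.p y ≤ n ∧ |c.q y| ≤ 9 * c.C}.Nonempty :=
    ⟨0, by simp, by simpa using hn, by simp; linarith⟩
  obtain ⟨y, hy, hmax⟩ := hfin.exists_maximalFor (fun y => Sx M c y) _ hne
  refine ⟨y, hy.1, hy.2.1, hy.2.2, fun z h1 h2 h3 => ?_⟩
  rcases le_total (Sx M c z) (Sx M c y) with h | h
  · exact h
  · exact hmax (show z ∈ {y : V | 0 ≤ c.p y ∧ c.p y ≤ n ∧ |c.q y| ≤ 9 * c.C} from ⟨h1, h2, h3⟩) h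

theorem Sx_nonneg {a b : ℝ} (M : Mdl a b) (c : Crd) (y : V) : 0 ≤ Sx M c y :=
  M.E_nonneg fun _ _ => le_max_right _ _

theorem Ub_mono {a b : ℝ} {M : Mdl a b} {c : Crd} {n n' B B' : ℝ} (h : Ub M c n B) (hn : n' ≤ n) (hB : B ≤ B') :
    Ub M c n' B' := fun y h1 h2 h3 => (h y h1 (h2.trans hn) h3).trans hB

/-- A good scale with a record. -/
theorem good_scale (Q : Par) (g : V → ℝ) (c : Crd) (hg : IsMean Q g) (hl : ∀ z, c.p z + |c.q z| ≤ g z)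
    (hcb : CornerBound g c) (K : ℕ) (hK : 2 ≤ K) (B₀ : ℝ) (hB₀ : 1 ≤ B₀) :
    ∃ R₀ : ℝ, ∀ (R : ℝ) (M : Mdl Q.a Q.b), R₀ ≤ R → Good Q g R M → ∃ (n : ℝ) (y₀ : V), 1 ≤ n ∧ B₀ * n ^ 12 ≤ R ∧
      0 ≤ c.p y₀ ∧ c.p y₀ ≤ n ∧ |c.q y₀| ≤ 9 * c.C ∧ B₀ ≤ Sx M c y₀ ∧ B₀ * Sx M c y₀ ≤ c.p y₀ ∧
      Ub M c n (Sx M c y₀) ∧ Ub M c (K * n) ((K : ℝ) ^ ((4 : ℝ) / 5) * Sx M c y₀) := by
  obtain ⟨Cm, hCm, hmean⟩ := mean34 Q g c hg hl hcb
  obtain ⟨Cg, hCg, hgrow⟩ := growth Q g c hg hl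
  obtain ⟨Cu, hCu, hub⟩ := Ub_mul Q g c
  have hK1 : (1 : ℝ) ≤ K := by exact_mod_cast (by omega : 1 ≤ K)
  have hK1' : (1 : ℝ) < K := by exact_mod_cast (by omega : 1 < K)
  set k : ℕ := ⌈Cg⌉₊ with hk
  have hkC : Cg ≤ k := Nat.le_ceil Cg
  have hk1 : 1 ≤ k := by
    have : (1 : ℝ) ≤ k := hCg.trans hkC
    exact_mod_cast this
  -- the lower bound for the records
  set B₁ : ℝ := B₀ + B₀ ^ 3 * Cm ^ 4 + Cm with hB₁
  have hB₁0 : 0 < B₀ ^ 3 * Cm ^ 4 := by positivity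
  -- the first scale
  obtain ⟨i₀, hi₀⟩ := pow_unbounded_of_one_lt (max Cu (Cg * (Cu * k * B₁ + Cu * k) ^ 3)) hK1'
  set I : ℕ := 16 * i₀ + 20 * ⌈Cm⌉₊ + 1 with hI
  have hmono : ∀ i ≤ I, (K : ℝ) ^ i ≤ (K : ℝ) ^ I := fun i hi => pow_le_pow_right₀ hK1 hi
  refine ⟨(Cm + B₀) * ((K : ℝ) ^ I) ^ 12 + Cg * ((K : ℝ) ^ I) ^ 12 + Cm * (K : ℝ) ^ I, fun R M hR hM => ?_⟩
  have hKI : (1 : ℝ) ≤ (K : ℝ) ^ I := one_le_pow₀ hK1
  have hKI12 : (K : ℝ) ^ I ≤ ((K : ℝ) ^ I) ^ 12 := le_self_pow₀ hKI (by norm_num)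
  have hR1 : ∀ n : ℝ, 0 ≤ n → n ≤ (K : ℝ) ^ I → Cm * n ≤ R ∧ B₀ * n ^ 12 ≤ R ∧ Cg * n ^ 12 ≤ R := by
    intro n hn0 hn
    have h1 : n ^ 12 ≤ ((K : ℝ) ^ I) ^ 12 := pow_le_pow_left₀ hn0 hn 12
    have h2 := mul_le_mul_of_nonneg_left hn (show 0 ≤ Cm by linarith)
    have h3 := mul_le_mul_of_nonneg_left h1 (show 0 ≤ B₀ by linarith)
    have h4 := mul_le_mul_of_nonneg_left h1 (show 0 ≤ Cg by linarith)
    have h5 : 0 ≤ Cm * ((K : ℝ) ^ I) ^ 12 := by positivity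
    have h6 : 0 ≤ B₀ * ((K : ℝ) ^ I) ^ 12 := by positivity
    have h7 : 0 ≤ Cg * ((K : ℝ) ^ I) ^ 12 := by positivity
    have h8 : 0 ≤ Cm * (K : ℝ) ^ I := by positivity
    refine ⟨?_, ?_, ?_⟩ <;> nlinarith
  -- the records
  have hrec : ∀ i : ℕ, ∃ y, 0 ≤ c.p y ∧ c.p y ≤ (K : ℝ) ^ i ∧ |c.q y| ≤ 9 * c.C ∧ Ub M c ((K : ℝ) ^ i) (Sx M c y) :=
    fun i => exists_record M c (by positivity)
  choose Y hY0 hY1 hY2 hY3 using hrec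
  have hY4 : ∀ i ≤ I, Sx M c (Y i) ≤ Cm * ((K : ℝ) ^ i) ^ ((3 : ℝ) / 4) := by
    intro i hi
    exact hmean ((K : ℝ) ^ i) R M (one_le_pow₀ hK1) (hR1 _ (by positivity) (hmono i hi)).1 hM (Y i) (hY0 i) (hY1 i) (hY2 i)
  -- growth
  have hlow : ∀ i, i₀ ≤ i → i ≤ I → B₁ ≤ Sx M c (Y i) := by
    intro i h1 h2
    by_contra hcon
    push Not at hcon
    have hKi : (K : ℝ) ^ i₀ ≤ (K : ℝ) ^ i := pow_le_pow_right₀ hK1 h1
    have h3 : Cu ≤ (K : ℝ) ^ i := (le_max_left _ _).trans (hi₀.le.trans hKi)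
    have h4 := hub ((K : ℝ) ^ i) R M h3 hM (Sx M c (Y i)) (Sx_nonneg M c _) (hY3 i) k hk1
    have hk1' : (1 : ℝ) ≤ k := by exact_mod_cast hk1
    have hCuk : 1 ≤ Cu * k := by nlinarith
    have hS := Sx_nonneg M c (Y i)
    have h5 : 1 ≤ Cu * k * Sx M c (Y i) + Cu * k := by
      have : 0 ≤ Cu * k * Sx M c (Y i) := by positivity
      linarith
    have h6 : Ub M c (Cg * (K : ℝ) ^ i) (Cu * k * Sx M c (Y i) + Cu * k) :=
      Ub_mono h4 (mul_le_mul_of_nonneg_right hkC (by positivity)) le_rfl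
    have h7 := hgrow ((K : ℝ) ^ i) R M (one_le_pow₀ hK1) (hR1 _ (by positivity) (hmono i h2)).2.2 hM _ h5 h6
    have h8 : (Cu * k * Sx M c (Y i) + Cu * k) ^ 3 ≤ (Cu * k * B₁ + Cu * k) ^ 3 := by
      refine pow_le_pow_left₀ (by linarith) ?_ 3
      have := mul_le_mul_of_nonneg_left hcon.le (show 0 ≤ Cu * k by linarith)
      linarith
    have h9 : Cg * (Cu * k * B₁ + Cu * k) ^ 3 < (K : ℝ) ^ i := (le_max_right _ _).trans_lt (hi₀.trans_le hKi)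
    have h10 := mul_le_mul_of_nonneg_left h8 (show 0 ≤ Cg by linarith)
    linarith
  -- the good scale
  have hsc := scale (fun i => if i ≤ I then Sx M c (Y i) else 0) (C := Cm) hK i₀ ?_ ?_
  · obtain ⟨i, hi0, hi1, hi2⟩ := hsc
    have hiI : i + 1 ≤ I := by omega
    have hiI' : i ≤ I := by omega
    simp only [hiI, hiI', if_true] at hi2
    have hn1 : (1 : ℝ) ≤ (K : ℝ) ^ i := one_le_pow₀ hK1
    have hB := hlow i hi0 hiI'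
    refine ⟨(K : ℝ) ^ i, Y i, hn1, (hR1 _ (by positivity) (hmono i hiI')).2.1, hY0 i, hY1 i, hY2 i, ?_, ?_, hY3 i, ?_⟩
    · linarith
    · -- `B₀ B ≤ p y₀`
      by_contra hcon
      push Not at hcon
      set B := Sx M c (Y i) with hBdef
      have hBpos : 0 < B := by linarith
      rcases le_total 1 (c.p (Y i)) with h1 | h1
      · have h2 := hmean (c.p (Y i)) R M h1 (hR1 _ (hY0 i) ((hY1 i).trans (hmono i hiI'))).1 hM (Y i) (hY0 i) le_rfl (hY2 i)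
        rw [← hBdef] at h2
        have h3 : B ^ 4 ≤ Cm ^ 4 * (c.p (Y i)) ^ 3 := by
          have h4 : B ^ 4 ≤ (Cm * c.p (Y i) ^ ((3 : ℝ) / 4)) ^ 4 := pow_le_pow_left₀ hBpos.le h2 4
          rw [mul_pow] at h4
          have h5 : (c.p (Y i) ^ ((3 : ℝ) / 4)) ^ 4 = c.p (Y i) ^ 3 := by
            rw [← Real.rpow_natCast, ← Real.rpow_mul (hY0 i), ← Real.rpow_natCast]
            norm_num
          rwa [h5] at h4
        have h6 : (c.p (Y i)) ^ 3 ≤ (B₀ * B) ^ 3 := pow_le_pow_left₀ (hY0 i) hcon.le 3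
        have h7 : B ^ 4 ≤ Cm ^ 4 * (B₀ * B) ^ 3 := h3.trans (mul_le_mul_of_nonneg_left h6 (by positivity))
        have h8 : B * B ^ 3 ≤ (B₀ ^ 3 * Cm ^ 4) * B ^ 3 := by
          calc B * B ^ 3 = B ^ 4 := by ring
            _ ≤ _ := h7
            _ = (B₀ ^ 3 * Cm ^ 4) * B ^ 3 := by ring
        have h9 := le_of_mul_le_mul_right h8 (by positivity)
        linarith
      · have h2 := hmean 1 R M le_rfl (hR1 _ (by norm_num) hKI).1 hM (Y i) (hY0 i) h1 (hY2 i)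
        rw [Real.one_rpow, mul_one, ← hBdef] at h2
        linarith
    · have h1 := hY3 (i + 1)
      rw [pow_succ, mul_comm] at h1
      exact Ub_mono h1 le_rfl hi2
  · have h1 : i₀ ≤ I := by omega
    simp only [h1, if_true]
    have := hlow i₀ le_rfl h1
    linarith
  · intro i
    by_cases hi : i ≤ I
    · simp only [hi, if_true]
      exact hY4 i hi
    · simp only [hi, if_false]
      positivity

end Pool.Agent.W_1b8d5d_c1
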