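import Pool.Agent.W_1b8d5d_c1.Fin5
import Pool.Agent.W_1b8d5d_c1.FinG
import Pool.Agent.W_1b8d5d_c1.Corner

/-!
MP_1b8d5d_pr (N2): the limit shape has no corner: choice of the scale.
-/

set_option autoImplicit false

namespace Pool.Agent.W_1b8d5d_c1

open Finset Pool.Agent.W_1b8d5d_h85

/-- THE CORE.  `good_scale` gives a scale `n` with a record `y₀`, `B = Sx M c y₀`, such that `Ub n B` and `Ub (K n) (K ^ (4/5) B)`;
`Ub_mul` gives the bounds at the scales `C₁ n`, `C₁ K n`; `contra`. -/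
theorem no_corner (Q : Par) (g : V → ℝ) (hM : HasModels Q g) (hg : IsMean Q g) (c : Crd) (h : Cnr g c) : False := by
  have hcb := cornerBound hg hM h
  obtain ⟨C₁, hC₁, hcon⟩ := contra Q g c hg h hcb
  obtain ⟨Cu, hCu, hub⟩ := Ub_mul Q g c
  set k : ℕ := ⌈C₁⌉₊ with hk
  have hkC : C₁ ≤ k := Nat.le_ceil C₁
  have hk1R : (1 : ℝ) ≤ k := hC₁.trans hkC
  have hk1 : 1 ≤ k := by exact_mod_cast hk1R
  have hCuk : 1 ≤ Cu * k := by nlinarith
  obtain ⟨K, B₀, hK, hB₀, hfin⟩ := hcon (2 * (Cu * k)) (by linarith)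
  have hK1 : (1 : ℝ) ≤ K := by exact_mod_cast (by omega : 1 ≤ K)
  obtain ⟨R₀, hR₀⟩ := good_scale Q g c hg h.low hcb K hK (max B₀ Cu) (hB₀.trans (le_max_left _ _))
  obtain ⟨R, M, hR, hG⟩ := hM R₀
  obtain ⟨n, y₀, hn1, hnR, hp0, hpn, hq, hB, hBp, hU1, hU2⟩ := hR₀ R M hR hG
  obtain ⟨B, hBdef⟩ : ∃ B : ℝ, B = Sx M c y₀ := ⟨_, rfl⟩
  rw [← hBdef] at hB hBp hU1 hU2
  have hB1 : B₀ ≤ B := (le_max_left _ _).trans hB
  have hB2 : 1 ≤ B := hB₀.trans hB1
  have hB3 : 0 < B := by linarith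
  have hBn : Cu ≤ n := by
    have h1 : Cu ≤ max B₀ Cu := le_max_right _ _
    have h2 : max B₀ Cu * 1 ≤ max B₀ Cu * B := mul_le_mul_of_nonneg_left hB2 (by linarith)
    linarith
  have hn0 : 0 < n := by linarith
  have hKn : Cu ≤ K * n := by nlinarith
  have hKp : (1 : ℝ) ≤ (K : ℝ) ^ ((4 : ℝ) / 5) := Real.one_le_rpow hK1 (by norm_num)
  have hKB : 1 ≤ (K : ℝ) ^ ((4 : ℝ) / 5) * B := by nlinarith
  have e1 := hub n R M hBn hG B hB3.le hU1 k hk1
  have e2 := hub (K * n) R M hKn hG ((K : ℝ) ^ ((4 : ℝ) / 5) * B) (by linarith) hU2 k hk1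
  refine hfin B R M y₀ hB1 hq ?_ ?_ hG ?_ ?_ hBdef.le
  · exact (mul_le_mul_of_nonneg_right (le_max_left _ _) hB3.le).trans hBp
  · refine le_trans ?_ hnR
    exact mul_le_mul (le_max_left _ _) (pow_le_pow_left₀ hp0 hpn 12) (by positivity)
      (by linarith [le_max_left B₀ Cu])
  · refine Ub_mono e1 ?_ ?_
    · exact mul_le_mul hkC hpn hp0 (by linarith)
    · have : Cu * k ≤ Cu * k * B := le_mul_of_one_le_right (by linarith) hB2
      linarith
  · refine Ub_mono e2 ?_ ?_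
    · refine mul_le_mul hkC ?_ (by positivity) (by linarith)
      exact mul_le_mul_of_nonneg_left hpn (by linarith)
    · have : Cu * k ≤ Cu * k * ((K : ℝ) ^ ((4 : ℝ) / 5) * B) := le_mul_of_one_le_right (by linarith) hKB
      linarith

end Pool.Agent.W_1b8d5d_c1
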