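import Pool.Agent.W_1b8d5d_c1.Defs
import Pool.Agent.W_1b8d5d_h85.APeierls1
import Pool.Agent.W_1b8d5d_h85.AKer
import Pool.Agent.W_1b8d5d_h85.ALoc
import Pool.Agent.W_1b8d5d_h85.AMean
import Pool.Agent.W_1b8d5d_h85.ALev

/-!
MP_1b8d5d_pr (N2), part (A): the torus models are good models for the true mean passage times.
-/

set_option autoImplicit false

open MeasureTheory ProbabilityTheory

namespace Pool.Agent.W_1b8d5d_c1

open Finset Pool.Agent.W_1b8d5d_h85

/-- Good models at all ranges for every atomless law on `[a, b]`, `0 < a`. -/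
theorem partA (a b : ℝ) (ν : Measure ℝ) (ha : 0 < a) (h : Law a b ν) (Ω : Type) [MeasurableSpace Ω] (P : Measure Ω)
    (τ : Edge → Ω → ℝ) (hτ : IsFPP ν P τ) : ∃ Q : Par, HasModels Q (tm P τ) ∧ IsMean Q (tm P τ) := by
  have hab : a < b := h.lt
  have hb : 0 < b := ha.trans hab
  obtain ⟨sl, su, hs, hsl, hsu⟩ := exists_levels h
  have hK0 : 0 ≤ 2 * b ^ 3 / a := by positivity
  have hK1 : (1 : ℝ) ≤ 4100 + 2 * b ^ 3 / a := by linarith
  refine ⟨⟨a, b, sl, su, 1 / 4096, 4100 + 2 * b ^ 3 / a, ha, hab, hs, by norm_num, hK1⟩, ?_,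
    isMean_tm ⟨a, b, sl, su, 1 / 4096, 4100 + 2 * b ^ 3 / a, ha, hab, hs, by norm_num, hK1⟩ h hτ⟩
  intro R
  set R' := max R 1 with hR'
  have hR1 : 1 ≤ R' := le_max_right _ _
  have hba : 1 ≤ b / a := by rw [le_div_iff₀ ha]; linarith
  obtain ⟨A, hA⟩ := exists_box (b / a * R')
  obtain ⟨m, hm⟩ := exists_nat_gt (4 * (b / a * R') + 4 * R')
  have hbR : 0 ≤ b / a * R' := by positivity
  have hm0 : NeZero m := ⟨by
    rintro rfl
    rw [Nat.cast_zero] at hm
    linarith⟩
  obtain ⟨N₀, hN₀⟩ := exists_nat_gt (A.card * (b - a))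
  set N := N₀ + 2048 with hN
  have hN0 : 0 < N := by omega
  have : NeZero N := ⟨by omega⟩
  obtain ⟨c, hcut⟩ := exists_cuts h hN0
  have hc : ∀ j, a ≤ c j ∧ c j ≤ b := fun j => hcut.mem j
  refine ⟨R', tor m N c hc, le_max_left _ _, ?_, ?_, ?_, ?_, ?_, ?_, ?_⟩
  · exact tor_inv m N c hc
  · exact tor_refl m N c hc
  · intro X Y hXY hnm F G hF hG
    exact tor_indep m N c hc (R := R') (by linarith) X Y hXY hnm F G hF hG
  · intro z hz
    have h1 := tor_mean (m := m) h ha hcut hc hτ (R := R') (by linarith) hA hz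
    refine h1.trans ?_
    have hNr : (0 : ℝ) < N := by exact_mod_cast hN0
    have h2 : A.card * (b - a) ≤ (N : ℝ) := by
      rw [hN]
      push_cast
      linarith
    calc (A.card : ℝ) * ((b - a) / N) = A.card * (b - a) / N := by ring
      _ ≤ 1 := by rw [div_le_one hNr]; exact h2
  · intro l z hl hz hlR
    have h1 := tor_var ha hab.le hc (m := m) (N := N) hl hz hlR (by linarith)
      (K := 4100 + 2 * b ^ 3 / a) (by linarith)
    unfold S
    rw [Real.sq_sqrt (by linarith)]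
    exact h1
  · intro l _
    exact tor_peierls_one m N c hc hR1 (by linarith) (Pr_lt_su h (by omega) hcut hsu) (by linarith) 0 l
  · intro C d hC hd hd2
    exact tor_tilt m N c hc (by linarith) hs (by norm_num) (le_Pr_sl h hcut hsl) (by norm_num; linarith) C d hC hd hd2

end Pool.Agent.W_1b8d5d_c1
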