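import Pool.Agent.W_1b8d5d_c1.Defs

/-!
MP_1b8d5d_pr (N2): cones, double cones and the passage times `Ts`, `Tt`: deterministic facts.
-/

set_option autoImplicit false

namespace Pool.Agent.W_1b8d5d_c1

open Finset Pool.Agent.W_1b8d5d_h85

theorem mem_Kn {c : Crd} {z : V} : z ∈ Kn c ↔ 3 * |c.q z| ≤ c.p z := Iff.rfl

theorem Kn_zero (c : Crd) : (0 : V) ∈ Kn c := by
  rw [mem_Kn, map_zero, map_zero, abs_zero, mul_zero]

theorem Kn_add {c : Crd} {x y : V} (hx : x ∈ Kn c) (hy : y ∈ Kn c) : x + y ∈ Kn c := by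
  rw [mem_Kn] at hx hy ⊢
  rw [map_add, map_add]
  have := abs_add_le (c.q x) (c.q y)
  linarith

theorem Kn_p_nonneg {c : Crd} {x : V} (hx : x ∈ Kn c) : 0 ≤ c.p x := by
  rw [mem_Kn] at hx
  have := abs_nonneg (c.q x)
  linarith

private theorem Geo_mir_q (c : Crd) (z : V) : |(mir c).q z| = |c.q z| := by
  show |(-c.q) z| = |c.q z|
  rw [AddMonoidHom.neg_apply, abs_neg]

theorem Kn_mir (c : Crd) : Kn (mir c) = Kn c := by
  ext z
  rw [mem_Kn, mem_Kn, Geo_mir_q]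
  rfl

theorem Db_mir (c : Crd) (x y : V) : Db (mir c) x y = Db c x y := by
  unfold Db
  rw [Kn_mir]

theorem Ts_mir (b : ℝ) (c : Crd) (τ : Env) (x y : V) : Ts b (mir c) τ x y = Ts b c τ x y := by
  unfold Ts
  rw [Db_mir]

theorem Sx_mir {a b : ℝ} (M : Mdl a b) (c : Crd) (y : V) : Sx M (mir c) y = Sx M c y := by
  unfold Sx
  simp only [Ts_mir]
  rfl

theorem Ub_mir {a b : ℝ} (M : Mdl a b) (c : Crd) (n B : ℝ) : Ub M (mir c) n B ↔ Ub M c n B := by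
  unfold Ub
  simp only [Sx_mir, Geo_mir_q]
  rfl

theorem Cnr_mir {g : V → ℝ} {c : Crd} (h : Cnr g c) : Cnr g (mir c) := by
  refine ⟨fun z => ?_, fun ε hε => ?_⟩
  · rw [Geo_mir_q]
    exact h.low z
  · obtain ⟨δ, hδ, h1⟩ := h.upp ε hε
    refine ⟨δ, hδ, fun η hη => ?_⟩
    obtain ⟨N, hN⟩ := h1 η hη
    refine ⟨N, fun z hz hq => ?_⟩
    rw [Geo_mir_q] at hq ⊢
    exact hN z hz hq

theorem Kn_subset_Wd (c : Crd) : Kn c ⊆ Wd c 0 := by
  intro z hz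
  rw [mem_Kn] at hz
  have h1 := le_abs_self (c.q z)
  have h2 := neg_abs_le (c.q z)
  have h3 := abs_nonneg (c.q z)
  show 0 ≤ c.p (z - 0) - c.q (z - 0) ∧ 0 ≤ c.p (z - 0) + 3 * c.q (z - 0)
  rw [sub_zero]
  constructor <;> linarith

/-- The cone at a point of the wedge is contained in the wedge. -/
theorem Kn_add_Wd {c : Crd} {x z : V} (hx : x ∈ Wd c 0) (hz : z - x ∈ Kn c) : z ∈ Wd c 0 := by
  obtain ⟨h1, h2⟩ := hx
  obtain ⟨h3, h4⟩ := Kn_subset_Wd c hz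
  show 0 ≤ c.p (z - 0) - c.q (z - 0) ∧ 0 ≤ c.p (z - 0) + 3 * c.q (z - 0)
  simp only [map_sub, map_zero] at h1 h2 h3 h4 ⊢
  constructor <;> linarith

theorem Wd_eq_Qd (c : Crd) (x : V) :
    Wd c x = {z | (sk c).p x ≤ (sk c).p z ∧ (sk c).q x - 0 ≤ (sk c).q z} := by
  ext z
  show (0 ≤ c.p (z - x) - c.q (z - x) ∧ 0 ≤ c.p (z - x) + 3 * c.q (z - x)) ↔
    (skp c x ≤ skp c z ∧ skq c x - 0 ≤ skq c z)
  rw [skp_apply, skp_apply, skq_apply, skq_apply]
  simp only [map_sub]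
  constructor
  · rintro ⟨h1, h2⟩
    constructor <;> linarith
  · rintro ⟨h1, h2⟩
    constructor <;> linarith

theorem Wd_subset {c : Crd} {x y : V} (h : y ∈ Wd c x) : Wd c y ⊆ Wd c x := by
  rintro z ⟨h3, h4⟩
  obtain ⟨h1, h2⟩ := h
  show 0 ≤ c.p (z - x) - c.q (z - x) ∧ 0 ≤ c.p (z - x) + 3 * c.q (z - x)
  simp only [map_sub] at h1 h2 h3 h4 ⊢
  constructor <;> linarith

/-- `p + q` is at least its value at the vertex of the wedge. -/
theorem Wd_lev {c : Crd} {x z : V} (h : z ∈ Wd c x) : c.p x + c.q x ≤ c.p z + c.q z := by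
  obtain ⟨h1, h2⟩ := h
  simp only [map_sub] at h1 h2
  linarith

theorem Db_left {c : Crd} {x y z : V} (hz : y - z ∈ Kn c) : Db c x z ⊆ Db c x y := by
  rintro w ⟨h1, h2⟩
  refine ⟨h1, ?_⟩
  have h3 := Kn_add hz h2
  rwa [sub_add_sub_cancel] at h3

theorem Db_right {c : Crd} {x y z : V} (hz : z - x ∈ Kn c) : Db c z y ⊆ Db c x y := by
  rintro w ⟨h1, h2⟩
  refine ⟨?_, h2⟩
  have h3 := Kn_add h1 hz
  rwa [sub_add_sub_cancel] at h3

/-- Points of the double cone. -/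
theorem Db_p {c : Crd} {x y z : V} (h : z ∈ Db c x y) :
    0 ≤ c.p (z - x) ∧ c.p (z - x) ≤ c.p (y - x) ∧ 3 * |c.q (z - x)| ≤ c.p (y - x) := by
  obtain ⟨h1, h2⟩ := h
  have h3 := Kn_p_nonneg h1
  have h4 := Kn_p_nonneg h2
  have h5 : c.p (y - x) = c.p (y - z) + c.p (z - x) := by
    rw [← map_add, sub_add_sub_cancel]
  rw [mem_Kn] at h1
  refine ⟨h3, ?_, ?_⟩ <;> linarith

theorem Db_nm {c : Crd} {x y z : V} (h : z ∈ Db c x y) : nm (z - x) ≤ 2 * c.C * c.p (y - x) := by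
  obtain ⟨h1, h2, h3⟩ := Db_p h
  have h4 := c.nm_le (z - x)
  rw [abs_of_nonneg h1] at h4
  have hC : 0 ≤ c.C := by linarith [c.one_le]
  have h5 : c.p (z - x) + |c.q (z - x)| ≤ 2 * c.p (y - x) := by linarith
  have h6 := mul_le_mul_of_nonneg_left h5 hC
  linarith

theorem edg_mono {A A' : Set V} (h : A ⊆ A') : edg A ⊆ edg A' :=
  fun _ he => ⟨h he.1, h he.2⟩

theorem edg_inter (A A' : Set V) : edg (A ∩ A') = edg A ∩ edg A' := by
  ext e
  constructor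
  · rintro ⟨h1, h2⟩
    exact ⟨⟨h1.1, h2.1⟩, ⟨h1.2, h2.2⟩⟩
  · rintro ⟨h1, h2⟩
    exact ⟨⟨h1.1, h2.1⟩, ⟨h1.2, h2.2⟩⟩

theorem res_res (b : ℝ) (A A' : Set Edge) (τ : Env) : res b A (res b A' τ) = res b (A ∩ A') τ := by
  funext e
  unfold res
  by_cases h1 : e ∈ A
  · by_cases h2 : e ∈ A'
    · rw [if_pos h1, if_pos h2, if_pos ⟨h1, h2⟩]
    · rw [if_pos h1, if_neg h2, if_neg fun h => h2 h.2]
  · rw [if_neg h1, if_neg fun h => h1 h.1]

section bd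

variable {a b : ℝ} {τ : Env}

theorem T_le_Ts (ha : 0 ≤ a) (hτ : Bd a b τ) (c : Crd) (x y : V) : T τ x y ≤ Ts b c τ x y :=
  T_le_res ha hτ _ x y

theorem Ts_nonneg (ha : 0 ≤ a) (hab : a ≤ b) (hτ : Bd a b τ) (c : Crd) (x y : V) : 0 ≤ Ts b c τ x y :=
  T_nonneg (Bd_res hab hτ _) ha x y

theorem Ts_upper (ha : 0 ≤ a) (hab : a ≤ b) (hτ : Bd a b τ) (c : Crd) (x y : V) :
    Ts b c τ x y ≤ b * nm (y - x) :=
  T_upper (Bd_res hab hτ _) ha x y

/-- Concatenation. -/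
theorem Ts_triangle (ha : 0 ≤ a) (hab : a ≤ b) (hτ : Bd a b τ) {c : Crd} {x y z : V} (h1 : z - x ∈ Kn c)
    (h2 : y - z ∈ Kn c) : Ts b c τ x y ≤ Ts b c τ x z + Ts b c τ z y := by
  have e1 := T_triangle (Bd_res hab hτ (edg (Db c x y))) ha x z y
  have e2 := T_res_anti ha hab hτ (edg_mono (Db_left (x := x) h2)) x z
  have e3 := T_res_anti ha hab hτ (edg_mono (Db_right (y := y) h1)) z y
  unfold Ts
  linarith

/-- The passage time with the weights of a set containing the double cone. -/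
theorem T_res_le_Ts (ha : 0 ≤ a) (hab : a ≤ b) (hτ : Bd a b τ) {c : Crd} {x y : V} {A : Set V}
    (h : Db c x y ⊆ A) : T (res b (edg A) τ) x y ≤ Ts b c τ x y :=
  T_res_anti ha hab hτ (edg_mono h) x y

theorem Ts_le_Tt (ha : 0 ≤ a) (hab : a ≤ b) (hτ : Bd a b τ) (c : Crd) (x y : V) (H : ℝ) :
    Ts b c τ x y ≤ Tt b c τ x y H :=
  T_res_anti ha hab hτ (edg_mono fun _ h => h.1) x y

theorem Tt_upper (ha : 0 ≤ a) (hab : a ≤ b) (hτ : Bd a b τ) (c : Crd) (x y : V) (H : ℝ) :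
    Tt b c τ x y H ≤ b * nm (y - x) :=
  T_upper (Bd_res hab hτ _) ha x y

/-- If all vertices of a geodesic (for the weights of the double cone) have height at most `H`, the two passage times agree.
PROOF. `T_res_eq` for the environment `res b (edg (Db c x y)) τ` and the set of the edges of height at most `H`; `res_res`,
`edg_inter`, `wedges_support`. -/
theorem Tt_eq (ha : 0 < a) (hab : a ≤ b) (hτ : Bd a b τ) (c : Crd) (x y : V) (H : ℝ)
    (w : grid.Walk x y) (hw : IsGeo (res b (edg (Db c x y)) τ) w) (hH : ∀ z ∈ w.support, |c.q (z - x)| ≤ H) :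
    Tt b c τ x y H = Ts b c τ x y := by
  have h1 : Tb c x y H = {z | |c.q (z - x)| ≤ H} ∩ Db c x y := by
    ext z
    exact ⟨fun h => ⟨h.2, h.1⟩, fun h => ⟨h.2, h.1⟩⟩
  unfold Tt Ts
  rw [h1, edg_inter, ← res_res]
  refine T_res_eq ha.le hab (Bd_res hab hτ _) hw.2 fun e he => ?_
  obtain ⟨h2, h3⟩ := wedges_support w he
  exact ⟨hH _ h2, hH _ h3⟩

end bd

private theorem Geo_T_res_sh (b : ℝ) (A : Set V) (τ : Env) (z x y : V) :
    T (res b (edg A) (sh z τ)) x y = T (res b (edg {w | w - z ∈ A}) τ) (x + z) (y + z) := by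
  have h1 : res b (edg A) (sh z τ) = sh z (res b (edg {w | w - z ∈ A}) τ) := by
    funext e
    have h2 : (e.1 + z, e.2) ∈ edg {w | w - z ∈ A} ↔ e ∈ edg A := by
      show (e.1 + z - z ∈ A ∧ e.1 + z + dir e.2 - z ∈ A) ↔ (e.1 ∈ A ∧ e.1 + dir e.2 ∈ A)
      have e1 : e.1 + z - z = e.1 := by abel
      have e2 : e.1 + z + dir e.2 - z = e.1 + dir e.2 := by abel
      rw [e1, e2]
    show res b (edg A) (sh z τ) e = res b (edg {w | w - z ∈ A}) τ (e.1 + z, e.2)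
    unfold res
    by_cases h3 : e ∈ edg A
    · rw [if_pos h3, if_pos (h2.2 h3)]
      rfl
    · rw [if_neg h3, if_neg fun h => h3 (h2.1 h)]
  rw [h1, T_sh]

private theorem Geo_T_res_rf (b : ℝ) (A : Set V) (τ : Env) (x y : V) :
    T (res b (edg A) (rf τ)) x y = T (res b (edg {w | -w ∈ A}) τ) (-x) (-y) := by
  have h1 : res b (edg A) (rf τ) = rf (res b (edg {w | -w ∈ A}) τ) := by
    funext e
    have h2 : (-e.1 - dir e.2, e.2) ∈ edg {w | -w ∈ A} ↔ e ∈ edg A := by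
      show (-(-e.1 - dir e.2) ∈ A ∧ -(-e.1 - dir e.2 + dir e.2) ∈ A) ↔
        (e.1 ∈ A ∧ e.1 + dir e.2 ∈ A)
      have e1 : -(-e.1 - dir e.2) = e.1 + dir e.2 := by abel
      have e2 : -(-e.1 - dir e.2 + dir e.2) = e.1 := by abel
      rw [e1, e2]
      exact and_comm
    show res b (edg A) (rf τ) e = res b (edg {w | -w ∈ A}) τ (-e.1 - dir e.2, e.2)
    unfold res
    by_cases h3 : e ∈ edg A
    · rw [if_pos h3, if_pos (h2.2 h3)]
      rfl
    · rw [if_neg h3, if_neg fun h => h3 (h2.1 h)]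
  rw [h1, T_rf]

theorem Ts_sh (b : ℝ) (c : Crd) (τ : Env) (z x y : V) : Ts b c (sh z τ) x y = Ts b c τ (x + z) (y + z) := by
  unfold Ts
  rw [Geo_T_res_sh]
  have h1 : {w | w - z ∈ Db c x y} = Db c (x + z) (y + z) := by
    ext w
    show (w - z - x ∈ Kn c ∧ y - (w - z) ∈ Kn c) ↔ (w - (x + z) ∈ Kn c ∧ y + z - w ∈ Kn c)
    have e1 : w - z - x = w - (x + z) := by abel
    have e2 : y - (w - z) = y + z - w := by abel
    rw [e1, e2]
  rw [h1]

theorem Ts_rf (b : ℝ) (c : Crd) (τ : Env) (x y : V) : Ts b c (rf τ) x y = Ts b c τ (-y) (-x) := by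
  unfold Ts
  rw [Geo_T_res_rf, T_symm]
  have h1 : {w | -w ∈ Db c x y} = Db c (-y) (-x) := by
    ext w
    show (-w - x ∈ Kn c ∧ y - (-w) ∈ Kn c) ↔ (w - (-y) ∈ Kn c ∧ -x - w ∈ Kn c)
    have e1 : -w - x = -x - w := by abel
    have e2 : y - (-w) = w - (-y) := by abel
    rw [e1, e2]
    exact and_comm
  rw [h1]

theorem Tt_sh (b : ℝ) (c : Crd) (τ : Env) (z x y : V) (H : ℝ) :
    Tt b c (sh z τ) x y H = Tt b c τ (x + z) (y + z) H := by
  unfold Tt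
  rw [Geo_T_res_sh]
  have h1 : {w | w - z ∈ Tb c x y H} = Tb c (x + z) (y + z) H := by
    ext w
    show ((w - z - x ∈ Kn c ∧ y - (w - z) ∈ Kn c) ∧ |c.q (w - z - x)| ≤ H) ↔
      ((w - (x + z) ∈ Kn c ∧ y + z - w ∈ Kn c) ∧ |c.q (w - (x + z))| ≤ H)
    have e1 : w - z - x = w - (x + z) := by abel
    have e2 : y - (w - z) = y + z - w := by abel
    rw [e1, e2]
  rw [h1]

theorem Ts_dep (b : ℝ) (c : Crd) (x y : V) : DependsOn (fun τ : Env => Ts b c τ x y) (edg (Db c x y)) :=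
  dependsOn_T_res b _ x y

theorem Tt_dep (b : ℝ) (c : Crd) (x y : V) (H : ℝ) :
    DependsOn (fun τ : Env => Tt b c τ x y H) (edg (Tb c x y H)) :=
  dependsOn_T_res b _ x y

/-- Restriction to a set of vertices commutes with the shift. -/
theorem T_res_sh (b : ℝ) (A : Set V) (τ : Env) (z x y : V) :
    T (res b (edg A) (sh z τ)) x y = T (res b (edg {w | w - z ∈ A}) τ) (x + z) (y + z) :=
  Geo_T_res_sh b A τ z x y

/-- Restriction to a set of vertices and the reflection. -/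
theorem T_res_rf (b : ℝ) (A : Set V) (τ : Env) (x y : V) :
    T (res b (edg A) (rf τ)) x y = T (res b (edg {w | -w ∈ A}) τ) (-x) (-y) :=
  Geo_T_res_rf b A τ x y

/-- `Ts` between arbitrary points has the law of `Ts` from `0`. -/
theorem Good.E_Ts {Q : Par} {g : V → ℝ} {R : ℝ} {M : Mdl Q.a Q.b} (h : Good Q g R M) (c : Crd) (F : ℝ → ℝ) (x y : V) :
    M.E (fun τ => F (Ts Q.b c τ x y)) = M.E fun τ => F (Ts Q.b c τ 0 (y - x)) := by
  rw [← h.inv x fun τ => F (Ts Q.b c τ 0 (y - x))]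
  refine M.E_congr fun τ _ => ?_
  rw [Ts_sh, zero_add, sub_add_cancel]

theorem Good.E_Tt {Q : Par} {g : V → ℝ} {R : ℝ} {M : Mdl Q.a Q.b} (h : Good Q g R M) (c : Crd) (F : ℝ → ℝ) (x y : V)
    (H : ℝ) : M.E (fun τ => F (Tt Q.b c τ x y H)) = M.E fun τ => F (Tt Q.b c τ 0 (y - x) H) := by
  rw [← h.inv x fun τ => F (Tt Q.b c τ 0 (y - x) H)]
  refine M.E_congr fun τ _ => ?_
  rw [Tt_sh, zero_add, sub_add_cancel]

end Pool.Agent.W_1b8d5d_c1
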