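import Pool.Agent.W_1b8d5d_h85.Model
import Pool.Agent.W_1b8d5d_np.R9Chern

/-!
MP_1b8d5d_pr (N2): few of many independent events, probability at least `c`.
-/

set_option autoImplicit false

namespace Pool.Agent.W_1b8d5d_c1

open Finset Pool.Agent.W_1b8d5d_h85 Pool.Agent.W_1b8d5d_np

open Classical in
/-- (c) At most `c K / 4` of `K` independent events of probability `≥ c`. -/
theorem chern_c {Ω : Type} [Fintype Ω] [Nonempty Ω] (K : ℕ) {c : ℝ} (p : ℕ → Ω → Prop)
    (hp : ∀ j < K, c ≤ Pr (p j))
    (hind : ∀ j < K, Ex (fun ω => (∏ i ∈ range j, half (p i ω)) * half (p j ω))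
      = Ex (fun ω => ∏ i ∈ range j, half (p i ω)) * Ex (fun ω => half (p j ω))) :
    Pr (fun ω => (((range K).filter fun i => p i ω).card : ℝ) ≤ c * K / 4) ≤ Real.exp (-(c * K / 4)) := by
  have h1 : ∀ j ≤ K, Ex (fun ω => ∏ i ∈ range j, half (p i ω)) ≤ Real.exp (-(c / 2)) ^ j := by
    intro j
    induction j with
    | zero =>
      intro _
      simp [Ex_const]
    | succ j ih =>
      intro hj
      have h2 := hind j (by omega)
      simp only [prod_range_succ]
      rw [h2, Ex_half, pow_succ]
      have h3 := hp j (by omega)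
      have h4 := ih (by omega)
      have h5 : 0 ≤ Ex (fun ω => ∏ i ∈ range j, half (p i ω)) :=
        Ex_nonneg fun ω => prod_nonneg fun i _ => (half_pos _).le
      have h6 := Pr_le_one (p j)
      have h7 := Real.add_one_le_exp (-(c / 2))
      exact mul_le_mul h4 (by linarith) (by linarith) (by positivity)
  have h2 : (0 : ℝ) < Real.exp (-(c * K / 4)) := Real.exp_pos _
  have h3 := markov (f := fun ω => ∏ i ∈ range K, half (p i ω))
    (fun ω => prod_nonneg fun i _ => (half_pos _).le) h2
  refine (Pr_mono fun ω hω => ?_).trans (h3.trans ?_)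
  · show Real.exp (-(c * K / 4)) ≤ ∏ i ∈ range K, half (p i ω)
    rw [prod_half]
    have h4 : Real.exp (-1) ≤ 1 / 2 := by
      rw [Real.exp_neg, one_div]
      refine inv_anti₀ (by norm_num) ?_
      have := Real.add_one_le_exp (1 : ℝ)
      linarith
    have h4' : (1 / 2 : ℝ) ≥ Real.exp (-1) := h4
    calc Real.exp (-(c * K / 4)) ≤ Real.exp (-(((range K).filter fun i => p i ω).card : ℝ)) :=
          Real.exp_le_exp.2 (by linarith)
      _ = Real.exp (-1) ^ ((range K).filter fun i => p i ω).card := by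
          rw [← Real.exp_nat_mul]
          congr 1
          ring
      _ ≤ (1 / 2 : ℝ) ^ ((range K).filter fun i => p i ω).card :=
          pow_le_pow_left₀ (Real.exp_pos _).le h4 _
  · rw [div_le_iff₀ h2, ← Real.exp_add]
    refine (h1 K le_rfl).trans (le_of_eq ?_)
    rw [← Real.exp_nat_mul]
    congr 1
    ring

open Classical in
/-- The same for events of a random environment which depend on disjoint sets of edges. -/
theorem chern_env {a b : ℝ} (M : Mdl a b) {R : ℝ}
    (hind : ∀ A B : Set Edge, Disjoint A B → (∀ e ∈ A ∪ B, nm e.1 ≤ R) →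
      ∀ F G : Env → ℝ, DependsOn F A → DependsOn G B →
        M.E (fun τ => F τ * G τ) = M.E F * M.E G)
    (K : ℕ) (A : ℕ → Set Edge) (hA : ∀ i j, i < j → j < K → Disjoint (A i) (A j))
    (hR : ∀ i < K, ∀ e ∈ A i, nm e.1 ≤ R) (p : ℕ → Env → Prop) (hp : ∀ i < K, DependsOn (p i) (A i))
    {c : ℝ} (hc : ∀ i < K, c ≤ M.P (p i)) :
    M.P (fun τ => (((range K).filter fun i => p i τ).card : ℝ) ≤ c * K / 4) ≤ Real.exp (-(c * K / 4)) := by
  refine chern_c (Ω := M.Ω) K (fun i ω => p i (M.env ω)) hc fun j hj => ?_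
  have hdep : DependsOn (fun τ : Env => ∏ i ∈ range j, half (p i τ)) (⋃ i ∈ Set.Iio j, A i) := by
    intro τ τ' h
    refine prod_congr rfl fun i hi => ?_
    rw [mem_range] at hi
    have h1 : p i τ = p i τ' := hp i (by omega) fun e he => h e (Set.mem_biUnion (by exact hi) he)
    rw [h1]
  have hdep' : DependsOn (fun τ : Env => half (p j τ)) (A j) := by
    intro τ τ' h
    have h1 : p j τ = p j τ' := hp j hj h
    show half (p j τ) = half (p j τ')
    rw [h1]
  refine hind (⋃ i ∈ Set.Iio j, A i) (A j) ?_ ?_ _ _ hdep hdep'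
  · rw [Set.disjoint_iUnion₂_left]
    intro i hi
    exact hA i j hi hj
  · rintro e (he | he)
    · rw [Set.mem_iUnion₂] at he
      obtain ⟨i, hi, he⟩ := he
      have hi' : i < j := hi
      exact hR i (by omega) e he
    · exact hR j hj e he

end Pool.Agent.W_1b8d5d_c1
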