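import Pool.Agent.W_1b8d5d_c1.Conf

/-!
MP_1b8d5d_pr (N2): tools for the lower bound `n ≤ C B³`: number of edges of a tube, transfer by the tilt kernel, high edges of a geodesic.
-/

set_option autoImplicit false

namespace Pool.Agent.W_1b8d5d_c1

open Finset Pool.Agent.W_1b8d5d_h85

private theorem Grow1_mem_Tb {c : Crd} {y z : V} {H : ℝ} :
    z ∈ Tb c 0 y H ↔ 3 * |c.q z| ≤ c.p z ∧ 3 * |c.q (y - z)| ≤ c.p (y - z) ∧ |c.q z| ≤ H := by
  unfold Tb Db Kn
  simp only [Set.mem_setOf_eq, sub_zero]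
  tauto

private theorem Grow1_box {c : Crd} {y z : V} {n H : ℝ} (hy : c.p y ≤ n) (hz : z ∈ Tb c 0 y H) :
    0 ≤ c.p z ∧ c.p z ≤ n ∧ |c.q z| ≤ H ∧ nm z ≤ 2 * c.C * n := by
  rw [Grow1_mem_Tb] at hz
  obtain ⟨h1, h2, h3⟩ := hz
  have h4 := abs_nonneg (c.q z)
  have h5 := abs_nonneg (c.q (y - z))
  rw [map_sub c.p] at h2
  have h6 : c.p z ≤ n := by linarith
  have h7 : 0 ≤ c.p z := by linarith
  refine ⟨h7, h6, h3, ?_⟩
  have h8 := c.nm_le z
  rw [abs_of_nonneg h7] at h8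
  have h9 : c.p z + |c.q z| ≤ 2 * n := by linarith
  have h10 : 0 ≤ c.C := by linarith [c.one_le]
  have h11 := mul_le_mul_of_nonneg_left h9 h10
  linarith

private theorem Grow1_coord {z : V} {r : ℝ} (h : nm z ≤ r) :
    z ∈ Finset.Icc (-⌊r⌋) ⌊r⌋ ×ˢ Finset.Icc (-⌊r⌋) ⌊r⌋ := by
  unfold nm at h
  have h1 := abs_nonneg (z.1 : ℝ)
  have h2 := abs_nonneg (z.2 : ℝ)
  have h3 : |z.1| ≤ ⌊r⌋ := by
    rw [Int.le_floor]
    push_cast
    linarith
  have h4 : |z.2| ≤ ⌊r⌋ := by
    rw [Int.le_floor]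
    push_cast
    linarith
  rw [Finset.mem_product, Finset.mem_Icc, Finset.mem_Icc]
  rw [abs_le] at h3 h4
  exact ⟨h3, h4⟩

private theorem Grow1_fib (c : Crd) (s : Finset V) (a : ℤ × ℤ) :
    (((s.filter fun z => (⌊c.p z⌋, ⌊c.q z⌋) = a).card : ℕ) : ℝ) ≤ 25 * c.C ^ 2 := by
  classical
  have hC := c.one_le
  rcases Finset.eq_empty_or_nonempty (s.filter fun z => (⌊c.p z⌋, ⌊c.q z⌋) = a) with h0 | ⟨z₀, hz₀⟩
  · rw [h0, Finset.card_empty, Nat.cast_zero]
    positivity
  · set r : ℤ := ⌊2 * c.C⌋ with hr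
    have hr0 : 0 ≤ r := by
      rw [hr, Int.floor_nonneg]
      linarith
    have hz0 := (Finset.mem_filter.1 hz₀).2
    have hsub : ∀ z ∈ s.filter (fun z => (⌊c.p z⌋, ⌊c.q z⌋) = a),
        z - z₀ ∈ Finset.Icc (-r) r ×ˢ Finset.Icc (-r) r := by
      intro z hz
      have hz1 := (Finset.mem_filter.1 hz).2
      rw [← hz0, Prod.mk.injEq] at hz1
      refine Grow1_coord ?_
      have h1 := c.nm_le (z - z₀)
      rw [map_sub, map_sub] at h1
      have h2 := (Int.abs_sub_lt_one_of_floor_eq_floor hz1.1).le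
      have h3 := (Int.abs_sub_lt_one_of_floor_eq_floor hz1.2).le
      have h4 : |c.p z - c.p z₀| + |c.q z - c.q z₀| ≤ 2 := by linarith
      have h5 := mul_le_mul_of_nonneg_left h4 (by linarith : (0 : ℝ) ≤ c.C)
      linarith
    have h1 := Finset.card_le_card_of_injOn (fun z : V => z - z₀) hsub
      (fun x _ y _ h => sub_left_injective h)
    rw [Finset.card_product, Int.card_Icc] at h1
    have h2 : ((r + 1 - -r).toNat : ℝ) ≤ 5 * c.C := by
      have h3 : ((r + 1 - -r).toNat : ℤ) = 2 * r + 1 := by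
        rw [Int.toNat_of_nonneg (by linarith)]
        ring
      have h4 : ((r + 1 - -r).toNat : ℝ) = 2 * (r : ℝ) + 1 := by exact_mod_cast h3
      rw [h4]
      have h5 : (r : ℝ) ≤ 2 * c.C := Int.floor_le _
      linarith
    have h6 : ((s.filter fun z => (⌊c.p z⌋, ⌊c.q z⌋) = a).card : ℝ) ≤
        ((r + 1 - -r).toNat : ℝ) * ((r + 1 - -r).toNat : ℝ) := by exact_mod_cast h1
    refine h6.trans ?_
    calc ((r + 1 - -r).toNat : ℝ) * ((r + 1 - -r).toNat : ℝ) ≤ (5 * c.C) * (5 * c.C) :=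
          mul_le_mul h2 h2 (Nat.cast_nonneg _) (by linarith)
      _ = 25 * c.C ^ 2 := by ring

/-- The edges of a tube: a finite set of at most `C n H` elements.  PROOF. `(p, q)` embeds the lattice almost isometrically
(`Crd.nm_le`): a square of side `1` in the `(p,q)` plane contains at most `C` lattice points (their differences have `nm ≤ 2 C`). -/
theorem card_tube (c : Crd) : ∃ C : ℝ, 1 ≤ C ∧ ∀ (n H : ℝ) (y : V), 1 ≤ n → 1 ≤ H → c.p y ≤ n →
    ∃ F : Finset Edge, (∀ e, e ∈ F ↔ e ∈ edg (Tb c 0 y H)) ∧ (F.card : ℝ) ≤ C * n * H ∧ ∀ e ∈ F, nm e.1 ≤ C * n := by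
  classical
  have hC := c.one_le
  refine ⟨400 * c.C ^ 2 + 2 * c.C, by nlinarith, ?_⟩
  intro n H y hn hH hy
  set N : ℤ := ⌊2 * c.C * n⌋ with hN
  set B : Finset V := (Finset.Icc (-N) N ×ˢ Finset.Icc (-N) N).filter fun z => z ∈ Tb c 0 y H with hB
  have hBmem : ∀ z, z ∈ B ↔ z ∈ Tb c 0 y H := by
    intro z
    rw [hB, Finset.mem_filter]
    refine ⟨fun h => h.2, fun h => ⟨?_, h⟩⟩
    exact Grow1_coord (Grow1_box hy h).2.2.2
  set F : Finset Edge := (B ×ˢ (Finset.univ : Finset Bool)).filter fun e => e ∈ edg (Tb c 0 y H) with hF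
  have hFmem : ∀ e, e ∈ F ↔ e ∈ edg (Tb c 0 y H) := by
    intro e
    rw [hF, Finset.mem_filter]
    refine ⟨fun h => h.2, fun h => ⟨?_, h⟩⟩
    rw [Finset.mem_product]
    exact ⟨(hBmem _).2 h.1, Finset.mem_univ _⟩
  refine ⟨F, hFmem, ?_, ?_⟩
  · -- the vertices
    have him : B.image (fun z => (⌊c.p z⌋, ⌊c.q z⌋)) ⊆
        Finset.Icc 0 ⌊n⌋ ×ˢ Finset.Icc (-(⌊H⌋ + 1)) ⌊H⌋ := by
      intro a ha
      rw [Finset.mem_image] at ha
      obtain ⟨z, hz, rfl⟩ := ha
      obtain ⟨h1, h2, h3, -⟩ := Grow1_box hy ((hBmem z).1 hz)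
      rw [abs_le] at h3
      rw [Finset.mem_product, Finset.mem_Icc, Finset.mem_Icc]
      refine ⟨⟨Int.floor_nonneg.2 h1, Int.floor_le_floor h2⟩, ?_, Int.floor_le_floor h3.2⟩
      rw [Int.le_floor]
      push_cast
      linarith [Int.lt_floor_add_one H]
    have hcard := Finset.card_le_card him
    rw [Finset.card_product, Int.card_Icc, Int.card_Icc] at hcard
    have hn0 : 0 ≤ ⌊n⌋ := Int.floor_nonneg.2 (by linarith)
    have hH0 : 0 ≤ ⌊H⌋ := Int.floor_nonneg.2 (by linarith)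
    have e1 : ((⌊n⌋ + 1 - 0).toNat : ℝ) ≤ 2 * n := by
      have h1 : ((⌊n⌋ + 1 - 0).toNat : ℤ) = ⌊n⌋ + 1 := by
        rw [Int.toNat_of_nonneg (by linarith)]
        ring
      have h2 : ((⌊n⌋ + 1 - 0).toNat : ℝ) = (⌊n⌋ : ℝ) + 1 := by exact_mod_cast h1
      rw [h2]
      linarith [Int.floor_le n]
    have e2 : ((⌊H⌋ + 1 - -(⌊H⌋ + 1)).toNat : ℝ) ≤ 4 * H := by
      have h1 : ((⌊H⌋ + 1 - -(⌊H⌋ + 1)).toNat : ℤ) = 2 * ⌊H⌋ + 2 := by
        rw [Int.toNat_of_nonneg (by linarith)]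
        ring
      have h2 : ((⌊H⌋ + 1 - -(⌊H⌋ + 1)).toNat : ℝ) = 2 * (⌊H⌋ : ℝ) + 2 := by exact_mod_cast h1
      rw [h2]
      linarith [Int.floor_le H]
    have e3 : ((B.image (fun z => (⌊c.p z⌋, ⌊c.q z⌋))).card : ℝ) ≤ 8 * (n * H) := by
      have h1 : ((B.image (fun z => (⌊c.p z⌋, ⌊c.q z⌋))).card : ℝ) ≤
          ((⌊n⌋ + 1 - 0).toNat : ℝ) * ((⌊H⌋ + 1 - -(⌊H⌋ + 1)).toNat : ℝ) := by exact_mod_cast hcard
      have h2 : ((⌊n⌋ + 1 - 0).toNat : ℝ) * ((⌊H⌋ + 1 - -(⌊H⌋ + 1)).toNat : ℝ) ≤ (2 * n) * (4 * H) :=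
        mul_le_mul e1 e2 (Nat.cast_nonneg _) (by linarith)
      linarith
    have e4 : (B.card : ℝ) ≤ 25 * c.C ^ 2 * (8 * (n * H)) := by
      have h1 : B.card = ∑ a ∈ B.image (fun z => (⌊c.p z⌋, ⌊c.q z⌋)),
          (B.filter fun z => (⌊c.p z⌋, ⌊c.q z⌋) = a).card :=
        Finset.card_eq_sum_card_image _ _
      rw [h1, Nat.cast_sum]
      refine (Finset.sum_le_sum fun a _ => Grow1_fib c B a).trans ?_
      rw [Finset.sum_const, nsmul_eq_mul, mul_comm]
      exact mul_le_mul_of_nonneg_left e3 (by positivity)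
    have e5 : F.card ≤ B.card * 2 := by
      refine (Finset.card_filter_le _ _).trans ?_
      rw [Finset.card_product, Finset.card_univ, Fintype.card_bool]
    have e6 : (F.card : ℝ) ≤ B.card * 2 := by exact_mod_cast e5
    have e7 : 0 ≤ n * H := by positivity
    nlinarith [mul_nonneg (by linarith : (0 : ℝ) ≤ c.C) e7]
  · intro e he
    have h1 := (Grow1_box hy ((hFmem e).1 he).1).2.2.2
    have h2 : 0 ≤ 400 * c.C ^ 2 * n := by positivity
    linarith

/-- Transfer of an event by the tilt kernel.  PROOF. Let `J` be the kernel of `Good.tilt`.  For `ω ∈ E` the mass of the `ω'` with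
`∑_{Hs ω} (env ω - env ω') < (su - sl) d |Hs ω| / 4` is at most `exp (-(d |Hs ω| / 16)) ≤ exp (-(d k / 16))`, the other `ω'` with `J ω ω' ≠ 0` are
in `A`.  So `Pr E ≤ Ex (fun ω' => 1_A(ω') ∑_ω J ω ω') + exp (-(d k / 16))` and `1_A D ≤ 2 1_A + (if 2 < D then D else 0)`. -/
theorem tilt_transfer {Q : Par} {g : V → ℝ} {R : ℝ} {M : Mdl Q.a Q.b} (h : Good Q g R M) (C : Finset Edge) (d : ℝ)
    (hC : ∀ e ∈ C, nm e.1 ≤ R) (hd : 0 ≤ d) (hd' : d ≤ 1 / 2) (m : ℕ) (hm : m * d ≤ Q.pl) (E A : M.Ω → Prop)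
    (Hs : M.Ω → Finset Edge) (k : ℝ)
    (h1 : ∀ ω, E ω → Hs ω ⊆ C ∧ (∀ e ∈ Hs ω, Q.su ≤ M.env ω e) ∧ k ≤ ((Hs ω).card : ℝ))
    (h2 : ∀ ω ω', E ω → (∀ e, M.env ω' e ≤ M.env ω e) →
      (Q.su - Q.sl) * (d * k / 4) ≤ ∑ e ∈ Hs ω, (M.env ω e - M.env ω' e) → A ω') :
    Pr E ≤ 2 * Pr A + 2 * (1 / 2) ^ m * Real.exp (Q.K * m ^ 2 * d ^ 2 * C.card) + Real.exp (-(d * k / 16)) := by
  classical
  obtain ⟨J, hJ0, hJ1, hJs, hJl, hJd⟩ := h.tilt C d hC hd hd'
  have hK : 0 < Q.su - Q.sl := by linarith [Q.hs]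
  -- one row
  have hrow : ∀ ω, (if E ω then (1 : ℝ) else 0) ≤
      Real.exp (-(d * k / 16)) + ∑ ω', (if A ω' then (1 : ℝ) else 0) * J ω ω' := by
    intro ω
    have hnn : ∀ ω', 0 ≤ (if A ω' then (1 : ℝ) else 0) * J ω ω' := fun ω' =>
      mul_nonneg (by split_ifs <;> norm_num) (hJ0 ω ω')
    by_cases hE : E ω
    · rw [if_pos hE]
      obtain ⟨a1, a2, a3⟩ := h1 ω hE
      have hlow := hJl ω (Hs ω) a1 a2
      set T := univ.filter (fun ω' => ∑ e ∈ Hs ω, (M.env ω e - M.env ω' e)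
          < (Q.su - Q.sl) * (d * (Hs ω).card / 4)) with hT
      have hexp : Real.exp (-(d * (Hs ω).card / 16)) ≤ Real.exp (-(d * k / 16)) := by
        refine Real.exp_le_exp.2 ?_
        have := mul_le_mul_of_nonneg_left a3 hd
        linarith
      have hsplit : ∑ ω', J ω ω' = ∑ ω' ∈ T, J ω ω' + ∑ ω' ∈ univ.filter (fun ω' => ω' ∉ T), J ω ω' := by
        rw [← Finset.sum_filter_add_sum_filter_not univ (fun ω' => ω' ∈ T) (fun ω' => J ω ω'),
          Finset.filter_univ_mem]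
      have hrest : ∑ ω' ∈ univ.filter (fun ω' => ω' ∉ T), J ω ω' ≤
          ∑ ω', (if A ω' then (1 : ℝ) else 0) * J ω ω' := by
        calc ∑ ω' ∈ univ.filter (fun ω' => ω' ∉ T), J ω ω' ≤
            ∑ ω' ∈ univ.filter (fun ω' => ω' ∉ T), (if A ω' then (1 : ℝ) else 0) * J ω ω' := by
              refine Finset.sum_le_sum fun ω' hω' => ?_
              by_cases hz : J ω ω' = 0
              · rw [hz, mul_zero]
              · have hA : A ω' := by
                  refine h2 ω ω' hE (hJs ω ω' hz).1 ?_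
                  have hω2 := (Finset.mem_filter.1 hω').2
                  rw [hT, Finset.mem_filter] at hω2
                  have hω3 : (Q.su - Q.sl) * (d * (Hs ω).card / 4) ≤
                      ∑ e ∈ Hs ω, (M.env ω e - M.env ω' e) := by
                    by_contra hcon
                    exact hω2 ⟨Finset.mem_univ _, not_le.1 hcon⟩
                  refine le_trans ?_ hω3
                  refine mul_le_mul_of_nonneg_left ?_ hK.le
                  have := mul_le_mul_of_nonneg_left a3 hd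
                  linarith
                rw [if_pos hA, one_mul]
          _ ≤ ∑ ω', (if A ω' then (1 : ℝ) else 0) * J ω ω' :=
            Finset.sum_le_univ_sum_of_nonneg hnn
      have := hJ1 ω
      linarith
    · rw [if_neg hE]
      exact add_nonneg (Real.exp_pos _).le (Finset.sum_nonneg fun ω' _ => hnn ω')
  have hstep : Pr E ≤ Real.exp (-(d * k / 16)) +
      Ex (fun ω' => (if A ω' then (1 : ℝ) else 0) * ∑ ω, J ω ω') := by
    have e1 : Pr E = Ex (fun ω => if E ω then (1 : ℝ) else 0) := Pr_def E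
    rw [e1]
    refine (Ex_mono hrow).trans ?_
    rw [Ex_add (fun _ => Real.exp (-(d * k / 16))), Ex_const]
    have e2 : Ex (fun ω => ∑ ω', (if A ω' then (1 : ℝ) else 0) * J ω ω') =
        Ex (fun ω' => (if A ω' then (1 : ℝ) else 0) * ∑ ω, J ω ω') := by
      unfold Ex
      rw [Finset.sum_comm]
      simp only [Finset.mul_sum]
    rw [e2]
  have hdens := hJd m hm
  have hlast : Ex (fun ω' => (if A ω' then (1 : ℝ) else 0) * ∑ ω, J ω ω') ≤
      2 * Pr A + Ex (fun ω' => if 2 < ∑ ω, J ω ω' then ∑ ω, J ω ω' else 0) := by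
    have e1 : Pr A = Ex (fun ω => if A ω then (1 : ℝ) else 0) := Pr_def A
    rw [e1, ← Ex_mul_left, ← Ex_add]
    refine Ex_mono fun ω' => ?_
    have e2 : 0 ≤ ∑ ω, J ω ω' := Finset.sum_nonneg fun ω _ => hJ0 ω ω'
    by_cases hA : A ω'
    · rw [if_pos hA, one_mul, mul_one]
      split_ifs with h3
      · linarith
      · linarith
    · rw [if_neg hA, zero_mul, mul_zero, zero_add]
      split_ifs
      · exact e2
      · exact le_refl _
  linarith

private theorem Grow1_edge {x y : V} (w : grid.Walk x y) {e : Sym2 V} (he : e ∈ w.edges) :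
    ∃ i < w.length, e = s(w.getVert i, w.getVert (i + 1)) := by
  induction w with
  | nil => simp at he
  | @cons u v w h p ih =>
    rw [SimpleGraph.Walk.edges_cons, List.mem_cons] at he
    rcases he with he | he
    · refine ⟨0, by simp, ?_⟩
      rw [he]
      simp
    · obtain ⟨i, hi, h1⟩ := ih he
      refine ⟨i + 1, by simpa using hi, ?_⟩
      rw [h1, SimpleGraph.Walk.getVert_cons_succ, SimpleGraph.Walk.getVert_cons_succ]

private theorem Grow1_edg {A : Set V} {x y : V} (h : grid.Adj x y) (hx : x ∈ A) (hy : y ∈ A) :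
    ke s(x, y) ∈ edg A := by
  obtain ⟨s, h | h⟩ := h
  · subst h
    rw [ke_dir]
    exact ⟨hx, hy⟩
  · subst h
    rw [ke_dir']
    exact ⟨hy, hx⟩

open Classical in
/-- High edges of the geodesic inside the tube.  PROOF. `w` a geodesic of `res b (edg (Db c 0 y)) τ`; its vertices have `|q| ≤ H` (`conf_q`), a
vertex with `3 H ≤ p ≤ p y - 3 H - C` is in `Db c 0 y`, so an edge of `w` which is not in `edg (Tb c 0 y H)` has an end point with
`p < 3 H + C` or `p > p y - 4 H - C`; all these edges are among the first or last edges of `w`, of total cost at most `C H`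
(`conf_piece`, `conf_dip`: the last vertex with `p < 3 H + C` has `T 0 w_i ≤ p (w_i) + H + ...`), hence at most `C H / a` edges.
`length w ≥ nm y ≥ c n`; at least half of the edges of `w` are high (`nHigh`). -/
theorem high_edges (Q : Par) (c : Crd) : ∃ C : ℝ, 1 ≤ C ∧ ∀ (τ : Env) (y : V) (n N H θ : ℝ), Bd Q.a Q.b τ → 1 ≤ H →
    C * H ≤ n → n / 2 ≤ c.p y → c.p y ≤ n → |c.q y| ≤ 9 * c.C → Fw Q.b c N θ τ → Bw Q.b c N θ y τ → Q.b / Q.a * nm y ≤ N →
    Ts Q.b c τ 0 y - c.p y + 2 * θ ≤ H → ∀ w : grid.Walk 0 y, IsGeo (res Q.b (edg (Db c 0 y)) τ) w →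
    (w.length : ℝ) / 2 ≤ nHigh Q.su τ w →
    n / C ≤ (((wedges w).toFinset.filter fun e => Q.su ≤ τ e ∧ e ∈ edg (Tb c 0 y H)).card : ℝ) := by
  have hC := c.one_le
  have ha := Q.ha
  have hab := Q.hab.le
  have h8a : 0 < 8 / Q.a := by positivity
  refine ⟨8 * c.C * (8 / Q.a + 2), by nlinarith, ?_⟩
  intro τ y n N H θ hτ hH hHn hpy1 hpy2 hqy hF hB hnN hT w hw hhigh
  set ρ : Env := res Q.b (edg (Db c 0 y)) τ with hρ
  have hρB : Bd Q.a Q.b ρ := Bd_res hab hτ _
  have hq : ∀ i, |c.q (w.getVert i)| ≤ H ∧ |c.q (y - w.getVert i)| ≤ H := by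
    intro i
    have h1 := conf_q ha hab hτ hF hB hnN hw i
    have h2 := abs_nonneg (c.q (w.getVert i))
    have h3 := abs_nonneg (c.q (y - w.getVert i))
    constructor <;> linarith
  -- the last vertex with small p
  have hex1 : c.p (w.getVert 0) < 3 * H := by
    rw [w.getVert_zero, map_zero]
    linarith
  set i₁ := Nat.findGreatest (fun i => c.p (w.getVert i) < 3 * H) w.length with hi₁
  have hi1a : c.p (w.getVert i₁) < 3 * H :=
    Nat.findGreatest_spec (P := fun i => c.p (w.getVert i) < 3 * H) (Nat.zero_le w.length) hex1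
  have hi1b : i₁ ≤ w.length := Nat.findGreatest_le _
  have hi1c : ∀ i, i₁ < i → i ≤ w.length → 3 * H ≤ c.p (w.getVert i) := by
    intro i h1 h2
    exact not_lt.1 (Nat.findGreatest_is_greatest h1 h2)
  -- the first vertex with large p
  have hex2 : ∃ i, c.p y - 3 * H < c.p (w.getVert i) := by
    refine ⟨w.length, ?_⟩
    rw [w.getVert_length]
    linarith
  set i₂ := Nat.find hex2 with hi₂
  have hi2a : c.p y - 3 * H < c.p (w.getVert i₂) := Nat.find_spec hex2
  have hi2b : i₂ ≤ w.length := Nat.find_min' hex2 (by rw [w.getVert_length]; linarith)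
  have hi2c : ∀ i, i < i₂ → c.p (w.getVert i) ≤ c.p y - 3 * H := by
    intro i h1
    exact not_lt.1 (Nat.find_min hex2 h1)
  -- lengths of the two ends
  have hlen1 : Q.a * (i₁ : ℝ) ≤ 4 * H := by
    have h1 := conf_piece ha hab hτ hF hB hnN hw (Nat.zero_le i₁)
    obtain ⟨w', hw', hl', -, -⟩ := geo_piece hρB ha.le hw (Nat.zero_le i₁) hi1b
    have h2 := le_cost hρB w'
    rw [hw'.2, hl', Nat.sub_zero] at h2
    have h3 : c.p (w.getVert 0) = 0 := by rw [w.getVert_zero, map_zero]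
    rw [← hρ, h3] at h1
    linarith
  have hlen2 : Q.a * ((w.length - i₂ : ℕ) : ℝ) ≤ 4 * H := by
    have h1 := conf_piece ha hab hτ hF hB hnN hw hi2b
    obtain ⟨w', hw', hl', -, -⟩ := geo_piece hρB ha.le hw hi2b le_rfl
    have h2 := le_cost hρB w'
    rw [hw'.2, hl'] at h2
    have h3 : c.p (w.getVert w.length) = c.p y := by rw [w.getVert_length]
    rw [← hρ, h3] at h1
    linarith
  -- good edges
  have hgood : ∀ i, i < w.length → i₁ < i → i + 1 < i₂ →
      ke s(w.getVert i, w.getVert (i + 1)) ∈ edg (Tb c 0 y H) := by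
    intro i hi h1 h2
    have hv : ∀ j, i₁ < j → j < i₂ → j ≤ w.length → w.getVert j ∈ Tb c 0 y H := by
      intro j g1 g2 g3
      rw [Grow1_mem_Tb]
      have g4 := hi1c j g1 g3
      have g5 := hi2c j g2
      have g6 := hq j
      refine ⟨by linarith [g6.1], ?_, g6.1⟩
      rw [map_sub c.p]
      linarith [g6.2]
    exact Grow1_edg (w.adj_getVert_succ hi) (hv i h1 (by omega) hi.le) (hv (i + 1) (by omega) h2 hi)
  -- counting
  have hpath := hw.1
  have hnd := wedges_nodup hpath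
  have hcardS : (wedges w).toFinset.card = w.length := by
    rw [List.toFinset_card_of_nodup hnd, length_wedges]
  have hHigh : nHigh Q.su τ w = ((wedges w).toFinset.filter fun e => Q.su ≤ τ e).card := by
    unfold nHigh
    rw [← List.toFinset_card_of_nodup (hnd.filter _)]
    congr 1
    ext e
    simp [List.mem_filter]
  have hbad : ((wedges w).toFinset.filter fun e => e ∉ edg (Tb c 0 y H)).card ≤
      (i₁ + 1) + (w.length - i₂ + 1) := by
    have hsub : ((wedges w).toFinset.filter fun e => e ∉ edg (Tb c 0 y H)) ⊆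
        (Finset.range (i₁ + 1) ∪ Finset.Ico (i₂ - 1) w.length).image
          (fun i => ke s(w.getVert i, w.getVert (i + 1))) := by
      intro e he
      rw [Finset.mem_filter, List.mem_toFinset] at he
      obtain ⟨he1, he2⟩ := he
      unfold wedges at he1
      obtain ⟨e', he', rfl⟩ := List.mem_map.1 he1
      obtain ⟨i, hi, rfl⟩ := Grow1_edge w he'
      rw [Finset.mem_image]
      refine ⟨i, ?_, rfl⟩
      rw [Finset.mem_union, Finset.mem_range, Finset.mem_Ico]
      by_contra hcon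
      push Not at hcon
      obtain ⟨g1, g2⟩ := hcon
      have g3 : i + 1 < i₂ := by
        by_contra g4
        have g5 := g2 (by omega)
        omega
      exact he2 (hgood i hi (by omega) g3)
    refine (Finset.card_le_card hsub).trans (Finset.card_image_le.trans ?_)
    refine (Finset.card_union_le _ _).trans ?_
    rw [Finset.card_range, Nat.card_Ico]
    omega
  have hsplit : ((wedges w).toFinset.filter fun e => Q.su ≤ τ e).card ≤
      ((wedges w).toFinset.filter fun e => Q.su ≤ τ e ∧ e ∈ edg (Tb c 0 y H)).card +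
      ((wedges w).toFinset.filter fun e => e ∉ edg (Tb c 0 y H)).card := by
    refine le_trans (Finset.card_le_card ?_) (Finset.card_union_le _ _)
    intro e he
    rw [Finset.mem_filter] at he
    rw [Finset.mem_union, Finset.mem_filter, Finset.mem_filter]
    by_cases h1 : e ∈ edg (Tb c 0 y H)
    · exact Or.inl ⟨he.1, he.2, h1⟩
    · exact Or.inr ⟨he.1, h1⟩
  rw [hHigh] at hhigh
  set X := ((wedges w).toFinset.filter fun e => Q.su ≤ τ e ∧ e ∈ edg (Tb c 0 y H)).card with hX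
  set Y := ((wedges w).toFinset.filter fun e => e ∉ edg (Tb c 0 y H)).card with hY
  set Z := ((wedges w).toFinset.filter fun e => Q.su ≤ τ e).card with hZ
  have f1 : (Z : ℝ) ≤ X + Y := by exact_mod_cast hsplit
  have f2 : (Y : ℝ) ≤ ((i₁ : ℝ) + 1) + (((w.length - i₂ : ℕ) : ℝ) + 1) := by exact_mod_cast hbad
  have f3 : (i₁ : ℝ) ≤ 4 * H / Q.a := by
    rw [le_div_iff₀ ha]
    linarith
  have f4 : ((w.length - i₂ : ℕ) : ℝ) ≤ 4 * H / Q.a := by
    rw [le_div_iff₀ ha]
    linarith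
  have f5 : n / (2 * c.C) ≤ w.length := by
    have g1 := nm_le_length w
    rw [sub_zero] at g1
    have g2 := (le_abs_self _).trans (c.p_le y)
    rw [div_le_iff₀ (by linarith)]
    have g3 := mul_le_mul_of_nonneg_left g1 (by linarith : (0 : ℝ) ≤ c.C)
    linarith
  have f6 : (8 / Q.a + 2) * H ≤ n / (8 * c.C) := by
    rw [le_div_iff₀ (by linarith)]
    linarith
  have f7 : n / (8 * c.C * (8 / Q.a + 2)) ≤ n / (8 * c.C) := by
    have g1 : 0 ≤ n := by linarith [mul_nonneg (by positivity : (0 : ℝ) ≤ 8 * c.C * (8 / Q.a + 2)) (by linarith : (0 : ℝ) ≤ H)]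
    refine div_le_div_of_nonneg_left g1 (by linarith) ?_
    nlinarith
  have f8 : n / (2 * c.C) = 4 * (n / (8 * c.C)) := by
    field_simp
    ring
  have f9 : 4 * H / Q.a + 1 + (4 * H / Q.a + 1) ≤ (8 / Q.a + 2) * H := by
    have g1 : (8 / Q.a + 2) * H = 4 * H / Q.a + 4 * H / Q.a + 2 * H := by ring
    linarith
  have f10 : 0 ≤ n / (8 * c.C) := by
    have g1 : 0 ≤ (8 / Q.a + 2) * H := by positivity
    linarith
  linarith

/-- Lower weights on some edges of the geodesic lower the passage time.  PROOF. `T_le_cost` for the geodesic `w` and the environment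
`res b (edg (Db c 0 y)) τ'`, `cost_path` (the edges of a path are distinct). -/
theorem Ts_drop {a b : ℝ} (ha : 0 < a) (hab : a ≤ b) {τ τ' : Env} (hτ : Bd a b τ) (hτ' : Bd a b τ') (c : Crd) (y : V)
    (w : grid.Walk 0 y) (hw : IsGeo (res b (edg (Db c 0 y)) τ) w) (hle : ∀ e, τ' e ≤ τ e) (F : Finset Edge)
    (hF : ∀ e ∈ F, e ∈ wedges w ∧ e ∈ edg (Db c 0 y)) :
    Ts b c τ' 0 y ≤ Ts b c τ 0 y - ∑ e ∈ F, (τ e - τ' e) := by
  classical
  have hρ' : Bd a b (res b (edg (Db c 0 y)) τ') := Bd_res hab hτ' _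
  have h1 : Ts b c τ' 0 y ≤ cost (res b (edg (Db c 0 y)) τ') w := T_le_cost hρ' ha.le w
  have h2 : Ts b c τ 0 y = cost (res b (edg (Db c 0 y)) τ) w := hw.2.symm
  rw [h2, cost_path _ hw.1]
  rw [cost_path _ hw.1] at h1
  have hsub : F ⊆ (wedges w).toFinset := fun e he => List.mem_toFinset.2 (hF e he).1
  have h3 : ∀ e ∈ F, τ e - τ' e = res b (edg (Db c 0 y)) τ e - res b (edg (Db c 0 y)) τ' e := by
    intro e he
    unfold res
    rw [if_pos (hF e he).2, if_pos (hF e he).2]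
  have h4 : ∑ e ∈ F, (τ e - τ' e) ≤
      ∑ e ∈ (wedges w).toFinset, (res b (edg (Db c 0 y)) τ e - res b (edg (Db c 0 y)) τ' e) := by
    rw [Finset.sum_congr rfl h3]
    refine Finset.sum_le_sum_of_subset_of_nonneg hsub fun e _ _ => ?_
    unfold res
    by_cases h5 : e ∈ edg (Db c 0 y)
    · rw [if_pos h5, if_pos h5]
      linarith [hle e]
    · rw [if_neg h5, if_neg h5, sub_self]
  have h5 := Finset.sum_sub_distrib (s := (wedges w).toFinset) (fun e => res b (edg (Db c 0 y)) τ e)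
    (fun e => res b (edg (Db c 0 y)) τ' e)
  linarith

end Pool.Agent.W_1b8d5d_c1
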