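import Pool.Agent.W_1b8d5d_c1.FlatB
import Pool.Agent.W_1b8d5d_c1.Geo

/-!
MP_1b8d5d_pr (N2): the flat principle for the first success in a list of candidates.
-/

set_option autoImplicit false

namespace Pool.Agent.W_1b8d5d_c1

open Finset Pool.Agent.W_1b8d5d_h85

/-- The first success of the list of events `K` is `i`. -/
def Fst {m : ℕ} (K : Fin m → Env → Prop) (i : Fin m) (τ : Env) : Prop := K i τ ∧ ∀ j < i, ¬ K j τ

/-- No success. -/
def Non {m : ℕ} (K : Fin m → Env → Prop) (τ : Env) : Prop := ∀ i, ¬ K i τ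

theorem Fst_unique {m : ℕ} {K : Fin m → Env → Prop} {i j : Fin m} {τ : Env} (hi : Fst K i τ) (hj : Fst K j τ) :
    i = j := by
  rcases lt_trichotomy i j with h | h | h
  · exact absurd hi.1 (hj.2 i h)
  · exact h
  · exact absurd hj.1 (hi.2 j h)

theorem Fst_or_Non {m : ℕ} (K : Fin m → Env → Prop) (τ : Env) : (∃ i, Fst K i τ) ∨ Non K τ := by
  by_cases h : ∃ i, K i τ
  · left
    obtain ⟨i, hi, hmin⟩ := WellFounded.has_min
      (wellFounded_lt : WellFounded ((· < ·) : Fin m → Fin m → Prop)) {i | K i τ} h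
    exact ⟨i, hi, fun j hj hK => hmin j hK hj⟩
  · right
    exact fun i hi => h ⟨i, hi⟩

private theorem Sel_not {m : ℕ} {K : Fin m → Env → Prop} {i : Fin m} {τ : Env} (hi : Fst K i τ) :
    ¬ Non K τ := fun h => h i hi.1

private theorem Sel_Qd (c : Crd) (x : V) : Qd (sk c) 0 x = Wd c x := (Wd_eq_Qd c x).symm

/-- The event that the candidate `i` is the first success is determined by the sets `D j`, `j ≤ i`. -/
private theorem Sel_Fst {m : ℕ} {K : Fin m → Env → Prop} {D : Fin m → Set Edge}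
    (hK : ∀ i, DependsOn (K i) (D i)) {i : Fin m} {τ τ' : Env}
    (h : ∀ j ≤ i, ∀ e ∈ D j, τ e = τ' e) (hi : Fst K i τ) : Fst K i τ' := by
  refine ⟨?_, fun j hj hKj => hi.2 j hj ?_⟩
  · exact Eq.mp (hK i (h i le_rfl)) hi.1
  · exact Eq.mpr (hK j (h j hj.le)) hKj

private theorem Sel_Non {m : ℕ} {K : Fin m → Env → Prop} {D : Fin m → Set Edge}
    (hK : ∀ i, DependsOn (K i) (D i)) {τ τ' : Env}
    (h : ∀ j, ∀ e ∈ D j, τ e = τ' e) (hi : Non K τ) : Non K τ' := by
  intro j hj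
  exact hi j (Eq.mpr (hK j (h j)) hj)

open Classical in
/-- The flat principle (greedy inequality) for the first success.  A traveller at `0` looks at the candidates in the given order and goes to
`y i` at the cost (minus the value of `p + q`) `A i` for the first success `i`, to `yd` if there is no success; the decision does not
depend on the edges of the wedge at the point where he goes.  PROOF. `flat` for the coordinates `sk c`, `β = 0`
(`(sk c).p z + (sk c).q z = c.p z + c.q z`), `Y τ = y i` if `Fst K i τ`, `yd` if `Non K τ`; `Wd_eq_Qd`. -/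
theorem flat_sel (Q : Par) (g : V → ℝ) (c : Crd) (hg : IsMean Q g) (hl : ∀ z, c.p z + c.q z ≤ g z) :
    ∃ H₀ : ℝ, 1 ≤ H₀ ∧ ∀ H ≥ H₀, ∀ (R : ℝ) (M : Mdl Q.a Q.b), 8 * H ^ 12 ≤ R → Good Q g R M →
    ∀ (m : ℕ) (K : Fin m → Env → Prop) (D : Fin m → Set Edge) (y : Fin m → V) (yd : V) (A : Fin m → Env → ℝ)
      (Ad : Env → ℝ),
      (∀ i, nm (y i) ≤ H ∧ y i ∈ Wd c 0) → nm yd ≤ H → yd ∈ Wd c 0 →
      (∀ i, DependsOn (K i) (D i)) →
      (∀ i, ∀ e ∈ D i, e ∈ edg (Wd c 0) ∧ nm e.1 ≤ H) →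
      (∀ i j, j ≤ i → ∀ e ∈ D j, e ∉ edg (Wd c (y i))) →
      (∀ j, ∀ e ∈ D j, e ∉ edg (Wd c yd)) →
      (∀ i, DependsOn (A i) {e | e ∈ edg (Wd c 0) ∧ nm e.1 ≤ H}) →
      DependsOn Ad {e | e ∈ edg (Wd c 0) ∧ nm e.1 ≤ H} →
      (∀ i τ, Bd Q.a Q.b τ → K i τ → T τ 0 (y i) - (c.p (y i) + c.q (y i)) ≤ A i τ) →
      (∀ τ, Bd Q.a Q.b τ → T τ 0 yd - (c.p yd + c.q yd) ≤ Ad τ) →
      -1 ≤ M.E fun τ => (∑ i, if Fst K i τ then A i τ else 0) + if Non K τ then Ad τ else 0 := by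
  have hsum : ∀ z, (sk c).p z + (sk c).q z = c.p z + c.q z := by
    intro z
    show skp c z + skq c z = c.p z + c.q z
    rw [skp_apply, skq_apply]
    ring
  obtain ⟨H₀, hH₀, hflat⟩ := flat Q g (sk c) hg (fun z => by rw [hsum]; exact hl z)
  refine ⟨H₀, hH₀, ?_⟩
  intro H hH R M hR hM m K D y yd A Ad hy hyd hyd' hK hD1 hD2 hD3 hA hAd hT hTd
  obtain ⟨Y, hYdef⟩ : ∃ Y : Env → V, Y = fun τ => if h : ∃ i, Fst K i τ then y h.choose else yd :=
    ⟨_, rfl⟩
  have hY1 : ∀ i τ, Fst K i τ → Y τ = y i := by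
    intro i τ hi
    have hex : ∃ i, Fst K i τ := ⟨i, hi⟩
    rw [hYdef]
    simp only
    rw [dif_pos hex]
    exact congrArg y (Fst_unique hex.choose_spec hi)
  have hY2 : ∀ τ, Non K τ → Y τ = yd := by
    intro τ hn
    have hex : ¬ ∃ i, Fst K i τ := fun ⟨i, hi⟩ => Sel_not hi hn
    rw [hYdef]
    simp only
    rw [dif_neg hex]
  have hpos : ∀ z ∈ Wd c 0, 0 ≤ (sk c).p z ∧ 0 ≤ (sk c).q z := by
    rintro z ⟨h1, h2⟩
    rw [sub_zero] at h1 h2
    constructor
    · show 0 ≤ skp c z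
      rw [skp_apply]
      linarith
    · show 0 ≤ skq c z
      rw [skq_apply]
      linarith
  have hsub : ∀ j, ∀ e ∈ D j, e ∈ {e : Edge | e ∈ edg (Wd c 0) ∧ nm e.1 ≤ H} := fun j e he => hD1 j e he
  have h0 := hflat H hH R M hR hM 0 Y
    (fun τ => (∑ i, if Fst K i τ then A i τ else 0) + if Non K τ then Ad τ else 0) le_rfl ?_ ?_ ?_ ?_
  · exact h0
  · intro τ
    rcases Fst_or_Non K τ with ⟨i, hi⟩ | hn
    · rw [hY1 i τ hi]
      exact ⟨(hy i).1, hpos _ (hy i).2⟩
    · rw [hY2 τ hn]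
      exact ⟨hyd, hpos _ hyd'⟩
  · intro y'
    have key : ∀ τ τ' : Env,
        (∀ e ∈ {e : Edge | e ∈ edg (Qd (sk c) 0 0) ∧ nm e.1 ≤ H ∧ e ∉ edg (Qd (sk c) 0 y')},
          τ e = τ' e) → Y τ = y' → Y τ' = y' := by
      intro τ τ' hag hYτ
      rw [Sel_Qd, Sel_Qd] at hag
      rcases Fst_or_Non K τ with ⟨i, hi⟩ | hn
      · rw [hY1 i τ hi] at hYτ
        have hi' : Fst K i τ' := by
          refine Sel_Fst hK (fun j hj e he => hag e ⟨(hD1 j e he).1, (hD1 j e he).2, ?_⟩) hi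
          rw [← hYτ]
          exact hD2 i j hj e he
        rw [hY1 i τ' hi']
        exact hYτ
      · rw [hY2 τ hn] at hYτ
        have hn' : Non K τ' := by
          refine Sel_Non hK (fun j e he => hag e ⟨(hD1 j e he).1, (hD1 j e he).2, ?_⟩) hn
          rw [← hYτ]
          exact hD3 j e he
        rw [hY2 τ' hn']
        exact hYτ
    intro τ τ' h
    exact propext ⟨key τ τ' h, key τ' τ fun e he => (h e he).symm⟩
  · intro τ τ' h
    rw [Sel_Qd] at h
    have hF : ∀ i, (Fst K i τ) = (Fst K i τ') := fun i => propext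
      ⟨fun hi => Sel_Fst hK (fun j _ e he => h e (hsub j e he)) hi,
        fun hi => Sel_Fst hK (fun j _ e he => (h e (hsub j e he)).symm) hi⟩
    have hN : (Non K τ) = (Non K τ') := propext
      ⟨fun hi => Sel_Non hK (fun j e he => h e (hsub j e he)) hi,
        fun hi => Sel_Non hK (fun j e he => (h e (hsub j e he)).symm) hi⟩
    have hAi : ∀ i, A i τ = A i τ' := fun i => hA i h
    have hAd' : Ad τ = Ad τ' := hAd h
    simp only [hF, hN, hAi, hAd']
  · intro τ hτ
    rw [hsum]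
    rcases Fst_or_Non K τ with ⟨i, hi⟩ | hn
    · rw [hY1 i τ hi]
      have h1 : (∑ j, if Fst K j τ then A j τ else 0) = A i τ := by
        rw [Finset.sum_eq_single i]
        · rw [if_pos hi]
        · intro j _ hj
          rw [if_neg fun h => hj (Fst_unique h hi)]
        · intro h
          exact absurd (mem_univ i) h
      show _ ≤ (∑ j, if Fst K j τ then A j τ else 0) + if Non K τ then Ad τ else 0
      rw [h1, if_neg (Sel_not hi), add_zero]
      exact hT i τ hτ hi.1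
    · rw [hY2 τ hn]
      have h1 : (∑ j, if Fst K j τ then A j τ else 0) = 0 := by
        refine Finset.sum_eq_zero fun j _ => ?_
        rw [if_neg fun h => Sel_not h hn]
      show _ ≤ (∑ j, if Fst K j τ then A j τ else 0) + if Non K τ then Ad τ else 0
      rw [h1, if_pos hn, zero_add]
      exact hTd τ hτ

end Pool.Agent.W_1b8d5d_c1
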