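import Pool.Agent.W_1b8d5d_c1.Defs
import Pool.Agent.W_1b8d5d_h85.FMuG
import Pool.Agent.W_1b8d5d_nc.Geo1

/-!
MP_1b8d5d_pr (N2): from a corner of the limit shape to the lattice data `Cnr`.
-/

set_option autoImplicit false

namespace Pool.Agent.W_1b8d5d_c1

open Pool.Agent.W_1b8d5d_h85 Pool.Agent.W_1b8d5d_nc

variable {μ : ℝ × ℝ → ℝ} {g : V → ℝ}

private theorem BCnr_dt (C : Cor μ) : dt C.v C.e ≠ 0 := by
  intro h
  have h' : C.v.1 * C.e.2 - C.v.2 * C.e.1 = 0 := h
  have e1 : C.e.2 • C.v - C.v.2 • C.e = 0 := by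
    refine Prod.ext ?_ ?_
    · simp only [Prod.fst_sub, Prod.smul_fst, smul_eq_mul, Prod.fst_zero]
      linarith
    · simp only [Prod.snd_sub, Prod.smul_snd, smul_eq_mul, Prod.snd_zero]
      ring
  have e2 : C.e.1 • C.v - C.v.1 • C.e = 0 := by
    refine Prod.ext ?_ ?_
    · simp only [Prod.fst_sub, Prod.smul_fst, smul_eq_mul, Prod.fst_zero]
      ring
    · simp only [Prod.snd_sub, Prod.smul_snd, smul_eq_mul, Prod.snd_zero]
      linarith
  have y1 : C.Y (C.e.2 • C.v - C.v.2 • C.e) = -C.v.2 := by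
    rw [map_sub, map_smul, map_smul, C.Yv, C.Ye]
    simp
  have y2 : C.Y (C.e.1 • C.v - C.v.1 • C.e) = -C.v.1 := by
    rw [map_sub, map_smul, map_smul, C.Yv, C.Ye]
    simp
  rw [e1, map_zero] at y1
  rw [e2, map_zero] at y2
  have hv : C.v = 0 := Prod.ext (by simp only [Prod.fst_zero]; linarith) (by simp only [Prod.snd_zero]; linarith)
  have := C.Gv
  rw [hv, map_zero] at this
  exact zero_ne_one this

/-- The coordinates of a corner: `p` is the mean of the two one-sided derivatives, `q` half the difference. -/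
theorem exists_cnr {Q : Par} (hg : IsMean Q g) (h : MuG Q.b μ g) (C : Cor μ) : ∃ c : Crd, Cnr g c := by
  obtain ⟨c, hcp, hcq⟩ := exists_crd (BCnr_dt C)
  have hcr : ∀ x : V, toR x = c.p x • C.v + c.q x • C.e := by
    intro x
    have := cramer (BCnr_dt C) (toR x)
    rw [← hcp, ← hcq] at this
    exact this
  have hG : ∀ x : V, C.G (toR x) = c.p x := by
    intro x
    rw [hcr x, map_add, map_smul, map_smul, C.Gv, C.Ge]
    simp
  have hY : ∀ x : V, C.Y (toR x) = c.q x := by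
    intro x
    rw [hcr x, map_add, map_smul, map_smul, C.Yv, C.Ye]
    simp
  refine ⟨c, ⟨fun z => ?_, fun ε hε => ?_⟩⟩
  · have h1 := C.low (toR z)
    rw [hG, hY] at h1
    have h2 := h.le z
    have h3 := le_abs_self (c.p z)
    linarith
  obtain ⟨t₀, ht₀, hupp⟩ := C.upp ε hε
  refine ⟨t₀, ht₀, fun η hη => ?_⟩
  have hb : 0 < Q.b := Q.ha.trans Q.hab
  have hre := rn_nonneg C.e
  have hrv := rn_nonneg C.v
  -- the mesh
  obtain ⟨s, hs, hs1⟩ : ∃ s : ℝ, 0 < s ∧ Q.b * (s * rn C.e) ≤ η / 4 := by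
    refine ⟨η / (4 * (Q.b * (rn C.e + 1))), by positivity, ?_⟩
    have h1 : Q.b * (η / (4 * (Q.b * (rn C.e + 1))) * rn C.e) = η / 4 * (rn C.e / (rn C.e + 1)) := by
      field_simp
    rw [h1]
    have h2 : rn C.e / (rn C.e + 1) ≤ 1 := by
      rw [div_le_one (by linarith)]
      linarith
    have h3 : (0 : ℝ) ≤ η / 4 := by positivity
    nlinarith
  choose n₀ hn₀ using fun w : ℝ × ℝ => h.lim w (η / 4) 1 (by positivity)
  -- the bound for the indices
  set J : ℕ := ⌊t₀ / s⌋₊ + 1 with hJ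
  set N₁ : ℕ := (Finset.range J).sup fun j => max (n₀ (C.v + ((j : ℝ) * s) • C.e)) (n₀ (C.v - ((j : ℝ) * s) • C.e))
    with hN₁
  set A : ℝ := Q.b * (1 + rn C.v + t₀ * rn C.e) with hA
  have hA0 : 0 ≤ A := by positivity
  refine ⟨max ((N₁ : ℝ) + 1) (A / (η / 4)), fun z hz hqz => ?_⟩
  set P : ℝ := c.p z with hP
  set q : ℝ := c.q z with hq
  have hP1 : (N₁ : ℝ) + 1 ≤ P := (le_max_left _ _).trans hz
  have hP2 : A ≤ η / 4 * P := by
    have := (le_max_right _ _).trans hz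
    rw [div_le_iff₀ (by positivity)] at this
    linarith
  have hN0 : (0 : ℝ) ≤ (N₁ : ℝ) := Nat.cast_nonneg _
  have hP0 : 0 < P := by linarith
  set n : ℕ := ⌊P⌋₊ with hn
  have hn1 : N₁ ≤ n := Nat.le_floor (by linarith)
  have hnP : (n : ℝ) ≤ P := Nat.floor_le hP0.le
  have hnP' : P < (n : ℝ) + 1 := Nat.lt_floor_add_one P
  set t : ℝ := |q| / P with ht
  have ht0 : 0 ≤ t := by positivity
  have htq : t * P = |q| := by
    rw [ht]
    field_simp
  have htt : t ≤ t₀ := by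
    rw [ht, div_le_iff₀ hP0]
    exact hqz
  set j : ℕ := ⌊t / s⌋₊ with hj
  have hjs : (j : ℝ) * s ≤ t := by
    have := Nat.floor_le (a := t / s) (by positivity)
    rw [← hj, le_div_iff₀ hs] at this
    exact this
  have hjs' : t < ((j : ℝ) + 1) * s := by
    have := Nat.lt_floor_add_one (t / s)
    rw [← hj, div_lt_iff₀ hs] at this
    exact this
  have hjJ : j < J := by
    rw [hJ, Nat.lt_add_one_iff, hj]
    exact Nat.floor_le_floor (div_le_div_of_nonneg_right htt hs.le)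
  have hj0 : 0 ≤ (j : ℝ) * s := by positivity
  -- the two bounds for `μ`
  have hμ : μ (C.v + ((j : ℝ) * s) • C.e) ≤ 1 + (1 + ε) * t ∧ μ (C.v - ((j : ℝ) * s) • C.e) ≤ 1 + (1 + ε) * t := by
    rcases hj0.lt_or_eq with h0 | h0
    · have h1 := hupp _ h0 (hjs.trans htt)
      have h2 : (1 + ε) * ((j : ℝ) * s) ≤ (1 + ε) * t := mul_le_mul_of_nonneg_left hjs (by linarith)
      exact ⟨by linarith [h1.1], by linarith [h1.2]⟩
    · rw [← h0, zero_smul, add_zero, sub_zero, C.mu_v]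
      have h2 : 0 ≤ (1 + ε) * t := mul_nonneg (by linarith) ht0
      exact ⟨by linarith, by linarith⟩
  have hmax : n₀ (C.v + ((j : ℝ) * s) • C.e) ≤ n ∧ n₀ (C.v - ((j : ℝ) * s) • C.e) ≤ n := by
    have h1 : max (n₀ (C.v + ((j : ℝ) * s) • C.e)) (n₀ (C.v - ((j : ℝ) * s) • C.e)) ≤ N₁ :=
      Finset.le_sup (f := fun j : ℕ => max (n₀ (C.v + ((j : ℝ) * s) • C.e)) (n₀ (C.v - ((j : ℝ) * s) • C.e)))
        (Finset.mem_range.2 hjJ)
    exact ⟨((le_max_left _ _).trans h1).trans hn1, ((le_max_right _ _).trans h1).trans hn1⟩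
  -- the sign
  obtain ⟨σ, hσ, hσ1, hσμ, hσn⟩ : ∃ σ : ℝ, σ * |q| = q ∧ |σ| = 1 ∧
      μ (C.v + (σ * ((j : ℝ) * s)) • C.e) ≤ 1 + (1 + ε) * t ∧ n₀ (C.v + (σ * ((j : ℝ) * s)) • C.e) ≤ n := by
    rcases le_total 0 q with h0 | h0
    · refine ⟨1, by rw [abs_of_nonneg h0, one_mul], by simp, ?_, ?_⟩
      · rw [one_mul]
        exact hμ.1
      · rw [one_mul]
        exact hmax.1
    · have e : C.v + (-1 * ((j : ℝ) * s)) • C.e = C.v - ((j : ℝ) * s) • C.e := by
        rw [neg_one_mul, neg_smul, sub_eq_add_neg]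
      refine ⟨-1, by rw [abs_of_nonpos h0]; ring, by simp, ?_, ?_⟩
      · rw [e]
        exact hμ.2
      · rw [e]
        exact hmax.2
  set w : ℝ × ℝ := C.v + (σ * ((j : ℝ) * s)) • C.e with hw
  obtain ⟨y, hy⟩ := exists_round ((n : ℝ) • w)
  have hgy := hn₀ w n hσn y hy
  have hlip := hg.lipF z y
  have hnm : nm (z - y) ≤ 1 + rn C.v + (P * s + t₀) * rn C.e := by
    rw [nm_eq_rn, toR_sub]
    have e : toR z - toR y = (P - n) • C.v + (q - n * (σ * ((j : ℝ) * s))) • C.e + -(toR y - (n : ℝ) • w) := by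
      rw [hcr z, hw]
      module
    rw [e]
    refine (rn_add_le _ _).trans ?_
    rw [rn_neg]
    have h1 := rn_add_le ((P - n) • C.v) ((q - n * (σ * ((j : ℝ) * s))) • C.e)
    rw [rn_smul, rn_smul] at h1
    have h2 : |P - n| ≤ 1 := by
      rw [abs_of_nonneg (by linarith)]
      linarith
    have h3 : |q - n * (σ * ((j : ℝ) * s))| ≤ P * s + t₀ := by
      have e3 : q - n * (σ * ((j : ℝ) * s)) = σ * (|q| - n * ((j : ℝ) * s)) := by
        rw [mul_sub, hσ]
        ring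
      rw [e3, abs_mul, hσ1, one_mul]
      have h4 : |q| - n * ((j : ℝ) * s) = P * (t - (j : ℝ) * s) + (P - n) * ((j : ℝ) * s) := by
        rw [← htq]
        ring
      have h5 : 0 ≤ t - (j : ℝ) * s := by linarith
      have h6 : t - (j : ℝ) * s ≤ s := by linarith
      have h7 : 0 ≤ P - n := by linarith
      have h8 : (P - n) * ((j : ℝ) * s) ≤ 1 * t₀ :=
        mul_le_mul (by linarith) (hjs.trans htt) hj0 zero_le_one
      have h9 : P * (t - (j : ℝ) * s) ≤ P * s := mul_le_mul_of_nonneg_left h6 hP0.le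
      rw [h4, abs_of_nonneg (by positivity)]
      linarith
    have h10 : |P - n| * rn C.v ≤ 1 * rn C.v := mul_le_mul_of_nonneg_right h2 hrv
    have h11 : |q - n * (σ * ((j : ℝ) * s))| * rn C.e ≤ (P * s + t₀) * rn C.e := mul_le_mul_of_nonneg_right h3 hre
    linarith
  have h12 : Q.b * nm (z - y) ≤ A + P * (Q.b * (s * rn C.e)) := by
    have := mul_le_mul_of_nonneg_left hnm hb.le
    rw [hA]
    linarith
  have h13 : P * (Q.b * (s * rn C.e)) ≤ P * (η / 4) := mul_le_mul_of_nonneg_left hs1 hP0.le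
  have h14 : (n : ℝ) * (μ w + η / 4) ≤ P + (1 + ε) * |q| + η / 4 * P := by
    have h15 : (n : ℝ) * (μ w + η / 4) ≤ (n : ℝ) * (1 + (1 + ε) * t + η / 4) :=
      mul_le_mul_of_nonneg_left (by linarith) (Nat.cast_nonneg _)
    have h16 : (n : ℝ) * (1 + (1 + ε) * t + η / 4) ≤ P * (1 + (1 + ε) * t + η / 4) := by
      refine mul_le_mul_of_nonneg_right hnP ?_
      have : 0 ≤ (1 + ε) * t := mul_nonneg (by linarith) ht0
      linarith
    have h17 : P * (1 + (1 + ε) * t + η / 4) = P + (1 + ε) * |q| + η / 4 * P := by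
      rw [← htq]
      ring
    linarith
  have h18 : 0 ≤ η * P := by positivity
  linarith

end Pool.Agent.W_1b8d5d_c1
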