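import Pool.Agent.W_1b8d5d_c1.Geo

/-!
MP_1b8d5d_pr (N2): the maximal inequality, deterministic part.
-/

set_option autoImplicit false

namespace Pool.Agent.W_1b8d5d_c1

open Finset Pool.Agent.W_1b8d5d_h85

/-- The level `p + q`. -/
noncomputable def lev (c : Crd) (z : V) : ℝ := c.p z + c.q z

theorem lev_add (c : Crd) (x y : V) : lev c (x + y) = lev c x + lev c y := by
  unfold lev
  rw [map_add, map_add]
  ring

theorem lev_sub (c : Crd) (x y : V) : lev c (x - y) = lev c x - lev c y := by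
  unfold lev
  rw [map_sub, map_sub]
  ring

private theorem Max1_lev_le_nm (c : Crd) (z : V) : |lev c z| ≤ 2 * c.C * nm z := by
  have h1 := c.p_le z
  have h2 := c.q_le z
  have h3 : |lev c z| ≤ |c.p z| + |c.q z| := abs_add_le _ _
  linarith

theorem lev_adj {c : Crd} {x y : V} (h : grid.Adj x y) : |lev c y - lev c x| ≤ 2 * c.C := by
  have h1 := Max1_lev_le_nm c (y - x)
  rw [nm_adj h, lev_sub, mul_one] at h1
  exact h1

theorem lev_le_nm (c : Crd) (z : V) : |lev c z| ≤ 2 * c.C * nm z := Max1_lev_le_nm c z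

private theorem Max1_mem {c : Crd} {z : V} (h : z ∈ Wd c 0) :
    0 ≤ c.p z - c.q z ∧ 0 ≤ c.p z + 3 * c.q z := by
  have h1 : 0 ≤ c.p (z - 0) - c.q (z - 0) ∧ 0 ≤ c.p (z - 0) + 3 * c.q (z - 0) := h
  rwa [sub_zero] at h1

private theorem Max1_zero (c : Crd) : (0 : V) ∈ Wd c 0 := by
  change 0 ≤ c.p (0 - 0) - c.q (0 - 0) ∧ 0 ≤ c.p (0 - 0) + 3 * c.q (0 - 0)
  rw [sub_zero, map_zero, map_zero]
  norm_num

/-- Points of the wedge: the level controls the norm (`sk c`, `Crd.nm_le`). -/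
theorem nm_le_lev {c : Crd} {z : V} (h : z ∈ Wd c 0) : nm z ≤ 3 * c.C * lev c z := by
  obtain ⟨h1, h2⟩ := Max1_mem h
  have h3 : nm z ≤ (3 * c.C) * (|skp c z| + |skq c z|) := (sk c).nm_le z
  rw [skp_apply, skq_apply, abs_of_nonneg (by linarith : 0 ≤ (c.p z - c.q z) / 2),
    abs_of_nonneg (by linarith : 0 ≤ (c.p z + 3 * c.q z) / 2)] at h3
  have h4 : (c.p z - c.q z) / 2 + (c.p z + 3 * c.q z) / 2 = lev c z := by
    unfold lev
    ring
  rwa [h4] at h3

theorem lev_nonneg {c : Crd} {z : V} (h : z ∈ Wd c 0) : 0 ≤ lev c z := by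
  obtain ⟨h1, h2⟩ := Max1_mem h
  unfold lev
  linarith

/-- The edges of the wedge with an end point of level less than the level of `w`. -/
def Aw (c : Crd) (w : V) : Set Edge :=
  {e | e ∈ edg (Wd c 0) ∧ (lev c e.1 < lev c w ∨ lev c (e.1 + dir e.2) < lev c w)}

theorem Aw_mono {c : Crd} {w w' : V} (h : lev c w ≤ lev c w') : Aw c w ⊆ Aw c w' := by
  rintro e ⟨h1, h2⟩
  exact ⟨h1, h2.imp (fun h3 => h3.trans_le h) fun h3 => h3.trans_le h⟩

theorem Aw_disj {c : Crd} {w y : V} (h : lev c w ≤ lev c y) {e : Edge} (he : e ∈ Aw c w) : e ∉ edg (Wd c y) := by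
  rintro ⟨h1, h2⟩
  have h3 : lev c y ≤ lev c e.1 := Wd_lev h1
  have h4 : lev c y ≤ lev c (e.1 + dir e.2) := Wd_lev h2
  rcases he.2 with h5 | h5 <;> linarith

theorem Aw_nm {c : Crd} {w : V} {e : Edge} (he : e ∈ Aw c w) : nm e.1 ≤ 3 * c.C * (lev c w + 2 * c.C) := by
  have h1 := nm_le_lev he.1.1
  have hC : 0 ≤ c.C := by linarith [c.one_le]
  have h2 : lev c e.1 ≤ lev c w + 2 * c.C := by
    rcases he.2 with h5 | h5
    · linarith
    · have h6 := abs_le.1 (lev_adj (c := c) (x := e.1) (y := e.1 + dir e.2) ⟨e.2, Or.inl rfl⟩)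
      linarith [h6.1]
  refine h1.trans (mul_le_mul_of_nonneg_left h2 (by positivity))

/-- The end points of an edge of the grid. -/
private theorem Max1_ke {x y : V} (h : grid.Adj x y) :
    ((ke s(x, y)).1 = x ∧ (ke s(x, y)).1 + dir (ke s(x, y)).2 = y) ∨
      ((ke s(x, y)).1 = y ∧ (ke s(x, y)).1 + dir (ke s(x, y)).2 = x) := by
  obtain ⟨s, h | h⟩ := h
  · left
    rw [h, ke_dir]
    exact ⟨rfl, rfl⟩
  · right
    rw [h, ke_dir']
    exact ⟨rfl, rfl⟩

/-- A walk whose vertices, except the first, are outside of `A`. -/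
private theorem Max1_out {b : ℝ} {A : Set V} {τ : Env} {x y : V} (w : grid.Walk x y)
    (h : ∀ i, 0 < i → i ≤ w.length → w.getVert i ∉ A) :
    cost (res b (edg A) τ) w = b * w.length := by
  induction w with
  | nil => simp [cost, wedges]
  | @cons u v z hadj p ih =>
    have h1 : v ∉ A := by
      have := h 1 one_pos (by rw [SimpleGraph.Walk.length_cons]; omega)
      simpa using this
    have h2 : ke s(u, v) ∉ edg A := by
      rintro ⟨h3, h4⟩
      rcases Max1_ke hadj with ⟨h5, h6⟩ | ⟨h5, h6⟩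
      · rw [h6] at h4
        exact h1 h4
      · rw [h5] at h3
        exact h1 h3
    have h3 := ih (fun i hi hi' => by
      have := h (i + 1) (by omega) (by rw [SimpleGraph.Walk.length_cons]; omega)
      simpa using this)
    have h4 : cost (res b (edg A) τ) (SimpleGraph.Walk.cons hadj p) =
        res b (edg A) τ (ke s(u, v)) + cost (res b (edg A) τ) p := by
      simp [cost, wedges]
    rw [h4, h3, SimpleGraph.Walk.length_cons]
    unfold res
    rw [if_neg h2]
    push_cast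
    ring

/-- From the last vertex in `A` on, a geodesic for the weights of `A` is expensive. -/
private theorem Max1_last {Q : Par} {g : V → ℝ} {c : Crd} (hg : IsMean Q g) (hl : ∀ z, c.p z + c.q z ≤ g z) {τ : Env}
    (hτ : Bd Q.a Q.b τ) {z : V} {w : grid.Walk 0 z} (hw : IsGeo (res Q.b (edg (Wd c 0)) τ) w) {j : ℕ}
    (hj : j ≤ w.length) :
    ∃ i ≤ j, w.getVert i ∈ Wd c 0 ∧
      T (res Q.b (edg (Wd c 0)) τ) 0 (w.getVert i) + (lev c (w.getVert j) - lev c (w.getVert i)) ≤
        T (res Q.b (edg (Wd c 0)) τ) 0 (w.getVert j) := by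
  classical
  have hbd : Bd Q.a Q.b (res Q.b (edg (Wd c 0)) τ) := Bd_res Q.hab.le hτ _
  have hex : ∃ m, m ≤ j ∧ w.getVert (j - m) ∈ Wd c 0 := ⟨j, le_rfl, by
    rw [Nat.sub_self, w.getVert_zero]
    exact Max1_zero c⟩
  obtain ⟨hm1, hm2⟩ := Nat.find_spec hex
  have hm3 : ∀ i, j - Nat.find hex < i → i ≤ j → w.getVert i ∉ Wd c 0 := by
    intro i hi hi' hmem
    have h1 : j - i < Nat.find hex := by omega
    refine Nat.find_min hex h1 ⟨by omega, ?_⟩
    have h2 : j - (j - i) = i := by omega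
    rwa [h2]
  set i := j - Nat.find hex with hi
  have hij : i ≤ j := Nat.sub_le _ _
  refine ⟨i, hij, hm2, ?_⟩
  obtain ⟨w', hw', hlen, hv, -⟩ := geo_piece hbd Q.ha.le hw hij hj
  have h1 : cost (res Q.b (edg (Wd c 0)) τ) w' = Q.b * w'.length := by
    refine Max1_out w' fun l hl hl' => ?_
    rw [hlen] at hl'
    rw [hv l hl']
    exact hm3 _ (by omega) (by omega)
  have h2 := geo_sub hbd Q.ha.le hw hij
  rw [← hw'.2, h1] at h2
  have h3 := nm_le_length w'
  have hb : 0 ≤ Q.b := Q.ha.le.trans Q.hab.le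
  have h4 := hg.upp (w.getVert j - w.getVert i)
  have h5 := hl (w.getVert j - w.getVert i)
  have h6 := mul_le_mul_of_nonneg_left h3 hb
  have h7 := lev_sub c (w.getVert j) (w.getVert i)
  have h8 : lev c (w.getVert j - w.getVert i) = c.p (w.getVert j - w.getVert i) + c.q (w.getVert j - w.getVert i) := rfl
  linarith

/-- Exit of the wedge.  PROOF. Take a geodesic (for the weights of the wedge) from `0` to `z` and its last vertex `w` in the wedge; all edges
after `w` have an end point outside, so their weight is `b`, and `b * nm (z - w) ≥ g (z - w) ≥ lev c (z - w)`.  `nm w ≤ b / a * nm z` because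
`a * nm w ≤ T 0 w ≤ T 0 z ≤ b * nm z`. -/
theorem exit_wedge {Q : Par} {g : V → ℝ} {c : Crd} (hg : IsMean Q g) (hl : ∀ z, c.p z + c.q z ≤ g z) {τ : Env}
    (hτ : Bd Q.a Q.b τ) (z : V) :
    ∃ w ∈ Wd c 0, nm w ≤ Q.b / Q.a * nm z ∧
      T (res Q.b (edg (Wd c 0)) τ) 0 w + (lev c z - lev c w) ≤ T (res Q.b (edg (Wd c 0)) τ) 0 z := by
  have hbd : Bd Q.a Q.b (res Q.b (edg (Wd c 0)) τ) := Bd_res Q.hab.le hτ _
  obtain ⟨w, hw⟩ := exists_geo hbd Q.ha 0 z
  obtain ⟨i, -, h1, h2⟩ := Max1_last hg hl hτ hw le_rfl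
  rw [w.getVert_length] at h2
  refine ⟨w.getVert i, h1, ?_, h2⟩
  have h3 := geo_near hbd Q.ha hw i
  rwa [sub_zero, sub_zero] at h3

/-- If some point of the wedge is reached too early, there is one for which the weights of `Aw c w` (levels lower than the one of `w`)
suffice.  PROOF. Let `z` be a bad point of minimal level (finitely many points of the wedge with level `≤ n` by `nm_le_lev`), `w` a geodesic
path (weights of the wedge) from `0` to `z`, `w₁` its first vertex with level `≥ lev z`; `lev w₁ ≤ lev z + 2 C` (the first vertex is `0` or its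
predecessor has a level `< lev z`).  `w₁` is in the wedge: otherwise let `w₀` be the last vertex in the wedge before `w₁`; as in
`exit_wedge` the cost from `w₀` to `w₁` is `≥ lev w₁ - lev w₀`, so `T 0 w₀ ≤ T 0 z - (lev w₁ - lev w₀) ≤ lev w₀ - θ` and
`lev w₀ < lev z`: contradiction.  All vertices before `w₁` have a level `< lev z ≤ lev w₁`, so every edge of the path up to `w₁`
has the same weight for `res b (Aw c w₁)` as for `res b (edg (Wd c 0))`. -/
theorem bad_cand {Q : Par} {g : V → ℝ} {c : Crd} (hg : IsMean Q g) (hl : ∀ z, c.p z + c.q z ≤ g z) {τ : Env}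
    (hτ : Bd Q.a Q.b τ) {n θ : ℝ} {z : V} (hz : z ∈ Wd c 0) (hn : lev c z ≤ n)
    (hbad : T (res Q.b (edg (Wd c 0)) τ) 0 z ≤ lev c z - θ) :
    ∃ w ∈ Wd c 0, lev c w ≤ n + 2 * c.C ∧ T (res Q.b (Aw c w) τ) 0 w ≤ lev c w - θ := by
  classical
  set σ := res Q.b (edg (Wd c 0)) τ with hσ
  have hbd : Bd Q.a Q.b σ := Bd_res Q.hab.le hτ _
  have hC : 0 ≤ c.C := by linarith [c.one_le]
  set B : Set V := {x | x ∈ Wd c 0 ∧ lev c x ≤ n ∧ T σ 0 x ≤ lev c x - θ} with hB
  have hfin : B.Finite := by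
    have h1 : B ⊆ (fun x : V => x) '' (Set.Icc (-⌈3 * c.C * n⌉) ⌈3 * c.C * n⌉ ×ˢ Set.Icc (-⌈3 * c.C * n⌉) ⌈3 * c.C * n⌉) := by
      intro x hx
      refine ⟨x, ?_, rfl⟩
      have h2 : nm x ≤ 3 * c.C * n :=
        (nm_le_lev hx.1).trans (mul_le_mul_of_nonneg_left hx.2.1 (by positivity))
      have h3 : nm x ≤ (⌈3 * c.C * n⌉ : ℤ) := h2.trans (Int.le_ceil _)
      unfold nm at h3
      have h4 : |(x.1 : ℝ)| ≤ (⌈3 * c.C * n⌉ : ℤ) := by linarith [abs_nonneg (x.2 : ℝ)]
      have h5 : |(x.2 : ℝ)| ≤ (⌈3 * c.C * n⌉ : ℤ) := by linarith [abs_nonneg (x.1 : ℝ)]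
      have h6 : |x.1| ≤ ⌈3 * c.C * n⌉ := by exact_mod_cast h4
      have h7 : |x.2| ≤ ⌈3 * c.C * n⌉ := by exact_mod_cast h5
      exact ⟨abs_le.1 h6, abs_le.1 h7⟩
    exact (((Set.finite_Icc _ _).prod (Set.finite_Icc _ _)).image _).subset h1
  have hne : hfin.toFinset.Nonempty := ⟨z, hfin.mem_toFinset.2 ⟨hz, hn, hbad⟩⟩
  obtain ⟨z₁, hz₁, hmin⟩ := Finset.exists_min_image _ (lev c) hne
  obtain ⟨hz₁W, hz₁n, hz₁b⟩ := hfin.mem_toFinset.1 hz₁
  have hmin' : ∀ x ∈ Wd c 0, lev c x < lev c z₁ → lev c x - θ < T σ 0 x := by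
    intro x hx hlt
    by_contra hcon
    have := hmin x (hfin.mem_toFinset.2 ⟨hx, by linarith, not_lt.1 hcon⟩)
    linarith
  obtain ⟨w, hw⟩ := exists_geo hbd Q.ha 0 z₁
  have hex : ∃ i, lev c z₁ ≤ lev c (w.getVert i) := ⟨w.length, by rw [w.getVert_length]⟩
  have hi1 : Nat.find hex ≤ w.length := Nat.find_min' hex (by rw [w.getVert_length])
  have hi2 : lev c z₁ ≤ lev c (w.getVert (Nat.find hex)) := Nat.find_spec hex
  have hi3 : ∀ j < Nat.find hex, lev c (w.getVert j) < lev c z₁ := fun j hj =>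
    not_le.1 (Nat.find_min hex hj)
  set i := Nat.find hex with hi
  have hT : T σ 0 (w.getVert i) ≤ T σ 0 z₁ := by
    have h1 := geo_add hbd Q.ha.le hw i
    have h2 := T_nonneg hbd Q.ha.le (w.getVert i) z₁
    linarith
  have hW : w.getVert i ∈ Wd c 0 := by
    by_contra hcon
    obtain ⟨k, hk, hkW, hkT⟩ := Max1_last hg hl hτ hw hi1
    have hk' : k < i := lt_of_le_of_ne hk fun h => hcon (h ▸ hkW)
    have h1 := hi3 k hk'
    have h2 := hmin' _ hkW h1
    linarith
  refine ⟨w.getVert i, hW, ?_, ?_⟩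
  · rcases Nat.eq_zero_or_pos i with h0 | h0
    · rw [h0, w.getVert_zero]
      have h1 : lev c 0 = 0 := by
        unfold lev
        rw [map_zero, map_zero, add_zero]
      have h2 := lev_nonneg hz
      rw [h1]
      linarith
    · have h1 := hi3 (i - 1) (by omega)
      have h2 := w.adj_getVert_succ (i := i - 1) (by omega)
      rw [Nat.sub_add_cancel h0] at h2
      have h3 := abs_le.1 (lev_adj (c := c) h2)
      linarith [h3.2]
  · obtain ⟨w', hw', hlen, hv, -⟩ := geo_piece hbd Q.ha.le hw (Nat.zero_le i) hi1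
    have key : ∀ v ∈ w'.support, v ≠ w.getVert i → lev c v < lev c (w.getVert i) := by
      intro v hv' hne'
      obtain ⟨l, hl1, hl2⟩ := SimpleGraph.Walk.mem_support_iff_exists_getVert.1 hv'
      rw [hlen, Nat.sub_zero] at hl2
      have h1 : w'.getVert l = w.getVert l := by
        rw [hv l (by omega), Nat.zero_add]
      have h2 : l < i := lt_of_le_of_ne hl2 fun h => hne' (by rw [← hl1, h1, h])
      have h3 := hi3 l h2
      rw [← hl1, h1]
      exact h3.trans_le hi2
    have hcost : cost (res Q.b (Aw c (w.getVert i)) τ) w' = cost σ w' := by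
      refine cost_congr w' fun e he => ?_
      rw [hσ]
      unfold res
      by_cases h1 : e ∈ edg (Wd c 0)
      · have h2 : e ∈ Aw c (w.getVert i) := by
          refine ⟨h1, ?_⟩
          obtain ⟨h3, h4⟩ := wedges_support w' he
          by_cases h5 : e.1 = w.getVert i
          · right
            refine key _ h4 fun h6 => ?_
            have h7 : e.1 + dir e.2 = e.1 := by rw [h6, h5]
            have h8 : nm (dir e.2) = 0 := by
              have : dir e.2 = 0 := by simpa using h7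
              rw [this, nm_zero]
            rw [nm_dir] at h8
            exact one_ne_zero h8
          · left
            exact key _ h3 h5
        rw [if_pos h2, if_pos h1]
      · have h2 : e ∉ Aw c (w.getVert i) := fun h3 => h1 h3.1
        rw [if_neg h2, if_neg h1]
    have h1 := T_le_cost (Bd_res Q.hab.le hτ (Aw c (w.getVert i))) Q.ha.le w'
    rw [hcost, hw'.2, w.getVert_zero] at h1
    linarith

/-- Sorted enumeration of a finite set. -/
theorem exists_enum (s : Finset V) (f : V → ℝ) :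
    ∃ (m : ℕ) (w : Fin m → V), (∀ i, w i ∈ s) ∧ (∀ x ∈ s, ∃ i, w i = x) ∧ (∀ i j, j ≤ i → f (w j) ≤ f (w i)) := by
  classical
  set e : Fin s.card → V := fun i => (s.equivFin.symm i : V) with he
  refine ⟨s.card, fun i => e (Tuple.sort (f ∘ e) i), fun i => (s.equivFin.symm _).2, ?_, ?_⟩
  · intro x hx
    refine ⟨(Tuple.sort (f ∘ e)).symm (s.equivFin ⟨x, hx⟩), ?_⟩
    simp [he]
  · intro i j hij
    exact Tuple.monotone_sort (f ∘ e) hij

end Pool.Agent.W_1b8d5d_c1
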