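import Pool.Agent.W_1b8d5d_c1.Mean2
import Pool.Agent.W_1b8d5d_c1.Max1

/-!
MP_1b8d5d_pr (N2): climbing costs little (this is where the one-sided derivatives of the norm at the corner are used).
-/

set_option autoImplicit false

namespace Pool.Agent.W_1b8d5d_c1

open Finset Pool.Agent.W_1b8d5d_h85

/-- Powers `3/4` are negligible. -/
private theorem Climb_pow (K : ℝ) {κ : ℝ} (hκ : 0 < κ) :
    ∃ B₀ : ℝ, 1 ≤ B₀ ∧ ∀ B : ℝ, B₀ ≤ B → K * B ^ (3 / 4 : ℝ) ≤ κ * B := by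
  refine ⟨max 1 ((|K| / κ) ^ 4), le_max_left _ _, fun B hB => ?_⟩
  have hB1 : 1 ≤ B := (le_max_left _ _).trans hB
  have hB0 : 0 < B := by linarith
  have h1 : (|K| / κ) ^ 4 ≤ B := (le_max_right _ _).trans hB
  have hq : 0 ≤ |K| / κ := div_nonneg (abs_nonneg _) hκ.le
  have h2 : |K| / κ ≤ B ^ (1 / 4 : ℝ) := by
    have h := Real.rpow_le_rpow (by positivity) h1 (show (0 : ℝ) ≤ 1 / 4 by norm_num)
    rw [← Real.rpow_natCast, ← Real.rpow_mul hq] at h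
    norm_num at h
    exact h
  have h3 : B ^ (3 / 4 : ℝ) * B ^ (1 / 4 : ℝ) = B := by
    rw [← Real.rpow_add hB0]
    norm_num
  have hX : 0 ≤ B ^ (3 / 4 : ℝ) := Real.rpow_nonneg hB0.le _
  have h4 : |K| ≤ κ * B ^ (1 / 4 : ℝ) := by
    rw [div_le_iff₀ hκ] at h2
    linarith
  calc K * B ^ (3 / 4 : ℝ) ≤ |K| * B ^ (3 / 4 : ℝ) := mul_le_mul_of_nonneg_right (le_abs_self _) hX
    _ ≤ (κ * B ^ (1 / 4 : ℝ)) * B ^ (3 / 4 : ℝ) := mul_le_mul_of_nonneg_right h4 hX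
    _ = κ * (B ^ (3 / 4 : ℝ) * B ^ (1 / 4 : ℝ)) := by ring
    _ = κ * B := by rw [h3]

private theorem Climb_one {B : ℝ} (hB : 1 ≤ B) : 1 ≤ B ^ (3 / 4 : ℝ) :=
  Real.one_le_rpow hB (by norm_num)

private theorem Climb_sqrt {B : ℝ} (hB : 1 ≤ B) : Real.sqrt B ≤ B ^ (3 / 4 : ℝ) := by
  rw [Real.sqrt_eq_rpow]
  exact Real.rpow_le_rpow_of_exponent_le hB (by norm_num)

/-- The straight pieces. -/
private theorem Climb_straight (Q : Par) (g : V → ℝ) (c : Crd) (hg : IsMean Q g)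
    (hl : ∀ z, c.p z + |c.q z| ≤ g z) (hcb : CornerBound g c) :
    ∀ L : ℝ, 1 ≤ L → ∃ C : ℝ, 1 ≤ C ∧ ∀ (B R : ℝ) (M : Mdl Q.a Q.b), C ≤ B → C * B ≤ R → Good Q g R M →
      ∀ x : V, M.E (fun τ => max (Ts Q.b c τ x (x + c.rd (L * B) 0) - lev c (c.rd (L * B) 0)) 0)
        ≤ C * B ^ (3 / 4 : ℝ) := by
  obtain ⟨C₁, hC₁, hm⟩ := mean34 Q g c hg hl hcb
  intro L hL
  have hc := c.one_le
  have hLc : 0 ≤ L + c.C := by linarith
  have hpw : 0 ≤ (L + c.C) ^ (3 / 4 : ℝ) := Real.rpow_nonneg hLc _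
  refine ⟨C₁ * (L + c.C) + C₁ * (L + c.C) ^ (3 / 4 : ℝ) + c.C, ?_, ?_⟩
  · have h1 : 0 ≤ C₁ * (L + c.C) := mul_nonneg (by linarith) hLc
    have h2 : 0 ≤ C₁ * (L + c.C) ^ (3 / 4 : ℝ) := mul_nonneg (by linarith) hpw
    linarith
  intro B R M hB hR hG x
  have h1 : 0 ≤ C₁ * (L + c.C) := mul_nonneg (by linarith) hLc
  have h2 : 0 ≤ C₁ * (L + c.C) ^ (3 / 4 : ℝ) := mul_nonneg (by linarith) hpw
  have hBc : c.C ≤ B := by linarith
  have hB1 : 1 ≤ B := by linarith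
  have hB0 : 0 < B := by linarith
  have hX1 := Climb_one hB1
  set e : V := c.rd (L * B) 0 with he
  have hpe := abs_le.1 (c.rd_p (L * B) 0)
  have hqe := c.rd_q (L * B) 0
  rw [← he] at hpe hqe
  rw [sub_zero] at hqe
  have hqe' := abs_le.1 hqe
  have hLB : B ≤ L * B := by nlinarith
  have hpe0 : 0 ≤ c.p e := by linarith [hpe.1]
  have hpen : c.p e ≤ (L + c.C) * B := by nlinarith [hpe.2]
  have hn1 : 1 ≤ (L + c.C) * B := by nlinarith
  have hnR : C₁ * ((L + c.C) * B) ≤ R := by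
    refine le_trans ?_ hR
    rw [← mul_assoc]
    refine mul_le_mul_of_nonneg_right ?_ hB0.le
    linarith
  have h3 := hm ((L + c.C) * B) R M hn1 hnR hG e hpe0 hpen (by linarith)
  rw [Real.mul_rpow hLc hB0.le] at h3
  have h4 := hG.E_Ts c (fun t => max (t - lev c e) 0) x (x + e)
  have h5 : x + e - x = e := by abel
  rw [h5] at h4
  have h6 : M.E (fun τ => max (Ts Q.b c τ x (x + e) - lev c e) 0)
      = M.E (fun τ => max (Ts Q.b c τ 0 e - lev c e) 0) := h4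
  rw [h6]
  have h7 : M.E (fun τ => max (Ts Q.b c τ 0 e - lev c e) 0)
      ≤ M.E (fun τ => max (Ts Q.b c τ 0 e - c.p e) 0 + c.C) := by
    refine M.E_mono fun τ _ => ?_
    have h8 : lev c e = c.p e + c.q e := rfl
    rw [h8]
    refine max_le ?_ ?_
    · have := le_max_left (Ts Q.b c τ 0 e - c.p e) 0
      linarith [hqe'.1]
    · have := le_max_right (Ts Q.b c τ 0 e - c.p e) 0
      linarith
  rw [M.E_add, M.E_const] at h7
  have h9 : M.E (fun τ => max (Ts Q.b c τ 0 e - c.p e) 0) = Sx M c e := rfl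
  rw [h9] at h7
  have h10 : c.C ≤ c.C * B ^ (3 / 4 : ℝ) := by nlinarith
  have h11 : 0 ≤ C₁ * (L + c.C) * B ^ (3 / 4 : ℝ) := mul_nonneg h1 (by linarith)
  nlinarith

/-- Outside the bad events the geodesic stays in the double cone. -/
private theorem Climb_det {a b : ℝ} (ha : 0 < a) (hab : a ≤ b) {c : Crd} {τ : Env} (hτ : Bd a b τ) {r x₁ x₂ : V}
    {K v : ℝ} (hK : b / a * nm (x₂ - x₁) ≤ K) (hT : T τ x₁ x₂ ≤ v)
    (hA : ¬ ∃ z ∈ {z : V | z ∉ Db c 0 r ∧ nm (z - x₁) ≤ K}, T τ x₁ z + T τ z x₂ ≤ v) :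
    T (res b (edg (Db c 0 r)) τ) x₁ x₂ = T τ x₁ x₂ := by
  have hw := geo_isGeo hτ ha x₁ x₂
  set w := geo τ x₁ x₂
  have hin : ∀ z ∈ w.support, z ∈ Db c 0 r := by
    intro z hz
    by_contra hz'
    apply hA
    obtain ⟨i, hi, -⟩ := SimpleGraph.Walk.mem_support_iff_exists_getVert.1 hz
    refine ⟨z, ⟨hz', ?_⟩, ?_⟩
    · have h1 := geo_near hτ ha hw i
      rw [hi] at h1
      exact h1.trans hK
    · have h1 := geo_add hτ ha.le hw i
      rw [hi] at h1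
      rw [h1]
      exact hT
  refine T_res_eq ha.le hab hτ hw.2 ?_
  intro e he
  have h2 := wedges_support w he
  exact ⟨hin _ h2.1, hin _ h2.2⟩

open Classical in
/-- The middle piece. -/
private theorem Climb_mid (Q : Par) (g : V → ℝ) (c : Crd) (hg : IsMean Q g)
    (hl : ∀ z, c.p z + |c.q z| ≤ g z) :
    ∃ c₀ : ℝ, 0 < c₀ ∧ ∀ K L₁ : ℝ, 1 ≤ K → 1 ≤ L₁ → ∃ C : ℝ, 1 ≤ C ∧ ∀ (B R : ℝ) (M : Mdl Q.a Q.b),
      C ≤ B → C * B ≤ R → Good Q g R M → ∀ r x₁ x₂ : V, L₁ * B / 2 ≤ c.p x₁ → |c.q x₁| ≤ c.C → r - x₂ = x₁ →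
      nm (x₂ - x₁) ≤ K * B → g (x₂ - x₁) ≤ c.p (x₂ - x₁) + c₀ * L₁ * B / 4 → 0 ≤ lev c (x₂ - x₁) →
      M.E (fun τ => max (T (res Q.b (edg (Db c 0 r)) τ) x₁ x₂ - lev c (x₂ - x₁)) 0)
        ≤ C * B ^ (3 / 4 : ℝ) + max (g (x₂ - x₁) - lev c (x₂ - x₁)) 0 := by
  obtain ⟨c₁, hc₁, hg1⟩ := gap hg hl
  obtain ⟨c₂, hc₂, hg2⟩ := gap' hg hl
  have ha := Q.ha
  have hab := Q.hab
  have hb : 0 < Q.b := ha.trans hab
  have hc := c.one_le
  have hba : 1 ≤ Q.b / Q.a := by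
    rw [le_div_iff₀ ha]
    linarith
  refine ⟨min c₁ c₂, lt_min hc₁ hc₂, fun K L₁ hK hL₁ => ?_⟩
  set c₀ : ℝ := min c₁ c₂ with hc₀
  have hc₀0 : 0 < c₀ := lt_min hc₁ hc₂
  have hK' : 1 ≤ Q.b / Q.a * K := by nlinarith
  have hcL : 0 < c₀ * L₁ := mul_pos hc₀0 (by linarith)
  obtain ⟨C₁, hC₁, hleave⟩ := leave Q g hg (c₀ := c₀ * L₁ / 2) (C₀ := Q.b / Q.a * K) (by linarith) hK'
  obtain ⟨C₂, hC₂, hdev⟩ := abs_dev Q g
  have hsK : 0 ≤ Real.sqrt K := Real.sqrt_nonneg _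
  set D₁ : ℝ := C₂ * Real.sqrt K with hD₁
  have hD₁0 : 0 ≤ D₁ := mul_nonneg (by linarith) hsK
  set D₂ : ℝ := Q.b * K * (D₁ / (c₀ * L₁ / 4)) with hD₂
  have hD₂0 : 0 ≤ D₂ := by positivity
  set D₃ : ℝ := Q.b * K * C₁ with hD₃
  have hD₃0 : 0 ≤ D₃ := by positivity
  refine ⟨C₁ + K + D₁ + D₂ + D₃ + 200 * c.C, by linarith, ?_⟩
  intro B R M hB hR hG r x₁ x₂ hpx hqx hrx hnm hgx hlev
  have hB1 : 1 ≤ B := by linarith
  have hB0 : 0 < B := by linarith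
  have hB200 : 200 * c.C ≤ B := by linarith
  have hLB : B ≤ L₁ * B := by nlinarith
  have hX1 := Climb_one hB1
  set X : ℝ := B ^ (3 / 4 : ℝ) with hX
  have hsB : Real.sqrt B ≤ X := Climb_sqrt hB1
  set z₀ : V := x₂ - x₁ with hz₀
  have hC₁R : C₁ * B ≤ R := by
    refine le_trans (mul_le_mul_of_nonneg_right ?_ hB0.le) hR
    linarith
  have hKR : K * B ≤ R := by
    refine le_trans (mul_le_mul_of_nonneg_right ?_ hB0.le) hR
    linarith
  -- the net estimate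
  have hA := hleave B R M hB1 hC₁R hG x₁ x₂ {z : V | z ∉ Db c 0 r ∧ nm (z - x₁) ≤ Q.b / Q.a * K * B} (c.p z₀) (by
    rw [← hz₀]
    refine hnm.trans ?_
    refine mul_le_mul_of_nonneg_right ?_ hB0.le
    nlinarith) (by
    rintro z ⟨hz, hzn⟩
    refine ⟨hzn, ?_⟩
    have hq' : |c.q x₁| ≤ L₁ * B / 2 / 100 := by linarith
    have hD0 : 0 < L₁ * B / 2 := by linarith
    have hz2 : z ∉ Kn c ∨ r - z ∉ Kn c := by
      by_contra hcon
      push Not at hcon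
      exact hz ⟨by rw [sub_zero]; exact hcon.1, hcon.2⟩
    have hm1 : c₀ * (L₁ * B / 2) ≤ c₁ * (L₁ * B / 2) := mul_le_mul_of_nonneg_right (min_le_left _ _) hD0.le
    have hm2 : c₀ * (L₁ * B / 2) ≤ c₂ * (L₁ * B / 2) := mul_le_mul_of_nonneg_right (min_le_right _ _) hD0.le
    rcases hz2 with hz2 | hz2
    · have h1 := hg1 (L₁ * B / 2) x₁ x₂ z hD0 hpx hq' hz2
      rw [← hz₀] at h1
      linarith
    · have h1 := hg2 (L₁ * B / 2) x₁ x₂ z r hD0 (by rw [hrx]; exact hpx) (by rw [hrx]; exact hq') hz2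
      rw [← hz₀] at h1
      linarith)
  -- the deviation
  have hKB1 : 1 ≤ K * B := by nlinarith
  have hdv := hdev (K * B) R M hKB1 hKR hG x₁ x₂ hnm
  rw [← hz₀] at hdv
  rw [Real.sqrt_mul (by linarith : (0 : ℝ) ≤ K)] at hdv
  have hdv' : M.E (fun τ => |T τ x₁ x₂ - g z₀|) ≤ D₁ * X := by
    refine hdv.trans ?_
    rw [hD₁, mul_assoc]
    refine mul_le_mul_of_nonneg_left ?_ (by linarith)
    exact mul_le_mul_of_nonneg_left hsB hsK
  have hs0 : 0 < c₀ * L₁ / 4 * B := by positivity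
  have hA2 := M.markov (F := fun τ => |T τ x₁ x₂ - g z₀|) (fun τ _ => abs_nonneg _) hs0
  -- the pointwise bound
  set A : Env → Prop := fun τ => ∃ z ∈ {z : V | z ∉ Db c 0 r ∧ nm (z - x₁) ≤ Q.b / Q.a * K * B},
    T τ x₁ z + T τ z x₂ ≤ c.p z₀ + c₀ * L₁ / 2 * B with hAdef
  set A2 : Env → Prop := fun τ => c₀ * L₁ / 4 * B ≤ |T τ x₁ x₂ - g z₀| with hA2def
  have hpt : ∀ τ, Bd Q.a Q.b τ → max (T (res Q.b (edg (Db c 0 r)) τ) x₁ x₂ - lev c z₀) 0
      ≤ (|T τ x₁ x₂ - g z₀| + max (g z₀ - lev c z₀) 0) + (Q.b * (K * B)) * ((if A τ then (1 : ℝ) else 0)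
        + (if A2 τ then (1 : ℝ) else 0)) := by
    intro τ hτ
    have hi1 : (0 : ℝ) ≤ if A τ then (1 : ℝ) else 0 := by split_ifs <;> norm_num
    have hi2 : (0 : ℝ) ≤ if A2 τ then (1 : ℝ) else 0 := by split_ifs <;> norm_num
    have hm0 : 0 ≤ max (g z₀ - lev c z₀) 0 := le_max_right _ _
    have hm1 : g z₀ - lev c z₀ ≤ max (g z₀ - lev c z₀) 0 := le_max_left _ _
    have habs := abs_nonneg (T τ x₁ x₂ - g z₀)
    have hbK : 0 ≤ Q.b * (K * B) := by positivity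
    by_cases hbad : A τ ∨ A2 τ
    · have h1 : T (res Q.b (edg (Db c 0 r)) τ) x₁ x₂ ≤ Q.b * (K * B) :=
        (T_upper (Bd_res hab.le hτ _) ha.le x₁ x₂).trans (mul_le_mul_of_nonneg_left hnm hb.le)
      have h2 : (1 : ℝ) ≤ (if A τ then (1 : ℝ) else 0) + (if A2 τ then (1 : ℝ) else 0) := by
        rcases hbad with h | h
        · rw [if_pos h]
          linarith
        · rw [if_pos h]
          linarith
      have h3 : Q.b * (K * B) * 1 ≤ Q.b * (K * B) * ((if A τ then (1 : ℝ) else 0)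
        + (if A2 τ then (1 : ℝ) else 0)) := mul_le_mul_of_nonneg_left h2 hbK
      refine max_le ?_ ?_ <;> linarith
    · push Not at hbad
      obtain ⟨hn1, hn2⟩ := hbad
      have h1 : T τ x₁ x₂ ≤ c.p z₀ + c₀ * L₁ / 2 * B := by
        have h2 : |T τ x₁ x₂ - g z₀| < c₀ * L₁ / 4 * B := not_le.1 hn2
        have h3 := le_abs_self (T τ x₁ x₂ - g z₀)
        have h4 : c₀ * L₁ * B / 4 + c₀ * L₁ / 4 * B = c₀ * L₁ / 2 * B := by ring
        linarith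
      have h5 : Q.b / Q.a * nm (x₂ - x₁) ≤ Q.b / Q.a * K * B := by
        rw [mul_assoc]
        exact mul_le_mul_of_nonneg_left hnm (by linarith)
      have h6 := Climb_det ha hab.le hτ h5 h1 hn1
      rw [h6]
      have h7 := le_abs_self (T τ x₁ x₂ - g z₀)
      have h8 : 0 ≤ Q.b * (K * B) * ((if A τ then (1 : ℝ) else 0) + (if A2 τ then (1 : ℝ) else 0)) :=
        mul_nonneg hbK (add_nonneg hi1 hi2)
      refine max_le ?_ ?_ <;> linarith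
  have hE := M.E_mono hpt
  rw [M.E_add, M.E_add, M.E_const, M.E_mul_left, M.E_add] at hE
  have hPA : M.E (fun τ => if A τ then (1 : ℝ) else 0) = M.P A := rfl
  have hPA2 : M.E (fun τ => if A2 τ then (1 : ℝ) else 0) = M.P A2 := rfl
  rw [hPA, hPA2] at hE
  have hA' : M.P A ≤ C₁ / B := hA
  have hA2' : M.P A2 ≤ D₁ * X / (c₀ * L₁ / 4 * B) := hA2.trans (div_le_div_of_nonneg_right hdv' hs0.le)
  have e1 : Q.b * (K * B) * (C₁ / B + D₁ * X / (c₀ * L₁ / 4 * B)) = D₃ + D₂ * X := by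
    rw [hD₂, hD₃]
    field_simp
  have e2 : Q.b * (K * B) * (M.P A + M.P A2) ≤ D₃ + D₂ * X := by
    rw [← e1]
    exact mul_le_mul_of_nonneg_left (add_le_add hA' hA2') (by positivity)
  have e3 : D₃ ≤ D₃ * X := le_mul_of_one_le_right hD₃0 hX1
  have e4 : 0 ≤ (C₁ + K + 200 * c.C) * X := mul_nonneg (by linarith) (by linarith)
  nlinarith

/-- Going from `0` to a point `r` at distance `L B` and height `0 ≤ q r ≤ Λ B` has the mean positive excess `≤ κ B` over `p + q`, if `L` is large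
(depending on `κ, Λ`) and `B` is large.
PROOF. `ε = κ / (8 Λ)`, `δ` from `Cnr.upp`; `L₁` (buffer) large compared with `Λ` (such that the gap `2 c₀ L₁ B` of `gap`, `gap'` is at least
`8 Λ B`), `L ≥ 4 L₁ + 4 Λ / δ`, `η = min (κ / (16 L)) (c₀ L₁ / (4 L))`, `N` from `Cnr.upp`, `B` large.
`x₁ = c.rd (L₁ B) 0`, `x₂ = r - c.rd (L₁ B) 0`; `x₁, r - x₁, x₂ ...` are in the cones: `Ts 0 r ≤ Ts 0 x₁ + T (Db 0 r) x₁ x₂ + Ts x₂ r`
(`Ts_triangle`-like, `T_res_le_Ts`).  `E (Ts 0 x₁ - p x₁)⁺ ≤ C (L₁ B)^(3/4)` (`mean34`), the same for `x₂, r` (`Good.E_Ts`).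
`g (x₂ - x₁) ≤ p (x₂ - x₁) + (1 + ε) q (x₂ - x₁) + η p (x₂ - x₁)` (plus rounding).  A geodesic of `τ` from `x₁` to `x₂` leaves `Db c 0 r` with
probability `≤ C / B` (`gap`, `gap'` with `D = L₁ B / 2`, `leave` with `α = B`, `v = p (x₂ - x₁)`, and Chebyshev for
`T x₁ x₂ ≤ v + c₀ L₁ B / 2`); outside this event `T (Db 0 r) x₁ x₂ = T x₁ x₂`, always it is `≤ b nm ≤ C L B`.  `abs_dev` for `T x₁ x₂`.
Sum: `≤ 2 C (L₁ B)^(3/4) + ε Λ B + η L B + C √(L B) + C L + C ≤ κ B`. -/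
theorem climb (Q : Par) (g : V → ℝ) (c : Crd) (hg : IsMean Q g) (h : Cnr g c) (hcb : CornerBound g c) :
    ∀ κ : ℝ, 0 < κ → ∀ Λ : ℝ, 1 ≤ Λ → ∀ L' : ℝ, ∃ L C : ℝ, L' ≤ L ∧ 1 ≤ L ∧ 1 ≤ C ∧ ∀ (B R : ℝ) (M : Mdl Q.a Q.b), C ≤ B → C * B ≤ R →
    Good Q g R M → ∀ r, |c.p r - L * B| ≤ Λ * B → 0 ≤ c.q r → c.q r ≤ Λ * B →
      M.E (fun τ => max (Ts Q.b c τ 0 r - lev c r) 0) ≤ κ * B := by
  intro κ hκ Λ hΛ L'
  have hc := c.one_le
  have hl := h.low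
  obtain ⟨c₀, hc₀, hmid⟩ := Climb_mid Q g c hg hl
  set W : ℝ := Λ + 2 * c.C with hW
  have hW0 : 0 < W := by linarith
  obtain ⟨ε, hεdef⟩ : ∃ ε : ℝ, ε = κ / (8 * W) := ⟨_, rfl⟩
  have hε : 0 < ε := by
    rw [hεdef]
    positivity
  have hεW : ε * W = κ / 8 := by
    rw [hεdef]
    field_simp
  obtain ⟨δ, hδ, hupp⟩ := h.upp ε hε
  obtain ⟨L₁, hL₁def⟩ : ∃ L₁ : ℝ, L₁ = max 1 (4 / c₀ * ((1 + ε) * W + 1)) := ⟨_, rfl⟩
  have hL₁ : 1 ≤ L₁ := by
    rw [hL₁def]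
    exact le_max_left _ _
  have hL₁' : (1 + ε) * W + 1 ≤ c₀ * L₁ / 4 := by
    have h1 : 4 / c₀ * ((1 + ε) * W + 1) ≤ L₁ := by
      rw [hL₁def]
      exact le_max_right _ _
    have h2 : c₀ * (4 / c₀ * ((1 + ε) * W + 1)) = 4 * ((1 + ε) * W + 1) := by
      field_simp
    have h3 := mul_le_mul_of_nonneg_left h1 hc₀.le
    linarith
  have hWδ : 0 < W / δ := div_pos hW0 hδ
  obtain ⟨L, hLdef⟩ : ∃ L : ℝ, L = max L' (4 * Λ + 2 * L₁ + 8 * c.C + W / δ) := ⟨_, rfl⟩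
  have hLL' : L' ≤ L := by
    rw [hLdef]
    exact le_max_left _ _
  have hL : 4 * Λ + 2 * L₁ + 8 * c.C + W / δ ≤ L := by
    rw [hLdef]
    exact le_max_right _ _
  have hLΛ : 0 < L + Λ := by linarith
  obtain ⟨η, hηdef⟩ : ∃ η : ℝ, η = min 1 (κ / 8) / (L + Λ) := ⟨_, rfl⟩
  have hη : 0 < η := by
    rw [hηdef]
    exact div_pos (lt_min one_pos (by positivity)) hLΛ
  have hηm : η * (L + Λ) = min 1 (κ / 8) := by
    rw [hηdef]
    field_simp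
  have hη1 : η * (L + Λ) ≤ 1 := by
    rw [hηm]
    exact min_le_left _ _
  have hη2 : η * (L + Λ) ≤ κ / 8 := by
    rw [hηm]
    exact min_le_right _ _
  obtain ⟨N, hN⟩ := hupp η hη
  have hK : 1 ≤ c.C * (L + 2 * Λ + 2 * c.C) := by
    have h1 : 1 * 1 ≤ c.C * (L + 2 * Λ + 2 * c.C) := mul_le_mul hc (by linarith) (by norm_num) (by linarith)
    linarith
  obtain ⟨Cm, hCm, hmid'⟩ := hmid (c.C * (L + 2 * Λ + 2 * c.C)) L₁ hK hL₁
  obtain ⟨Cs, hCs, hst⟩ := Climb_straight Q g c hg hl hcb L₁ hL₁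
  obtain ⟨B₀, hB₀, hpow⟩ := Climb_pow (2 * Cs + Cm + 4 * c.C) (κ := κ / 2) (by linarith)
  have hN0 : 0 ≤ |N| := abs_nonneg N
  refine ⟨L, Cm + Cs + B₀ + |N| + 8 * c.C, hLL', by linarith, by linarith, ?_⟩
  intro B R M hB hR hG r hpr hqr0 hqr
  have hB1 : 1 ≤ B := by linarith
  have hB0 : 0 < B := by linarith
  have hBN : N ≤ B := by
    have := le_abs_self N
    linarith
  have hX1 := Climb_one hB1
  have hP := hpow B (by linarith)
  set X : ℝ := B ^ (3 / 4 : ℝ) with hX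
  set x₁ : V := c.rd (L₁ * B) 0 with hx₁
  have hp1 := abs_le.1 (c.rd_p (L₁ * B) 0)
  have hq1 := c.rd_q (L₁ * B) 0
  rw [← hx₁] at hp1 hq1
  rw [sub_zero] at hq1
  have hq1' := abs_le.1 hq1
  have hpr' := abs_le.1 hpr
  obtain ⟨x₂, hx₂⟩ : ∃ x₂ : V, x₂ = r - x₁ := ⟨_, rfl⟩
  have hrx : r - x₂ = x₁ := by
    rw [hx₂]
    abel
  have hx₂e : x₂ + x₁ = r := by
    rw [hx₂]
    abel
  have hpx₂ : c.p x₂ = c.p r - c.p x₁ := by rw [hx₂, map_sub]
  have hqx₂ : c.q x₂ = c.q r - c.q x₁ := by rw [hx₂, map_sub]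
  have hpz : c.p (x₂ - x₁) = c.p r - 2 * c.p x₁ := by
    rw [map_sub, hpx₂]
    ring
  have hqz : c.q (x₂ - x₁) = c.q r - 2 * c.q x₁ := by
    rw [map_sub, hqx₂]
    ring
  have hLB : 1 * B ≤ L₁ * B := mul_le_mul_of_nonneg_right hL₁ hB0.le
  have hBC : 8 * c.C ≤ B := by linarith
  have hpx1 : L₁ * B / 2 ≤ c.p x₁ := by linarith [hp1.1]
  have hpx10 : 0 ≤ c.p x₁ := by linarith
  have hcCB : c.C ≤ c.C * B := le_mul_of_one_le_right (by linarith) hB1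
  have hWBe : W * B = Λ * B + 2 * (c.C * B) := by
    rw [hW]
    ring
  have hκB : 0 < κ * B := mul_pos hκ hB0
  have hΛB : 1 * B ≤ Λ * B := mul_le_mul_of_nonneg_right hΛ hB0.le
  -- lower bound of `p z₀`
  have hLBm : (4 * Λ + 2 * L₁ + 8 * c.C + W / δ) * B ≤ L * B := mul_le_mul_of_nonneg_right hL hB0.le
  have hWB : 0 < W / δ * B := mul_pos hWδ hB0
  have hpz_low : (W / δ + 3 * Λ + 6 * c.C) * B ≤ c.p (x₂ - x₁) := by
    rw [hpz]
    linarith [hpr'.1, hp1.2]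
  have hpz_upp : c.p (x₂ - x₁) ≤ (L + Λ) * B := by
    rw [hpz]
    linarith [hpr'.2]
  have hqz_low : -(2 * c.C) ≤ c.q (x₂ - x₁) := by
    rw [hqz]
    linarith [hq1'.2]
  have hqz_upp : |c.q (x₂ - x₁)| ≤ W * B := by
    rw [hqz, abs_le]
    constructor
    · linarith [hq1'.2]
    · linarith [hq1'.1]
  have hpz0 : 0 ≤ c.p (x₂ - x₁) := by
    refine le_trans ?_ hpz_low
    exact mul_nonneg (by linarith) hB0.le
  have hBp : B ≤ c.p (x₂ - x₁) := by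
    refine le_trans ?_ hpz_low
    have : 1 * B ≤ (W / δ + 3 * Λ + 6 * c.C) * B := mul_le_mul_of_nonneg_right (by linarith) hB0.le
    linarith
  have hcone : |c.q (x₂ - x₁)| ≤ δ * c.p (x₂ - x₁) := by
    refine hqz_upp.trans ?_
    have h1 : W / δ * B ≤ c.p (x₂ - x₁) := by
      refine le_trans ?_ hpz_low
      exact mul_le_mul_of_nonneg_right (by linarith) hB0.le
    have h2 := mul_le_mul_of_nonneg_left h1 hδ.le
    have h3 : δ * (W / δ * B) = W * B := by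
      field_simp
    linarith
  have hgz := hN (x₂ - x₁) (hBN.trans hBp) hcone
  have hηp : η * c.p (x₂ - x₁) ≤ η * ((L + Λ) * B) := mul_le_mul_of_nonneg_left hpz_upp hη.le
  have hηp1 : η * c.p (x₂ - x₁) ≤ B := by
    refine hηp.trans ?_
    rw [← mul_assoc]
    exact mul_le_of_le_one_left hB0.le hη1
  have hηp2 : η * c.p (x₂ - x₁) ≤ κ / 8 * B := by
    refine hηp.trans ?_
    rw [← mul_assoc]
    exact mul_le_mul_of_nonneg_right hη2 hB0.le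
  have hεq : (1 + ε) * |c.q (x₂ - x₁)| ≤ (1 + ε) * (W * B) := mul_le_mul_of_nonneg_left hqz_upp (by linarith)
  have hεq2 : ε * |c.q (x₂ - x₁)| ≤ κ / 8 * B := by
    have h1 : ε * |c.q (x₂ - x₁)| ≤ ε * (W * B) := mul_le_mul_of_nonneg_left hqz_upp hε.le
    rw [← mul_assoc, hεW] at h1
    exact h1
  have hgx : g (x₂ - x₁) ≤ c.p (x₂ - x₁) + c₀ * L₁ * B / 4 := by
    have h1 : ((1 + ε) * W + 1) * B ≤ c₀ * L₁ / 4 * B := mul_le_mul_of_nonneg_right hL₁' hB0.le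
    linarith
  have hlev : 0 ≤ lev c (x₂ - x₁) := by
    have h1 : lev c (x₂ - x₁) = c.p (x₂ - x₁) + c.q (x₂ - x₁) := rfl
    rw [h1]
    linarith
  have hnm : nm (x₂ - x₁) ≤ c.C * (L + 2 * Λ + 2 * c.C) * B := by
    refine (c.nm_le _).trans ?_
    rw [mul_assoc]
    refine mul_le_mul_of_nonneg_left ?_ (by linarith)
    rw [abs_of_nonneg hpz0]
    linarith
  have hR1 : Cm * B ≤ R := le_trans (mul_le_mul_of_nonneg_right (by linarith) hB0.le) hR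
  have hR2 : Cs * B ≤ R := le_trans (mul_le_mul_of_nonneg_right (by linarith) hB0.le) hR
  have hE2 := hmid' B R M (by linarith) hR1 hG r x₁ x₂ hpx1 hq1 hrx hnm hgx hlev
  have hE1 := hst B R M (by linarith) hR2 hG 0
  have hE3 := hst B R M (by linarith) hR2 hG x₂
  rw [← hx₁, zero_add] at hE1
  rw [← hx₁, hx₂e] at hE3
  -- the excess of the mean
  have hexc : max (g (x₂ - x₁) - lev c (x₂ - x₁)) 0 ≤ κ / 4 * B + 4 * c.C := by
    refine max_le ?_ (by positivity)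
    have h1 : lev c (x₂ - x₁) = c.p (x₂ - x₁) + c.q (x₂ - x₁) := rfl
    have h2 : |c.q (x₂ - x₁)| - c.q (x₂ - x₁) ≤ 4 * c.C := by
      rcases abs_cases (c.q (x₂ - x₁)) with ⟨e1, _⟩ | ⟨e1, _⟩ <;> rw [e1] <;> linarith
    rw [h1]
    linarith
  -- cones
  have hx₁K : x₁ ∈ Kn c := by
    rw [mem_Kn]
    linarith [hp1.1]
  have hx₂K : x₂ ∈ Kn c := by
    rw [mem_Kn, hpx₂, hqx₂]
    have h1 : |c.q r - c.q x₁| ≤ Λ * B + c.C := by
      rw [abs_le]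
      constructor
      · linarith [hq1'.2]
      · linarith [hq1'.1]
    linarith [hpr'.1, hp1.2]
  have hpt : ∀ τ, Bd Q.a Q.b τ → max (Ts Q.b c τ 0 r - lev c r) 0
      ≤ (max (Ts Q.b c τ 0 x₁ - lev c x₁) 0
        + max (T (res Q.b (edg (Db c 0 r)) τ) x₁ x₂ - lev c (x₂ - x₁)) 0)
        + max (Ts Q.b c τ x₂ r - lev c x₁) 0 := by
    intro τ hτ
    have hab := Q.hab.le
    have ha := Q.ha.le
    have hτ' : Bd Q.a Q.b (res Q.b (edg (Db c 0 r)) τ) := Bd_res hab hτ _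
    have t1 := T_triangle hτ' ha 0 x₁ r
    have t2 := T_triangle hτ' ha x₁ x₂ r
    have s1 : Db c 0 x₁ ⊆ Db c 0 r := Db_left (by rw [← hx₂]; exact hx₂K)
    have s2 : Db c x₂ r ⊆ Db c 0 r := Db_right (by rw [sub_zero]; exact hx₂K)
    have t3 := T_res_le_Ts ha hab hτ s1
    have t4 := T_res_le_Ts ha hab hτ s2
    have t5 : Ts Q.b c τ 0 r = T (res Q.b (edg (Db c 0 r)) τ) 0 r := rfl
    have t6 : lev c r = lev c x₁ + lev c (x₂ - x₁) + lev c x₁ := by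
      rw [lev_sub, ← hx₂e, lev_add]
      ring
    have m1 := le_max_left (Ts Q.b c τ 0 x₁ - lev c x₁) 0
    have m1' := le_max_right (Ts Q.b c τ 0 x₁ - lev c x₁) 0
    have m2 := le_max_left (T (res Q.b (edg (Db c 0 r)) τ) x₁ x₂ - lev c (x₂ - x₁)) 0
    have m2' := le_max_right (T (res Q.b (edg (Db c 0 r)) τ) x₁ x₂ - lev c (x₂ - x₁)) 0
    have m3 := le_max_left (Ts Q.b c τ x₂ r - lev c x₁) 0
    have m3' := le_max_right (Ts Q.b c τ x₂ r - lev c x₁) 0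
    refine max_le ?_ ?_
    · rw [t5, t6]
      linarith
    · linarith
  have hE := M.E_mono hpt
  rw [M.E_add, M.E_add] at hE
  have hcX : 4 * c.C ≤ 4 * c.C * X := le_mul_of_one_le_right (by linarith) hX1
  have hfin : (2 * Cs + Cm + 4 * c.C) * X = Cs * X + Cm * X + Cs * X + 4 * c.C * X := by ring
  rw [hfin] at hP
  linarith

/-- The same for all points of a window at once.  PROOF. Net: for `u` in the window take `r = c.rd (L B) (j κ' B)`, `κ' = κ / (4 b C)`, `j ≥ 1` a natural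
number with `|q u - j κ' B| ≤ κ' B`: `nm (u - r) ≤ C (κ' B + 1)`, at most `2 Λ / κ' + 2` points.  `Φ = κ B / 2 + ∑_r max (Ts 0 r - lev r, 0)` with
`climb` for `κ₁ = κ / (4 * number of points)` and `2 Λ`.  `T (wedge) 0 u ≤ T (wedge) 0 r + b nm (u - r) ≤ Ts 0 r + b nm (u - r)`. -/
theorem climb_net (Q : Par) (g : V → ℝ) (c : Crd) (hg : IsMean Q g) (h : Cnr g c) (hcb : CornerBound g c) :
    ∀ κ : ℝ, 0 < κ → ∀ Λ : ℝ, 1 ≤ Λ → ∀ L' : ℝ, ∃ L C : ℝ, L' ≤ L ∧ 1 ≤ L ∧ 1 ≤ C ∧ ∀ (B R : ℝ) (M : Mdl Q.a Q.b), C ≤ B → C * B ≤ R →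
    Good Q g R M → ∃ Φ : Env → ℝ, (∀ τ, 0 ≤ Φ τ) ∧ M.E Φ ≤ κ * B ∧
      ∀ τ, Bd Q.a Q.b τ → ∀ u, |c.p u - L * B| ≤ 20 * c.C → 0 ≤ c.q u → c.q u ≤ Λ * B →
        ∀ A : Set V, (∀ r, |c.p r - L * B| ≤ c.C → 0 ≤ c.q r → c.q r ≤ (Λ + 1) * B → Db c 0 r ⊆ A) →
          T (res Q.b (edg A) τ) 0 u ≤ lev c u + Φ τ := by
  intro κ hκ Λ hΛ L'
  have hc := c.one_le
  have hb : 0 < Q.b := Q.ha.trans Q.hab
  have hab := Q.hab.le
  have ha := Q.ha.le
  obtain ⟨G, hG⟩ : ∃ G : ℝ, G = 1 + Q.b * c.C := ⟨_, rfl⟩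
  have hG1 : 1 ≤ G := by
    rw [hG]
    have := mul_nonneg hb.le (show (0 : ℝ) ≤ c.C by linarith)
    linarith
  have hG0 : 0 < G := by linarith
  obtain ⟨μ, hμ⟩ : ∃ μ : ℝ, μ = min (1 / 2) (κ / (4 * G)) := ⟨_, rfl⟩
  have hμ0 : 0 < μ := by
    rw [hμ]
    exact lt_min (by norm_num) (by positivity)
  have hμ2 : μ ≤ 1 / 2 := by
    rw [hμ]
    exact min_le_left _ _
  have hμG : G * μ ≤ κ / 4 := by
    have h1 : μ ≤ κ / (4 * G) := by
      rw [hμ]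
      exact min_le_right _ _
    have h2 := mul_le_mul_of_nonneg_left h1 hG0.le
    have h3 : G * (κ / (4 * G)) = κ / 4 := by
      field_simp
    linarith
  obtain ⟨J, hJ⟩ : ∃ J : ℕ, J = ⌊Λ / μ⌋₊ + 1 := ⟨_, rfl⟩
  have hJ1 : 1 ≤ J := by omega
  have hJ0 : (0 : ℝ) < J := by exact_mod_cast hJ1
  have hJμ : (J : ℝ) * μ ≤ Λ + μ := by
    have h1 : ((⌊Λ / μ⌋₊ : ℕ) : ℝ) ≤ Λ / μ := Nat.floor_le (by positivity)
    have h2 := mul_le_mul_of_nonneg_right h1 hμ0.le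
    have h3 : Λ / μ * μ = Λ := by
      field_simp
    rw [hJ]
    push_cast
    linarith
  obtain ⟨L, C, hLL', hL1, hC1, hcl⟩ := climb Q g c hg h hcb (κ / (4 * J)) (by positivity) (Λ + 1) (by linarith) L'
  obtain ⟨D, hD⟩ : ∃ D : ℝ, D = 22 * c.C * G * 4 / κ := ⟨_, rfl⟩
  have hD0 : 0 ≤ D := by
    rw [hD]
    positivity
  have hDκ : 22 * c.C * G = κ / 4 * D := by
    rw [hD]
    field_simp
  refine ⟨L, C + D + c.C / μ + 2 * c.C, hLL', hL1, ?_, ?_⟩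
  · have : 0 ≤ c.C / μ := by positivity
    linarith
  intro B R M hB hR hGood
  have hcμ : 0 ≤ c.C / μ := by positivity
  have hB1 : 1 ≤ B := by linarith
  have hB0 : 0 < B := by linarith
  have hR' : C * B ≤ R := le_trans (mul_le_mul_of_nonneg_right (by linarith) hB0.le) hR
  have hμB : c.C ≤ μ * B := by
    have h1 : c.C / μ ≤ B := by linarith
    rw [div_le_iff₀ hμ0] at h1
    linarith
  have hμB2 : μ * B ≤ 1 / 2 * B := mul_le_mul_of_nonneg_right hμ2 hB0.le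
  have hDB : κ / 4 * D ≤ κ / 4 * B := mul_le_mul_of_nonneg_left (by linarith) (by linarith)
  -- the net
  obtain ⟨r, hr⟩ : ∃ r : ℕ → V, ∀ j, r j = c.rd (L * B) ((j + 1) * (μ * B)) := ⟨fun j => c.rd (L * B) ((j + 1) * (μ * B)), fun j => rfl⟩
  have hrp : ∀ j, |c.p (r j) - L * B| ≤ c.C := fun j => by
    rw [hr]
    exact c.rd_p _ _
  have hrq : ∀ j, |c.q (r j) - (j + 1) * (μ * B)| ≤ c.C := fun j => by
    rw [hr]
    exact c.rd_q _ _
  have hj1 : ∀ j : ℕ, μ * B ≤ (j + 1) * (μ * B) := fun j => by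
    have h1 : (0 : ℝ) ≤ j := Nat.cast_nonneg j
    have h2 : 0 ≤ (j : ℝ) * (μ * B) := mul_nonneg h1 (by linarith)
    linarith
  have hj2 : ∀ j : ℕ, j < J → (j + 1) * (μ * B) ≤ Λ * B + μ * B := fun j hj => by
    have h1 : (j : ℝ) + 1 ≤ J := by exact_mod_cast hj
    have h2 : ((j : ℝ) + 1) * (μ * B) ≤ J * (μ * B) := mul_le_mul_of_nonneg_right h1 (by linarith)
    have h3 : (J : ℝ) * μ * B ≤ (Λ + μ) * B := mul_le_mul_of_nonneg_right hJμ hB0.le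
    linarith
  have hrq0 : ∀ j, 0 ≤ c.q (r j) := fun j => by
    have h1 := (abs_le.1 (hrq j)).1
    have h2 := hj1 j
    linarith
  have hrq1 : ∀ j, j < J → c.q (r j) ≤ (Λ + 1) * B := fun j hj => by
    have h1 := (abs_le.1 (hrq j)).2
    have h2 := hj2 j hj
    linarith
  have hterm : ∀ j ∈ range J, M.E (fun τ => max (Ts Q.b c τ 0 (r j) - lev c (r j)) 0) ≤ κ / (4 * J) * B := by
    intro j hj
    rw [mem_range] at hj
    refine hcl B R M (by linarith) hR' hGood (r j) ?_ (hrq0 j) (hrq1 j hj)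
    refine (hrp j).trans ?_
    have : 0 ≤ Λ * B := by positivity
    linarith
  refine ⟨fun τ => G * (22 * c.C + μ * B) + ∑ j ∈ range J, max (Ts Q.b c τ 0 (r j) - lev c (r j)) 0, ?_, ?_, ?_⟩
  · intro τ
    refine add_nonneg (mul_nonneg hG0.le (by linarith)) (sum_nonneg fun j _ => le_max_right _ _)
  · rw [M.E_add, M.E_const, M.E_sum]
    have h1 : ∑ j ∈ range J, M.E (fun τ => max (Ts Q.b c τ 0 (r j) - lev c (r j)) 0)
        ≤ ∑ _j ∈ range J, κ / (4 * J) * B := sum_le_sum hterm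
    rw [sum_const, card_range, nsmul_eq_mul] at h1
    have h2 : (J : ℝ) * (κ / (4 * J) * B) = κ / 4 * B := by
      field_simp
    rw [h2] at h1
    have h3 : G * μ * B ≤ κ / 4 * B := mul_le_mul_of_nonneg_right hμG hB0.le
    have h4 : 0 < κ * B := mul_pos hκ hB0
    linarith
  · intro τ hτ u hup huq0 huq A hA
    have hΛμ : c.q u / (μ * B) ≤ Λ / μ := by
      rw [div_le_div_iff₀ (by linarith) hμ0]
      have h1 := mul_le_mul_of_nonneg_right huq hμ0.le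
      linarith
    have hq0 : 0 ≤ c.q u / (μ * B) := div_nonneg huq0 (by linarith)
    obtain ⟨j, hj⟩ : ∃ j : ℕ, j = ⌊c.q u / (μ * B)⌋₊ := ⟨_, rfl⟩
    have hjJ : j < J := by
      have h1 : j ≤ ⌊Λ / μ⌋₊ := by
        rw [hj]
        exact Nat.floor_le_floor hΛμ
      omega
    have hμB0 : 0 < μ * B := by linarith
    have hj3 : (j : ℝ) * (μ * B) ≤ c.q u := by
      have h1 : (j : ℝ) ≤ c.q u / (μ * B) := by
        rw [hj]
        exact Nat.floor_le hq0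
      rwa [le_div_iff₀ hμB0] at h1
    have hj4 : c.q u < ((j : ℝ) + 1) * (μ * B) := by
      have h1 : c.q u / (μ * B) < (j : ℝ) + 1 := by
        rw [hj]
        exact Nat.lt_floor_add_one _
      rwa [div_lt_iff₀ hμB0] at h1
    have hq1 := abs_le.1 (hrq j)
    have hp1 := abs_le.1 (hrp j)
    have hup' := abs_le.1 hup
    have hdp : |c.p (r j) - c.p u| ≤ 21 * c.C := by
      rw [abs_le]
      constructor <;> linarith [hp1.1, hp1.2, hup'.1, hup'.2]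
    have hdq : |c.q (r j) - c.q u| ≤ μ * B + c.C := by
      rw [abs_le]
      constructor <;> linarith [hq1.1, hq1.2]
    have hnm : nm (u - r j) ≤ c.C * (22 * c.C + μ * B) := by
      rw [nm_sub_comm]
      refine (c.nm_le _).trans ?_
      refine mul_le_mul_of_nonneg_left ?_ (by linarith)
      rw [map_sub, map_sub]
      linarith
    have hτ' : Bd Q.a Q.b (res Q.b (edg A) τ) := Bd_res hab hτ _
    have t1 := T_triangle hτ' ha 0 (r j) u
    have t2 := T_upper hτ' ha (r j) u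
    have t3 := T_res_le_Ts ha hab hτ (hA (r j) (hrp j) (hrq0 j) (hrq1 j hjJ))
    have t4 : max (Ts Q.b c τ 0 (r j) - lev c (r j)) 0
        ≤ ∑ j ∈ range J, max (Ts Q.b c τ 0 (r j) - lev c (r j)) 0 :=
      single_le_sum (f := fun j => max (Ts Q.b c τ 0 (r j) - lev c (r j)) 0)
        (fun i _ => le_max_right _ _) (mem_range.2 hjJ)
    have t5 := le_max_left (Ts Q.b c τ 0 (r j) - lev c (r j)) 0
    have t6 : lev c (r j) = c.p (r j) + c.q (r j) := rfl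
    have t7 : lev c u = c.p u + c.q u := rfl
    have t8 : Q.b * nm (u - r j) ≤ Q.b * (c.C * (22 * c.C + μ * B)) := mul_le_mul_of_nonneg_left hnm hb.le
    have t9 : G * (22 * c.C + μ * B) = (22 * c.C + μ * B) + Q.b * (c.C * (22 * c.C + μ * B)) := by
      rw [hG]
      ring
    have t10 := le_abs_self (c.p (r j) - c.p u)
    have t11 := le_abs_self (c.q (r j) - c.q u)
    show T (res Q.b (edg A) τ) 0 u ≤ lev c u + (G * (22 * c.C + μ * B)
      + ∑ j ∈ range J, max (Ts Q.b c τ 0 (r j) - lev c (r j)) 0)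
    linarith

/-- Going forward along the axis from all points of a window: the net version of `mean34`.  `o` is the base point of the window. -/
theorem forward_net (Q : Par) (g : V → ℝ) (c : Crd) (hg : IsMean Q g) (hl : ∀ z, c.p z + |c.q z| ≤ g z)
    (hcb : CornerBound g c) :
    ∀ κ : ℝ, 0 < κ → ∀ Λ : ℝ, 1 ≤ Λ → ∀ L : ℝ, 1 ≤ L → ∃ C : ℝ, 1 ≤ C ∧ ∀ (B R : ℝ) (M : Mdl Q.a Q.b), C ≤ B → C * B ≤ R →
    Good Q g R M → ∀ o : V, ∃ Φ : Env → ℝ, (∀ τ, 0 ≤ Φ τ) ∧ M.E Φ ≤ κ * B ∧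
      ∀ τ, Bd Q.a Q.b τ → ∀ v, |c.p (v - o)| ≤ 20 * c.C → |c.q (v - o)| ≤ Λ * B →
        ∀ A : Set V, (∀ r, |c.p (r - o)| ≤ c.C → |c.q (r - o)| ≤ (Λ + 1) * B → Db c r (r + c.rd (L * B) 0) ⊆ A) →
          T (res Q.b (edg A) τ) v (v + c.rd (L * B) 0) ≤ lev c (c.rd (L * B) 0) + Φ τ := by
  intro κ hκ Λ hΛ L hL
  have hc := c.one_le
  have hb : 0 < Q.b := Q.ha.trans Q.hab
  have hab := Q.hab.le
  have ha := Q.ha.le
  obtain ⟨G, hG⟩ : ∃ G : ℝ, G = 2 * Q.b * c.C := ⟨_, rfl⟩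
  have hG0 : 0 < G := by
    rw [hG]
    positivity
  obtain ⟨μ, hμ⟩ : ∃ μ : ℝ, μ = min (1 / 2) (κ / (4 * G)) := ⟨_, rfl⟩
  have hμ0 : 0 < μ := by
    rw [hμ]
    exact lt_min (by norm_num) (by positivity)
  have hμ2 : μ ≤ 1 / 2 := by
    rw [hμ]
    exact min_le_left _ _
  have hμG : G * μ ≤ κ / 4 := by
    have h1 : μ ≤ κ / (4 * G) := by
      rw [hμ]
      exact min_le_right _ _
    have h2 := mul_le_mul_of_nonneg_left h1 hG0.le
    have h3 : G * (κ / (4 * G)) = κ / 4 := by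
      field_simp
    linarith
  obtain ⟨J, hJ⟩ : ∃ J : ℕ, J = ⌈Λ / μ⌉₊ := ⟨_, rfl⟩
  have hJΛ : Λ / μ ≤ J := by
    rw [hJ]
    exact Nat.le_ceil _
  obtain ⟨C, hC1, hst⟩ := Climb_straight Q g c hg hl hcb L hL
  obtain ⟨B₀, hB₀, hpow⟩ := Climb_pow ((2 * J + 1 : ℕ) * C) (κ := κ / 4) (by linarith)
  obtain ⟨D, hD⟩ : ∃ D : ℝ, D = 22 * c.C * G * 4 / κ := ⟨_, rfl⟩
  have hD0 : 0 ≤ D := by
    rw [hD]
    positivity
  have hDκ : 22 * c.C * G = κ / 4 * D := by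
    rw [hD]
    field_simp
  refine ⟨C + D + B₀ + c.C / μ + 2 * c.C, ?_, ?_⟩
  · have : 0 ≤ c.C / μ := by positivity
    linarith
  intro B R M hB hR hGood o
  have hcμ : 0 ≤ c.C / μ := by positivity
  have hB1 : 1 ≤ B := by linarith
  have hB0 : 0 < B := by linarith
  have hR' : C * B ≤ R := le_trans (mul_le_mul_of_nonneg_right (by linarith) hB0.le) hR
  have hμB : c.C ≤ μ * B := by
    have h1 : c.C / μ ≤ B := by linarith
    rw [div_le_iff₀ hμ0] at h1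
    linarith
  have hμB2 : μ * B ≤ 1 / 2 * B := mul_le_mul_of_nonneg_right hμ2 hB0.le
  have hDB : κ / 4 * D ≤ κ / 4 * B := mul_le_mul_of_nonneg_left (by linarith) (by linarith)
  have hP := hpow B (by linarith)
  obtain ⟨e, he⟩ : ∃ e : V, e = c.rd (L * B) 0 := ⟨_, rfl⟩
  rw [← he]
  -- the net
  obtain ⟨r, hr⟩ : ∃ r : ℕ → V, ∀ j, r j = o + c.rd 0 (((j : ℝ) - J) * (μ * B)) :=
    ⟨fun j => o + c.rd 0 (((j : ℝ) - J) * (μ * B)), fun j => rfl⟩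
  have hro : ∀ j, r j - o = c.rd 0 (((j : ℝ) - J) * (μ * B)) := fun j => by
    rw [hr]
    abel
  have hrp : ∀ j, |c.p (r j - o)| ≤ c.C := fun j => by
    have h1 := c.rd_p 0 (((j : ℝ) - J) * (μ * B))
    rw [sub_zero] at h1
    rw [hro]
    exact h1
  have hrq : ∀ j, |c.q (r j - o) - ((j : ℝ) - J) * (μ * B)| ≤ c.C := fun j => by
    rw [hro]
    exact c.rd_q _ _
  have hterm : ∀ j ∈ range (2 * J + 1), M.E (fun τ => max (Ts Q.b c τ (r j) (r j + e) - lev c e) 0)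
      ≤ C * B ^ (3 / 4 : ℝ) := by
    intro j _
    have h1 := hst B R M (by linarith) hR' hGood (r j)
    rw [← he] at h1
    exact h1
  refine ⟨fun τ => G * (22 * c.C + μ * B)
    + ∑ j ∈ range (2 * J + 1), max (Ts Q.b c τ (r j) (r j + e) - lev c e) 0, ?_, ?_, ?_⟩
  · intro τ
    refine add_nonneg (mul_nonneg hG0.le (by linarith)) (sum_nonneg fun j _ => le_max_right _ _)
  · rw [M.E_add, M.E_const, M.E_sum]
    have h1 : ∑ j ∈ range (2 * J + 1), M.E (fun τ => max (Ts Q.b c τ (r j) (r j + e) - lev c e) 0)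
        ≤ ∑ _j ∈ range (2 * J + 1), C * B ^ (3 / 4 : ℝ) := sum_le_sum hterm
    rw [sum_const, card_range, nsmul_eq_mul, ← mul_assoc] at h1
    have h3 : G * μ * B ≤ κ / 4 * B := mul_le_mul_of_nonneg_right hμG hB0.le
    have h4 : 0 < κ * B := mul_pos hκ hB0
    linarith
  · intro τ hτ v hvp hvq A hA
    have hμB0 : 0 < μ * B := by linarith
    have hvq' := abs_le.1 hvq
    have hvp' := abs_le.1 hvp
    obtain ⟨t, ht⟩ : ∃ t : ℝ, t = c.q (v - o) / (μ * B) := ⟨_, rfl⟩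
    have htμ : t * (μ * B) = c.q (v - o) := by
      rw [ht]
      field_simp
    have ht1 : |t| ≤ J := by
      refine le_trans ?_ hJΛ
      rw [ht, abs_div, abs_of_pos hμB0, div_le_div_iff₀ hμB0 hμ0]
      have h1 := mul_le_mul_of_nonneg_right hvq hμ0.le
      linarith
    have ht1' := abs_le.1 ht1
    have hi1 : -(J : ℤ) ≤ ⌊t⌋ := by
      rw [Int.le_floor]
      push_cast
      linarith [ht1'.1]
    have hi2 : ⌊t⌋ ≤ (J : ℤ) := by
      have h1 : (⌊t⌋ : ℝ) ≤ t := Int.floor_le t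
      have h2 : (⌊t⌋ : ℝ) ≤ ((J : ℤ) : ℝ) := by
        push_cast
        linarith [ht1'.2]
      exact_mod_cast h2
    obtain ⟨j, hj⟩ : ∃ j : ℕ, (j : ℤ) = ⌊t⌋ + J := ⟨(⌊t⌋ + J).toNat, by rw [Int.toNat_of_nonneg (by linarith)]⟩
    have hjJ : j < 2 * J + 1 := by omega
    have hjr : ((j : ℝ) - J) = (⌊t⌋ : ℝ) := by
      have h1 : ((j : ℤ) : ℝ) = ((⌊t⌋ + (J : ℤ) : ℤ) : ℝ) := by rw [hj]
      push_cast at h1
      linarith
    have hf1 : (⌊t⌋ : ℝ) * (μ * B) ≤ t * (μ * B) := mul_le_mul_of_nonneg_right (Int.floor_le t) hμB0.le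
    have hf2 : t * (μ * B) ≤ ((⌊t⌋ : ℝ) + 1) * (μ * B) :=
      mul_le_mul_of_nonneg_right (Int.lt_floor_add_one t).le hμB0.le
    have hq1 := hrq j
    rw [hjr] at hq1
    have hq1' := abs_le.1 hq1
    have hp1 := abs_le.1 (hrp j)
    have hvr : v - r j = (v - o) - (r j - o) := by abel
    have hdp : |c.p (v - r j)| ≤ 21 * c.C := by
      rw [hvr, map_sub, abs_le]
      constructor <;> linarith [hp1.1, hp1.2, hvp'.1, hvp'.2]
    have hdq : |c.q (v - r j)| ≤ μ * B + c.C := by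
      rw [hvr, map_sub, abs_le]
      constructor <;> linarith [hq1'.1, hq1'.2]
    have hrq1 : |c.q (r j - o)| ≤ (Λ + 1) * B := by
      rw [abs_le]
      constructor <;> linarith [hq1'.1, hq1'.2, hvq'.1, hvq'.2]
    have hnm : nm (v - r j) ≤ c.C * (22 * c.C + μ * B) := by
      refine (c.nm_le _).trans ?_
      refine mul_le_mul_of_nonneg_left ?_ (by linarith)
      linarith
    have hτ' : Bd Q.a Q.b (res Q.b (edg A) τ) := Bd_res hab hτ _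
    have t1 := T_triangle hτ' ha v (r j) (v + e)
    have t2 := T_triangle hτ' ha (r j) (r j + e) (v + e)
    have t3 := T_upper hτ' ha v (r j)
    have t4 := T_upper hτ' ha (r j + e) (v + e)
    have t5 := T_res_le_Ts ha hab hτ (hA (r j) (hrp j) hrq1)
    have t6 : max (Ts Q.b c τ (r j) (r j + e) - lev c e) 0
        ≤ ∑ j ∈ range (2 * J + 1), max (Ts Q.b c τ (r j) (r j + e) - lev c e) 0 :=
      single_le_sum (f := fun j => max (Ts Q.b c τ (r j) (r j + e) - lev c e) 0)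
        (fun i _ => le_max_right _ _) (mem_range.2 hjJ)
    have t7 := le_max_left (Ts Q.b c τ (r j) (r j + e) - lev c e) 0
    have t8 : Q.b * nm (v - r j) ≤ Q.b * (c.C * (22 * c.C + μ * B)) := mul_le_mul_of_nonneg_left hnm hb.le
    have t9 : nm (r j - v) = nm (v - r j) := nm_sub_comm _ _
    have t10 : v + e - (r j + e) = v - r j := by abel
    rw [t9] at t3
    rw [t10] at t4
    have t11 : G * (22 * c.C + μ * B) = 2 * (Q.b * (c.C * (22 * c.C + μ * B))) := by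
      rw [hG]
      ring
    show T (res Q.b (edg A) τ) v (v + e) ≤ lev c e + (G * (22 * c.C + μ * B)
      + ∑ j ∈ range (2 * J + 1), max (Ts Q.b c τ (r j) (r j + e) - lev c e) 0)
    linarith

end Pool.Agent.W_1b8d5d_c1
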