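import Pool.Agent.W_1b8d5d_c1.Comb
import Pool.Agent.W_1b8d5d_c1.Chern

/-!
MP_1b8d5d_pr (N2): arithmetic of the final contradiction (model free).
-/

set_option autoImplicit false

namespace Pool.Agent.W_1b8d5d_c1

open Finset Filter Topology Pool.Agent.W_1b8d5d_h85

/-- The number of sequences of rows is small compared with the Chernoff bound.  PROOF. `card_bseq` with `x` so small that
`log ((1 + x) / (1 - x)) ≤ c / 4`; then `x^(-N) ≤ exp ((A K^(4/5) + 1) log (1 / x)) ≤ exp (c K / 4)` for `K` large. -/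
theorem count_small {c A : ℝ} (hc : 0 < c) (hA : 0 ≤ A) :
    ∃ K₀ : ℕ, ∀ K : ℕ, K₀ ≤ K → ∀ N : ℕ, (N : ℝ) ≤ A * (K : ℝ) ^ ((4 : ℝ) / 5) + 1 →
      ((bseq K N).card : ℝ) * Real.exp (-(c * K)) ≤ 1 / 16 := by
  obtain ⟨E, hE⟩ : ∃ E, E = Real.exp (c / 4) := ⟨_, rfl⟩
  have hE1 : 1 < E := by
    rw [hE]
    exact Real.one_lt_exp_iff.2 (by positivity)
  obtain ⟨x, hx⟩ : ∃ x, x = (E - 1) / (E + 1) := ⟨_, rfl⟩
  have hE0 : 0 < E + 1 := by linarith
  have hx0 : 0 < x := by
    rw [hx]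
    exact div_pos (by linarith) hE0
  have hx1 : x < 1 := by
    rw [hx, div_lt_one hE0]
    linarith
  have hxE : (1 + x) / (1 - x) = E := by
    have h1 : 1 + x = 2 * E / (E + 1) := by
      rw [hx]
      field_simp
      ring
    have h2 : 1 - x = 2 / (E + 1) := by
      rw [hx]
      field_simp
      ring
    rw [h1, h2]
    field_simp
  obtain ⟨L, hL⟩ : ∃ L, L = -Real.log x := ⟨_, rfl⟩
  have hL0 : 0 < L := by
    rw [hL]
    have := Real.log_neg hx0 hx1
    linarith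
  have hxL : ∀ N : ℕ, 1 / x ^ N = Real.exp (N * L) := by
    intro N
    rw [hL, mul_neg, Real.exp_neg, ← Real.log_pow, Real.exp_log (by positivity), one_div]
  -- the size of `K`
  have hlim : Tendsto (fun K : ℕ => (K : ℝ) ^ (-((1 : ℝ) / 5))) atTop (𝓝 0) :=
    (tendsto_rpow_neg_atTop (by norm_num)).comp tendsto_natCast_atTop_atTop
  have hδ : 0 < c / (8 * (A * L + 1)) := by positivity
  have e1 := hlim.eventually (ge_mem_nhds hδ)
  have e2 : ∀ᶠ K : ℕ in atTop, max (max (8 * L / c) (2 * Real.log 16 / c)) 1 ≤ (K : ℝ) :=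
    tendsto_natCast_atTop_atTop.eventually_ge_atTop _
  obtain ⟨K₀, hK₀⟩ := eventually_atTop.1 (e1.and e2)
  refine ⟨K₀, fun K hK N hN => ?_⟩
  obtain ⟨h1, h2⟩ := hK₀ K hK
  have h3 : 8 * L / c ≤ (K : ℝ) := ((le_max_left _ _).trans (le_max_left _ _)).trans h2
  have h4 : 2 * Real.log 16 / c ≤ (K : ℝ) := ((le_max_right _ _).trans (le_max_left _ _)).trans h2
  have h5 : (1 : ℝ) ≤ K := (le_max_right _ _).trans h2
  have hKpos : (0 : ℝ) < K := by linarith
  rw [div_le_iff₀ hc] at h3 h4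
  have h6 : (K : ℝ) ^ ((4 : ℝ) / 5) = K * (K : ℝ) ^ (-((1 : ℝ) / 5)) := by
    have : (4 : ℝ) / 5 = 1 + -(1 / 5) := by norm_num
    rw [this, Real.rpow_add hKpos, Real.rpow_one]
  have h7 : A * (K : ℝ) ^ ((4 : ℝ) / 5) * L ≤ c * K / 8 := by
    rw [h6]
    have h8 : A * L * (K : ℝ) ^ (-((1 : ℝ) / 5)) ≤ c / 8 := by
      have h9 : A * L * (K : ℝ) ^ (-((1 : ℝ) / 5)) ≤ A * L * (c / (8 * (A * L + 1))) :=
        mul_le_mul_of_nonneg_left h1 (by positivity)
      have h10 : A * L * (c / (8 * (A * L + 1))) ≤ c / 8 := by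
        rw [mul_div_assoc', div_le_div_iff₀ (by positivity) (by norm_num)]
        nlinarith [mul_nonneg hA hL0.le]
      linarith
    have h11 := mul_le_mul_of_nonneg_left h8 hKpos.le
    nlinarith
  have h12 : (N : ℝ) * L ≤ c * K / 4 := by
    have h13 := mul_le_mul_of_nonneg_right hN hL0.le
    rw [add_mul, one_mul] at h13
    nlinarith
  have h14 := card_bseq K N hx0 hx1
  rw [hxE, div_eq_mul_one_div, hxL, hE, ← Real.exp_nat_mul] at h14
  calc ((bseq K N).card : ℝ) * Real.exp (-(c * K))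
      ≤ Real.exp (K * (c / 4)) * Real.exp (N * L) * Real.exp (-(c * K)) :=
        mul_le_mul_of_nonneg_right h14 (Real.exp_pos _).le
    _ = Real.exp (K * (c / 4) + N * L + -(c * K)) := by
        rw [Real.exp_add, Real.exp_add]
    _ ≤ Real.exp (-Real.log 16) := by
        apply Real.exp_le_exp.2
        nlinarith
    _ = 1 / 16 := by
        rw [Real.exp_neg, Real.exp_log (by norm_num), one_div]

private theorem Cnt_split (f : ℕ → ℝ) (m : ℕ) :
    ∑ i ∈ range (2 * m), f i = ∑ j ∈ range m, f (2 * j) + ∑ j ∈ range m, f (2 * j + 1) := by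
  induction m with
  | zero => simp
  | succ m ih =>
    have h : 2 * (m + 1) = 2 * m + 1 + 1 := by ring
    rw [h, sum_range_succ, sum_range_succ, ih, sum_range_succ (fun j => f (2 * j)),
      sum_range_succ (fun j => f (2 * j + 1))]
    ring

/-- The balance of the costs of the `2 m` blocks.  `D i` the cost of the block `i` of the geodesic, `dq i` its change of height, `t j` the cost of the
block `2 j` between the rows, `Sl` the slow blocks.  PROOF. Summing `hD`: `∑ |dq i| ≤ X + 2 m (s + E)`.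
`∑_j t j ≤ ∑_j D (2 j) + A (2 h m + ∑ |dq| + E m)`, `∑_j D (2 j) = ∑_i D i - ∑_j D (2 j + 1) ≤ 2 m l + X - m (l - E - s)`, and
`∑_j t j ≥ m (l - s - E) + |Sl| b`. -/
theorem fin_arith {m : ℕ} {D dq t : ℕ → ℝ} {l s E X A h b : ℝ} (hs : 0 ≤ s) (hE : 0 ≤ E) (hA : 0 ≤ A) (hh : 0 ≤ h)
    (hb : 0 ≤ b) {Sl : Finset ℕ} (hSl : Sl ⊆ range m)
    (hD : ∀ i < 2 * m, l - E + |dq i| - s ≤ D i)
    (hsum : ∑ i ∈ range (2 * m), D i ≤ 2 * m * l + X)
    (ht : ∀ j < m, t j ≤ D (2 * j) + A * (2 * h + |dq (2 * j)| + E))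
    (hlow : ∀ j < m, l - s - E ≤ t j)
    (hslow : ∀ j ∈ Sl, l + b - s - E ≤ t j) :
    (Sl.card : ℝ) * b ≤ (A + 1) * (X + 2 * m * (s + E)) + A * m * (2 * h + E) + 2 * m * (s + E) := by
  classical
  have s1 : ∑ i ∈ range (2 * m), (l - E + |dq i| - s) ≤ ∑ i ∈ range (2 * m), D i :=
    sum_le_sum fun i hi => hD i (mem_range.1 hi)
  have s2 : ∑ i ∈ range (2 * m), (l - E + |dq i| - s)
      = 2 * m * (l - E - s) + ∑ i ∈ range (2 * m), |dq i| := by
    have : ∀ i, l - E + |dq i| - s = (l - E - s) + |dq i| := fun i => by ring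
    simp only [this]
    rw [sum_add_distrib, sum_const, card_range, nsmul_eq_mul]
    push_cast
    ring
  have sV : ∑ i ∈ range (2 * m), |dq i| ≤ X + 2 * m * (s + E) := by
    rw [s2] at s1
    nlinarith
  have v1 := Cnt_split (fun i => |dq i|) m
  have v2 := Cnt_split D m
  have hodd : 0 ≤ ∑ j ∈ range m, |dq (2 * j + 1)| := sum_nonneg fun j _ => abs_nonneg _
  have s3 : ∑ j ∈ range m, (l - E - s) ≤ ∑ j ∈ range m, D (2 * j + 1) := by
    refine sum_le_sum fun j hj => ?_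
    have h1 := hD (2 * j + 1) (by have := mem_range.1 hj; omega)
    have h2 := abs_nonneg (dq (2 * j + 1))
    linarith
  rw [sum_const, card_range, nsmul_eq_mul] at s3
  have s4 : ∑ j ∈ range m, t j ≤ ∑ j ∈ range m, (D (2 * j) + A * (2 * h + |dq (2 * j)| + E)) :=
    sum_le_sum fun j hj => ht j (mem_range.1 hj)
  have s5 : ∑ j ∈ range m, (D (2 * j) + A * (2 * h + |dq (2 * j)| + E))
      = ∑ j ∈ range m, D (2 * j) + A * (m * (2 * h + E) + ∑ j ∈ range m, |dq (2 * j)|) := by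
    rw [sum_add_distrib, ← mul_sum]
    have : ∀ j, 2 * h + |dq (2 * j)| + E = (2 * h + E) + |dq (2 * j)| := fun j => by ring
    simp only [this]
    rw [sum_add_distrib, sum_const, card_range, nsmul_eq_mul]
  have s6 : ∑ j ∈ range m, ((l - s - E) + if j ∈ Sl then b else 0) ≤ ∑ j ∈ range m, t j := by
    refine sum_le_sum fun j hj => ?_
    split_ifs with h1
    · have := hslow j h1
      linarith
    · have := hlow j (mem_range.1 hj)
      linarith
  have s7 : ∑ j ∈ range m, ((l - s - E) + if j ∈ Sl then b else 0)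
      = m * (l - s - E) + (Sl.card : ℝ) * b := by
    rw [sum_add_distrib, sum_const, card_range, nsmul_eq_mul, ← sum_filter, sum_const, nsmul_eq_mul]
    have : (range m).filter (fun j => j ∈ Sl) = Sl := by
      ext j
      rw [mem_filter]
      exact ⟨fun h1 => h1.2, fun h1 => ⟨hSl h1, h1⟩⟩
    rw [this]
  rw [s5] at s4
  rw [s7] at s6
  have hm : (0 : ℝ) ≤ m := Nat.cast_nonneg m
  have heven : ∑ j ∈ range m, |dq (2 * j)| ≤ X + 2 * m * (s + E) := by
    have : ∑ i ∈ range (2 * m), |dq i|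
        = ∑ j ∈ range m, |dq (2 * j)| + ∑ j ∈ range m, |dq (2 * j + 1)| := v1
    linarith
  have hA2 := mul_le_mul_of_nonneg_left heven hA
  have h2 : 0 ≤ 2 * (m : ℝ) * (s + E) := by positivity
  nlinarith

end Pool.Agent.W_1b8d5d_c1
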