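import Mathlib

/-!
MP_1b8d5d_pr (N2): abstract combinatorics, model free.
(a) `rows`: rounding of a real sequence with small total variation of the rounded sequence.
(b) `card_bseq`: the number of integer sequences with a bounded sum of absolute values.
(d) `scale`: a good scale in an explicit window.
-/

set_option autoImplicit false

namespace Pool.Agent.W_1b8d5d_c1

open Finset

/-- One step of the rounding: stay if the point is at distance at most `1`, otherwise round. -/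
noncomputable def stp (x : ℝ) : ℤ := if |x| ≤ 1 then 0 else round x

theorem stp_near (x : ℝ) : |x - stp x| ≤ 1 := by
  unfold stp
  split_ifs with h
  · simpa using h
  · exact (abs_sub_round x).trans (by norm_num)

theorem stp_le (x : ℝ) : |(stp x : ℝ)| + 3 * |x - stp x| ≤ 3 * |x| := by
  unfold stp
  split_ifs with h
  · simp
  · push Not at h
    have h1 := abs_sub_round x
    have h2 : |((round x : ℤ) : ℝ)| ≤ |x| + |x - round x| := by
      have h3 : ((round x : ℤ) : ℝ) = x - (x - round x) := by ring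
      calc |((round x : ℤ) : ℝ)| = |x - (x - round x)| := by rw [← h3]
        _ ≤ |x| + |x - round x| := abs_sub _ _
    linarith

/-- The rows of the sequence `q` for the spacing `h`. -/
noncomputable def rows (q : ℕ → ℝ) (h : ℝ) : ℕ → ℤ
  | 0 => round (q 0 / h)
  | i + 1 => rows q h i + stp (q (i + 1) / h - rows q h i)

theorem rows_zero {q : ℕ → ℝ} (h : ℝ) (h0 : q 0 = 0) : rows q h 0 = 0 := by
  rw [rows, h0]
  simp

theorem rows_near (q : ℕ → ℝ) {h : ℝ} (hh : 0 < h) (i : ℕ) : |q i - h * rows q h i| ≤ h := by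
  have key : |q i / h - rows q h i| ≤ 1 := by
    cases i with
    | zero =>
      rw [rows]
      exact (abs_sub_round _).trans (by norm_num)
    | succ i =>
      rw [rows]
      push_cast
      rw [← sub_sub]
      exact stp_near _
  have h1 : q i - h * rows q h i = h * (q i / h - rows q h i) := by
    field_simp
  rw [h1, abs_mul, abs_of_pos hh]
  nlinarith

/-- (a) The total variation of the rows. -/
theorem rows_var (q : ℕ → ℝ) {h : ℝ} (hh : 0 < h) (K : ℕ) :
    h * ∑ i ∈ range K, |((rows q h (i + 1) - rows q h i : ℤ) : ℝ)| ≤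
      3 * ∑ i ∈ range K, |q (i + 1) - q i| + 3 * |q 0 - h * rows q h 0| := by
  have key : ∀ K : ℕ, ∑ i ∈ range K, |((rows q h (i + 1) - rows q h i : ℤ) : ℝ)|
      + 3 * |q K / h - rows q h K| ≤
      3 * ∑ i ∈ range K, |q (i + 1) / h - q i / h| + 3 * |q 0 / h - rows q h 0| := by
    intro K
    induction K with
    | zero => simp
    | succ K ih =>
      rw [sum_range_succ, sum_range_succ]
      have h1 : rows q h (K + 1) = rows q h K + stp (q (K + 1) / h - rows q h K) := rfl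
      have h2 := stp_le (q (K + 1) / h - rows q h K)
      have h3 : |q (K + 1) / h - rows q h K| ≤ |q K / h - rows q h K| + |q (K + 1) / h - q K / h| := by
        have h4 : q (K + 1) / h - rows q h K = (q K / h - rows q h K) + (q (K + 1) / h - q K / h) := by
          ring
        rw [h4]
        exact abs_add_le _ _
      rw [h1]
      push_cast at ih ⊢
      rw [add_sub_cancel_left, ← sub_sub]
      linarith
  have h1 := key K
  have h2 : ∀ i, |q (i + 1) / h - q i / h| = |q (i + 1) - q i| / h := by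
    intro i
    rw [← sub_div, abs_div, abs_of_pos hh]
  have h3 : |q 0 / h - rows q h 0| = |q 0 - h * rows q h 0| / h := by
    have h4 : q 0 / h - rows q h 0 = (q 0 - h * rows q h 0) / h := by
      field_simp
    rw [h4, abs_div, abs_of_pos hh]
  simp only [h2, h3, ← sum_div] at h1
  have h5 : 0 ≤ |q K / h - rows q h K| := abs_nonneg _
  have h6 : ∑ i ∈ range K, |((rows q h (i + 1) - rows q h i : ℤ) : ℝ)| ≤
      (3 * ∑ i ∈ range K, |q (i + 1) - q i| + 3 * |q 0 - h * rows q h 0|) / h := by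
    rw [add_div, mul_div_assoc, mul_div_assoc]
    linarith
  rw [le_div_iff₀ hh] at h6
  linarith

/-- The integer sequences of length `K` with the sum of the absolute values at most `N`. -/
noncomputable def bseq (K : ℕ) (N : ℕ) : Finset (Fin K → ℤ) :=
  (Fintype.piFinset fun _ => Icc (-(N : ℤ)) N).filter fun z => ∑ i, |z i| ≤ (N : ℤ)

theorem mem_bseq {K N : ℕ} {z : Fin K → ℤ} (h : ∑ i, |z i| ≤ (N : ℤ)) : z ∈ bseq K N := by
  unfold bseq
  rw [mem_filter]
  refine ⟨?_, h⟩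
  rw [Fintype.mem_piFinset]
  intro i
  have h1 : |z i| ≤ (N : ℤ) :=
    (single_le_sum (f := fun i => |z i|) (fun j _ => abs_nonneg _) (mem_univ i)).trans h
  rw [mem_Icc]
  exact abs_le.1 h1

theorem bseq_sum {K N : ℕ} {z : Fin K → ℤ} (h : z ∈ bseq K N) : ∑ i, |z i| ≤ (N : ℤ) := by
  unfold bseq at h
  rw [mem_filter] at h
  exact h.2

private theorem geo_two {x : ℝ} (hx : 0 < x) (hx1 : x < 1) (N : ℕ) :
    ∑ z ∈ Icc (-(N : ℤ)) N, x ^ z.natAbs ≤ (1 + x) / (1 - x) := by
  have key : ∀ N : ℕ, ∑ z ∈ Icc (-(N : ℤ)) N, x ^ z.natAbs = 1 + 2 * ∑ j ∈ range N, x ^ (j + 1) := by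
    intro N
    induction N with
    | zero => simp
    | succ N ih =>
      have h1 : Icc (-((N + 1 : ℕ) : ℤ)) ((N + 1 : ℕ) : ℤ)
          = insert (-((N + 1 : ℕ) : ℤ)) (insert ((N + 1 : ℕ) : ℤ) (Icc (-(N : ℤ)) N)) := by
        ext z
        simp only [mem_Icc, mem_insert]
        push_cast
        omega
      rw [h1, sum_insert, sum_insert, ih, sum_range_succ]
      · rw [Int.natAbs_neg, Int.natAbs_natCast]
        ring
      · rw [mem_Icc]
        push_cast
        omega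
      · rw [mem_insert, mem_Icc]
        push_cast
        omega
  rw [key, le_div_iff₀ (by linarith)]
  have h2 : ∑ j ∈ range N, x ^ (j + 1) = x * ∑ j ∈ range N, x ^ j := by
    rw [mul_sum]
    exact sum_congr rfl fun j _ => by ring
  have h3 : (∑ j ∈ range N, x ^ j) * (1 - x) = 1 - x ^ N := by
    have := geom_sum_mul x N
    linarith
  rw [h2]
  have h4 : 0 < x ^ N := by positivity
  nlinarith

/-- (b) The number of integer sequences with a bounded sum of absolute values. -/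
theorem card_bseq (K N : ℕ) {x : ℝ} (hx : 0 < x) (hx1 : x < 1) :
    ((bseq K N).card : ℝ) ≤ ((1 + x) / (1 - x)) ^ K / x ^ N := by
  rw [le_div_iff₀ (by positivity)]
  have h1 : ∀ z ∈ bseq K N, x ^ N ≤ ∏ i, x ^ (z i).natAbs := by
    intro z hz
    have h2 := bseq_sum hz
    rw [prod_pow_eq_pow_sum]
    refine pow_le_pow_of_le_one hx.le hx1.le ?_
    have h3 : ((∑ i, (z i).natAbs : ℕ) : ℤ) = ∑ i, |z i| := by
      push_cast
      rfl
    omega
  calc ((bseq K N).card : ℝ) * x ^ N = ∑ z ∈ bseq K N, x ^ N := by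
        rw [sum_const, nsmul_eq_mul]
    _ ≤ ∑ z ∈ bseq K N, ∏ i, x ^ (z i).natAbs := sum_le_sum h1
    _ ≤ ∑ z ∈ Fintype.piFinset fun _ : Fin K => Icc (-(N : ℤ)) N, ∏ i, x ^ (z i).natAbs := by
        refine sum_le_sum_of_subset_of_nonneg (filter_subset _ _) fun z _ _ => ?_
        exact prod_nonneg fun i _ => by positivity
    _ = ∏ _i : Fin K, ∑ z ∈ Icc (-(N : ℤ)) N, x ^ z.natAbs := by
        rw [prod_univ_sum]
    _ ≤ ∏ _i : Fin K, (1 + x) / (1 - x) :=
        prod_le_prod (fun i _ => sum_nonneg fun z _ => by positivity) fun i _ => geo_two hx hx1 N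
    _ = ((1 + x) / (1 - x)) ^ K := by
        rw [prod_const, card_univ, Fintype.card_fin]

/-- (d) A good scale in an explicit window; `a i = f (K ^ i)`. -/
theorem scale (a : ℕ → ℝ) {C : ℝ} {K : ℕ} (hK : 2 ≤ K) (i₀ : ℕ) (h1 : 1 ≤ a i₀)
    (hC : ∀ i, a i ≤ C * ((K : ℝ) ^ i) ^ ((3 : ℝ) / 4)) :
    ∃ i, i₀ ≤ i ∧ i ≤ 16 * i₀ + 20 * ⌈C⌉₊ ∧ a (i + 1) ≤ (K : ℝ) ^ ((4 : ℝ) / 5) * a i := by
  by_contra hcon
  push Not at hcon
  have hK0 : (0 : ℝ) < K := by positivity
  have hK1 : (1 : ℝ) < K := by exact_mod_cast (by omega : 1 < K)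
  set n := 16 * i₀ + 20 * ⌈C⌉₊ with hn
  have key : ∀ j, i₀ + j ≤ n + 1 → ((K : ℝ) ^ ((4 : ℝ) / 5)) ^ j ≤ a (i₀ + j) := by
    intro j
    induction j with
    | zero =>
      intro _
      simpa using h1
    | succ j ih =>
      intro hj
      have h2 := ih (by omega)
      have h3 := hcon (i₀ + j) (by omega) (by omega)
      rw [pow_succ, ← add_assoc]
      have h4 : (0 : ℝ) < (K : ℝ) ^ ((4 : ℝ) / 5) := by positivity
      nlinarith
  have h5 := key (n + 1 - i₀) (by omega)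
  have h6 : i₀ + (n + 1 - i₀) = n + 1 := by omega
  rw [h6] at h5
  have h7 := hC (n + 1)
  have h8 : ((K : ℝ) ^ ((4 : ℝ) / 5)) ^ (n + 1 - i₀) = (K : ℝ) ^ ((4 : ℝ) / 5 * ((n : ℝ) + 1 - i₀)) := by
    rw [← Real.rpow_natCast, ← Real.rpow_mul hK0.le, Nat.cast_sub (by omega)]
    push_cast
    ring_nf
  have h9 : ((K : ℝ) ^ (n + 1)) ^ ((3 : ℝ) / 4) = (K : ℝ) ^ ((3 : ℝ) / 4 * ((n : ℝ) + 1)) := by
    rw [← Real.rpow_natCast, ← Real.rpow_mul hK0.le]
    push_cast
    ring_nf
  rw [h8] at h5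
  rw [h9] at h7
  have hnR : (n : ℝ) = 16 * i₀ + 20 * ⌈C⌉₊ := by
    rw [hn]
    push_cast
    ring
  have h10 : (K : ℝ) ^ ((4 : ℝ) / 5 * ((n : ℝ) + 1 - i₀))
      = (K : ℝ) ^ ((⌈C⌉₊ : ℝ) + 1 / 20) * (K : ℝ) ^ ((3 : ℝ) / 4 * ((n : ℝ) + 1)) := by
    rw [← Real.rpow_add hK0, hnR]
    congr 1
    ring
  have h11 : (0 : ℝ) < (K : ℝ) ^ ((3 : ℝ) / 4 * ((n : ℝ) + 1)) := by positivity
  have h12 : (K : ℝ) ^ ((⌈C⌉₊ : ℝ) + 1 / 20) ≤ C := by
    rw [h10] at h5
    exact le_of_mul_le_mul_right (h5.trans h7) h11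
  have h13 : (2 : ℝ) ^ ((⌈C⌉₊ : ℝ)) ≤ (K : ℝ) ^ ((⌈C⌉₊ : ℝ) + 1 / 20) :=
    (Real.rpow_le_rpow (by norm_num) (by exact_mod_cast hK) (Nat.cast_nonneg _)).trans
      (Real.rpow_le_rpow_of_exponent_le hK1.le (by linarith))
  have h14 : ((⌈C⌉₊ : ℝ)) < (2 : ℝ) ^ ((⌈C⌉₊ : ℝ)) := by
    rw [Real.rpow_natCast]
    exact_mod_cast Nat.lt_two_pow_self
  have h15 := Nat.le_ceil C
  linarith

end Pool.Agent.W_1b8d5d_c1
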