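import Pool.Agent.W_1b8d5d_c1.Geo

/-!
MP_1b8d5d_pr (N2): confinement of the geodesics of `Ts` on the events `Fw`, `Bw` (deterministic).
-/

set_option autoImplicit false

namespace Pool.Agent.W_1b8d5d_c1

open Finset Pool.Agent.W_1b8d5d_h85

variable {a b : ℝ} {τ : Env} {c : Crd} {n θ : ℝ} {y : V}

/-- PROOF. `Db c 0 y ⊆ Kn c`, `T_res_anti`. -/
theorem Fw_le (ha : 0 < a) (hab : a ≤ b) (hτ : Bd a b τ) (hF : Fw b c n θ τ) {z : V} (hz : nm z ≤ n) :
    c.p z + |c.q z| - θ ≤ T (res b (edg (Db c 0 y)) τ) 0 z := by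
  refine (hF z hz).trans (T_res_anti ha.le hab hτ (edg_mono ?_) 0 z)
  rintro w ⟨h1, _⟩
  rwa [sub_zero] at h1

theorem Bw_le (ha : 0 < a) (hab : a ≤ b) (hτ : Bd a b τ) (hB : Bw b c n θ y τ) {z : V} (hz : nm (y - z) ≤ n) :
    c.p (y - z) + |c.q (y - z)| - θ ≤ T (res b (edg (Db c 0 y)) τ) z y := by
  refine (hB z hz).trans (T_res_anti ha.le hab hτ (edg_mono ?_) z y)
  rintro w ⟨_, h2⟩
  exact h2

/-- Vertices of a geodesic of `Ts b c τ 0 y`: lower bounds for the two parts.  PROOF. `geo_near`, `geo_add`, symmetry (`T_symm`) for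
`nm (y - z)`. -/
theorem conf_two (ha : 0 < a) (hab : a ≤ b) (hτ : Bd a b τ) (hF : Fw b c n θ τ) (hB : Bw b c n θ y τ)
    (hn : b / a * nm y ≤ n) {w : grid.Walk 0 y} (hw : IsGeo (res b (edg (Db c 0 y)) τ) w) (i : ℕ) :
    c.p (w.getVert i) + |c.q (w.getVert i)| - θ ≤ T (res b (edg (Db c 0 y)) τ) 0 (w.getVert i) ∧
    c.p (y - w.getVert i) + |c.q (y - w.getVert i)| - θ ≤ T (res b (edg (Db c 0 y)) τ) (w.getVert i) y := by
  have hσ := Bd_res hab hτ (edg (Db c 0 y))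
  have h1 := geo_near hσ ha hw i
  rw [sub_zero, sub_zero] at h1
  refine ⟨Fw_le ha hab hτ hF (h1.trans hn), Bw_le ha hab hτ hB ?_⟩
  have h2 := geo_add hσ ha.le hw i
  have h3 := T_nonneg hσ ha.le 0 (w.getVert i)
  have h4 := T_lower hσ ha.le (w.getVert i) y
  have h5 := T_upper hσ ha.le 0 y
  rw [sub_zero] at h5
  refine le_trans ?_ hn
  rw [div_mul_eq_mul_div, le_div_iff₀ ha]
  linarith

/-- Confinement in height. -/
theorem conf_q (ha : 0 < a) (hab : a ≤ b) (hτ : Bd a b τ) (hF : Fw b c n θ τ) (hB : Bw b c n θ y τ)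
    (hn : b / a * nm y ≤ n) {w : grid.Walk 0 y} (hw : IsGeo (res b (edg (Db c 0 y)) τ) w) (i : ℕ) :
    |c.q (w.getVert i)| + |c.q (y - w.getVert i)| ≤ Ts b c τ 0 y - c.p y + 2 * θ := by
  have hσ := Bd_res hab hτ (edg (Db c 0 y))
  obtain ⟨h1, h2⟩ := conf_two ha hab hτ hF hB hn hw i
  have h3 := geo_add hσ ha.le hw i
  have h4 : Ts b c τ 0 y = T (res b (edg (Db c 0 y)) τ) 0 y := rfl
  rw [map_sub c.p] at h2
  rw [h4]
  linarith

/-- No backtracking: for `i ≤ j`, `p (w_i) - p (w_j) ≤ Ts - p y + 2 θ`.  PROOF. `T 0 w_i + T w_i w_j + T w_j y = Ts` (`geo_sub`, `geo_add`),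
`conf_two` for `w_i` (first part) and `w_j` (second part). -/
theorem conf_dip (ha : 0 < a) (hab : a ≤ b) (hτ : Bd a b τ) (hF : Fw b c n θ τ) (hB : Bw b c n θ y τ)
    (hn : b / a * nm y ≤ n) {w : grid.Walk 0 y} (hw : IsGeo (res b (edg (Db c 0 y)) τ) w) {i j : ℕ} (hij : i ≤ j) :
    c.p (w.getVert i) - c.p (w.getVert j) ≤ Ts b c τ 0 y - c.p y + 2 * θ := by
  have hσ := Bd_res hab hτ (edg (Db c 0 y))
  obtain ⟨h1, _⟩ := conf_two ha hab hτ hF hB hn hw i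
  obtain ⟨_, h2⟩ := conf_two ha hab hτ hF hB hn hw j
  have h3 := geo_sub hσ ha.le hw hij
  have h4 := geo_add hσ ha.le hw j
  have h5 := T_nonneg hσ ha.le (w.getVert i) (w.getVert j)
  have h6 : Ts b c τ 0 y = T (res b (edg (Db c 0 y)) τ) 0 y := rfl
  have h7 := abs_nonneg (c.q (w.getVert i))
  have h8 := abs_nonneg (c.q (y - w.getVert j))
  rw [map_sub c.p] at h2
  rw [h6]
  linarith

/-- Upper bound for the costs of the pieces: for `i ≤ j`,
`T w_i w_j ≤ p (w_j) - p (w_i) + (Ts - p y) + 2 θ`. -/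
theorem conf_piece (ha : 0 < a) (hab : a ≤ b) (hτ : Bd a b τ) (hF : Fw b c n θ τ) (hB : Bw b c n θ y τ)
    (hn : b / a * nm y ≤ n) {w : grid.Walk 0 y} (hw : IsGeo (res b (edg (Db c 0 y)) τ) w) {i j : ℕ} (hij : i ≤ j) :
    T (res b (edg (Db c 0 y)) τ) (w.getVert i) (w.getVert j) ≤
      c.p (w.getVert j) - c.p (w.getVert i) + (Ts b c τ 0 y - c.p y) + 2 * θ := by
  have hσ := Bd_res hab hτ (edg (Db c 0 y))
  obtain ⟨h1, _⟩ := conf_two ha hab hτ hF hB hn hw i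
  obtain ⟨_, h2⟩ := conf_two ha hab hτ hF hB hn hw j
  have h3 := geo_sub hσ ha.le hw hij
  have h4 := geo_add hσ ha.le hw j
  have h6 : Ts b c τ 0 y = T (res b (edg (Db c 0 y)) τ) 0 y := rfl
  have h7 := abs_nonneg (c.q (w.getVert i))
  have h8 := abs_nonneg (c.q (y - w.getVert j))
  rw [map_sub c.p] at h2
  rw [h6]
  linarith

/-- The tube passage time agrees with `Ts` if the excess and `θ` are small compared with `H`. -/
theorem tube_eq (ha : 0 < a) (hab : a ≤ b) (hτ : Bd a b τ) (hF : Fw b c n θ τ) (hB : Bw b c n θ y τ)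
    (hn : b / a * nm y ≤ n) {H : ℝ} (hH : Ts b c τ 0 y - c.p y + 2 * θ ≤ H) :
    Tt b c τ 0 y H = Ts b c τ 0 y := by
  obtain ⟨w, hw⟩ := exists_geo (Bd_res hab hτ (edg (Db c 0 y))) ha 0 y
  refine Tt_eq ha hab hτ c 0 y H w hw fun z hz => ?_
  obtain ⟨i, rfl, _⟩ := SimpleGraph.Walk.mem_support_iff_exists_getVert.1 hz
  have h1 := conf_q ha hab hτ hF hB hn hw i
  have h2 := abs_nonneg (c.q (y - w.getVert i))
  rw [sub_zero]
  linarith

end Pool.Agent.W_1b8d5d_c1
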