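import Pool.Agent.W_1b8d5d_c1.Fin3

/-!
MP_1b8d5d_pr (N2): many slow blocks in every sequence of rows (independence of the even blocks, union bound).
-/

set_option autoImplicit false

namespace Pool.Agent.W_1b8d5d_c1

open Finset Pool.Agent.W_1b8d5d_h85

/-- The row number `i` of the sequence of differences `ζ`. -/
def row {K : ℕ} (ζ : Fin K → ℤ) (i : ℕ) : ℤ := ∑ j : Fin K, if (j : ℕ) < i then ζ j else 0

theorem row_abs {K N : ℕ} {ζ : Fin K → ℤ} (h : ζ ∈ bseq K N) (i : ℕ) : |row ζ i| ≤ N := by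
  sorry

/-- The sequence of rows is determined by the differences. -/
theorem row_diff {K : ℕ} (k : ℕ → ℤ) (h0 : k 0 = 0) {i : ℕ} (hi : i ≤ K) :
    row (fun j : Fin K => k (j + 1) - k j) i = k i := by
  sorry

open Classical in
/-- For a fixed sequence of rows only few of the even blocks can be fast.  PROOF. `chern_env` for the sets of edges
`A j = edg (Rg c (xb c (c.p y) (2 * j)) (c.p y) W)`: pairwise disjoint since `2 * W + 2 * c.C < c.p y` (compare `c.p` of a common vertex),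
`nm e.1 ≤ c.C * (2 * j + 2) * c.p y`; `dependsOn_T_res`. -/
theorem slow_few {Q : Par} {g : V → ℝ} {R : ℝ} {M : Mdl Q.a Q.b} (hM : Good Q g R M) (c : Crd) (y : V) {W h β c₁ : ℝ}
    {m : ℕ} (hW : 0 ≤ W) (hl : 2 * W + 2 * c.C < c.p y) (hR : 2 * c.C * m * c.p y ≤ R) (k : ℕ → ℤ)
    (hp : ∀ i < 2 * m, c₁ ≤ M.P (fun τ => c.p y + β ≤ Tblk Q.b c y W h τ i (k i))) :
    M.P (fun τ => (((range m).filter fun j => c.p y + β ≤ Tblk Q.b c y W h τ (2 * j) (k (2 * j))).card : ℝ) ≤ c₁ * m / 4)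
      ≤ Real.exp (-(c₁ * m / 4)) := by
  sorry

open Classical in
/-- The union bound over the sequences of rows.  PROOF. `M.P_exists_le`, `slow_few` for `k = row ζ`, `row_abs`. -/
theorem slow_all {Q : Par} {g : V → ℝ} {R : ℝ} {M : Mdl Q.a Q.b} (hM : Good Q g R M) (c : Crd) (y : V) {W h β c₁ : ℝ}
    {m N : ℕ} (hW : 0 ≤ W) (hl : 2 * W + 2 * c.C < c.p y) (hR : 2 * c.C * m * c.p y ≤ R)
    (hp : ∀ i < 2 * m, ∀ k : ℤ, |k| ≤ N → c₁ ≤ M.P (fun τ => c.p y + β ≤ Tblk Q.b c y W h τ i k)) :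
    M.P (fun τ => ∃ ζ ∈ bseq (2 * m) N, (((range m).filter fun j => c.p y + β ≤
      Tblk Q.b c y W h τ (2 * j) (row ζ (2 * j))).card : ℝ) ≤ c₁ * m / 4)
      ≤ ((bseq (2 * m) N).card : ℝ) * Real.exp (-(c₁ * m / 4)) := by
  sorry

end Pool.Agent.W_1b8d5d_c1
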