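import Pool.Agent.W_1b8d5d_c1.Comb

/-!
MP_1b8d5d_pr (N2): the parameters of the contradiction.
-/

set_option autoImplicit false

namespace Pool.Agent.W_1b8d5d_c1

open Finset

/-- The parameters. -/
theorem params {c₁ A η : ℝ} (hc : 0 < c₁) (hc1 : c₁ ≤ 1) (hA : 1 ≤ A) (hη : 0 < η) :
    ∃ (m N : ℕ) (σ : ℝ), 1 ≤ m ∧ 0 < σ ∧
      ((bseq (2 * m) N).card : ℝ) * Real.exp (-(c₁ * m / 4)) ≤ 1 / 8 ∧
      3 * (A * ((2 * m : ℕ) : ℝ) ^ ((4 : ℝ) / 5) + 1 + 2 * m * σ) ≤ η * N ∧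
      (N : ℝ) ≤ c₁ * m / 8 ∧
      A * ((2 * m : ℕ) : ℝ) ^ ((4 : ℝ) / 5) + 1 + 4 * m * σ < c₁ * m / 128 := by
  set x : ℝ := c₁ / 128 with hx
  have hx0 : 0 < x := by positivity
  have hx1 : x ≤ 1 / 128 := by rw [hx]; linarith
  set L : ℝ := Real.log (1 / x) with hL
  have hL1 : 1 ≤ L := by
    rw [hL, Real.le_log_iff_exp_le (by positivity)]
    have h1 : Real.exp 1 < 2.7182818286 := Real.exp_one_lt_d9
    have h2 : 128 ≤ 1 / x := by
      rw [le_div_iff₀ hx0]
      linarith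
    linarith
  set ν : ℝ := c₁ / (16 * L) with hν
  have hν0 : 0 < ν := by positivity
  have hνc : ν ≤ c₁ / 16 := by
    rw [hν]
    apply div_le_div_of_nonneg_left hc.le (by norm_num)
    linarith
  set κ : ℝ := min (η * ν / 12) (c₁ / 512) with hκ
  have hκ0 : 0 < κ := lt_min (by positivity) (by positivity)
  set σ : ℝ := min (η * ν / 24) (c₁ / 1024) with hσ
  have hσ0 : 0 < σ := lt_min (by positivity) (by positivity)
  obtain ⟨q, hq⟩ := exists_nat_gt (max (max (4 * A / κ) (24 / c₁)) (max (2 / ν) (2 / κ)))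
  have hq1 : 4 * A / κ < q := (le_max_left _ _).trans_lt ((le_max_left _ _).trans_lt hq)
  have hq2 : 24 / c₁ < q := (le_max_right _ _).trans_lt ((le_max_left _ _).trans_lt hq)
  have hq3 : 2 / ν < q := (le_max_left _ _).trans_lt ((le_max_right _ _).trans_lt hq)
  have hq4 : 2 / κ < q := (le_max_right _ _).trans_lt ((le_max_right _ _).trans_lt hq)
  have hq0 : (0 : ℝ) < q := (by positivity : (0 : ℝ) < 4 * A / κ).trans hq1
  have hqn : 1 ≤ q := by
    have : 0 < q := by exact_mod_cast hq0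
    omega
  have hqr : (1 : ℝ) ≤ q := by exact_mod_cast hqn
  set m : ℕ := q ^ 5 with hm
  have hmq : (q : ℝ) ≤ m := by
    rw [hm]
    push_cast
    exact le_self_pow₀ hqr (by norm_num)
  have hm1 : 1 ≤ m := Nat.one_le_pow _ _ hqn
  have hm0 : (0 : ℝ) < m := by exact_mod_cast hm1
  set N : ℕ := ⌊ν * m⌋₊ with hN
  have hN1 : (N : ℝ) ≤ ν * m := Nat.floor_le (by positivity)
  have hN2 : ν * m - 1 < N := by
    have := Nat.lt_floor_add_one (ν * m)
    rw [← hN] at this
    linarith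
  have hνm : 2 ≤ ν * m := by
    rw [div_lt_iff₀ hν0] at hq3
    nlinarith
  have hκm : 2 ≤ κ * m := by
    rw [div_lt_iff₀ hκ0] at hq4
    nlinarith
  -- the power
  have hpow : ((2 * m : ℕ) : ℝ) ^ ((4 : ℝ) / 5) ≤ 2 * (q : ℝ) ^ 4 := by
    have h1 : ((2 * m : ℕ) : ℝ) = 2 * (q : ℝ) ^ 5 := by
      rw [hm]
      push_cast
      ring
    rw [h1, Real.mul_rpow (by norm_num) (by positivity)]
    have h2 : ((q : ℝ) ^ 5) ^ ((4 : ℝ) / 5) = (q : ℝ) ^ 4 := by
      rw [← Real.rpow_natCast, ← Real.rpow_mul hq0.le, ← Real.rpow_natCast]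
      norm_num
    rw [h2]
    refine mul_le_mul_of_nonneg_right ?_ (by positivity)
    calc (2 : ℝ) ^ ((4 : ℝ) / 5) ≤ 2 ^ (1 : ℝ) := Real.rpow_le_rpow_of_exponent_le (by norm_num) (by norm_num)
      _ = 2 := Real.rpow_one 2
  have hE : A * ((2 * m : ℕ) : ℝ) ^ ((4 : ℝ) / 5) + 1 ≤ κ * m := by
    have h1 : A * ((2 * m : ℕ) : ℝ) ^ ((4 : ℝ) / 5) ≤ A * (2 * (q : ℝ) ^ 4) :=
      mul_le_mul_of_nonneg_left hpow (by linarith)
    have h2 : 4 * A < κ * q := by
      rw [div_lt_iff₀ hκ0] at hq1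
      linarith
    have h3 : A * (2 * (q : ℝ) ^ 4) ≤ κ * m / 2 := by
      have h4 : (m : ℝ) = (q : ℝ) * (q : ℝ) ^ 4 := by
        rw [hm]
        push_cast
        ring
      rw [h4]
      have h5 : (0 : ℝ) < (q : ℝ) ^ 4 := by positivity
      nlinarith
    linarith
  have hκ1 : κ ≤ η * ν / 12 := min_le_left _ _
  have hκ2 : κ ≤ c₁ / 512 := min_le_right _ _
  have hσ1 : σ ≤ η * ν / 24 := min_le_left _ _
  have hσ2 : σ ≤ c₁ / 1024 := min_le_right _ _
  have hκ1m := mul_le_mul_of_nonneg_right hκ1 hm0.le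
  have hκ2m := mul_le_mul_of_nonneg_right hκ2 hm0.le
  have hσ1m := mul_le_mul_of_nonneg_right hσ1 hm0.le
  have hσ2m := mul_le_mul_of_nonneg_right hσ2 hm0.le
  refine ⟨m, N, σ, hm1, hσ0, ?_, ?_, ?_, ?_⟩
  · -- counting
    have h1 := card_bseq (2 * m) N hx0 (by linarith : x < 1)
    have h2 : (1 + x) / (1 - x) ≤ Real.exp (4 * x) := by
      rw [div_le_iff₀ (by linarith)]
      have h3 := Real.add_one_le_exp (4 * x)
      nlinarith
    have h3 : ((1 + x) / (1 - x)) ^ (2 * m) ≤ Real.exp (c₁ * m / 16) := by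
      have h4 : 0 ≤ (1 + x) / (1 - x) := div_nonneg (by linarith) (by linarith)
      refine (pow_le_pow_left₀ h4 h2 _).trans (le_of_eq ?_)
      rw [← Real.exp_nat_mul]
      congr 1
      push_cast
      rw [hx]
      ring
    have h4 : 1 / x ^ N ≤ Real.exp (c₁ * m / 16) := by
      have h5 : 1 / x ^ N = Real.exp (N * L) := by
        rw [Real.exp_nat_mul, hL, Real.exp_log (by positivity), one_div_pow]
      rw [h5]
      refine Real.exp_le_exp.2 ?_
      have h6 : (N : ℝ) * L ≤ ν * m * L := mul_le_mul_of_nonneg_right hN1 (by linarith)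
      have h7 : ν * m * L = c₁ * m / 16 := by
        rw [hν]
        field_simp
      linarith
    have h5 : ((bseq (2 * m) N).card : ℝ) ≤ Real.exp (c₁ * m / 16) * Real.exp (c₁ * m / 16) := by
      refine h1.trans ?_
      rw [div_eq_mul_one_div]
      exact mul_le_mul h3 h4 (by positivity) (Real.exp_pos _).le
    have h6 : Real.exp (-(c₁ * m / 8)) ≤ 1 / 8 := by
      have h7 : 3 ≤ c₁ * m / 8 := by
        rw [div_lt_iff₀ hc] at hq2
        nlinarith
      have h8 : (8 : ℝ) ≤ Real.exp 3 := by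
        have h9 : Real.exp 3 = Real.exp 1 ^ 3 := by
          rw [← Real.exp_nat_mul]
          norm_num
        have h10 : (2 : ℝ) ≤ Real.exp 1 := by
          have := Real.add_one_le_exp (1 : ℝ)
          linarith
        rw [h9]
        calc (8 : ℝ) = 2 ^ 3 := by norm_num
          _ ≤ _ := pow_le_pow_left₀ (by norm_num) h10 3
      rw [Real.exp_neg, one_div]
      exact inv_anti₀ (by norm_num) (h8.trans (Real.exp_le_exp.2 h7))
    calc ((bseq (2 * m) N).card : ℝ) * Real.exp (-(c₁ * m / 4))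
        ≤ Real.exp (c₁ * m / 16) * Real.exp (c₁ * m / 16) * Real.exp (-(c₁ * m / 4)) :=
          mul_le_mul_of_nonneg_right h5 (Real.exp_pos _).le
      _ = Real.exp (-(c₁ * m / 8)) := by
          rw [← Real.exp_add, ← Real.exp_add]
          congr 1
          ring
      _ ≤ 1 / 8 := h6
  · have h1 : η * (ν * m / 2) ≤ η * N := mul_le_mul_of_nonneg_left (by linarith) hη.le
    nlinarith
  · nlinarith
  · nlinarith

end Pool.Agent.W_1b8d5d_c1
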