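import Pool.Agent.W_1b8d5d_c1.Luck1
import Pool.Agent.W_1b8d5d_c1.Tail
import Pool.Agent.W_1b8d5d_c1.Sel

/-!
MP_1b8d5d_pr (N2): NO LUCKY REGIONS at a corner.
-/

set_option autoImplicit false

namespace Pool.Agent.W_1b8d5d_c1

open Finset Pool.Agent.W_1b8d5d_h85

/-- Monotonicity of the dependence. -/
private theorem Luck2_mono {β : Type} {F : Env → β} {A A' : Set Edge} (h : DependsOn F A) (hA : A ⊆ A') :
    DependsOn F A' := fun _ _ hxy => h fun e he => hxy e (hA he)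

/-- The edges with both end points in the wedge and not far. -/
private def Luck2_S (c : Crd) (H : ℝ) : Set Edge := {e | e ∈ edg (Wd c 0) ∧ nm e.1 ≤ H}

private theorem Luck2_sub {c : Crd} {H : ℝ} {A : Set V} (h : ∀ z ∈ A, z ∈ Wd c 0 ∧ nm z ≤ H) :
    edg A ⊆ Luck2_S c H := fun e he => ⟨⟨(h e.1 he.1).1, (h _ he.2).1⟩, (h e.1 he.1).2⟩

/-- Points of the double cones are in the wedge and not far. -/
private theorem Luck2_Db {c : Crd} {H : ℝ} {r y : V} (hr : r ∈ Wd c 0) (hH : nm r + 2 * c.C * c.p (y - r) ≤ H) :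
    ∀ z ∈ Db c r y, z ∈ Wd c 0 ∧ nm z ≤ H := by
  intro z hz
  refine ⟨Kn_add_Wd hr hz.1, ?_⟩
  have h1 := Db_nm hz
  have h2 := nm_add_le (z - r) r
  rw [sub_add_cancel] at h2
  linarith

private theorem Luck2_zero (c : Crd) : (0 : V) ∈ Wd c 0 := Kn_subset_Wd c (Kn_zero c)

/-- The numbers. -/
private theorem Luck2_K {p₀ ε : ℝ} (h0 : 0 < p₀) (h1 : p₀ ≤ 1) (hε : 0 < ε) : ∃ K : ℕ, (1 - p₀) ^ K ≤ ε := by
  obtain ⟨K, hK⟩ := exists_pow_lt_of_lt_one hε (by linarith : 1 - p₀ < 1)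
  exact ⟨K, hK.le⟩

/-- The numerical relations between the sizes (`x = L B`, `y = L₂ B`, `t = T₀ B`, `w = Λ B`, `κ = c.C`). -/
private structure Luck2_N (c : Crd) (n l x y t w B : ℝ) : Prop where
  c1 : 1 ≤ c.C
  hn : 1 ≤ n
  l0 : 0 ≤ l
  ln : l ≤ n
  cB : 10 * c.C ≤ B
  Bw : B ≤ w
  tx : 10 * t ≤ x
  t3 : 3 * B ≤ t
  ty : y = 40 * t
  tot : x + y + t + w + 10 * c.C + 10 * B ≤ n

private theorem Luck2_nm {c : Crd} {z : V} {s : ℝ} (h : |c.p z| + |c.q z| ≤ s) : nm z ≤ c.C * s := by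
  have h1 := c.nm_le z
  exact h1.trans (mul_le_mul_of_nonneg_left h (by linarith [c.one_le]))

section geo

variable {c : Crd} {n l x y t w B : ℝ}

private theorem Luck2_N.x0 (N : Luck2_N c n l x y t w B) : 0 ≤ x := by
  have h1 := N.c1
  have h2 := N.cB
  have h3 := N.tx
  have h4 := N.t3
  linarith

/-- a base point -/
private theorem Luck2_bp (N : Luck2_N c n l x y t w B) {z : V} {a : ℝ} (h1 : |c.p z - x| ≤ c.C)
    (h2 : |c.q z - a| ≤ c.C) (h3 : a + w ≤ t) (h4 : 2 * w ≤ a) : nm z ≤ c.C * n := by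
  refine Luck2_nm ?_
  obtain ⟨n1, n2, n3, n4, n5, n6, n7, n8, n9, n10⟩ := N
  have h1' := abs_le.1 h1
  have h2' := abs_le.1 h2
  have h5 : |c.p z| ≤ x + c.C := by rw [abs_le]; constructor <;> linarith
  have h6 : |c.q z| ≤ a + c.C := by rw [abs_le]; constructor <;> linarith
  linarith

/-- the vector along the axis -/
private theorem Luck2_ax (N : Luck2_N c n l x y t w B) {z : V} (h1 : |c.p z - y| ≤ c.C)
    (h2 : |c.q z| ≤ c.C) : z ∈ Kn c ∧ nm z ≤ c.C * n ∧ c.p z ≤ n := by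
  obtain ⟨n1, n2, n3, n4, n5, n6, n7, n8, n9, n10⟩ := N
  have h1' := abs_le.1 h1
  refine ⟨?_, Luck2_nm ?_, ?_⟩
  · rw [mem_Kn]
    linarith
  · have h5 : |c.p z| ≤ y + c.C := by rw [abs_le]; constructor <;> linarith
    linarith
  · linarith

/-- the default point -/
private theorem Luck2_yd (N : Luck2_N c n l x y t w B) {z : V} (h1 : |c.p z - (x + y + l)| ≤ c.C)
    (h2 : |c.q z| ≤ c.C) : z ∈ Kn c ∧ nm z ≤ c.C * (3 * n) ∧ 0 ≤ c.p z ∧ c.p z ≤ 2 * n := by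
  obtain ⟨n1, n2, n3, n4, n5, n6, n7, n8, n9, n10⟩ := N
  have h1' := abs_le.1 h1
  have hp : 0 ≤ c.p z := by linarith
  refine ⟨?_, Luck2_nm ?_, hp, ?_⟩
  · rw [mem_Kn]
    linarith
  · rw [abs_of_nonneg hp]
    linarith
  · linarith

/-- the points of the net for the climb -/
private theorem Luck2_climb (N : Luck2_N c n l x y t w B) {H : ℝ} (hH : 8 * (c.C * n) ≤ H) {r : V}
    (h1 : |c.p r - x| ≤ c.C) : Db c 0 r ⊆ {z | z ∈ Wd c 0 ∧ nm z ≤ H} := by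
  refine Luck2_Db (Luck2_zero c) ?_
  rw [nm_zero, sub_zero]
  obtain ⟨n1, n2, n3, n4, n5, n6, n7, n8, n9, n10⟩ := N
  have h9 := (abs_le.1 h1).2
  have h10 : 2 * c.C * c.p r ≤ 2 * c.C * n := mul_le_mul_of_nonneg_left (by linarith) (by linarith)
  have : 0 ≤ c.C * n := mul_nonneg (by linarith) (by linarith)
  linarith

/-- a starting point in a region -/
private theorem Luck2_u (N : Luck2_N c n l x y t w B) {z u : V} {a : ℝ} (h1 : |c.p z - x| ≤ c.C)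
    (h2 : |c.q z - a| ≤ c.C) (h3 : a + w ≤ t) (h4 : 2 * w ≤ a) (h5 : |c.p (u - z)| ≤ 9 * c.C)
    (h6 : |c.q (u - z)| ≤ w) : |c.p u - x| ≤ 20 * c.C ∧ 0 ≤ c.q u ∧ c.q u ≤ t + B := by
  obtain ⟨n1, n2, n3, n4, n5, n6, n7, n8, n9, n10⟩ := N
  rw [map_sub] at h5 h6
  have h1' := abs_le.1 h1
  have h2' := abs_le.1 h2
  have h5' := abs_le.1 h5
  have h6' := abs_le.1 h6
  refine ⟨?_, by linarith, by linarith⟩
  rw [abs_le]
  constructor <;> linarith

/-- an end point in a region -/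
private theorem Luck2_v (N : Luck2_N c n l x y t w B) {z v o : V} (h5 : |c.p (v - z) - l| ≤ 9 * c.C)
    (h6 : |c.q (v - z)| ≤ w) (h7 : |c.p o - l| ≤ c.C) (h8 : |c.q o| ≤ c.C) :
    |c.p (v - (z + o))| ≤ 20 * c.C ∧ |c.q (v - (z + o))| ≤ w + B := by
  obtain ⟨n1, n2, n3, n4, n5, n6, n7, n8, n9, n10⟩ := N
  rw [map_sub] at h5 h6
  rw [map_sub, map_sub, map_add, map_add]
  have h5' := abs_le.1 h5
  have h6' := abs_le.1 h6
  have h7' := abs_le.1 h7
  have h8' := abs_le.1 h8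
  constructor
  · rw [abs_le]
    constructor <;> linarith
  · rw [abs_le]
    constructor <;> linarith

/-- the points of the net for the way forward -/
private theorem Luck2_fwd (N : Luck2_N c n l x y t w B) {H : ℝ} (hH : 8 * (c.C * n) ≤ H) {z o r e : V} {a : ℝ}
    (h1 : |c.p z - x| ≤ c.C) (h2 : |c.q z - a| ≤ c.C) (h3 : a + w ≤ t) (h4 : 2 * w ≤ a)
    (h7 : |c.p o - l| ≤ c.C) (h8 : |c.q o| ≤ c.C) (h9 : |c.p (r - (z + o))| ≤ c.C)
    (h10 : |c.q (r - (z + o))| ≤ w + 2 * B) (h11 : c.p e ≤ n) :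
    Db c r (r + e) ⊆ {z | z ∈ Wd c 0 ∧ nm z ≤ H} := by
  obtain ⟨n1, n2, n3, n4, n5, n6, n7, n8, n9, n10⟩ := N
  rw [map_sub, map_add] at h9 h10
  have h1' := abs_le.1 h1
  have h2' := abs_le.1 h2
  have h7' := abs_le.1 h7
  have h8' := abs_le.1 h8
  have g1 := abs_le.1 h9
  have g2 := abs_le.1 h10
  have hrp : 0 ≤ c.p r := by linarith
  have hq1 : c.q r ≤ t + 3 * B := by linarith
  have hq2 : -(t + 3 * B) ≤ c.q r := by linarith
  have hp1 : x - 3 * c.C ≤ c.p r := by linarith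
  have hp2 : c.p r ≤ x + l + 3 * c.C := by linarith
  clear h1' h2' h7' h8' g1 g2 h1 h2 h7 h8 h9 h10
  have hrWd : r ∈ Wd c 0 := by
    change 0 ≤ c.p (r - 0) - c.q (r - 0) ∧ 0 ≤ c.p (r - 0) + 3 * c.q (r - 0)
    rw [sub_zero]
    constructor <;> linarith
  refine Luck2_Db hrWd ?_
  rw [add_sub_cancel_left]
  have g3 : nm r ≤ c.C * (2 * n) := by
    refine Luck2_nm ?_
    have g4 : |c.q r| ≤ t + 3 * B := by
      rw [abs_le]
      exact ⟨hq2, hq1⟩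
    rw [abs_of_nonneg hrp]
    linarith
  have g5 : 2 * c.C * c.p e ≤ 2 * c.C * n := mul_le_mul_of_nonneg_left h11 (by linarith)
  have : 0 ≤ c.C * n := mul_nonneg (by linarith) (by linarith)
  linarith

end geo

/-- The final computation. -/
private theorem Luck2_fin {s B C₂ c0 e₁ e₂ e₃ q : ℝ} (hs : 0 < s) (hB : 0 < B) (hC₂ : 0 < C₂) (hc0 : 0 ≤ c0)
    (h1 : e₁ ≤ s / 20 * B) (h2 : e₂ ≤ s / 20 * B) (h3 : e₃ ≤ C₂ * B ^ 2) (hq1 : q ≤ 1 / 4)
    (hq2 : q ≤ s ^ 2 / (400 * C₂)) (hBs : 2 * (c0 + 1) / s ≤ B)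
    (hE : -1 ≤ e₁ + e₂ + (s * B + B / (2 * (s / (20 * C₂)))) * q + s / (20 * C₂) / (2 * B) * e₃ + (c0 - s * B)) :
    False := by
  have hq1' : s * B * q ≤ s * B * (1 / 4) := mul_le_mul_of_nonneg_left hq1 (by positivity)
  have hq2' : B / (2 * (s / (20 * C₂))) * q ≤ s * B / 40 := by
    have h1 : B / (2 * (s / (20 * C₂))) * q ≤ B / (2 * (s / (20 * C₂))) * (s ^ 2 / (400 * C₂)) :=
      mul_le_mul_of_nonneg_left hq2 (by positivity)
    have h2 : B / (2 * (s / (20 * C₂))) * (s ^ 2 / (400 * C₂)) = s * B / 40 := by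
      field_simp
      ring
    linarith
  have hq3 : s / (20 * C₂) / (2 * B) * e₃ ≤ s * B / 40 := by
    have h1 : s / (20 * C₂) / (2 * B) * e₃ ≤ s / (20 * C₂) / (2 * B) * (C₂ * B ^ 2) :=
      mul_le_mul_of_nonneg_left h3 (by positivity)
    have h2 : s / (20 * C₂) / (2 * B) * (C₂ * B ^ 2) = s * B / 40 := by
      field_simp
      ring
    linarith
  have hBs' : 2 * (c0 + 1) ≤ s * B := by
    rw [div_le_iff₀ hs] at hBs
    linarith
  have hexp : (s * B + B / (2 * (s / (20 * C₂)))) * q = s * B * q + B / (2 * (s / (20 * C₂))) * q := by ring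
  rw [hexp] at hE
  have hsB : 0 < s * B := by positivity
  linarith

open Classical in
/-- The expectation of the upper bound. -/
private theorem Luck2_E {a b : ℝ} (M : Mdl a b) (Φ₁ : Env → ℝ) (Φ₂ : ℕ → Env → ℝ) (K : ℕ) (p : Env → Prop)
    (X : Env → ℝ) (α β γ : ℝ) :
    M.E (fun τ => Φ₁ τ + ∑ j ∈ range K, Φ₂ j τ + α * (if p τ then (1 : ℝ) else 0) + β * X τ ^ 2 + γ) =
      M.E Φ₁ + ∑ j ∈ range K, M.E (Φ₂ j) + α * M.P p + β * M.E (fun τ => X τ ^ 2) + γ := by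
  rw [M.E_add (fun τ => Φ₁ τ + ∑ j ∈ range K, Φ₂ j τ + α * (if p τ then (1 : ℝ) else 0) + β * X τ ^ 2)
      (fun _ => γ),
    M.E_add (fun τ => Φ₁ τ + ∑ j ∈ range K, Φ₂ j τ + α * (if p τ then (1 : ℝ) else 0))
      (fun τ => β * X τ ^ 2),
    M.E_add (fun τ => Φ₁ τ + ∑ j ∈ range K, Φ₂ j τ) (fun τ => α * (if p τ then (1 : ℝ) else 0)),
    M.E_add Φ₁ (fun τ => ∑ j ∈ range K, Φ₂ j τ), M.E_const, M.E_mul_left, M.E_mul_left, M.E_sum, M.P_def]

open Classical in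
/-- The pointwise bound. -/
private theorem Luck2_pt {m : ℕ} {KK : Fin m → Env → Prop} {A : Fin m → Env → ℝ} {τ : Env} {Φ₁ : ℝ} {Φ₂ : ℕ → ℝ}
    {K : ℕ} {k : Fin m → ℕ} (hk : ∀ i, k i < K) {s B C₂ c0 X Ad : ℝ} (hs : 0 < s) (hB : 0 < B) (hC₂ : 0 < C₂)
    (hc0 : 0 ≤ c0) (h₁ : 0 ≤ Φ₁) (h₂ : ∀ j, 0 ≤ Φ₂ j) (hA : ∀ i, KK i τ → A i τ ≤ Φ₁ + Φ₂ (k i) - s * B)
    (hAd : Ad ≤ X + c0) :
    ((∑ i, if Fst KK i τ then A i τ else 0) + if Non KK τ then Ad else 0) ≤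
      Φ₁ + ∑ j ∈ range K, Φ₂ j + (s * B + B / (2 * (s / (20 * C₂)))) * (if Non KK τ then (1 : ℝ) else 0) +
        s / (20 * C₂) / (2 * B) * X ^ 2 + (c0 - s * B) := by
  have hθ0 : 0 < s / (20 * C₂) := by positivity
  generalize s / (20 * C₂) = θ at hθ0 ⊢
  have hsum : ∀ j ∈ range K, 0 ≤ Φ₂ j := fun j _ => h₂ j
  have hq : 0 ≤ θ / (2 * B) * X ^ 2 := by positivity
  rcases Fst_or_Non KK τ with ⟨i, hi⟩ | hN
  · have hnN : ¬ Non KK τ := fun hN => hN i hi.1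
    rw [if_neg hnN, if_neg hnN]
    have h1 : (∑ j, if Fst KK j τ then A j τ else 0) = A i τ := by
      rw [Finset.sum_eq_single i]
      · rw [if_pos hi]
      · intro j _ hj
        rw [if_neg fun h => hj (Fst_unique h hi)]
      · intro h
        exact absurd (mem_univ i) h
    rw [h1]
    have h2 := hA i hi.1
    have h3 := single_le_sum hsum (mem_range.2 (hk i))
    linarith
  · rw [if_pos hN, if_pos hN]
    have h1 : (∑ j, if Fst KK j τ then A j τ else 0) = 0 := by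
      refine Finset.sum_eq_zero fun j _ => ?_
      rw [if_neg fun h => hN j h.1]
    rw [h1]
    have h3 : X ≤ B / (2 * θ) + θ / (2 * B) * X ^ 2 := by
      have h4 : 0 ≤ θ / (2 * B) * (X - B / θ) ^ 2 := by positivity
      have h5 : θ / (2 * B) * (X - B / θ) ^ 2 = θ / (2 * B) * X ^ 2 - X + B / (2 * θ) := by
        field_simp
        ring
      linarith
    have h4 := sum_nonneg hsum
    linarith

/-- Sum of the small means. -/
private theorem Luck2_sum {K : ℕ} {e : ℕ → ℝ} {s B : ℝ} (hs : 0 < s) (hB : 0 < B)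
    (h : ∀ j, e j ≤ s / (20 * (K + 1)) * B) : ∑ j ∈ range K, e j ≤ s / 20 * B := by
  have hK0 : (0 : ℝ) ≤ K := Nat.cast_nonneg K
  refine (sum_le_sum fun j _ => h j).trans ?_
  rw [sum_const, card_range, nsmul_eq_mul]
  have h1 : (K : ℝ) * (s / (20 * (K + 1)) * B) = (K / (K + 1)) * (s / 20 * B) := by
    field_simp
  rw [h1]
  have h2 : (K : ℝ) / (K + 1) ≤ 1 := by
    rw [div_le_one (by linarith)]
    linarith
  have h3 : 0 ≤ s / 20 * B := by positivity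
  have := mul_le_mul_of_nonneg_right h2 h3
  linarith

/-- THE MAIN STEP.  No crossing of a block at the corner is faster than `p + q` by `s B`, except with a small probability.
PROOF. Suppose `P (Lucky) > p₀`.  `K'` with `(1 - p₀)^K'` small (such that `C₂ (1 - p₀)^(K'/2) ≤ s/20`, `C₂` from `second`), the regions
`k < K'` at the base points `bp c L Λ B k`: `L` from `climb_net` for `κ = s / 20`, `Λ' = (3 K' + 3) Λ + 1`, `L' = 10 (3 K' + 3) Λ`; `L₂ = 40 (3 K' + 3) Λ`.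
`flat_sel` for the list of candidates of `exists_cands` (`i ↦ (k i, u i, v i)`), `H = C n`,
`K i τ = (T (res b (edg (Rg (bp k)))) (u i) (v i) ≤ lev (v i - u i) - s B)`, `D i = edg (Rg (bp (k i)))`,
`y i = v i + c.rd (L₂ B) 0`, `yd = c.rd ((L + L₂) B + l) 0`, `A i τ = T (res b (edg (Wd c 0) ∩ {nm e.1 ≤ H}) τ) 0 (y i) - lev (y i)`,
`Ad τ = Ts τ 0 yd - lev yd`; `bp_Wd`, `bp_end`, `bp_end_default`.  On a success at `i`:
`A i ≤ Φ₁ + (- s B) + Φ₂` (`climb_net` for `u i`, `T (wedge) (u i) (v i) ≤ T (region) (u i) (v i)`, `forward_net` with the base points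
`bp c L Λ B k + c.rd l 0`, sum over `k < K'` of the `Φ`, `κ = s / (20 K')`).  `P (Non) ≤ P (no region k < K' is lucky) ≤ (1 - p₀)^K'`
(`Good.none_le`, `P_Lucky`, `Lucky_dep`, `bp_disj`); `E (Ad; Non) ≤ √(E ((Ts - p yd)⁺)²) √(P (Non)) + C` (Cauchy-Schwarz, `second` at the
scale `2 n`).  So `-1 ≤ E ≤ s B / 20 + s B / 20 - s B (1 - (1 - p₀)^K') + s B / 20 + C < -1` for `B` large. -/
theorem no_lucky (Q : Par) (g : V → ℝ) (c : Crd) (hg : IsMean Q g) (h : Cnr g c) (hcb : CornerBound g c) :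
    ∃ C₀ : ℝ, 1 ≤ C₀ ∧ ∀ s Λ p₀ : ℝ, 0 < s → 1 ≤ Λ → 0 < p₀ → ∃ C : ℝ, 1 ≤ C ∧
    ∀ (n B R : ℝ) (M : Mdl Q.a Q.b), 1 ≤ n → C * n ^ 12 ≤ R → Good Q g R M → Ub M c (C₀ * n) B → C ≤ B → C * B ≤ n →
      ∀ l : ℝ, n / 2 ≤ l → l ≤ n → M.P (Lucky Q.b c 0 l (Λ * B) (s * B)) ≤ p₀ := by
  classical
  have hlow := h.low
  have hlow' : ∀ z, c.p z + c.q z ≤ g z := fun z => by linarith [hlow z, le_abs_self (c.q z)]
  obtain ⟨C₂, hC₂, hsec⟩ := second Q g c hg hlow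
  obtain ⟨H₀, hH₀, hsel⟩ := flat_sel Q g c hg hlow'
  refine ⟨2 * C₂, by linarith, ?_⟩
  intro s Λ p₀ hs hΛ hp₀
  by_cases hp1 : 1 ≤ p₀
  · exact ⟨1, le_rfl, fun n B R M _ _ _ _ _ _ l _ _ => (M.P_le_one _).trans hp1⟩
  push Not at hp1
  have hC₂0 : 0 < C₂ := by linarith
  obtain ⟨K, hK⟩ := Luck2_K hp₀ hp1.le (ε := min (1 / 4) (s ^ 2 / (400 * C₂))) (lt_min (by norm_num) (by positivity))
  have hc := c.one_le
  obtain ⟨T₀, hT₀⟩ : ∃ T₀ : ℝ, T₀ = (3 * K + 3) * Λ := ⟨_, rfl⟩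
  have hT₀3 : 3 ≤ T₀ := by
    have hK0 : (0 : ℝ) ≤ K := Nat.cast_nonneg K
    have h1 : (3 * (K : ℝ) + 3) * 1 ≤ (3 * K + 3) * Λ := mul_le_mul_of_nonneg_left hΛ (by linarith)
    linarith
  obtain ⟨L, Ca, hL', hL1, hCa, hclimb⟩ := climb_net Q g c hg h hcb (s / 20) (by positivity) (T₀ + 1)
    (by linarith) (10 * T₀)
  obtain ⟨L₂, hL₂⟩ : ∃ L₂ : ℝ, L₂ = 40 * T₀ := ⟨_, rfl⟩
  obtain ⟨Cb, hCb, hfor⟩ := forward_net Q g c hg hlow hcb (s / (20 * (K + 1))) (by positivity) (Λ + 1)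
    (by linarith) L₂ (by linarith)
  obtain ⟨Ch, hCh⟩ : ∃ Ch : ℝ, Ch = 8 * c.C + H₀ := ⟨_, rfl⟩
  obtain ⟨Tt, hTt⟩ : ∃ Tt : ℝ, Tt = L + L₂ + T₀ + Λ + 10 * c.C + 10 := ⟨_, rfl⟩
  have hx1 : 0 ≤ 2 * (c.C + 1) / s := by positivity
  have hx2 : 0 ≤ 8 * Ch ^ 12 := by positivity
  obtain ⟨C, hC⟩ : ∃ C : ℝ, C = Ca + Cb + 4096 * C₂ + 8 * Ch ^ 12 + Tt + 2 * (c.C + 1) / s := ⟨_, rfl⟩
  have hCa' : Ca ≤ C := by linarith
  have hCb' : Cb ≤ C := by linarith
  have hC₂' : 4096 * C₂ ≤ C := by linarith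
  have hCh' : 8 * Ch ^ 12 ≤ C := by linarith
  have hTt' : Tt ≤ C := by linarith
  have hCs' : 2 * (c.C + 1) / s ≤ C := by linarith
  have hC1 : 1 ≤ C := by linarith
  refine ⟨C, hC1, ?_⟩
  intro n B R M hn hR hgood hUb hCB hCBn l hl1 hl2
  have hn0 : 0 < n := by linarith only [hn]
  have hn12 : 0 ≤ n ^ 12 := by positivity
  have hnn : n ≤ n ^ 12 := by
    calc n = n ^ 1 := (pow_one n).symm
      _ ≤ n ^ 12 := pow_le_pow_right₀ hn (by norm_num)
  have hB1 : 1 ≤ B := hC1.trans hCB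
  have hB0 : 0 < B := by linarith only [hB1]
  have hN : Luck2_N c n l (L * B) (L₂ * B) (T₀ * B) (Λ * B) B := by
    have hTB : Tt * B ≤ n := (mul_le_mul_of_nonneg_right hTt' hB0.le).trans hCBn
    have hTB' : Tt * B = L * B + L₂ * B + T₀ * B + Λ * B + 10 * (c.C * B) + 10 * B := by rw [hTt]; ring
    have hcB : c.C * 1 ≤ c.C * B := mul_le_mul_of_nonneg_left hB1 (by linarith only [hc])
    refine ⟨hc, hn, by linarith only [hl1, hn], hl2, by linarith only [hTt', hCB, hTt, hL1, hL₂, hT₀3, hΛ], ?_, ?_, ?_, ?_, ?_⟩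
    · have := mul_le_mul_of_nonneg_right hΛ hB0.le
      linarith only [this]
    · have := mul_le_mul_of_nonneg_right hL' hB0.le
      linarith only [this]
    · exact mul_le_mul_of_nonneg_right hT₀3 hB0.le
    · rw [hL₂]
      ring
    · linarith only [hTB, hTB', hcB]
  have hBc' : 3 * c.C ≤ B := by linarith only [hN.cB, hc]
  have hl0 : 0 ≤ l := hN.l0
  have hΛB : 0 ≤ Λ * B := by linarith only [hN.Bw, hB0]
  by_contra hcon
  push Not at hcon
  -- the height `H`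
  obtain ⟨H, hH⟩ : ∃ H : ℝ, H = Ch * n := ⟨_, rfl⟩
  have hHH₀ : H₀ ≤ H := by
    have h1 : H₀ * 1 ≤ Ch * n := mul_le_mul (by linarith only [hCh, hc]) hn (by norm_num) (by linarith only [hCh, hc, hH₀])
    linarith only [h1, hH]
  have hH1 : 1 ≤ H := hH₀.trans hHH₀
  have h8 : 8 * (c.C * n) ≤ H := by
    have h1 : 8 * c.C * n ≤ Ch * n := mul_le_mul_of_nonneg_right (by linarith only [hCh, hH₀]) hn0.le
    linarith only [h1, hH]
  have hHR : 8 * H ^ 12 ≤ R := by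
    refine le_trans ?_ hR
    have h1 : 8 * H ^ 12 = 8 * Ch ^ 12 * n ^ 12 := by rw [hH]; ring
    rw [h1]
    exact mul_le_mul_of_nonneg_right hCh' hn12
  have hHR' : H ≤ R := by
    have h1 : H ≤ H ^ 12 := by
      calc H = H ^ 1 := (pow_one H).symm
        _ ≤ H ^ 12 := pow_le_pow_right₀ hH1 (by norm_num)
    linarith only [h1, hHR, hH1]
  have hCR : C * B ≤ R := by
    have h2 : 1 * n ^ 12 ≤ C * n ^ 12 := mul_le_mul_of_nonneg_right hC1 hn12
    linarith only [h2, hCBn, hnn, hR]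
  have hCaB : Ca * B ≤ R := (mul_le_mul_of_nonneg_right hCa' hB0.le).trans hCR
  have hCbB : Cb * B ≤ R := (mul_le_mul_of_nonneg_right hCb' hB0.le).trans hCR
  obtain ⟨Φ₁, hΦ₁, hEΦ₁, hcl⟩ := hclimb B R M (hCa'.trans hCB) hCaB hgood
  have hfor' := fun k : ℕ => hfor B R M (hCb'.trans hCB) hCbB hgood (bp c L Λ B k + c.rd l 0)
  choose Φ₂ hΦ₂ hEΦ₂ hfw using hfor'
  -- the candidates
  obtain ⟨m, k, u, v, hcand, hall⟩ := exists_cands c L Λ B l K hl0 hΛB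
  -- geometry
  have hbpp : ∀ j, |c.p (bp c L Λ B j) - L * B| ≤ c.C := fun j => c.rd_p _ _
  have hbpq : ∀ j, |c.q (bp c L Λ B j) - (3 * j + 2) * (Λ * B)| ≤ c.C := fun j => c.rd_q _ _
  have hjK : ∀ j < K, (3 * (j : ℝ) + 2) * (Λ * B) + Λ * B ≤ T₀ * B := by
    intro j hj
    have h1 : (j : ℝ) ≤ K := by exact_mod_cast hj.le
    have h2 : (3 * (j : ℝ) + 3) * (Λ * B) ≤ (3 * K + 3) * (Λ * B) :=
      mul_le_mul_of_nonneg_right (by linarith only [h1]) hΛB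
    have h3 : T₀ * B = (3 * K + 3) * (Λ * B) := by rw [hT₀]; ring
    linarith only [h2, h3]
  have hj0 : ∀ j : ℕ, 2 * (Λ * B) ≤ (3 * (j : ℝ) + 2) * (Λ * B) := by
    intro j
    have h1 : (0 : ℝ) ≤ j := Nat.cast_nonneg j
    exact mul_le_mul_of_nonneg_right (by linarith only [h1]) hΛB
  have hcn0 : 0 ≤ c.C * n := mul_nonneg (by linarith only [hc]) hn0.le
  have hRgnm : ∀ j < K, ∀ z ∈ Rg c (bp c L Λ B j) l (Λ * B), nm z ≤ 5 * (c.C * n) := by
    intro j hj z hz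
    have h1 := Rg_nm hl0 hΛB hz
    have h2 := nm_add_le (z - bp c L Λ B j) (bp c L Λ B j)
    rw [sub_add_cancel] at h2
    have h3 := Luck2_bp hN (hbpp j) (hbpq j) (hjK j hj) (hj0 j)
    have h4 : 2 * c.C * (l + Λ * B) ≤ 2 * c.C * (n + n) := by
      refine mul_le_mul_of_nonneg_left ?_ (by linarith only [hc])
      linarith only [hN.tot, hN.ln, hN.x0, hN.ty, hN.t3, hB0, hc]
    linarith only [h1, h2, h3, h4]
  have hLK : 10 * (3 * (K : ℝ) + 3) * Λ ≤ L := by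
    have h1 : 10 * (3 * (K : ℝ) + 3) * Λ = 10 * T₀ := by rw [hT₀]; ring
    linarith only [h1, hL']
  have hL₂K : 40 * (3 * (K : ℝ) + 3) * Λ ≤ L₂ := by
    have h1 : 40 * (3 * (K : ℝ) + 3) * Λ = 40 * T₀ := by rw [hT₀]; ring
    linarith only [h1, hL₂]
  have hRgWd : ∀ j < K, ∀ z ∈ Rg c (bp c L Λ B j) l (Λ * B), z ∈ Wd c 0 := fun j hj z hz =>
    bp_Wd c hΛ hBc' hl0 hj hLK hz
  have hRgS : ∀ j < K, edg (Rg c (bp c L Λ B j) l (Λ * B)) ⊆ Luck2_S c H := fun j hj =>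
    Luck2_sub fun z hz => ⟨hRgWd j hj z hz, (hRgnm j hj z hz).trans (by linarith only [h8, hcn0])⟩
  -- the vector along the axis
  obtain ⟨ax, hax⟩ : ∃ ax : V, ax = c.rd (L₂ * B) 0 := ⟨_, rfl⟩
  obtain ⟨haxK, haxnm, haxn⟩ : ax ∈ Kn c ∧ nm ax ≤ c.C * n ∧ c.p ax ≤ n := by
    have h2 := c.rd_q (L₂ * B) 0
    rw [sub_zero] at h2
    rw [hax]
    exact Luck2_ax hN (c.rd_p _ _) h2
  have hyWd : ∀ i, v i + ax ∈ Wd c 0 := by
    intro i
    obtain ⟨h1, -, h3, -, -⟩ := hcand i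
    refine Kn_add_Wd (hRgWd _ h1 _ h3) ?_
    rw [add_sub_cancel_left]
    exact haxK
  have hynm : ∀ i, nm (v i + ax) ≤ H := by
    intro i
    obtain ⟨h1, -, h3, -, -⟩ := hcand i
    have h4 := nm_add_le (v i) ax
    have h5 := hRgnm _ h1 _ h3
    linarith only [h4, h5, haxnm, hcn0, h8]
  -- the default point
  obtain ⟨yd, hyd⟩ : ∃ yd : V, yd = c.rd ((L + L₂) * B + l) 0 := ⟨_, rfl⟩
  have hydq : |c.q yd| ≤ c.C := by
    have := c.rd_q ((L + L₂) * B + l) 0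
    rw [sub_zero] at this
    rw [hyd]
    exact this
  obtain ⟨hydK, hydnm', hydp0, hydpn⟩ := Luck2_yd (z := yd) hN (by
    have h1 := c.rd_p ((L + L₂) * B + l) 0
    have h2 : (L + L₂) * B + l = L * B + L₂ * B + l := by ring
    rw [hyd]
    rw [h2] at h1 ⊢
    exact h1) hydq
  have hydnm : nm yd ≤ H := by linarith only [hydnm', hcn0, h8]
  have hydS : edg (Db c 0 yd) ⊆ Luck2_S c H := by
    refine Luck2_sub (Luck2_Db (Luck2_zero c) ?_)
    rw [nm_zero, sub_zero]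
    have h1 : 2 * c.C * c.p yd ≤ 2 * c.C * (2 * n) := mul_le_mul_of_nonneg_left hydpn (by linarith only [hc])
    linarith only [h1, hcn0, h8]
  have ha := Q.ha
  have hab := Q.hab
  -- the restricted passage times are smaller
  have hanti : ∀ τ, Bd Q.a Q.b τ → ∀ A' : Set Edge, A' ⊆ Luck2_S c H → ∀ x y,
      T (res Q.b (Luck2_S c H) τ) x y ≤ T (res Q.b A' τ) x y := fun τ hτ A' hA' x y =>
    T_res_anti ha.le hab.le hτ hA' x y
  have hrl : |c.p (c.rd l 0) - l| ≤ c.C := c.rd_p l 0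
  have hrl' : |c.q (c.rd l 0)| ≤ c.C := by
    have := c.rd_q l 0
    rwa [sub_zero] at this
  -- success
  have hsucc : ∀ i τ, Bd Q.a Q.b τ →
      T (res Q.b (edg (Rg c (bp c L Λ B (k i)) l (Λ * B))) τ) (u i) (v i) ≤ lev c (v i - u i) - s * B →
      T (res Q.b (Luck2_S c H) τ) 0 (v i + ax) - lev c (v i + ax) ≤ Φ₁ τ + Φ₂ (k i) τ - s * B := by
    intro i τ hτ hKi
    obtain ⟨hki, hu, hv, hup, hvp⟩ := hcand i
    have hbdS : Bd Q.a Q.b (res Q.b (Luck2_S c H) τ) := Bd_res hab.le hτ _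
    have t1 := T_triangle hbdS ha.le 0 (u i) (v i + ax)
    have t2 := T_triangle hbdS ha.le (u i) (v i) (v i + ax)
    have e2 := (hanti τ hτ _ (hRgS _ hki) (u i) (v i)).trans hKi
    -- the first part
    have e1 : T (res Q.b (Luck2_S c H) τ) 0 (u i) ≤ lev c (u i) + Φ₁ τ := by
      refine (hanti τ hτ (edg {z | z ∈ Wd c 0 ∧ nm z ≤ H}) (Luck2_sub fun z hz => hz) 0 (u i)).trans ?_
      obtain ⟨u1, u2, u3⟩ := Luck2_u hN (hbpp (k i)) (hbpq (k i)) (hjK (k i) hki) (hj0 (k i)) hup hu.1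
      refine hcl τ hτ (u i) u1 u2 (by rw [add_mul, one_mul]; exact u3) _ ?_
      exact fun r hr1 _ _ => Luck2_climb hN h8 hr1
    -- the last part
    have e3 : T (res Q.b (Luck2_S c H) τ) (v i) (v i + ax) ≤ lev c ax + Φ₂ (k i) τ := by
      refine (hanti τ hτ (edg {z | z ∈ Wd c 0 ∧ nm z ≤ H}) (Luck2_sub fun z hz => hz) (v i) (v i + ax)).trans ?_
      obtain ⟨v1, v2⟩ := Luck2_v hN hvp hv.1 hrl hrl'
      rw [hax]
      refine hfw (k i) τ hτ (v i) v1 (by rw [add_mul, one_mul]; exact v2) _ ?_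
      intro r hr1 hr2
      rw [← hax]
      refine Luck2_fwd hN h8 (hbpp (k i)) (hbpq (k i)) (hjK (k i) hki) (hj0 (k i)) hrl hrl' hr1 ?_ haxn
      refine hr2.trans (le_of_eq ?_)
      ring
    have e4 : lev c (v i + ax) = lev c (u i) + lev c (v i - u i) + lev c ax := by
      rw [← lev_add, ← lev_add]
      congr 1
      abel
    linarith only [t1, t2, e1, e2, e3, e4]
  -- the flat principle
  have hflat := hsel H hHH₀ R M hHR hgood m
    (fun i τ => T (res Q.b (edg (Rg c (bp c L Λ B (k i)) l (Λ * B))) τ) (u i) (v i) ≤ lev c (v i - u i) - s * B)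
    (fun i => edg (Rg c (bp c L Λ B (k i)) l (Λ * B))) (fun i => v i + ax) yd
    (fun i τ => T (res Q.b (Luck2_S c H) τ) 0 (v i + ax) - lev c (v i + ax))
    (fun τ => Ts Q.b c τ 0 yd - lev c yd)
    (fun i => ⟨hynm i, hyWd i⟩) hydnm (Kn_subset_Wd c hydK)
    (fun i τ τ' hττ => by
      have h1 := dependsOn_T_res Q.b (edg (Rg c (bp c L Λ B (k i)) l (Λ * B))) (u i) (v i) hττ
      simp only at h1
      simp only [h1])
    (fun i e he => hRgS _ (hcand i).1 he)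
    (fun i j _ e he he' => by
      obtain ⟨h1, -, h3, -, h5⟩ := hcand i
      have h6 := bp_end (L₂ := L₂) c hΛ hBc' hl0 (hcand j).1 h1 hL₂K h3 h5
      rw [← hax] at h6
      exact Set.disjoint_left.1 h6 he.1 he'.1)
    (fun j e he he' => by
      have h6 := bp_end_default (L₂ := L₂) c (L := L) hΛ hBc' hl0 (hcand j).1 hL₂K
      rw [← hyd] at h6
      exact Set.disjoint_left.1 h6 he.1 he'.1)
    (fun i τ τ' hττ => by
      have h1 := dependsOn_T_res Q.b (Luck2_S c H) 0 (v i + ax) hττ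
      simp only at h1
      simp only [h1])
    (fun τ τ' hττ => by
      have h1 := Luck2_mono (Ts_dep Q.b c 0 yd) hydS hττ
      simp only at h1
      simp only [h1])
    (fun i τ hτ _ => sub_le_sub_right (T_le_res ha.le hτ (Luck2_S c H) 0 (v i + ax)) _)
    (fun τ hτ => sub_le_sub_right (T_le_Ts (b := Q.b) ha.le hτ c 0 yd) _)
  obtain ⟨KK, hKK⟩ : ∃ KK : Fin m → Env → Prop, KK = fun i τ =>
    T (res Q.b (edg (Rg c (bp c L Λ B (k i)) l (Λ * B))) τ) (u i) (v i) ≤ lev c (v i - u i) - s * B := ⟨_, rfl⟩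
  rw [← hKK] at hflat
  have hKK' : ∀ i τ, KK i τ → T (res Q.b (edg (Rg c (bp c L Λ B (k i)) l (Λ * B))) τ) (u i) (v i) ≤
      lev c (v i - u i) - s * B := by
    intro i τ hi
    rw [hKK] at hi
    exact hi
  have hlyd : lev c yd = c.p yd + c.q yd := rfl
  -- pointwise bound
  have hpt := fun τ (hτ : Bd Q.a Q.b τ) => Luck2_pt (KK := KK)
    (A := fun i τ => T (res Q.b (Luck2_S c H) τ) 0 (v i + ax) - lev c (v i + ax)) (τ := τ) (Φ₁ := Φ₁ τ)
    (Φ₂ := fun j => Φ₂ j τ) (K := K) (fun i => (hcand i).1) (s := s) (B := B) (C₂ := C₂) (c0 := c.C)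
    (X := max (Ts Q.b c τ 0 yd - c.p yd) 0) (Ad := Ts Q.b c τ 0 yd - lev c yd) hs hB0 hC₂0
    (by linarith only [hc]) (hΦ₁ τ) (fun j => hΦ₂ j τ) (fun i hi => hsucc i τ hτ (hKK' i τ hi)) (by
      have h4 : Ts Q.b c τ 0 yd - c.p yd ≤ max (Ts Q.b c τ 0 yd - c.p yd) 0 := le_max_left _ _
      linarith only [h4, hlyd, (abs_le.1 hydq).1])
  -- the probability of no success
  have hNon : M.P (Non KK) ≤ (1 - p₀) ^ K := by
    have h1 : M.P (Non KK) ≤ M.P (fun τ => ∀ j < K, ¬ Lucky Q.b c (bp c L Λ B j) l (Λ * B) (s * B) τ) := by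
      refine M.P_mono fun τ hτ hN j hj hL => ?_
      obtain ⟨u', hu', v', hv', h2, h3, h4⟩ := hL
      obtain ⟨i, hi1, hi2, hi3⟩ := hall j hj u' hu' v' hv' h2 h3
      refine hN i ?_
      rw [hKK]
      show T (res Q.b (edg (Rg c (bp c L Λ B (k i)) l (Λ * B))) τ) (u i) (v i) ≤ lev c (v i - u i) - s * B
      rw [hi1, hi2, hi3]
      exact h4
    refine h1.trans ?_
    refine hgood.none_le K (fun j => edg (Rg c (bp c L Λ B j) l (Λ * B))) ?_ ?_
      (fun j => Lucky Q.b c (bp c L Λ B j) l (Λ * B) (s * B)) ?_ ?_ hp1.le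
    · intro i j hij _
      rw [Set.disjoint_left]
      intro e he he'
      exact Set.disjoint_left.1 (bp_disj c hΛ hBc' hij.ne) he.1 he'.1
    · intro i hi e he
      exact ((hRgS i hi) he).2.trans hHR'
    · intro i _
      exact Lucky_dep _ _ _ _ _ _
    · intro i _
      rw [P_Lucky hgood]
      exact hcon.le
  -- second moment
  have hX2 : M.E (fun τ => max (Ts Q.b c τ 0 yd - c.p yd) 0 ^ 2) ≤ C₂ * B ^ 2 := by
    refine hsec (2 * n) R M (by linarith only [hn]) ?_ hgood B hB1 ?_ yd hydp0 hydpn (by linarith only [hydq, hc])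
    · refine le_trans ?_ hR
      have h1 : C₂ * (2 * n) ^ 12 = 4096 * C₂ * n ^ 12 := by ring
      rw [h1]
      exact mul_le_mul_of_nonneg_right hC₂' hn12
    · intro y h1 h2 h3
      exact hUb y h1 (by linarith only [h2]) h3
  -- expectation
  have hE := hflat.trans (M.E_mono hpt)
  rw [Luck2_E M Φ₁ Φ₂ K (Non KK) (fun τ => max (Ts Q.b c τ 0 yd - c.p yd) 0)] at hE
  exact Luck2_fin hs hB0 hC₂0 (by linarith only [hc]) hEΦ₁ (Luck2_sum hs hB0 hEΦ₂) hX2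
    (hNon.trans (hK.trans (min_le_left _ _))) (hNon.trans (hK.trans (min_le_right _ _))) (hCs'.trans hCB) hE

end Pool.Agent.W_1b8d5d_c1
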