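import Pool.Agent.W_1b8d5d_c1.Fin1
import Pool.Agent.W_1b8d5d_c1.Fin2
import Pool.Agent.W_1b8d5d_c1.FinR
import Pool.Agent.W_1b8d5d_c1.FinG
import Pool.Agent.W_1b8d5d_c1.FinS
import Pool.Agent.W_1b8d5d_c1.Luck2
import Pool.Agent.W_1b8d5d_c1.Corner

/-!
MP_1b8d5d_pr (N2): the limit shape has no corner: the final contradiction.
-/

set_option autoImplicit false

namespace Pool.Agent.W_1b8d5d_c1

open Finset Pool.Agent.W_1b8d5d_h85

theorem Rg_mir (c : Crd) (x : V) (l W : ℝ) : Rg (mir c) x l W = Rg c x l W := by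
  ext z
  show (|(-c.q) (z - x)| ≤ W ∧ _ ∧ _) ↔ _
  rw [AddMonoidHom.neg_apply, abs_neg]
  rfl

/-- No lucky crossing: lower bound for the passage times of a region. -/
theorem not_lucky {b : ℝ} {c : Crd} {x : V} {l W s : ℝ} {τ : Env} (h1 : ¬ Lucky b c x l W s τ)
    (h2 : ¬ Lucky b (mir c) x l W s τ) {u v : V} (hu : u ∈ Rg c x l W) (hv : v ∈ Rg c x l W)
    (hu' : |c.p (u - x)| ≤ 9 * c.C) (hv' : |c.p (v - x) - l| ≤ 9 * c.C) :
    c.p (v - u) + |c.q (v - u)| - s ≤ T (res b (edg (Rg c x l W)) τ) u v := by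
  rcases le_total 0 (c.q (v - u)) with h | h
  · rw [abs_of_nonneg h]
    by_contra hcon
    push Not at hcon
    exact h1 ⟨u, hu, v, hv, hu', hv', hcon.le⟩
  · rw [abs_of_nonpos h]
    by_contra hcon
    push Not at hcon
    refine h2 ⟨u, ?_, v, ?_, hu', hv', ?_⟩
    · rwa [Rg_mir]
    · rwa [Rg_mir]
    · rw [Rg_mir]
      exact hcon.le

/-- The block vector. -/
theorem bv_bounds {c : Crd} {y₀ : V} (hq : |c.q y₀| ≤ 9 * c.C) (D : ℝ) :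
    |c.q (bv c y₀ D)| ≤ 12 * c.C ∧ c.p (bv c y₀ D) ≤ c.p y₀ - 2 * D - 7 * c.C ∧
      c.p y₀ - 2 * D - 13 * c.C ≤ c.p (bv c y₀ D) := by
  have a1 := abs_le.1 (c.rd_p (10 * c.C) 0)
  have a2 := abs_le.1 (c.rd_q (10 * c.C) 0)
  have a3 := abs_le.1 (c.rd_p D 0)
  have a4 := abs_le.1 (c.rd_q D 0)
  have a5 := abs_le.1 hq
  unfold bv
  rw [map_sub, map_sub, map_sub, map_sub, map_sub, map_sub, abs_le]
  refine ⟨⟨?_, ?_⟩, ?_, ?_⟩ <;> linarith [a1.1, a1.2, a2.1, a2.2, a3.1, a3.2, a4.1, a4.2, a5.1, a5.2]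

theorem xb_bounds (c : Crd) (l : ℝ) (i : ℕ) : |c.p (xb c l i) - i * l| ≤ c.C ∧ |c.q (xb c l i)| ≤ c.C := by
  refine ⟨c.rd_p _ _, ?_⟩
  have := c.rd_q (i * l) 0
  rwa [sub_zero] at this

open Classical in
/-- The contradiction in a good environment. -/
theorem env_false {a b : ℝ} (ha : 0 < a) (hab : a ≤ b) {τ : Env} (hτ : Bd a b τ) {c : Crd} {y Y : V} {m N : ℕ}
    {B σ η W W₀ θ NF X c₁ : ℝ} (hB : 0 < B) (hη : 0 < η) (hσ : 0 ≤ σ) (hly : 0 < c.p y) (hyq : |c.q y| ≤ 12 * c.C)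
    (hY : ((2 * m : ℕ) : ℝ) * c.p y ≤ c.p Y) (hY' : c.p Y ≤ ((2 * m : ℕ) : ℝ) * c.p y + 2 * c.C)
    (hF : Fw b c NF θ τ) (hBw : Bw b c NF θ Y τ) (hNF : b / a * nm Y ≤ NF)
    (hX : Ts b c τ 0 Y - c.p Y ≤ X) (hW₀ : X + 2 * θ ≤ W₀) (hW : W₀ + 3 * c.C ≤ W)
    (hl1 : ∀ i < 2 * m, ¬ Lucky b c (xb c (c.p y) i) (c.p y) W (σ * B) τ)
    (hl2 : ∀ i < 2 * m, ¬ Lucky b (mir c) (xb c (c.p y) i) (c.p y) W (σ * B) τ)
    (hfew : ¬ ∃ ζ ∈ bseq (2 * m) N, (((range m).filter fun j => c.p y + B / 8 ≤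
      Tblk b c y W (η * B) τ (2 * j) (row ζ (2 * j))).card : ℝ) ≤ c₁ * m / 4)
    (hm : 1 ≤ m) (hc₁ : 0 < c₁)
    (n1 : B / 16 ≤ B / 8 - b * c.C * (2 * (η * B) + 18 * c.C))
    (n2 : 3 * (X + 2 * c.C + ((2 * m : ℕ) : ℝ) * (σ * B)) ≤ η * B * N)
    (n3 : (N : ℝ) ≤ c₁ * m / 8)
    (n4 : X + 2 * c.C + 2 * m * (c.C + σ * B) < c₁ * m * B / 128) : False := by
  have hC := c.one_le
  have hh : 0 < η * B := mul_pos hη hB
  obtain ⟨z, D, hz0, hz, hsum, hT⟩ := path_blocks ha hab hτ hF hBw hNF (l := c.p y) (W := W₀) (K := 2 * m) hly hY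
    ((add_le_add_left hX _).trans hW₀)
  have hT' : ∀ i < 2 * m, T (res b (edg (Rg c (xb c (c.p y) i) (c.p y) W)) τ) (z i) (z (i + 1)) ≤ D i :=
    fun i hi => hT i hi _ (xb_bounds c _ i).1 (xb_bounds c _ i).2 W hW
  have hW0 : 0 ≤ W₀ := (abs_nonneg _).trans (hz 0 (by omega)).2.2
  have hlow : ∀ i < 2 * m, c.p (z (i + 1) - z i) + |c.q (z (i + 1) - z i)| - σ * B ≤ D i := by
    intro i hi
    have b1 := abs_le.1 (xb_bounds c (c.p y) i).1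
    have b2 := abs_le.1 (xb_bounds c (c.p y) i).2
    have z1 := hz i (by omega)
    have z2 := hz (i + 1) (by omega)
    have z1q := abs_le.1 z1.2.2
    have z2q := abs_le.1 z2.2.2
    have z2p := z2.1
    have z2p' := z2.2.1
    push_cast at z2p z2p'
    refine (not_lucky (hl1 i hi) (hl2 i hi) ?_ ?_ ?_ ?_).trans (hT' i hi)
    · refine ⟨?_, ?_, ?_⟩
      · rw [map_sub, abs_le]
        constructor <;> linarith [b2.1, b2.2, z1q.1, z1q.2]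
      · rw [map_sub]
        linarith [b1.1, b1.2, z1.1, z1.2.1]
      · rw [map_sub]
        linarith [b1.1, b1.2, z1.1, z1.2.1]
    · refine ⟨?_, ?_, ?_⟩
      · rw [map_sub, abs_le]
        constructor <;> linarith [b2.1, b2.2, z2q.1, z2q.2]
      · rw [map_sub]
        linarith [b1.1, b1.2]
      · rw [map_sub]
        linarith [b1.1, b1.2]
    · rw [map_sub, abs_le]
      constructor <;> linarith [b1.1, b1.2, z1.1, z1.2.1]
    · rw [map_sub, abs_le]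
      constructor <;> linarith [b1.1, b1.2]
  have hsum' : ∑ i ∈ range (2 * m), D i ≤ ((2 * m : ℕ) : ℝ) * c.p y + (X + 2 * c.C) := by linarith
  have hz' : ∀ i ≤ 2 * m, i * c.p y ≤ c.p (z i) ∧ c.p (z i) ≤ i * c.p y + c.C := fun i hi =>
    ⟨(hz i hi).1, (hz i hi).2.1⟩
  set k := rows (fun i => c.q (z i)) (η * B) with hk
  have htot := rows_total hh hz0 (hz' (2 * m) le_rfl).1 hsum' hlow
  rw [← hk] at htot
  have hN : ∑ i ∈ range (2 * m), |((k (i + 1) - k i : ℤ) : ℝ)| ≤ N := by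
    have h1 := htot.trans n2
    exact le_of_mul_le_mul_left h1 hh
  -- the sequence of differences
  have hk0 : k 0 = 0 := rows_zero _ (by simp [hz0])
  have hζ : (fun j : Fin (2 * m) => k (j + 1) - k j) ∈ bseq (2 * m) N := by
    refine mem_bseq ?_
    have h1 : ((∑ j : Fin (2 * m), |k ((j : ℕ) + 1) - k (j : ℕ)| : ℤ) : ℝ) ≤ ((N : ℤ) : ℝ) := by
      push_cast
      have h2 := Fin.sum_univ_eq_sum_range (fun i => |((k (i + 1) : ℝ) - (k i : ℝ))|) (2 * m)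
      rw [h2]
      have h3 := hN
      push_cast at h3
      exact h3
    exact_mod_cast h1
  have hcnt : c₁ * m / 4 < (((range m).filter fun j => c.p y + B / 8 ≤
      Tblk b c y W (η * B) τ (2 * j) (k (2 * j))).card : ℝ) := by
    by_contra hcon
    push Not at hcon
    refine hfew ⟨_, hζ, ?_⟩
    have h1 : ((range m).filter fun j => c.p y + B / 8 ≤ Tblk b c y W (η * B) τ (2 * j)
        (row (fun j : Fin (2 * m) => k (j + 1) - k j) (2 * j)))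
        = (range m).filter fun j => c.p y + B / 8 ≤ Tblk b c y W (η * B) τ (2 * j) (k (2 * j)) := by
      refine filter_congr fun j hj => ?_
      rw [row_diff k hk0 (by have := mem_range.1 hj; omega)]
    rw [h1]
    exact hcon
  have hs : 0 ≤ σ * B := mul_nonneg hσ hB.le
  have hcard := slow_card ha.le hab hτ hh hyq hz' hsum' hlow hT' hN (by linarith : 0 ≤ B / 8 - b * c.C * (2 * (η * B) + 18 * c.C)) hs
  rw [← hk] at hcard
  set β' := B / 8 - b * c.C * (2 * (η * B) + 18 * c.C) with hβ'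
  have hβpos : 0 < β' := by linarith
  have h1 := mul_lt_mul_of_pos_right hcnt hβpos
  have h2 := mul_le_mul_of_nonneg_right n3 hβpos.le
  have hmpos : (0 : ℝ) < m := by exact_mod_cast hm
  have h3 : c₁ * m / 8 * (B / 16) ≤ c₁ * m / 8 * β' := mul_le_mul_of_nonneg_left n1 (by positivity)
  nlinarith

/-- A good environment. -/
theorem exists_env {a b : ℝ} (M : Mdl a b) {p1 p2 p3 p4 p5 p6 : Env → Prop} (h1 : M.P p1 ≤ 1 / 8) (h2 : M.P p2 ≤ 1 / 8)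
    (h3 : M.P p3 ≤ 1 / 4) (h4 : M.P p4 ≤ 1 / 16) (h5 : M.P p5 ≤ 1 / 16) (h6 : M.P p6 ≤ 1 / 8) :
    ∃ τ, Bd a b τ ∧ ¬ p1 τ ∧ ¬ p2 τ ∧ ¬ p3 τ ∧ ¬ p4 τ ∧ ¬ p5 τ ∧ ¬ p6 τ := by
  by_contra hcon
  push Not at hcon
  have e1 := M.P_or p1 p2
  have e2 := M.P_or (fun τ => p1 τ ∨ p2 τ) p3
  have e3 := M.P_or (fun τ => (p1 τ ∨ p2 τ) ∨ p3 τ) p4
  have e4 := M.P_or (fun τ => ((p1 τ ∨ p2 τ) ∨ p3 τ) ∨ p4 τ) p5
  have e5 := M.P_or (fun τ => (((p1 τ ∨ p2 τ) ∨ p3 τ) ∨ p4 τ) ∨ p5 τ) p6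
  have h7 : (1 : ℝ) ≤ M.P (fun τ => ((((p1 τ ∨ p2 τ) ∨ p3 τ) ∨ p4 τ) ∨ p5 τ) ∨ p6 τ) := by
    have h8 : M.P (fun _ => True) = 1 := by
      rw [M.P_def]
      simp [M.E_const]
    rw [← h8]
    refine M.P_mono fun τ hτ _ => ?_
    by_contra h9
    rw [not_or, not_or, not_or, not_or, not_or] at h9
    exact h9.2 (hcon τ hτ h9.1.1.1.1.1 h9.1.1.1.1.2 h9.1.1.1.2 h9.1.1.2 h9.1.2)
  linarith

theorem P_excess {a b : ℝ} (M : Mdl a b) (c : Crd) {Y : V} {X : ℝ} (hX : 0 < X) (h : Sx M c Y ≤ X) :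
    M.P (fun τ => 4 * X ≤ Ts b c τ 0 Y - c.p Y) ≤ 1 / 4 := by
  have h1 := M.markov (F := fun τ => max (Ts b c τ 0 Y - c.p Y) 0) (fun τ _ => le_max_right _ _)
    (by positivity : 0 < 4 * X)
  refine (M.P_mono fun τ _ hτ => hτ.trans (le_max_left _ _)).trans (h1.trans ?_)
  rw [div_le_iff₀ (by positivity)]
  have h2 : M.E (fun τ => max (Ts b c τ 0 Y - c.p Y) 0) = Sx M c Y := rfl
  rw [h2]
  linarith

theorem P_sum {a b : ℝ} (M : Mdl a b) {m : ℕ} (hm : 1 ≤ m) {p : ℕ → Env → Prop}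
    (h : ∀ i < 2 * m, M.P (p i) ≤ 1 / (32 * m)) : M.P (fun τ => ∃ i ∈ range (2 * m), p i τ) ≤ 1 / 16 := by
  have hmr : (0 : ℝ) < m := by exact_mod_cast hm
  refine (M.P_exists_le (range (2 * m)) p).trans ?_
  refine (sum_le_sum fun i hi => h i (mem_range.1 hi)).trans (le_of_eq ?_)
  rw [sum_const, card_range, nsmul_eq_mul]
  push_cast
  field_simp
  norm_num

open Classical in
/-- The contradiction from the probabilities. -/
theorem prob_false {Q : Par} {g : V → ℝ} {R : ℝ} {M : Mdl Q.a Q.b} (hM : Good Q g R M) {c : Crd} {y : V} {m N : ℕ}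
    {B σ η W θ NF X c₁ n : ℝ} (hB : 0 < B) (hη : 0 < η) (hσ : 0 ≤ σ) (hly : 0 < c.p y) (hyq : |c.q y| ≤ 12 * c.C)
    (hyn : c.p y ≤ n - 7 * c.C) (hm : 1 ≤ m) (hc₁ : 0 < c₁) (hX : 0 < X)
    (hUb : Ub M c (((2 * m : ℕ) : ℝ) * n) X)
    (hPF : M.P (fun τ => ¬ Fw Q.b c NF θ τ) ≤ 1 / 8)
    (hNF : Q.b / Q.a * (2 * c.C * (((2 * m : ℕ) : ℝ) * n)) ≤ NF)
    (hW : 4 * X + 2 * θ + 3 * c.C ≤ W)
    (hL1 : ∀ i < 2 * m, M.P (Lucky Q.b c (xb c (c.p y) i) (c.p y) W (σ * B)) ≤ 1 / (32 * m))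
    (hL2 : ∀ i < 2 * m, M.P (Lucky Q.b (mir c) (xb c (c.p y) i) (c.p y) W (σ * B)) ≤ 1 / (32 * m))
    (hfew : M.P (fun τ => ∃ ζ ∈ bseq (2 * m) N, (((range m).filter fun j => c.p y + B / 8 ≤
      Tblk Q.b c y W (η * B) τ (2 * j) (row ζ (2 * j))).card : ℝ) ≤ c₁ * m / 4) ≤ 1 / 8)
    (n1 : B / 16 ≤ B / 8 - Q.b * c.C * (2 * (η * B) + 18 * c.C))
    (n2 : 3 * (4 * X + 2 * c.C + ((2 * m : ℕ) : ℝ) * (σ * B)) ≤ η * B * N)
    (n3 : (N : ℝ) ≤ c₁ * m / 8)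
    (n4 : 4 * X + 2 * c.C + 2 * m * (c.C + σ * B) < c₁ * m * B / 128) : False := by
  have hC := c.one_le
  have hba : 0 < Q.b / Q.a := div_pos (Q.ha.trans Q.hab) Q.ha
  have hK2 : (2 : ℝ) ≤ ((2 * m : ℕ) : ℝ) := by
    have : (1 : ℝ) ≤ m := by exact_mod_cast hm
    push_cast
    linarith
  obtain ⟨Y, hY⟩ : ∃ Y : V, Y = c.rd (((2 * m : ℕ) : ℝ) * c.p y + c.C) 0 := ⟨_, rfl⟩
  have y1 := abs_le.1 (c.rd_p (((2 * m : ℕ) : ℝ) * c.p y + c.C) 0)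
  have y2 := abs_le.1 (c.rd_q (((2 * m : ℕ) : ℝ) * c.p y + c.C) 0)
  rw [← hY] at y1 y2
  have h7 : ((2 * m : ℕ) : ℝ) * c.p y ≤ ((2 * m : ℕ) : ℝ) * n - 14 * c.C := by
    have h1 : ((2 * m : ℕ) : ℝ) * c.p y ≤ ((2 * m : ℕ) : ℝ) * (n - 7 * c.C) :=
      mul_le_mul_of_nonneg_left hyn (by linarith)
    have h2 : 2 * (7 * c.C) ≤ ((2 * m : ℕ) : ℝ) * (7 * c.C) := mul_le_mul_of_nonneg_right hK2 (by linarith)
    linarith
  have hYn : c.p Y ≤ ((2 * m : ℕ) : ℝ) * n := by linarith [y1.2]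
  have hY0 : 0 ≤ c.p Y := by
    have h1 : 0 ≤ ((2 * m : ℕ) : ℝ) * c.p y := by positivity
    linarith [y1.1]
  have hYq : |c.q Y| ≤ c.C := by
    rw [abs_le]
    constructor <;> linarith [y2.1, y2.2]
  have hNFY : Q.b / Q.a * nm Y ≤ NF := by
    refine le_trans (mul_le_mul_of_nonneg_left ?_ hba.le) hNF
    have h1 := c.nm_le Y
    rw [abs_of_nonneg hY0] at h1
    have h2 : c.C ≤ ((2 * m : ℕ) : ℝ) * n := by
      have h3 : 0 ≤ ((2 * m : ℕ) : ℝ) * c.p y := by positivity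
      linarith
    have h3 : c.C * (c.p Y + |c.q Y|) ≤ c.C * (2 * (((2 * m : ℕ) : ℝ) * n)) :=
      mul_le_mul_of_nonneg_left (by linarith) (by linarith)
    linarith
  have hPB : M.P (fun τ => ¬ Bw Q.b c NF θ Y τ) ≤ 1 / 8 := by
    rw [P_Bw hM]
    exact hPF
  obtain ⟨τ, hτ, g1, g2, g3, g4, g5, g6⟩ := exists_env M hPF hPB (P_excess M c hX (hUb Y hY0 hYn (by linarith)))
    (P_sum M hm hL1) (P_sum M hm hL2) hfew
  rw [not_not] at g1 g2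
  refine env_false Q.ha Q.hab.le hτ (Y := Y) (B := B) (σ := σ) (η := η) (W := W) (W₀ := 4 * X + 2 * θ) (θ := θ)
    (NF := NF) (X := 4 * X) (c₁ := c₁) hB hη hσ hly hyq (by linarith [y1.1]) (by linarith [y1.2]) g1 g2
    hNFY (not_le.1 g3).le le_rfl hW (fun i hi hL => g4 ⟨i, mem_range.2 hi, hL⟩)
    (fun i hi hL => g5 ⟨i, mem_range.2 hi, hL⟩) g6 hm hc₁ n1 n2 n3 n4

end Pool.Agent.W_1b8d5d_c1
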