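import Pool.Agent.W_1b8d5d_c1.CoreS

/-!
MP_1b8d5d_pr (N2): the limit shape has no corner: the choice of the constants.
-/

set_option autoImplicit false

namespace Pool.Agent.W_1b8d5d_c1

open Finset Pool.Agent.W_1b8d5d_h85

private theorem twelve {x y C R : ℝ} (hC : 0 ≤ C) (hy : 0 ≤ y) (hyx : y ≤ x) (h : C * x ^ 12 ≤ R) : C * y ^ 12 ≤ R :=
  (mul_le_mul_of_nonneg_left (pow_le_pow_left₀ hy hyx 12) hC).trans h

/-- The bound at a multiple of the scale. -/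
private theorem ub_k {Q : Par} {g : V → ℝ} {R Cu : ℝ} {M : Mdl Q.a Q.b} {c : Crd} (hM : Good Q g R M)
    (hub : ∀ (n R : ℝ) (M : Mdl Q.a Q.b), Cu ≤ n → Good Q g R M →
      ∀ B : ℝ, 0 ≤ B → Ub M c n B → ∀ k : ℕ, 1 ≤ k → Ub M c (k * n) (Cu * k * B + Cu * k))
    (hCu : 0 ≤ Cu) {n B x : ℝ} (hn : Cu ≤ n) (hB : 1 ≤ B) (h : Ub M c n B) {k : ℕ} (hk : 1 ≤ k) (hx : x ≤ k * n) :
    Ub M c x (2 * (Cu * k) * B) := by
  refine Ub_mono (hub n R M hn hM B (by linarith) h k hk) hx ?_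
  have h1 : Cu * k * 1 ≤ Cu * k * B := mul_le_mul_of_nonneg_left hB (by positivity)
  linarith

open Classical in
/-- The slow blocks. -/
private theorem slow_part {Q : Par} {g : V → ℝ} {R : ℝ} {M : Mdl Q.a Q.b} (hM : Good Q g R M) {c : Crd} {y : V}
    {m N : ℕ} {W B η c₁ : ℝ} (hW : 0 ≤ W) (hηB : 0 ≤ η * B) (hWN : η * B * N + 3 * c.C ≤ W / 2)
    (hly : 2 * W + 2 * c.C < c.p y) (hR : 2 * c.C * m * c.p y ≤ R)
    (hblk : ∀ x e : V, |c.p (e - x)| ≤ 4 * c.C → |c.q (e - x)| ≤ W / 2 →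
        c₁ ≤ M.P (fun τ => c.p y + B / 8 ≤ T (res Q.b (edg (Rg c x (c.p y) W)) τ) e (e + y)))
    (hcount : ((bseq (2 * m) N).card : ℝ) * Real.exp (-(c₁ * m / 4)) ≤ 1 / 8) :
    M.P (fun τ => ∃ ζ ∈ bseq (2 * m) N, (((range m).filter fun j => c.p y + B / 8 ≤
      Tblk Q.b c y W (η * B) τ (2 * j) (row ζ (2 * j))).card : ℝ) ≤ c₁ * m / 4) ≤ 1 / 8 := by
  have hC := c.one_le
  refine (slow_all hM c y hW hly hR fun i _ k hk => ?_).trans hcount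
  have b1 := abs_le.1 (xb_bounds c (c.p y) i).1
  have b2 := abs_le.1 (xb_bounds c (c.p y) i).2
  have e1 := abs_le.1 (c.rd_p (i * c.p y) (η * B * k))
  have e2 := abs_le.1 (c.rd_q (i * c.p y) (η * B * k))
  have e1' : c.p (c.rd (i * c.p y) (η * B * k)) = c.p (eb c (c.p y) (η * B) i k) := rfl
  have e2' : c.q (c.rd (i * c.p y) (η * B * k)) = c.q (eb c (c.p y) (η * B) i k) := rfl
  rw [e1'] at e1
  rw [e2'] at e2
  have hk' : |(k : ℝ)| ≤ N := by exact_mod_cast hk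
  have hηk : |η * B * k| ≤ η * B * N := by
    rw [abs_mul, abs_of_nonneg hηB]
    exact mul_le_mul_of_nonneg_left hk' hηB
  have hηk' := abs_le.1 hηk
  refine hblk (xb c (c.p y) i) (eb c (c.p y) (η * B) i k) ?_ ?_
  · rw [map_sub, abs_le]
    constructor <;> linarith [b1.1, b1.2, e1.1, e1.2]
  · rw [map_sub, abs_le]
    constructor <;> linarith [b2.1, b2.2, e2.1, e2.2, hηk'.1, hηk'.2]

/-- The confinement. -/
private theorem conf_part {Q : Par} {g : V → ℝ} {R CF : ℝ} {M : Mdl Q.a Q.b} (hM : Good Q g R M) {c : Crd}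
    (hPF : ∀ (n R : ℝ) (M : Mdl Q.a Q.b), 1 ≤ n → CF * n ^ 12 ≤ R → Good Q g R M →
      ∀ B : ℝ, 1 ≤ B → Ub M c (CF * n) B → ∀ θ : ℝ, 0 < θ → M.P (fun τ => ¬ Fw Q.b c n θ τ) ≤ CF * B / θ)
    (hCF : 1 ≤ CF) {n B : ℝ} (hn : 1 ≤ n) (hR : CF * n ^ 12 ≤ R) (hB : 1 ≤ B) (hUb : Ub M c (CF * n) B) :
    M.P (fun τ => ¬ Fw Q.b c n (8 * (CF * B)) τ) ≤ 1 / 8 := by
  have h0 : 0 < 8 * (CF * B) := by positivity
  refine (hPF n R M hn hR hM B hB hUb _ h0).trans ?_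
  rw [div_le_iff₀ h0]
  linarith

/-- The contradiction at a record of a good scale. -/
theorem contraS (Q : Par) (g : V → ℝ) (c : Crd) (hg : IsMean Q g) (h : Cnr g c) (hcb : CornerBound g c)
    (hcb' : CornerBound g (mir c)) :
    ∃ (K : ℕ) (B₀ : ℝ), 2 ≤ K ∧ 1 ≤ B₀ ∧ ∀ (R : ℝ) (M : Mdl Q.a Q.b), Good Q g R M → ∀ (n : ℝ) (y₀ : V), 1 ≤ n →
      B₀ * n ^ 12 ≤ R → 0 ≤ c.p y₀ → c.p y₀ ≤ n → |c.q y₀| ≤ 9 * c.C → B₀ ≤ Sx M c y₀ → B₀ * Sx M c y₀ ≤ c.p y₀ →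
      Ub M c n (Sx M c y₀) → Ub M c (K * n) ((K : ℝ) ^ ((4 : ℝ) / 5) * Sx M c y₀) → False := by
  have hC := c.one_le
  have ha := Q.ha
  have hab := Q.hab
  have hb : 0 < Q.b := ha.trans hab
  have hl := h.low
  have hba : 1 ≤ Q.b / Q.a := by
    rw [le_div_iff₀ ha]
    linarith
  obtain ⟨CF, hCF, hPF⟩ := P_Fw Q g c hg hl
  obtain ⟨Cu, hCu, hub⟩ := Ub_mul Q g c
  obtain ⟨C₁, hC₁, hblk⟩ := block_slow Q g c hg hl hcb
  obtain ⟨Ca, hCa, hluA⟩ := no_lucky Q g c hg h hcb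
  obtain ⟨Cb, hCb, hluB⟩ := no_lucky Q g (mir c) hg (Cnr_mir h) hcb'
  obtain ⟨k₁, hk₁C⟩ : ∃ k : ℕ, C₁ + Ca + Cb ≤ k := exists_nat_ge _
  have hk₁r : (1 : ℝ) ≤ k₁ := by linarith
  have hk₁1 : 1 ≤ k₁ := by exact_mod_cast hk₁r
  obtain ⟨C₂, hC₂⟩ : ∃ C₂ : ℝ, C₂ = 2 * (Cu * k₁) := ⟨_, rfl⟩
  have hC₂1 : 1 ≤ C₂ := by
    have : 1 * 1 ≤ Cu * k₁ := mul_le_mul hCu hk₁r (by norm_num) (by linarith)
    linarith
  have hC₂0 : 0 < C₂ := by linarith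
  obtain ⟨c₁, hc₁, hc₁1, hblk⟩ := hblk C₂ hC₂1
  have hbC : 0 < Q.b * c.C := by positivity
  obtain ⟨η, hη0, hηb⟩ : ∃ η : ℝ, 0 < η ∧ Q.b * c.C * η = 1 / 64 := ⟨1 / (64 * (Q.b * c.C)), by positivity, by field_simp⟩
  obtain ⟨m, N, σ, hm, hσ, hcount, hp2, hp3, hp4⟩ := params hc₁ hc₁1 (A := 4) (by norm_num) hη0
  have hmr : (1 : ℝ) ≤ m := by exact_mod_cast hm
  have hK2 : (2 : ℝ) ≤ ((2 * m : ℕ) : ℝ) := by
    push_cast
    linarith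
  have hKr1 : 1 ≤ ((2 * m : ℕ) : ℝ) ^ ((4 : ℝ) / 5) := Real.one_le_rpow (by linarith) (by norm_num)
  obtain ⟨Kr, hKr⟩ : ∃ Kr : ℝ, Kr = ((2 * m : ℕ) : ℝ) ^ ((4 : ℝ) / 5) := ⟨_, rfl⟩
  rw [← hKr] at hp2 hp4 hKr1
  obtain ⟨k₂, hk₂C⟩ : ∃ k : ℕ, CF * (Q.b / Q.a * (2 * c.C)) ≤ k := exists_nat_ge _
  have hk₂r : (1 : ℝ) ≤ k₂ := by
    refine le_trans ?_ hk₂C
    have h1 : 1 * 1 ≤ Q.b / Q.a * (2 * c.C) := mul_le_mul hba (by linarith) (by norm_num) (by linarith)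
    have h2 : 1 * (1 * 1) ≤ CF * (Q.b / Q.a * (2 * c.C)) := mul_le_mul hCF h1 (by norm_num) (by linarith)
    linarith
  have hk₂1 : 1 ≤ k₂ := by exact_mod_cast hk₂r
  obtain ⟨A₁, hA₁⟩ : ∃ A₁ : ℝ, A₁ = 2 * (Cu * k₂) := ⟨_, rfl⟩
  have hA₁1 : 1 ≤ A₁ := by
    have : 1 * 1 ≤ Cu * k₂ := mul_le_mul hCu hk₂r (by norm_num) (by linarith)
    linarith
  have hN0 : (0 : ℝ) ≤ N := Nat.cast_nonneg N
  obtain ⟨Λ, l1, l2, l3⟩ : ∃ Λ : ℝ, 4 * Kr + 2 * (8 * (CF * (A₁ * Kr))) + 3 * c.C ≤ Λ ∧ 2 * (η * N) + 6 * c.C ≤ Λ ∧ C₂ ≤ Λ := by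
    refine ⟨(4 * Kr + 2 * (8 * (CF * (A₁ * Kr)))) + 2 * (η * N) + 6 * c.C + C₂, ?_, ?_, ?_⟩
    · have : 0 ≤ 2 * (η * N) := by positivity
      linarith
    · have : 0 ≤ 4 * Kr + 2 * (8 * (CF * (A₁ * Kr))) := by positivity
      linarith
    · have : 0 ≤ 4 * Kr + 2 * (8 * (CF * (A₁ * Kr))) := by positivity
      have : 0 ≤ 2 * (η * N) := by positivity
      linarith
  have hΛ1 : 1 ≤ Λ := hC₂1.trans l3
  obtain ⟨B₁, hB₁, hblk⟩ := hblk Λ hΛ1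
  have hp₀ : (0 : ℝ) < 1 / (32 * m) := by positivity
  obtain ⟨CL, hCL, hluA⟩ := hluA (σ / C₂) (Λ / C₂) (1 / (32 * m)) (by positivity) (by rwa [le_div_iff₀ hC₂0, one_mul]) hp₀
  obtain ⟨CL', hCL', hluB⟩ := hluB (σ / C₂) (Λ / C₂) (1 / (32 * m)) (by positivity) (by rwa [le_div_iff₀ hC₂0, one_mul]) hp₀
  obtain ⟨Z, hZ⟩ : ∃ Z : ℝ, Z = (Q.b / Q.a * (2 * c.C * ((2 * m : ℕ) : ℝ))) ^ 12 := ⟨_, rfl⟩
  have hZ0 : 0 ≤ Z := by
    rw [hZ]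
    positivity
  obtain ⟨B₀, r1, r2, r3, r4, r5, r6, r7, r8, r9, r10, r11⟩ : ∃ B₀ : ℝ, B₁ ≤ B₀ ∧ CL * C₂ ≤ B₀ ∧ CL' * C₂ ≤ B₀ ∧
      80 * Λ + 26 * c.C ≤ B₀ ∧ CF * Z ≤ B₀ ∧ 576 * (Q.b * c.C * c.C) ≤ B₀ ∧ c.C / σ ≤ B₀ ∧ Cu ≤ B₀ ∧ 2 * c.C * m ≤ B₀ ∧
      CL ≤ B₀ ∧ CL' ≤ B₀ := by
    have q1 : 0 ≤ CL * C₂ := by positivity
    have q2 : 0 ≤ CL' * C₂ := by positivity
    have q3 : 0 ≤ CF * Z := by positivity
    have q4 : 0 ≤ 576 * (Q.b * c.C * c.C) := by positivity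
    have q5 : 0 ≤ c.C / σ := by positivity
    have q6 : 0 ≤ 2 * c.C * m := by positivity
    refine ⟨B₁ + CL * C₂ + CL' * C₂ + (80 * Λ + 26 * c.C) + CF * Z + 576 * (Q.b * c.C * c.C) + c.C / σ + Cu + 2 * c.C * m
      + CL + CL', ?_, ?_, ?_, ?_, ?_, ?_, ?_, ?_, ?_, ?_, ?_⟩ <;> linarith
  refine ⟨2 * m, B₀, by omega, by linarith, ?_⟩
  intro R M hM n y₀ hn hR hy0 hyn hyq hB hBp hUb hUbK
  rw [← hKr] at hUbK
  obtain ⟨B, hBdef⟩ : ∃ B : ℝ, B = Sx M c y₀ := ⟨_, rfl⟩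
  rw [← hBdef] at hB hBp hUb hUbK
  have hB1 : 1 ≤ B := by linarith
  have hB0 : 0 < B := by linarith
  have hn12 : n ≤ n ^ 12 := le_self_pow₀ hn (by norm_num)
  have hn0 : 0 ≤ n ^ 12 := by positivity
  have hPle : ∀ C' : ℝ, C' ≤ B₀ → C' * B ≤ c.p y₀ := fun C' h1 =>
    (mul_le_mul_of_nonneg_right h1 hB0.le).trans hBp
  have hRle : ∀ C' : ℝ, C' ≤ B₀ → C' * n ^ 12 ≤ R := fun C' h1 => (mul_le_mul_of_nonneg_right h1 hn0).trans hR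
  have hRle' : ∀ C' : ℝ, 0 ≤ C' → C' ≤ B₀ → C' * c.p y₀ ^ 12 ≤ R := fun C' h0 h1 => twelve h0 hy0 hyn (hRle C' h1)
  have hP1 : B ≤ c.p y₀ := by
    have := hPle 1 (by linarith)
    linarith
  have hCun : Cu ≤ n := by linarith
  -- bounds at multiples of the scale
  have hUbC : ∀ C' : ℝ, 0 ≤ C' → C' ≤ C₁ + Ca + Cb → Ub M c (C' * c.p y₀) (C₂ * B) := by
    intro C' h0 h1
    rw [hC₂]
    exact ub_k hM hub (by linarith) hCun hB1 hUb hk₁1 (mul_le_mul (h1.trans hk₁C) hyn hy0 (by linarith))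
  have hKn : n ≤ ((2 * m : ℕ) : ℝ) * n := le_mul_of_one_le_left (by linarith) (by linarith)
  have hKB : 1 * 1 ≤ Kr * B := mul_le_mul hKr1 hB1 (by norm_num) (by linarith)
  have hKB1 : 1 ≤ Kr * B := by linarith
  have hUb2 : ∀ x : ℝ, x ≤ k₂ * (((2 * m : ℕ) : ℝ) * n) → Ub M c x (A₁ * (Kr * B)) := by
    intro x hx
    rw [hA₁]
    exact ub_k hM hub (by linarith) (hCun.trans hKn) hKB1 hUbK hk₂1 hx
  -- the block vector
  have hbv := bv_bounds hyq (20 * (Λ * B))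
  have hblk' := hblk B R M y₀ (by linarith) hyq (hPle B₁ r1) (hRle' B₁ (by linarith) r1) hM
      (hUbC C₁ (by linarith) (by linarith)) hBdef.le
  obtain ⟨y, hy⟩ : ∃ y : V, y = bv c y₀ (20 * (Λ * B)) := ⟨_, rfl⟩
  rw [← hy] at hbv
  simp only [← hy] at hblk'
  obtain ⟨hyq', hly1, hly2⟩ := hbv
  have hΛB : 80 * (Λ * B) + 26 * (c.C * B) ≤ c.p y₀ := by
    have := hPle (80 * Λ + 26 * c.C) r4
    linarith
  have hCB : c.C ≤ c.C * B := le_mul_of_one_le_right (by linarith) hB1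
  have hΛB0 : 0 < Λ * B := by positivity
  have hly0 : c.p y₀ / 2 ≤ c.p y := by linarith
  have hly : 0 < c.p y := by linarith
  have hlyle : c.p y ≤ c.p y₀ := by linarith
  have hlW : 2 * (Λ * B) + 2 * c.C < c.p y := by linarith
  have hΛB2 : η * B * N + 3 * c.C ≤ Λ * B / 2 := by
    have h1 : (2 * (η * N) + 6 * c.C) * B ≤ Λ * B := mul_le_mul_of_nonneg_right l2 hB0.le
    linarith
  have hfew := slow_part hM (W := Λ * B) (B := B) (η := η) (N := N) hΛB0.le (by positivity) hΛB2 hlW (by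
    have h1 : c.p y ≤ n ^ 12 := by linarith
    exact (mul_le_mul_of_nonneg_left h1 (by positivity)).trans (hRle _ r9)) hblk' hcount
  -- the lucky regions
  have eW : Λ / C₂ * (C₂ * B) = Λ * B := by field_simp
  have es : σ / C₂ * (C₂ * B) = σ * B := by field_simp
  have hCB2 : B ≤ C₂ * B := le_mul_of_one_le_left hB0.le hC₂1
  have hL1 : ∀ i < 2 * m, M.P (Lucky Q.b c (xb c (c.p y) i) (c.p y) (Λ * B) (σ * B)) ≤ 1 / (32 * m) := by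
    intro i _
    rw [P_Lucky hM]
    have h1 := hluA (c.p y₀) (C₂ * B) R M (by linarith) (hRle' CL (by linarith) r10) hM
      (hUbC Ca (by linarith) (by linarith)) (by linarith) (by have := hPle (CL * C₂) r2; linarith)
      (c.p y) hly0 hlyle
    rwa [eW, es] at h1
  have hL2 : ∀ i < 2 * m, M.P (Lucky Q.b (mir c) (xb c (c.p y) i) (c.p y) (Λ * B) (σ * B)) ≤ 1 / (32 * m) := by
    intro i _
    rw [P_Lucky hM]
    have h1 := hluB (c.p y₀) (C₂ * B) R M (by linarith) (hRle' CL' (by linarith) r11) hM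
      ((Ub_mir M c _ _).2 (hUbC Cb (by linarith) (by linarith))) (by linarith)
      (by have := hPle (CL' * C₂) r3; linarith) (c.p y) hly0 hlyle
    rwa [eW, es] at h1
  -- confinement
  have hKn1 : 1 ≤ ((2 * m : ℕ) : ℝ) * n := hn.trans hKn
  obtain ⟨NF, hNF⟩ : ∃ NF : ℝ, NF = Q.b / Q.a * (2 * c.C * (((2 * m : ℕ) : ℝ) * n)) := ⟨_, rfl⟩
  have hNF1 : 1 ≤ NF := by
    rw [hNF]
    have h1 : 1 * 1 ≤ 2 * c.C * (((2 * m : ℕ) : ℝ) * n) := mul_le_mul (by linarith) hKn1 (by norm_num) (by linarith)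
    have h2 : 1 * (1 * 1) ≤ Q.b / Q.a * (2 * c.C * (((2 * m : ℕ) : ℝ) * n)) :=
      mul_le_mul hba h1 (by norm_num) (by linarith)
    linarith
  have hNFR : CF * NF ^ 12 ≤ R := by
    have h1 : CF * NF ^ 12 = CF * Z * n ^ 12 := by
      rw [hNF, hZ]
      ring
    rw [h1]
    exact hRle _ r5
  have hNFk : CF * NF ≤ k₂ * (((2 * m : ℕ) : ℝ) * n) := by
    have h1 : CF * NF = CF * (Q.b / Q.a * (2 * c.C)) * (((2 * m : ℕ) : ℝ) * n) := by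
      rw [hNF]
      ring
    rw [h1]
    exact mul_le_mul_of_nonneg_right hk₂C (by linarith)
  have hAKB : 1 * 1 ≤ A₁ * (Kr * B) := mul_le_mul hA₁1 hKB1 (by norm_num) (by linarith)
  have hPF1 := conf_part hM hPF hCF hNF1 hNFR (by linarith : 1 ≤ A₁ * (Kr * B)) (hUb2 _ hNFk)
  -- the end
  refine prob_false hM (y := y) (m := m) (N := N) (B := B) (σ := σ) (η := η) (W := Λ * B)
    (θ := 8 * (CF * (A₁ * (Kr * B)))) (NF := NF) (X := Kr * B) (c₁ := c₁) (n := n) hB0 hη0 hσ.le hly hyq' ?_ hm hc₁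
    (by linarith) hUbK hPF1 hNF.ge ?_ hL1 hL2 hfew ?_ ?_ hp3 ?_
  · linarith
  · have h1 := mul_le_mul_of_nonneg_right l1 hB0.le
    linarith
  · have h1 : Q.b * c.C * (2 * (η * B) + 18 * c.C) = 2 * (Q.b * c.C * η) * B + 18 * (Q.b * c.C * c.C) := by ring
    rw [h1, hηb]
    linarith
  · have h1 := mul_le_mul_of_nonneg_right hp2 hB0.le
    push_cast
    linarith
  · have h1 := mul_lt_mul_of_pos_right hp4 hB0
    have h2 : c.C ≤ σ * B := by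
      have h3 : c.C / σ ≤ B := by linarith
      rw [div_le_iff₀ hσ] at h3
      linarith
    have h4 : m * c.C ≤ m * (σ * B) := mul_le_mul_of_nonneg_left h2 (by linarith)
    linarith

/-- THE CORE: there is no corner. -/
theorem no_cornerS (Q : Par) (g : V → ℝ) (hM : HasModels Q g) (hg : IsMean Q g) (c : Crd) (h : Cnr g c) : False := by
  have hcb := cornerBound hg hM h
  have hcb' := cornerBound hg hM (Cnr_mir h)
  obtain ⟨K, B₀, hK, hB₀, hcontra⟩ := contraS Q g c hg h hcb hcb'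
  obtain ⟨R₀, hR₀⟩ := good_scale Q g c hg h.low hcb K hK B₀ hB₀
  obtain ⟨R, M, hR, hGood⟩ := hM R₀
  obtain ⟨n, y₀, h1, h2, h3, h4, h5, h6, h7, h8, h9⟩ := hR₀ R M hR hGood
  exact hcontra R M hGood n y₀ h1 h2 h3 h4 h5 h6 h7 h8 h9

end Pool.Agent.W_1b8d5d_c1
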