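import Pool.Agent.W_1b8d5d_c1.Conf
import Pool.Agent.W_1b8d5d_c1.Luck1

/-!
MP_1b8d5d_pr (N2): the geodesic cut into blocks (deterministic).
-/

set_option autoImplicit false

namespace Pool.Agent.W_1b8d5d_c1

open Finset Pool.Agent.W_1b8d5d_h85

private theorem Fin1_step (c : Crd) (x y : V) (h : grid.Adj x y) : |c.p y - c.p x| ≤ c.C := by
  have h1 := c.p_le (y - x)
  rw [nm_adj h, mul_one, map_sub] at h1
  exact h1

/-- PROOF. `w` a geodesic of `res b (edg (Db c 0 Y)) τ` from `0` to `Y`, `z i` its first vertex with `p ≥ i l` (`first_passage`, `z 0 = 0`; the indices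
are nondecreasing in `i`), `D i = T (res b (edg (Db c 0 Y)) τ) (z i) (z (i + 1))`; the sum of the `D i` is `T 0 (z K) ≤ Ts 0 Y` (`geo_sub`, `geo_add`).
`|q (z i)| ≤ W` by `conf_q`.  A vertex `v` of `w` between `z i` and `z (i + 1)` has `|q v| ≤ W`, `p v ≥ p (z i) - W` (`conf_dip`),
`p v ≤ (i + 1) l + C`, so it is in `Rg c x l W'`; the piece of `w` (`geo_piece`) is a walk all of whose edges are in `edg (Rg c x l W')`, where the
weights of `res b (edg (Rg c x l W')) τ` are the `τ e ≤` the weights of `res b (edg (Db c 0 Y)) τ`. -/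
theorem path_blocks {a b : ℝ} (ha : 0 < a) (hab : a ≤ b) {τ : Env} (hτ : Bd a b τ) {c : Crd} {N θ : ℝ} {Y : V}
    (hF : Fw b c N θ τ) (hB : Bw b c N θ Y τ) (hN : b / a * nm Y ≤ N) {l W : ℝ} {K : ℕ} (hl : 0 < l)
    (hY : K * l ≤ c.p Y) (hW : Ts b c τ 0 Y - c.p Y + 2 * θ ≤ W) :
    ∃ (z : ℕ → V) (D : ℕ → ℝ), z 0 = 0 ∧
      (∀ i ≤ K, i * l ≤ c.p (z i) ∧ c.p (z i) ≤ i * l + c.C ∧ |c.q (z i)| ≤ W) ∧
      ∑ i ∈ range K, D i ≤ Ts b c τ 0 Y ∧
      ∀ i < K, ∀ x, |c.p x - i * l| ≤ c.C → |c.q x| ≤ c.C → ∀ W', W + 3 * c.C ≤ W' →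
        T (res b (edg (Rg c x l W')) τ) (z i) (z (i + 1)) ≤ D i := by
  classical
  have hσ := Bd_res hab hτ (edg (Db c 0 Y))
  have hC := c.one_le
  obtain ⟨w, hw⟩ := exists_geo hσ ha 0 Y
  have hq : ∀ i, |c.q (w.getVert i)| ≤ W := by
    intro i
    have h1 := conf_q ha hab hτ hF hB hN hw i
    have h2 := abs_nonneg (c.q (Y - w.getVert i))
    linarith
  have hW0 : 0 ≤ W := (abs_nonneg _).trans (hq 0)
  -- the indices
  have hex : ∀ i : ℕ, ∃ k : ℕ, (i = 0 → k = 0) ∧ (i ≤ K → k ≤ w.length ∧ i * l ≤ c.p (w.getVert k) ∧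
      c.p (w.getVert k) ≤ i * l + c.C ∧ ∀ j < k, c.p (w.getVert j) < i * l) := by
    intro i
    rcases Nat.eq_zero_or_pos i with rfl | hi
    · refine ⟨0, fun _ => rfl, fun _ => ⟨Nat.zero_le _, ?_, ?_, fun j hj => absurd hj (Nat.not_lt_zero _)⟩⟩
      · rw [w.getVert_zero, map_zero]; simp
      · rw [w.getVert_zero, map_zero]; simp; linarith
    · by_cases hiK : i ≤ K
      · have hi' : (0 : ℝ) < i := by exact_mod_cast hi
        have hiK' : (i : ℝ) ≤ K := by exact_mod_cast hiK
        obtain ⟨k, hk1, hk2, hk3, hk4⟩ := first_passage (fun v => c.p v) c.C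
          (fun x y h => Fin1_step c x y h) (i * l) w
          (by show c.p 0 < i * l; rw [map_zero]; exact mul_pos hi' hl)
          (by
            show i * l ≤ c.p Y
            exact (mul_le_mul_of_nonneg_right hiK' hl.le).trans hY)
        exact ⟨k, fun h => absurd h (by omega), fun _ => ⟨hk1, hk2, hk3.le, hk4⟩⟩
      · exact ⟨0, fun _ => rfl, fun h => absurd h hiK⟩
  choose k hk0 hk using hex
  have hmono : ∀ i < K, k i ≤ k (i + 1) := by
    intro i hi
    rcases Nat.eq_zero_or_pos i with rfl | hi0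
    · rw [hk0 0 rfl]; exact Nat.zero_le _
    · by_contra hcon
      push Not at hcon
      have h1 := (hk i hi.le).2.2.2 _ hcon
      have h2 := (hk (i + 1) hi).2.1
      push_cast at h2
      linarith
  refine ⟨fun i => w.getVert (k i),
    fun i => T (res b (edg (Db c 0 Y)) τ) (w.getVert (k i)) (w.getVert (k (i + 1))), ?_, ?_, ?_, ?_⟩
  · show w.getVert (k 0) = 0
    rw [hk0 0 rfl, w.getVert_zero]
  · intro i hi
    exact ⟨(hk i hi).2.1, (hk i hi).2.2.1, hq _⟩
  · have h1 : ∀ m ≤ K, ∑ i ∈ range m, T (res b (edg (Db c 0 Y)) τ) (w.getVert (k i))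
        (w.getVert (k (i + 1))) = T (res b (edg (Db c 0 Y)) τ) 0 (w.getVert (k m)) := by
      intro m
      induction m with
      | zero =>
        intro _
        rw [hk0 0 rfl, w.getVert_zero, T_self hσ ha.le]
        simp
      | succ m ih =>
        intro hm
        rw [sum_range_succ, ih (by omega), geo_sub hσ ha.le hw (hmono m (by omega))]
        ring
    rw [h1 K le_rfl]
    have h2 := geo_add hσ ha.le hw (k K)
    have h3 := T_nonneg hσ ha.le (w.getVert (k K)) Y
    show _ ≤ T (res b (edg (Db c 0 Y)) τ) 0 Y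
    linarith
  · intro i hi x hx1 hx2 W' hW'
    obtain ⟨w', hw', hlen, hv, -⟩ := geo_piece hσ ha.le hw (hmono i hi) (hk (i + 1) hi).1
    have hρ := Bd_res hab hτ (edg (Rg c x l W'))
    have hin : ∀ v ∈ w'.support, v ∈ Rg c x l W' := by
      intro v hvs
      obtain ⟨j, rfl, hj⟩ := SimpleGraph.Walk.mem_support_iff_exists_getVert.1 hvs
      rw [hlen] at hj
      rw [hv j hj]
      have hi1 := (hk i hi.le).2.1
      have hd := conf_dip ha hab hτ hF hB hN hw (i := k i) (j := k i + j) (by omega)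
      have hqv := hq (k i + j)
      have hup : c.p (w.getVert (k i + j)) ≤ (i + 1) * l + c.C := by
        rcases lt_or_ge (k i + j) (k (i + 1)) with h | h
        · have h1 := (hk (i + 1) hi).2.2.2 _ h
          push_cast at h1
          linarith
        · have h1 : k i + j = k (i + 1) := by
            have := hmono i hi
            omega
          rw [h1]
          have h2 := (hk (i + 1) hi).2.2.1
          push_cast at h2
          exact h2
      rw [abs_le] at hx1 hx2 hqv
      refine ⟨?_, ?_, ?_⟩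
      · rw [map_sub, abs_le]
        constructor <;> linarith [hx1.1, hx1.2, hx2.1, hx2.2, hqv.1, hqv.2]
      · rw [map_sub]
        linarith [hx1.1, hx1.2]
      · rw [map_sub]
        linarith [hx1.1, hx1.2]
    calc T (res b (edg (Rg c x l W')) τ) (w.getVert (k i)) (w.getVert (k (i + 1)))
        ≤ cost (res b (edg (Rg c x l W')) τ) w' := T_le_cost hρ ha.le w'
      _ ≤ cost (res b (edg (Db c 0 Y)) τ) w' := by
          refine cost_mono w' fun e he => ?_
          have h1 := wedges_support w' he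
          have h2 : e ∈ edg (Rg c x l W') := ⟨hin _ h1.1, hin _ h1.2⟩
          have h3 : res b (edg (Rg c x l W')) τ e = τ e := if_pos h2
          rw [h3]
          exact le_res hτ _ e
      _ = T (res b (edg (Db c 0 Y)) τ) (w.getVert (k i)) (w.getVert (k (i + 1))) := hw'.2

end Pool.Agent.W_1b8d5d_c1
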