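import Pool.Agent.W_1b8d5d_c1.Comb
import Pool.Agent.W_1b8d5d_c1.Chern
import Pool.Agent.W_1b8d5d_c1.Geo
import Pool.Agent.W_1b8d5d_c1.Defs

/-!
MP_1b8d5d_pr (N2): the contradiction, deterministic part.
-/

set_option autoImplicit false

namespace Pool.Agent.W_1b8d5d_c1

open Finset Pool.Agent.W_1b8d5d_h85

/-- The base point of the block number `i`, on the axis. -/
noncomputable def xb (c : Crd) (l : ℝ) (i : ℕ) : V := c.rd (i * l) 0

/-- The starting point of the block number `i` in the row number `k` (spacing `h`). -/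
noncomputable def eb (c : Crd) (l h : ℝ) (i : ℕ) (k : ℤ) : V := c.rd (i * l) (h * k)

/-- The passage time of the block number `i` in the row `k`, block vector `y`, with the weights of the region. -/
noncomputable def Tblk (b : ℝ) (c : Crd) (y : V) (W h : ℝ) (τ : Env) (i : ℕ) (k : ℤ) : ℝ :=
  T (res b (edg (Rg c (xb c (c.p y) i) (c.p y) W)) τ) (eb c (c.p y) h i k) (eb c (c.p y) h i k + y)

/-- A row which is not changed: the passage time of the block is at most the cost of the piece. -/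
theorem Tblk_le {a b : ℝ} (ha : 0 ≤ a) (hab : a ≤ b) {τ : Env} (hτ : Bd a b τ) {c : Crd} {y u v : V} {W h D : ℝ}
    {i : ℕ} {k : ℤ} (hy : |c.q y| ≤ 12 * c.C)
    (hu : i * c.p y ≤ c.p u) (hu' : c.p u ≤ i * c.p y + c.C) (huq : |c.q u - h * k| ≤ h)
    (hv : (i + 1) * c.p y ≤ c.p v) (hv' : c.p v ≤ (i + 1) * c.p y + c.C) (hvq : |c.q v - h * k| ≤ h)
    (hD : T (res b (edg (Rg c (xb c (c.p y) i) (c.p y) W)) τ) u v ≤ D) :
    Tblk b c y W h τ i k ≤ D + b * c.C * (2 * h + 18 * c.C) := by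
  have hC := c.one_le
  have hb : 0 ≤ b := ha.trans hab
  have hB := Bd_res hab hτ (edg (Rg c (xb c (c.p y) i) (c.p y) W))
  set e := eb c (c.p y) h i k with he
  have ep := abs_le.1 (c.rd_p (i * c.p y) (h * k))
  have eq := abs_le.1 (c.rd_q (i * c.p y) (h * k))
  have ep' : c.p (c.rd (i * c.p y) (h * k)) = c.p e := rfl
  have eq' : c.q (c.rd (i * c.p y) (h * k)) = c.q e := rfl
  rw [ep'] at ep
  rw [eq'] at eq
  have hy' := abs_le.1 hy
  have hu'' := abs_le.1 huq
  have hv'' := abs_le.1 hvq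
  have n1 : nm (u - e) ≤ c.C * (h + 3 * c.C) := by
    refine (c.nm_le _).trans (mul_le_mul_of_nonneg_left ?_ (by linarith))
    rw [map_sub, map_sub]
    have h1 : |c.p u - c.p e| ≤ 2 * c.C := by
      rw [abs_le]
      constructor <;> linarith [ep.1, ep.2]
    have h2 : |c.q u - c.q e| ≤ h + c.C := by
      rw [abs_le]
      constructor <;> linarith [eq.1, eq.2, hu''.1, hu''.2]
    linarith
  have n2 : nm (e + y - v) ≤ c.C * (h + 15 * c.C) := by
    refine (c.nm_le _).trans (mul_le_mul_of_nonneg_left ?_ (by linarith))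
    rw [map_sub, map_sub, map_add, map_add]
    have h1 : |c.p e + c.p y - c.p v| ≤ 2 * c.C := by
      rw [abs_le]
      constructor <;> linarith [ep.1, ep.2]
    have h2 : |c.q e + c.q y - c.q v| ≤ h + 13 * c.C := by
      rw [abs_le]
      constructor <;> linarith [eq.1, eq.2, hv''.1, hv''.2, hy'.1, hy'.2]
    linarith
  have t1 := T_triangle (τ := res b (edg (Rg c (xb c (c.p y) i) (c.p y) W)) τ) hB ha e u (e + y)
  have t2 := T_triangle (τ := res b (edg (Rg c (xb c (c.p y) i) (c.p y) W)) τ) hB ha u v (e + y)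
  have t3 := T_upper (τ := res b (edg (Rg c (xb c (c.p y) i) (c.p y) W)) τ) hB ha e u
  have t4 := T_upper (τ := res b (edg (Rg c (xb c (c.p y) i) (c.p y) W)) τ) hB ha v (e + y)
  have m1 := mul_le_mul_of_nonneg_left n1 hb
  have m2 := mul_le_mul_of_nonneg_left n2 hb
  unfold Tblk
  rw [← he]
  nlinarith

/-- The total variation of the rows. -/
theorem rows_total {c : Crd} {z : ℕ → V} {D : ℕ → ℝ} {K : ℕ} {l h s E : ℝ} (hh : 0 < h) (hz0 : z 0 = 0)
    (hzK : K * l ≤ c.p (z K)) (hsum : ∑ i ∈ range K, D i ≤ K * l + E)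
    (hlow : ∀ i < K, c.p (z (i + 1) - z i) + |c.q (z (i + 1) - z i)| - s ≤ D i) :
    h * ∑ i ∈ range K, |((rows (fun i => c.q (z i)) h (i + 1) - rows (fun i => c.q (z i)) h i : ℤ) : ℝ)| ≤
      3 * (E + K * s) := by
  have h1 := rows_var (fun i => c.q (z i)) hh K
  have h0 : rows (fun i => c.q (z i)) h 0 = 0 := rows_zero h (by simp [hz0])
  have h2 : ∑ i ∈ range K, (c.p (z (i + 1) - z i) + |c.q (z (i + 1) - z i)| - s) ≤ ∑ i ∈ range K, D i :=
    sum_le_sum fun i hi => hlow i (mem_range.1 hi)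
  have h3 : ∑ i ∈ range K, (c.p (z (i + 1) - z i) + |c.q (z (i + 1) - z i)| - s)
      = c.p (z K) + ∑ i ∈ range K, |c.q (z (i + 1)) - c.q (z i)| - K * s := by
    rw [sum_sub_distrib, sum_add_distrib]
    have h4 : ∑ i ∈ range K, c.p (z (i + 1) - z i) = c.p (z K) := by
      have h5 : ∀ i, c.p (z (i + 1) - z i) = c.p (z (i + 1)) - c.p (z i) := fun i => map_sub _ _ _
      simp only [h5]
      rw [sum_range_sub (fun i => c.p (z i)), hz0, map_zero, sub_zero]
    rw [h4]
    simp [map_sub]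
  rw [h0] at h1
  simp only [hz0, map_zero, Int.cast_zero, mul_zero, sub_self, abs_zero, add_zero] at h1
  linarith

open Classical in
/-- The number of slow even blocks. -/
theorem slow_card {a b : ℝ} (ha : 0 ≤ a) (hab : a ≤ b) {τ : Env} (hτ : Bd a b τ) {c : Crd} {y : V} {W h s E β N : ℝ}
    {m : ℕ} {z : ℕ → V} {D : ℕ → ℝ} (hh : 0 < h) (hy : |c.q y| ≤ 12 * c.C)
    (hz : ∀ i ≤ 2 * m, i * c.p y ≤ c.p (z i) ∧ c.p (z i) ≤ i * c.p y + c.C)
    (hsum : ∑ i ∈ range (2 * m), D i ≤ ((2 * m : ℕ) : ℝ) * c.p y + E)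
    (hlow : ∀ i < 2 * m, c.p (z (i + 1) - z i) + |c.q (z (i + 1) - z i)| - s ≤ D i)
    (hT : ∀ i < 2 * m, T (res b (edg (Rg c (xb c (c.p y) i) (c.p y) W)) τ) (z i) (z (i + 1)) ≤ D i)
    (hN : ∑ i ∈ range (2 * m), |((rows (fun i => c.q (z i)) h (i + 1) - rows (fun i => c.q (z i)) h i : ℤ) : ℝ)| ≤ N)
    (hβ : 0 ≤ β - b * c.C * (2 * h + 18 * c.C)) (hs : 0 ≤ s) :
    (((range m).filter fun j => c.p y + β ≤
      Tblk b c y W h τ (2 * j) (rows (fun i => c.q (z i)) h (2 * j))).card : ℝ) * (β - b * c.C * (2 * h + 18 * c.C)) ≤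
      E + 2 * m * (c.C + s) + N * (β - b * c.C * (2 * h + 18 * c.C)) := by
  have hC := c.one_le
  set k := rows (fun i => c.q (z i)) h with hk
  set β' := β - b * c.C * (2 * h + 18 * c.C) with hβ'
  set G := (range m).filter fun j => c.p y + β ≤ Tblk b c y W h τ (2 * j) (k (2 * j)) with hG
  set G₁ := G.filter fun j => k (2 * j + 1) = k (2 * j) with hG₁
  set G₂ := G.filter fun j => ¬ k (2 * j + 1) = k (2 * j) with hG₂
  have hcard : (G.card : ℝ) = G₁.card + G₂.card := by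
    have := card_filter_add_card_filter_not (s := G) (fun j => k (2 * j + 1) = k (2 * j))
    rw [← this]
    push_cast
    rfl
  have hinj : Set.InjOn (fun j : ℕ => 2 * j) (G₁ : Set ℕ) := fun a _ b _ hab => by
    have : 2 * a = 2 * b := hab
    omega
  have hinj2 : Set.InjOn (fun j : ℕ => 2 * j) (G₂ : Set ℕ) := fun a _ b _ hab => by
    have : 2 * a = 2 * b := hab
    omega
  have hsub : ∀ j ∈ G, 2 * j < 2 * m := by
    intro j hj
    rw [hG, mem_filter, mem_range] at hj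
    omega
  -- lower bound for all pieces
  have hall : ∀ i < 2 * m, 0 ≤ D i - (c.p y - c.C - s) := by
    intro i hi
    have h1 := hlow i hi
    have h2 := (hz i (by omega)).2
    have h3 := (hz (i + 1) (by omega)).1
    rw [map_sub] at h1
    push_cast at h3
    have h4 := abs_nonneg (c.q (z (i + 1) - z i))
    linarith
  have hgood : ∀ j ∈ G₁, β' ≤ D (2 * j) - (c.p y - c.C - s) := by
    intro j hj
    rw [hG₁, mem_filter] at hj
    have hj2 := hsub j hj.1
    have h1 : c.p y + β ≤ Tblk b c y W h τ (2 * j) (k (2 * j)) := by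
      have := hj.1
      rw [hG, mem_filter] at this
      exact this.2
    have hz1 := hz (2 * j) (by omega)
    have hz2 := hz (2 * j + 1) (by omega)
    have r1 : |c.q (z (2 * j)) - h * k (2 * j)| ≤ h := rows_near (fun i => c.q (z i)) hh (2 * j)
    have r2 : |c.q (z (2 * j + 1)) - h * k (2 * j + 1)| ≤ h := rows_near (fun i => c.q (z i)) hh (2 * j + 1)
    rw [hj.2] at r2
    have h2 := Tblk_le ha hab hτ hy hz1.1 hz1.2 r1 (by have := hz2.1; push_cast at this ⊢; exact this)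
      (by have := hz2.2; push_cast at this ⊢; exact this) r2 (hT (2 * j) hj2)
    rw [hβ']
    linarith
  have hsum1 : ∑ j ∈ G₁, (D (2 * j) - (c.p y - c.C - s)) ≤ ∑ i ∈ range (2 * m), (D i - (c.p y - c.C - s)) := by
    have h1 : ∑ j ∈ G₁, (D (2 * j) - (c.p y - c.C - s))
        = ∑ i ∈ G₁.image (fun j => 2 * j), (D i - (c.p y - c.C - s)) := by
      rw [sum_image hinj]
    rw [h1]
    refine sum_le_sum_of_subset_of_nonneg ?_ fun i hi _ => hall i (mem_range.1 hi)
    intro i hi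
    rw [mem_image] at hi
    obtain ⟨j, hj, rfl⟩ := hi
    rw [hG₁, mem_filter] at hj
    exact mem_range.2 (hsub j hj.1)
  have hsum2 : (G₁.card : ℝ) * β' ≤ ∑ j ∈ G₁, (D (2 * j) - (c.p y - c.C - s)) := by
    rw [← nsmul_eq_mul]
    exact card_nsmul_le_sum _ _ _ hgood
  have hsum3 : ∑ i ∈ range (2 * m), (D i - (c.p y - c.C - s)) ≤ E + 2 * m * (c.C + s) := by
    rw [sum_sub_distrib, sum_const, card_range, nsmul_eq_mul]
    push_cast at hsum ⊢
    linarith
  have hG2 : (G₂.card : ℝ) ≤ N := by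
    refine le_trans ?_ hN
    have h1 : (G₂.card : ℝ) ≤ ∑ j ∈ G₂, |((k (2 * j + 1) - k (2 * j) : ℤ) : ℝ)| := by
      have h2 : (G₂.card : ℝ) * 1 ≤ ∑ j ∈ G₂, |((k (2 * j + 1) - k (2 * j) : ℤ) : ℝ)| := by
        rw [← nsmul_eq_mul]
        refine card_nsmul_le_sum _ _ _ fun j hj => ?_
        rw [hG₂, mem_filter] at hj
        have h3 : 1 ≤ |k (2 * j + 1) - k (2 * j)| := Int.one_le_abs (sub_ne_zero.2 hj.2)
        rw [← Int.cast_abs]
        exact_mod_cast h3
      linarith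
    refine h1.trans ?_
    have h4 : ∑ j ∈ G₂, |((k (2 * j + 1) - k (2 * j) : ℤ) : ℝ)|
        = ∑ i ∈ G₂.image (fun j => 2 * j), |((k (i + 1) - k i : ℤ) : ℝ)| := by
      rw [sum_image hinj2]
    rw [h4]
    refine sum_le_sum_of_subset_of_nonneg ?_ fun i hi _ => abs_nonneg _
    intro i hi
    rw [mem_image] at hi
    obtain ⟨j, hj, rfl⟩ := hi
    rw [hG₂, mem_filter] at hj
    exact mem_range.2 (hsub j hj.1)
  have hfin := mul_le_mul_of_nonneg_right hG2 hβ
  rw [hcard, add_mul]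
  linarith

end Pool.Agent.W_1b8d5d_c1
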