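import Pool.Agent.W_1b8d5d_c1.Fin1
import Pool.Agent.W_1b8d5d_c1.Fin2
import Pool.Agent.W_1b8d5d_c1.Fin3
import Pool.Agent.W_1b8d5d_c1.Cnt
import Pool.Agent.W_1b8d5d_c1.Luck2

/-!
MP_1b8d5d_pr (N2): the contradiction at one scale, parts.
-/

set_option autoImplicit false

namespace Pool.Agent.W_1b8d5d_c1

open Finset Pool.Agent.W_1b8d5d_h85

/-- The length of the blocks. -/
noncomputable def ln (c : Crd) (y₀ : V) (Λ B : ℝ) : ℝ := c.p (bv c y₀ (20 * (Λ * B)))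

/-- The cost of the block number `i` between the two ends at the height `κ`, restricted to its region. -/
noncomputable def bc (b : ℝ) (c : Crd) (y₀ : V) (Λ B : ℝ) (i : ℕ) (κ : ℝ) (τ : Env) : ℝ :=
  T (res b (edg (Rg c (c.rd (i * ln c y₀ Λ B) 0) (ln c y₀ Λ B) (Λ * B))) τ) (c.rd (i * ln c y₀ Λ B) κ)
    (c.rd (i * ln c y₀ Λ B) κ + bv c y₀ (20 * (Λ * B)))

/-- The rows of a sequence of increments: `κ_i = h ∑_{j < i} z_j`. -/
noncomputable def rw {K : ℕ} (z : Fin K → ℤ) (h : ℝ) (i : ℕ) : ℝ :=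
  h * ((∑ j ∈ univ.filter (fun j : Fin K => (j : ℕ) < i), z j : ℤ) : ℝ)

open Classical in
/-- For a fixed sequence of heights the number of slow even blocks is large, up to an exponentially small probability.  PROOF. `chern_env` with
`A j = edg (Rg c (c.rd (2 j l) 0) l (Λ B))` (disjoint because `l > 2 Λ B + 2 C`), `dependsOn_T_res`. -/
theorem chern_rows {Q : Par} {g : V → ℝ} {c : Crd} {R : ℝ} {M : Mdl Q.a Q.b} (h : Good Q g R M) {y₀ : V} {Λ B c₁ : ℝ} (m : ℕ)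
    (hB : 3 * c.C ≤ Λ * B) (hl : 2 * (Λ * B) + 2 * c.C < ln c y₀ Λ B)
    (hR : 3 * c.C * (2 * m * ln c y₀ Λ B + 2 * (Λ * B)) + 3 * c.C ≤ R) (κ : ℕ → ℝ)
    (hp : ∀ j < m, c₁ ≤ M.P (fun τ => ln c y₀ Λ B + B / 8 ≤ bc Q.b c y₀ Λ B (2 * j) (κ (2 * j)) τ)) :
    M.P (fun τ => (((range m).filter fun j => ln c y₀ Λ B + B / 8 ≤ bc Q.b c y₀ Λ B (2 * j) (κ (2 * j)) τ).card : ℝ)
      ≤ c₁ * m / 4) ≤ Real.exp (-(c₁ * m / 4)) := by
  classical
  have hC := c.one_le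
  refine chern_env M h.indep m (fun i => edg (Rg c (c.rd (((2 * i : ℕ) : ℝ) * ln c y₀ Λ B) 0) (ln c y₀ Λ B) (Λ * B)))
    ?_ ?_ (fun j τ => ln c y₀ Λ B + B / 8 ≤ bc Q.b c y₀ Λ B (2 * j) (κ (2 * j)) τ) ?_ hp
  · intro i j hij _
    obtain ⟨l, hld⟩ : ∃ l, l = ln c y₀ Λ B := ⟨_, rfl⟩
    obtain ⟨W, hWd⟩ : ∃ W, W = Λ * B := ⟨_, rfl⟩
    rw [← hld, ← hWd] at hl
    rw [← hWd] at hB
    rw [← hld, ← hWd]
    refine Set.disjoint_left.2 fun e he he' => ?_
    obtain ⟨-, -, h1⟩ := he.1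
    obtain ⟨-, h2, -⟩ := he'.1
    rw [map_sub] at h1 h2
    have h3 := abs_le.1 (c.rd_p (((2 * i : ℕ) : ℝ) * l) 0)
    have h4 := abs_le.1 (c.rd_p (((2 * j : ℕ) : ℝ) * l) 0)
    have hij' : (i : ℝ) + 1 ≤ j := by exact_mod_cast hij
    have hl0 : 0 < l := by linarith
    have h5 : ((i : ℝ) + 1) * l ≤ j * l := mul_le_mul_of_nonneg_right hij' hl0.le
    push_cast at h1 h2 h3 h4
    linarith [h3.1, h3.2, h4.1, h4.2]
  · intro i hi e he
    obtain ⟨l, hld⟩ : ∃ l, l = ln c y₀ Λ B := ⟨_, rfl⟩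
    obtain ⟨W, hWd⟩ : ∃ W, W = Λ * B := ⟨_, rfl⟩
    rw [← hld, ← hWd] at hl hR he
    rw [← hWd] at hB
    obtain ⟨h0, h1, h2⟩ := he.1
    rw [map_sub] at h0 h1 h2
    have h3 := abs_le.1 (c.rd_p (((2 * i : ℕ) : ℝ) * l) 0)
    have h4 := abs_le.1 (c.rd_q (((2 * i : ℕ) : ℝ) * l) 0)
    have hi' : (i : ℝ) + 1 ≤ m := by exact_mod_cast hi
    have hi0 : (0 : ℝ) ≤ i := Nat.cast_nonneg i
    have hl0 : 0 < l := by linarith
    have h5 : ((i : ℝ) + 1) * l ≤ m * l := mul_le_mul_of_nonneg_right hi' hl0.le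
    have h6 : 0 ≤ (i : ℝ) * l := mul_nonneg hi0 hl0.le
    have h7 := abs_le.1 h0
    push_cast at h1 h2 h3 h4 h7
    have h8 : |c.p e.1| ≤ 2 * (i * l) + c.C + l + W := by
      rw [abs_le]
      constructor <;> linarith [h3.1, h3.2]
    have h9 : |c.q e.1| ≤ c.C + W := by
      rw [abs_le]
      constructor <;> linarith [h4.1, h4.2, h7.1, h7.2]
    have h10 : nm e.1 ≤ c.C * (2 * (m * l) + 2 * W + 2 * c.C) := by
      refine (c.nm_le _).trans (mul_le_mul_of_nonneg_left ?_ (by linarith))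
      linarith
    refine h10.trans (le_trans ?_ hR)
    have h11 : 0 ≤ (m : ℝ) * l := h6.trans (by linarith)
    nlinarith
  · intro i _ τ τ' hττ
    have h1 := dependsOn_T_res Q.b (edg (Rg c (c.rd (((2 * i : ℕ) : ℝ) * ln c y₀ Λ B) 0) (ln c y₀ Λ B) (Λ * B)))
      (c.rd (((2 * i : ℕ) : ℝ) * ln c y₀ Λ B) (κ (2 * i)))
      (c.rd (((2 * i : ℕ) : ℝ) * ln c y₀ Λ B) (κ (2 * i)) + bv c y₀ (20 * (Λ * B))) hττ
    have h2 : bc Q.b c y₀ Λ B (2 * i) (κ (2 * i)) τ = bc Q.b c y₀ Λ B (2 * i) (κ (2 * i)) τ' := h1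
    show (ln c y₀ Λ B + B / 8 ≤ bc Q.b c y₀ Λ B (2 * i) (κ (2 * i)) τ) =
      (ln c y₀ Λ B + B / 8 ≤ bc Q.b c y₀ Λ B (2 * i) (κ (2 * i)) τ')
    rw [h2]

private theorem Fin4_split (f : ℕ → ℝ) (m : ℕ) :
    ∑ i ∈ range (2 * m), f i = ∑ j ∈ range m, f (2 * j) + ∑ j ∈ range m, f (2 * j + 1) := by
  induction m with
  | zero => simp
  | succ m ih =>
    rw [show 2 * (m + 1) = 2 * m + 1 + 1 by ring, sum_range_succ, sum_range_succ, ih, sum_range_succ,
      sum_range_succ]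
    ring

private theorem Fin4_rw (r : ℕ → ℤ) (h0 : r 0 = 0) (K : ℕ) (h : ℝ) (i : ℕ) (hi : i ≤ K) :
    rw (fun j : Fin K => r ((j : ℕ) + 1) - r j) h i = h * (r i : ℝ) := by
  have h1 : ∑ j ∈ univ.filter (fun j : Fin K => (j : ℕ) < i), (r ((j : ℕ) + 1) - r j) = r i := by
    rw [sum_filter, Fin.sum_univ_eq_sum_range (fun j => if j < i then r (j + 1) - r j else 0) K,
      ← sum_filter]
    have h2 : (range K).filter (fun j => j < i) = range i := by
      ext j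
      simp only [mem_filter, mem_range]
      omega
    rw [h2, sum_range_sub, h0, sub_zero]
  show h * ((∑ j ∈ univ.filter (fun j : Fin K => (j : ℕ) < i), (r ((j : ℕ) + 1) - r j) : ℤ) : ℝ) = _
  rw [h1]

private theorem Fin4_Rg (c : Crd) (x : V) (l W : ℝ) : Rg (mir c) x l W = Rg c x l W := by
  ext z
  show (|-(c.q (z - x))| ≤ W ∧ _ ∧ _) ↔ (|c.q (z - x)| ≤ W ∧ _ ∧ _)
  rw [abs_neg]
  exact Iff.rfl

/-- A region which is not lucky. -/
private theorem Fin4_not {b : ℝ} {c : Crd} {x u v : V} {l W s : ℝ} {τ : Env} (h : ¬ Lucky b c x l W s τ)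
    (hu : u ∈ Rg c x l W) (hv : v ∈ Rg c x l W) (hu' : |c.p (u - x)| ≤ 9 * c.C)
    (hv' : |c.p (v - x) - l| ≤ 9 * c.C) :
    c.p (v - u) + c.q (v - u) - s < T (res b (edg (Rg c x l W)) τ) u v := by
  by_contra hcon
  push Not at hcon
  exact h ⟨u, hu, v, hv, hu', hv', hcon⟩

private theorem Fin4_not' {b : ℝ} {c : Crd} {x u v : V} {l W s : ℝ} {τ : Env} (h : ¬ Lucky b (mir c) x l W s τ)
    (hu : u ∈ Rg c x l W) (hv : v ∈ Rg c x l W) (hu' : |c.p (u - x)| ≤ 9 * c.C)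
    (hv' : |c.p (v - x) - l| ≤ 9 * c.C) :
    c.p (v - u) - c.q (v - u) - s < T (res b (edg (Rg c x l W)) τ) u v := by
  have h1 := Fin4_not h (u := u) (v := v) (by rw [Fin4_Rg]; exact hu) (by rw [Fin4_Rg]; exact hv) hu' hv'
  rw [Fin4_Rg] at h1
  have h2 : (mir c).p (v - u) = c.p (v - u) := rfl
  have h3 : (mir c).q (v - u) = -c.q (v - u) := rfl
  rw [h2, h3] at h1
  linarith

open Classical in
private theorem Fin4_core {Q : Par} {c : Crd} {τ : Env} (hτ : Bd Q.a Q.b τ) {y : V} (hyq : |c.q y| ≤ 12 * c.C)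
    {W l N θ s h X β : ℝ} (hly : c.p y = l) (m n : ℕ)
    (hW200 : 200 * c.C ≤ W) (hl : 10 * W ≤ l) (hh : 0 < h) (hh' : h ≤ W / 8) (hs : 0 ≤ s)
    (hF : Fw Q.b c N θ τ) (hBw : Bw Q.b c N θ (c.rd (2 * m * l + c.C) 0) τ)
    (hN : Q.b / Q.a * nm (c.rd (2 * m * l + c.C) 0) ≤ N)
    (hX : Ts Q.b c τ 0 (c.rd (2 * m * l + c.C) 0) - c.p (c.rd (2 * m * l + c.C) 0) ≤ X)
    (hW : X + 2 * θ ≤ W / 4)
    (hL : ∀ i < 2 * m, ¬ Lucky Q.b c (c.rd (i * l) 0) l W s τ)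
    (hL' : ∀ i < 2 * m, ¬ Lucky Q.b (mir c) (c.rd (i * l) 0) l W s τ)
    (hn : 3 * (X + 2 * c.C + 2 * m * (s + 20 * c.C)) ≤ h * n) :
    ∃ z ∈ bseq (2 * m) n, (∀ i ≤ 2 * m, |rw z h i| ≤ 3 * W / 8) ∧
      (((range m).filter fun j : ℕ => l + β ≤
        T (res Q.b (edg (Rg c (c.rd (((2 * j : ℕ) : ℝ) * l) 0) l W)) τ) (c.rd (((2 * j : ℕ) : ℝ) * l) (rw z h (2 * j)))
          (c.rd (((2 * j : ℕ) : ℝ) * l) (rw z h (2 * j)) + y)).card : ℝ) * β ≤
        (4 * Q.b * c.C + 1) * (X + 2 * c.C + 2 * m * (s + 20 * c.C)) + 4 * Q.b * c.C * m * (2 * h + 20 * c.C) +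
          2 * m * (s + 20 * c.C) := by
  classical
  have hC := c.one_le
  have ha := Q.ha
  have hab := Q.hab.le
  have hb0 : 0 < Q.b := ha.trans Q.hab
  have hW0 : 0 < W := by linarith
  have hl0 : 0 < l := by linarith
  have hm0 : (0 : ℝ) ≤ m := Nat.cast_nonneg m
  obtain ⟨Y, hYd⟩ : ∃ Y, Y = c.rd (2 * m * l + c.C) 0 := ⟨_, rfl⟩
  have hYp := abs_le.1 (c.rd_p (2 * m * l + c.C) 0)
  rw [← hYd] at hBw hN hX hYp
  obtain ⟨z, D, hz0, hz, hsum, hT⟩ := path_blocks ha hab hτ hF hBw hN (l := l) (W := W / 4) (K := 2 * m) hl0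
    (by push_cast; linarith [hYp.1]) (by linarith)
  obtain ⟨q, hqd⟩ : ∃ q : ℕ → ℝ, q = fun i => c.q (z i) := ⟨_, rfl⟩
  obtain ⟨r, hrd⟩ : ∃ r : ℕ → ℤ, r = rows q h := ⟨_, rfl⟩
  have hyq' := abs_le.1 hyq
  -- pieces
  have hxp : ∀ i : ℕ, |c.p (c.rd (i * l) 0) - i * l| ≤ c.C := fun i => c.rd_p _ _
  have hxq : ∀ i : ℕ, |c.q (c.rd (i * l) 0)| ≤ c.C := fun i => by
    have := c.rd_q (i * l) 0
    rwa [sub_zero] at this
  have hTD : ∀ i < 2 * m, T (res Q.b (edg (Rg c (c.rd (i * l) 0) l W)) τ) (z i) (z (i + 1)) ≤ D i :=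
    fun i hi => hT i hi _ (hxp i) (hxq i) W (by linarith)
  have hlow : ∀ i < 2 * m, c.p (z (i + 1) - z i) + |c.q (z (i + 1) - z i)| - s ≤ D i := by
    intro i hi
    obtain ⟨a1, a2, a3⟩ := hz i hi.le
    obtain ⟨b1, b2, b3⟩ := hz (i + 1) hi
    have p1 := abs_le.1 (hxp i)
    have q1 := abs_le.1 (hxq i)
    have a3' := abs_le.1 a3
    have b3' := abs_le.1 b3
    push_cast at b1 b2
    have mu : z i ∈ Rg c (c.rd (i * l) 0) l W := by
      refine ⟨?_, ?_, ?_⟩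
      · rw [map_sub, abs_le]
        constructor <;> linarith [q1.1, q1.2, a3'.1, a3'.2]
      · rw [map_sub]
        linarith [p1.1, p1.2]
      · rw [map_sub]
        linarith [p1.1, p1.2]
    have mv : z (i + 1) ∈ Rg c (c.rd (i * l) 0) l W := by
      refine ⟨?_, ?_, ?_⟩
      · rw [map_sub, abs_le]
        constructor <;> linarith [q1.1, q1.2, b3'.1, b3'.2]
      · rw [map_sub]
        linarith [p1.1, p1.2]
      · rw [map_sub]
        linarith [p1.1, p1.2]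
    have pu : |c.p (z i - c.rd (i * l) 0)| ≤ 9 * c.C := by
      rw [map_sub, abs_le]
      constructor <;> linarith [p1.1, p1.2]
    have pv : |c.p (z (i + 1) - c.rd (i * l) 0) - l| ≤ 9 * c.C := by
      rw [map_sub, abs_le]
      constructor <;> linarith [p1.1, p1.2]
    have k1 := Fin4_not (hL i hi) mu mv pu pv
    have k2 := Fin4_not' (hL' i hi) mu mv pu pv
    have k3 := hTD i hi
    rcases abs_cases (c.q (z (i + 1) - z i)) with ⟨e, _⟩ | ⟨e, _⟩ <;> rw [e] <;> linarith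
  -- rows
  have hr0 : r 0 = 0 := by
    rw [hrd]
    exact rows_zero h (by rw [hqd]; simp [hz0])
  have hrn : ∀ i, |q i - h * r i| ≤ h := fun i => by
    rw [hrd]
    exact rows_near q hh i
  have hκ : ∀ i ≤ 2 * m, |h * (r i : ℝ)| ≤ 3 * W / 8 := by
    intro i hi
    have h1 := abs_le.1 (hrn i)
    have h2 := abs_le.1 (hz i hi).2.2
    have h3 : q i = c.q (z i) := by rw [hqd]
    rw [h3] at h1
    rw [abs_le]
    constructor <;> linarith [h1.1, h1.2, h2.1, h2.2]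
  -- upper bound for the sum
  have hsum' : ∑ i ∈ range (2 * m), D i ≤ ((2 * m : ℕ) : ℝ) * l + (X + 2 * c.C) := by
    push_cast
    linarith [hYp.2]
  have htot := rows_total (c := c) (z := z) (D := D) (K := 2 * m) (l := l) (h := h) (s := s) (E := X + 2 * c.C)
    hh hz0 (hz (2 * m) le_rfl).1 hsum' hlow
  have hdq : ∑ i ∈ range (2 * m), |c.q (z (i + 1) - z i)| ≤ X + 2 * c.C + 2 * m * s := by
    have h2 : ∑ i ∈ range (2 * m), (c.p (z (i + 1) - z i) + |c.q (z (i + 1) - z i)| - s) ≤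
        ∑ i ∈ range (2 * m), D i := sum_le_sum fun i hi => hlow i (mem_range.1 hi)
    rw [sum_sub_distrib, sum_add_distrib] at h2
    have h4 : ∑ i ∈ range (2 * m), c.p (z (i + 1) - z i) = c.p (z (2 * m)) := by
      have h5 : ∀ i, c.p (z (i + 1) - z i) = c.p (z (i + 1)) - c.p (z i) := fun i => map_sub _ _ _
      simp only [h5]
      rw [sum_range_sub (fun i => c.p (z i)), hz0, map_zero, sub_zero]
    rw [h4, sum_const, card_range, nsmul_eq_mul] at h2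
    have h6 := (hz (2 * m) le_rfl).1
    push_cast at h2 h6 hsum'
    linarith
  have hdq0 : 0 ≤ ∑ i ∈ range (2 * m), |c.q (z (i + 1) - z i)| := sum_nonneg fun i _ => abs_nonneg _
  -- the blocks
  obtain ⟨bl, hbl⟩ : ∃ bl : ℕ → ℝ, bl = fun i : ℕ => T (res Q.b (edg (Rg c (c.rd (i * l) 0) l W)) τ)
      (c.rd (i * l) (h * r i)) (c.rd (i * l) (h * r i) + y) := ⟨_, rfl⟩
  have hbl_low : ∀ i < 2 * m, l - 12 * c.C - s ≤ bl i := by
    intro i hi
    have p1 := abs_le.1 (hxp i)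
    have q1 := abs_le.1 (hxq i)
    have k1 := abs_le.1 (hκ i hi.le)
    have ep := abs_le.1 (c.rd_p (i * l) (h * r i))
    have eq := abs_le.1 (c.rd_q (i * l) (h * r i))
    have mu : c.rd (i * l) (h * r i) ∈ Rg c (c.rd (i * l) 0) l W := by
      refine ⟨?_, ?_, ?_⟩
      · rw [map_sub, abs_le]
        constructor <;> linarith [q1.1, q1.2, k1.1, k1.2, eq.1, eq.2]
      · rw [map_sub]
        linarith [p1.1, p1.2, ep.1, ep.2]
      · rw [map_sub]
        linarith [p1.1, p1.2, ep.1, ep.2]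
    have mv : c.rd (i * l) (h * r i) + y ∈ Rg c (c.rd (i * l) 0) l W := by
      refine ⟨?_, ?_, ?_⟩
      · rw [map_sub, map_add, abs_le]
        constructor <;> linarith [q1.1, q1.2, k1.1, k1.2, eq.1, eq.2, hyq'.1, hyq'.2]
      · rw [map_sub, map_add, hly]
        linarith [p1.1, p1.2, ep.1, ep.2]
      · rw [map_sub, map_add, hly]
        linarith [p1.1, p1.2, ep.1, ep.2]
    have pu : |c.p (c.rd (i * l) (h * r i) - c.rd (i * l) 0)| ≤ 9 * c.C := by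
      rw [map_sub, abs_le]
      constructor <;> linarith [p1.1, p1.2, ep.1, ep.2]
    have pv : |c.p (c.rd (i * l) (h * r i) + y - c.rd (i * l) 0) - l| ≤ 9 * c.C := by
      rw [map_sub, map_add, hly, abs_le]
      constructor <;> linarith [p1.1, p1.2, ep.1, ep.2]
    have k2 := Fin4_not (hL i hi) mu mv pu pv
    rw [add_sub_cancel_left, hly] at k2
    rw [hbl]
    show l - 12 * c.C - s ≤ T _ _ _
    linarith [hyq'.1]
  have hbl_up : ∀ i < 2 * m, bl i ≤ D i + Q.b * c.C * (2 * h + 18 * c.C + |c.q (z (i + 1) - z i)|) := by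
    intro i hi
    obtain ⟨a1, a2, a3⟩ := hz i hi.le
    obtain ⟨b1, b2, b3⟩ := hz (i + 1) hi
    push_cast at b1 b2
    have ep := abs_le.1 (c.rd_p (i * l) (h * r i))
    have eq := abs_le.1 (c.rd_q (i * l) (h * r i))
    have hB := Bd_res hab hτ (edg (Rg c (c.rd (i * l) 0) l W))
    have hr1 := abs_le.1 (hrn i)
    have h3 : q i = c.q (z i) := by rw [hqd]
    rw [h3] at hr1
    obtain ⟨e, hed⟩ : ∃ e, e = c.rd (i * l) (h * r i) := ⟨_, rfl⟩
    rw [← hed] at ep eq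
    have hdz := abs_le.1 (le_refl |c.q (z (i + 1) - z i)|)
    have hdz2 : c.q (z (i + 1) - z i) = c.q (z (i + 1)) - c.q (z i) := map_sub _ _ _
    have n1 : nm (z i - e) ≤ c.C * (h + 3 * c.C) := by
      refine (c.nm_le _).trans (mul_le_mul_of_nonneg_left ?_ (by linarith))
      rw [map_sub, map_sub]
      have h1 : |c.p (z i) - c.p e| ≤ 2 * c.C := by
        rw [abs_le]
        constructor <;> linarith [ep.1, ep.2]
      have h2 : |c.q (z i) - c.q e| ≤ h + c.C := by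
        rw [abs_le]
        constructor <;> linarith [eq.1, eq.2, hr1.1, hr1.2]
      linarith
    have n2 : nm (e + y - z (i + 1)) ≤ c.C * (h + 15 * c.C + |c.q (z (i + 1) - z i)|) := by
      refine (c.nm_le _).trans (mul_le_mul_of_nonneg_left ?_ (by linarith))
      have h1 : |c.p (e + y - z (i + 1))| ≤ 2 * c.C := by
        rw [map_sub, map_add, hly, abs_le]
        constructor <;> linarith [ep.1, ep.2]
      have h2 : |c.q (e + y - z (i + 1))| ≤ h + 13 * c.C + |c.q (z (i + 1) - z i)| := by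
        rw [map_sub, map_add, abs_le]
        rw [hdz2] at hdz ⊢
        constructor <;> linarith [eq.1, eq.2, hr1.1, hr1.2, hyq'.1, hyq'.2, hdz.1, hdz.2]
      linarith
    have t1 := T_triangle (τ := res Q.b (edg (Rg c (c.rd (i * l) 0) l W)) τ) hB ha.le e (z i) (e + y)
    have t2 := T_triangle (τ := res Q.b (edg (Rg c (c.rd (i * l) 0) l W)) τ) hB ha.le (z i) (z (i + 1)) (e + y)
    have t3 := T_upper (τ := res Q.b (edg (Rg c (c.rd (i * l) 0) l W)) τ) hB ha.le e (z i)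
    have t4 := T_upper (τ := res Q.b (edg (Rg c (c.rd (i * l) 0) l W)) τ) hB ha.le (z (i + 1)) (e + y)
    have m1 := mul_le_mul_of_nonneg_left n1 hb0.le
    have m2 := mul_le_mul_of_nonneg_left n2 hb0.le
    have t5 := hTD i hi
    have e1 : bl i = T (res Q.b (edg (Rg c (c.rd (i * l) 0) l W)) τ) e (e + y) := by
      rw [hbl, hed]
    rw [e1]
    have e2 : Q.b * c.C * (2 * h + 18 * c.C + |c.q (z (i + 1) - z i)|) =
      Q.b * (c.C * (h + 3 * c.C)) + Q.b * (c.C * (h + 15 * c.C + |c.q (z (i + 1) - z i)|)) := by ring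
    rw [e2]
    linarith
  -- the sequence
  refine ⟨fun j : Fin (2 * m) => r ((j : ℕ) + 1) - r j, ?_, ?_, ?_⟩
  · apply mem_bseq
    rw [Fin.sum_univ_eq_sum_range (fun i => |r (i + 1) - r i|) (2 * m)]
    have h1 : h * (((∑ i ∈ range (2 * m), |r (i + 1) - r i| : ℤ)) : ℝ) ≤ h * n := by
      push_cast
      rw [← hqd, ← hrd] at htot
      push_cast at htot
      refine htot.trans (le_trans ?_ hn)
      have : 0 ≤ (m : ℝ) * c.C := by positivity
      nlinarith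
    have h2 := le_of_mul_le_mul_left h1 hh
    exact_mod_cast h2
  · intro i hi
    rw [Fin4_rw r hr0 (2 * m) h i hi]
    exact hκ i hi
  · obtain ⟨G, hG⟩ : ∃ G : Finset ℕ, G = (range m).filter fun j : ℕ => l + β ≤ bl (2 * j) := ⟨_, rfl⟩
    have hGeq : ((range m).filter fun j : ℕ => l + β ≤
        T (res Q.b (edg (Rg c (c.rd (((2 * j : ℕ) : ℝ) * l) 0) l W)) τ)
          (c.rd (((2 * j : ℕ) : ℝ) * l) (rw (fun j : Fin (2 * m) => r ((j : ℕ) + 1) - r j) h (2 * j)))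
          (c.rd (((2 * j : ℕ) : ℝ) * l) (rw (fun j : Fin (2 * m) => r ((j : ℕ) + 1) - r j) h (2 * j)) + y)) = G := by
      rw [hG]
      apply filter_congr
      intro j hj
      rw [mem_range] at hj
      rw [Fin4_rw r hr0 (2 * m) h (2 * j) (by omega), hbl]
    rw [hGeq]
    have s1 : (G.card : ℝ) * β ≤ ∑ j ∈ G, (bl (2 * j) - (l - 12 * c.C - s)) := by
      rw [← nsmul_eq_mul]
      refine card_nsmul_le_sum _ _ _ fun j hj => ?_
      rw [hG, mem_filter] at hj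
      linarith [hj.2]
    have s2 : ∑ j ∈ G, (bl (2 * j) - (l - 12 * c.C - s)) ≤ ∑ j ∈ range m, (bl (2 * j) - (l - 12 * c.C - s)) := by
      refine sum_le_sum_of_subset_of_nonneg (by rw [hG]; exact filter_subset _ _) fun j hj _ => ?_
      rw [mem_range] at hj
      linarith [hbl_low (2 * j) (by omega)]
    have s3 : ∑ j ∈ range m, (bl (2 * j) - (l - 12 * c.C - s)) =
        ∑ j ∈ range m, bl (2 * j) - m * (l - 12 * c.C - s) := by
      rw [sum_sub_distrib, sum_const, card_range, nsmul_eq_mul]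
    have s4 : ∑ j ∈ range m, bl (2 * j) ≤ ∑ j ∈ range m, D (2 * j) +
        Q.b * c.C * (m * (2 * h + 18 * c.C) + ∑ j ∈ range m, |c.q (z (2 * j + 1) - z (2 * j))|) := by
      have h1 : ∑ j ∈ range m, bl (2 * j) ≤
          ∑ j ∈ range m, (D (2 * j) + Q.b * c.C * (2 * h + 18 * c.C + |c.q (z (2 * j + 1) - z (2 * j))|)) :=
        sum_le_sum fun j hj => by
          rw [mem_range] at hj
          exact hbl_up (2 * j) (by omega)
      refine h1.trans (le_of_eq ?_)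
      rw [sum_add_distrib, ← mul_sum, sum_add_distrib, sum_const, card_range, nsmul_eq_mul]
    have s5 := Fin4_split D m
    have s6 : (m : ℝ) * (l - c.C - s) ≤ ∑ j ∈ range m, D (2 * j + 1) := by
      have h1 : (range m).card • (l - c.C - s) ≤ ∑ j ∈ range m, D (2 * j + 1) := by
        refine card_nsmul_le_sum _ _ _ fun j hj => ?_
        rw [mem_range] at hj
        have h2 := hlow (2 * j + 1) (by omega)
        have h3 := (hz (2 * j + 1) (by omega)).2.1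
        have h4 := (hz (2 * j + 1 + 1) (by omega)).1
        rw [map_sub] at h2
        push_cast at h3 h4
        have h5 := abs_nonneg (c.q (z (2 * j + 1 + 1) - z (2 * j + 1)))
        linarith
      rw [card_range, nsmul_eq_mul] at h1
      exact h1
    have s7 := Fin4_split (fun i => |c.q (z (i + 1) - z i)|) m
    have s8 : 0 ≤ ∑ j ∈ range m, |c.q (z (2 * j + 1 + 1) - z (2 * j + 1))| := sum_nonneg fun j _ => abs_nonneg _
    have s9 : ∑ j ∈ range m, |c.q (z (2 * j + 1) - z (2 * j))| ≤ X + 2 * c.C + 2 * m * s := by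
      linarith
    have hbC : 0 ≤ Q.b * c.C := by positivity
    have s10 := mul_le_mul_of_nonneg_left s9 hbC
    have hP : 0 ≤ X + 2 * c.C + 2 * m * s := hdq0.trans hdq
    have f1 : 0 ≤ (m : ℝ) * s := by positivity
    have f2 : 0 ≤ (m : ℝ) * c.C := by positivity
    have f3 : 0 ≤ Q.b * c.C * (m * c.C) := by positivity
    have f4 : 0 ≤ Q.b * c.C * (m * h) := by positivity
    have f5 : 0 ≤ Q.b * c.C * (X + 2 * c.C + 2 * m * s) := mul_nonneg hbC hP
    push_cast at hsum'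
    rw [s5] at hsum'
    have main : (G.card : ℝ) * β ≤ (X + 2 * c.C) + m * (13 * c.C + 2 * s) +
        Q.b * c.C * (m * (2 * h + 18 * c.C)) + Q.b * c.C * (X + 2 * c.C + 2 * m * s) := by
      have e1 : Q.b * c.C * (m * (2 * h + 18 * c.C) + ∑ j ∈ range m, |c.q (z (2 * j + 1) - z (2 * j))|) =
        Q.b * c.C * (m * (2 * h + 18 * c.C)) + Q.b * c.C * ∑ j ∈ range m, |c.q (z (2 * j + 1) - z (2 * j))| := by ring
      rw [e1] at s4
      linarith
    refine main.trans ?_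
    have e2 : (4 * Q.b * c.C + 1) * (X + 2 * c.C + 2 * m * (s + 20 * c.C)) + 4 * Q.b * c.C * m * (2 * h + 20 * c.C) +
          2 * m * (s + 20 * c.C) = (X + 2 * c.C) + m * (13 * c.C + 2 * s) +
        Q.b * c.C * (m * (2 * h + 18 * c.C)) + Q.b * c.C * (X + 2 * c.C + 2 * m * s) +
        (3 * (Q.b * c.C * (X + 2 * c.C + 2 * m * s)) + 2 * (m * s) + 67 * (m * c.C) + 222 * (Q.b * c.C * (m * c.C)) +
          6 * (Q.b * c.C * (m * h))) := by ring
    rw [e2]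
    linarith

open Classical in
/-- The deterministic part.  `τ` is an environment such that the geodesic to `Y = c.rd (2 m l + C) 0` has the excess `≤ X`, is confined, no region
`i < 2 m` is lucky (with respect to `p + q` and `p - q`).  Then there is a sequence of increments `z ∈ bseq (2 m) N` with few slow
even blocks.  PROOF. `path_blocks` (`W = Λ B / 4`, `W' = Λ B`, `x_i = c.rd (i l) 0`), `q i = c.q (z i)`, `rows q h`, increments
`z i = rows (i + 1) - rows i` (sum `≤ 3 ∑ |q (i + 1) - q i| / h ≤ N`), `rw z h i = h rows i`;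
`T (region) (z i) (z (i+1)) ≤ D i`, not lucky: `D i ≥ p (z (i+1) - z i) + |q (z (i+1) - z i)| - s ≥ l - C + |dq| - s`;
`bc i ≤ b nm (z i - e i) + D i + b nm (e i + bv - z (i+1)) ≤ D i + 2 b C (2 h + |dq i| + 20 C)`; not lucky for the pair `e i, e i + bv`:
`bc i ≥ l - 12 C - s`.  `fin_arith` with `b = B / 8`. -/
theorem det_part {Q : Par} {c : Crd} {τ : Env} (hτ : Bd Q.a Q.b τ) {y₀ : V} (hy₀ : |c.q y₀| ≤ 9 * c.C) {Λ B N θ s h X : ℝ} (m n : ℕ)
    (hB : 200 * c.C ≤ Λ * B) (hl : 10 * (Λ * B) ≤ ln c y₀ Λ B) (hh : 0 < h) (hh' : h ≤ Λ * B / 8) (hs : 0 ≤ s)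
    (hF : Fw Q.b c N θ τ) (hBw : Bw Q.b c N θ (c.rd (2 * m * ln c y₀ Λ B + c.C) 0) τ)
    (hN : Q.b / Q.a * nm (c.rd (2 * m * ln c y₀ Λ B + c.C) 0) ≤ N)
    (hX : Ts Q.b c τ 0 (c.rd (2 * m * ln c y₀ Λ B + c.C) 0) - c.p (c.rd (2 * m * ln c y₀ Λ B + c.C) 0) ≤ X)
    (hW : X + 2 * θ ≤ Λ * B / 4)
    (hL : ∀ i < 2 * m, ¬ Lucky Q.b c (c.rd (i * ln c y₀ Λ B) 0) (ln c y₀ Λ B) (Λ * B) s τ)
    (hL' : ∀ i < 2 * m, ¬ Lucky Q.b (mir c) (c.rd (i * ln c y₀ Λ B) 0) (ln c y₀ Λ B) (Λ * B) s τ)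
    (hn : 3 * (X + 2 * c.C + 2 * m * (s + 20 * c.C)) ≤ h * n) :
    ∃ z ∈ bseq (2 * m) n, (∀ i ≤ 2 * m, |rw z h i| ≤ 3 * (Λ * B) / 8) ∧
      (((range m).filter fun j => ln c y₀ Λ B + B / 8 ≤ bc Q.b c y₀ Λ B (2 * j) (rw z h (2 * j)) τ).card : ℝ) * (B / 8) ≤
        (4 * Q.b * c.C + 1) * (X + 2 * c.C + 2 * m * (s + 20 * c.C)) + 4 * Q.b * c.C * m * (2 * h + 20 * c.C) +
          2 * m * (s + 20 * c.C) := by
  have hC := c.one_le
  have hyq : |c.q (bv c y₀ (20 * (Λ * B)))| ≤ 12 * c.C := by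
    unfold bv
    rw [map_sub, map_sub, map_sub]
    have h1 := abs_le.1 hy₀
    have h2 := abs_le.1 (c.rd_q (10 * c.C) 0)
    have h3 := abs_le.1 (c.rd_q (20 * (Λ * B)) 0)
    rw [abs_le]
    constructor <;> linarith [h1.1, h1.2, h2.1, h2.2, h3.1, h3.2]
  exact Fin4_core hτ hyq (l := ln c y₀ Λ B) (W := Λ * B) (β := B / 8) rfl m n hB hl hh hh' hs hF hBw hN hX hW hL hL' hn

end Pool.Agent.W_1b8d5d_c1
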