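import Pool.Agent.W_1b8d5d_c1.Fin4

/-!
MP_1b8d5d_pr (N2): the contradiction at one scale.
-/

set_option autoImplicit false

namespace Pool.Agent.W_1b8d5d_c1

open Finset Pool.Agent.W_1b8d5d_h85

private theorem Fin5_cb_mir {g : V → ℝ} {c : Crd} (hcb : CornerBound g c) : CornerBound g (mir c) := by
  intro C₀
  obtain ⟨C₁, h0, h1⟩ := hcb C₀
  refine ⟨C₁, h0, fun l z hl hp hq => h1 l z hl hp ?_⟩
  have : (mir c).q z = -c.q z := rfl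
  rw [this, abs_neg] at hq
  exact hq

private theorem Fin5_Ub {a b : ℝ} {M : Mdl a b} {c : Crd} {n n' B B' : ℝ} (h : Ub M c n B) (hn : n' ≤ n) (hB : B ≤ B') :
    Ub M c n' B' := fun y h0 h1 h2 => (h y h0 (h1.trans hn) h2).trans hB

private theorem Fin5_le_mul {a x : ℝ} (ha : 1 ≤ a) (hx : 0 ≤ x) : x ≤ a * x := by
  have := mul_le_mul_of_nonneg_right ha hx
  linarith

private theorem Fin5_P_true {a b : ℝ} (M : Mdl a b) : M.P (fun _ => True) = 1 := by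
  rw [Mdl.P_def]
  simp only [if_true]
  exact M.E_const 1

private theorem Fin5_exists {a b : ℝ} (M : Mdl a b) (p₁ p₂ p₃ p₄ p₅ p₆ : Env → Prop)
    (h : M.P (fun τ => ¬ p₁ τ) + M.P (fun τ => ¬ p₂ τ) + M.P (fun τ => ¬ p₃ τ) + M.P (fun τ => ¬ p₄ τ) +
      M.P (fun τ => ¬ p₅ τ) + M.P (fun τ => ¬ p₆ τ) < 1) :
    ∃ τ, Bd a b τ ∧ p₁ τ ∧ p₂ τ ∧ p₃ τ ∧ p₄ τ ∧ p₅ τ ∧ p₆ τ := by
  by_contra hcon
  push Not at hcon
  have h1 : M.P (fun _ => True) ≤ M.P (fun τ => ¬ p₁ τ ∨ (¬ p₂ τ ∨ (¬ p₃ τ ∨ (¬ p₄ τ ∨ (¬ p₅ τ ∨ ¬ p₆ τ))))) := by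
    refine M.P_mono fun τ hτ _ => ?_
    by_contra hc
    push Not at hc
    obtain ⟨q1, q2, q3, q4, q5, q6⟩ := hc
    exact hcon τ hτ q1 q2 q3 q4 q5 q6
  rw [Fin5_P_true] at h1
  have h2 := M.P_or (fun τ => ¬ p₁ τ) (fun τ => (¬ p₂ τ ∨ (¬ p₃ τ ∨ (¬ p₄ τ ∨ (¬ p₅ τ ∨ ¬ p₆ τ)))))
  have h3 := M.P_or (fun τ => ¬ p₂ τ) (fun τ => ((¬ p₃ τ ∨ (¬ p₄ τ ∨ (¬ p₅ τ ∨ ¬ p₆ τ)))))
  have h4 := M.P_or (fun τ => ¬ p₃ τ) (fun τ => (((¬ p₄ τ ∨ (¬ p₅ τ ∨ ¬ p₆ τ)))))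
  have h5 := M.P_or (fun τ => ¬ p₄ τ) (fun τ => ((((¬ p₅ τ ∨ ¬ p₆ τ)))))
  have h6 := M.P_or (fun τ => ¬ p₅ τ) (fun τ => ¬ p₆ τ)
  linarith

private theorem Fin5_union {a b : ℝ} (M : Mdl a b) {N : ℕ} {p : ℕ → Env → Prop} {δ : ℝ} (h : ∀ i < N, M.P (p i) ≤ δ) :
    M.P (fun τ => ¬ ∀ i < N, ¬ p i τ) ≤ N * δ := by
  calc M.P (fun τ => ¬ ∀ i < N, ¬ p i τ) ≤ M.P (fun τ => ∃ i ∈ range N, p i τ) := by
        refine M.P_mono fun τ _ hτ => ?_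
        push Not at hτ
        obtain ⟨i, hi, hp⟩ := hτ
        exact ⟨i, mem_range.2 hi, hp⟩
    _ ≤ ∑ i ∈ range N, M.P (p i) := M.P_exists_le _ _
    _ ≤ ∑ _i ∈ range N, δ := sum_le_sum fun i hi => h i (mem_range.1 hi)
    _ = N * δ := by rw [sum_const, card_range, nsmul_eq_mul]

private theorem Fin5_unionF {a b : ℝ} (M : Mdl a b) {ι : Type} (s : Finset ι) {p : ι → Env → Prop} {δ : ℝ}
    (h : ∀ i ∈ s, M.P (p i) ≤ δ) : M.P (fun τ => ¬ ∀ i ∈ s, ¬ p i τ) ≤ s.card * δ := by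
  calc M.P (fun τ => ¬ ∀ i ∈ s, ¬ p i τ) ≤ M.P (fun τ => ∃ i ∈ s, p i τ) := by
        refine M.P_mono fun τ _ hτ => ?_
        push Not at hτ
        exact hτ
    _ ≤ ∑ i ∈ s, M.P (p i) := M.P_exists_le _ _
    _ ≤ ∑ _i ∈ s, δ := sum_le_sum fun i hi => h i hi
    _ = s.card * δ := by rw [sum_const, nsmul_eq_mul]

private theorem Fin5_card (c₁ A : ℝ) (hc : 0 < c₁) (hc1 : c₁ ≤ 1) (hA : 0 ≤ A) : ∃ r₀ : ℕ, ∀ r K : ℕ, r₀ ≤ r → K = r ^ 5 →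
    ∀ n : ℕ, (n : ℝ) ≤ A * (r : ℝ) ^ 4 + 1 → ((bseq K n).card : ℝ) * Real.exp (-(c₁ * (r : ℝ) ^ 5 / 8)) ≤ 1 / 16 := by
  set L : ℝ := Real.log (96 / c₁) with hL
  have h96 : 1 ≤ 96 / c₁ := by
    rw [le_div_iff₀ hc]; linarith
  have hL0 : 0 ≤ L := Real.log_nonneg h96
  obtain ⟨r₀, hr₀⟩ := exists_nat_ge (32 * (A + 1) * L / c₁ + 240 / c₁ + 1)
  refine ⟨r₀, ?_⟩
  rintro r K hr rfl n hn
  have hr1 : 32 * (A + 1) * L / c₁ + 240 / c₁ + 1 ≤ (r : ℝ) := hr₀.trans (by exact_mod_cast hr)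
  have e1 : 0 ≤ 32 * (A + 1) * L / c₁ := by positivity
  have e2 : 0 ≤ 240 / c₁ := by positivity
  have hr2 : (1 : ℝ) ≤ r := by linarith
  have hr3 : 32 * (A + 1) * L ≤ c₁ * r := by
    have : 32 * (A + 1) * L / c₁ ≤ r := by linarith
    rw [div_le_iff₀ hc] at this
    linarith
  have hr4 : 240 ≤ c₁ * r := by
    have : 240 / c₁ ≤ r := by linarith
    rw [div_le_iff₀ hc] at this
    linarith
  have hx : 0 < c₁ / 96 := by positivity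
  have hx1 : c₁ / 96 < 1 := by linarith
  have hb := card_bseq (r ^ 5) n hx hx1
  have k1 : (1 + c₁ / 96) / (1 - c₁ / 96) ≤ Real.exp (c₁ / 32) := by
    have f1 : 1 + c₁ / 96 ≤ Real.exp (c₁ / 96) := by
      have := Real.add_one_le_exp (c₁ / 96); linarith
    have f2 : 1 + c₁ / 48 ≤ Real.exp (c₁ / 48) := by
      have := Real.add_one_le_exp (c₁ / 48); linarith
    have f3 : 1 / (1 - c₁ / 96) ≤ 1 + c₁ / 48 := by
      rw [div_le_iff₀ (by linarith)]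
      nlinarith
    have f4 : (1 + c₁ / 96) / (1 - c₁ / 96) = (1 + c₁ / 96) * (1 / (1 - c₁ / 96)) := by ring
    have f5 : 0 ≤ 1 / (1 - c₁ / 96) := by
      apply div_nonneg (by norm_num); linarith
    rw [f4]
    calc (1 + c₁ / 96) * (1 / (1 - c₁ / 96)) ≤ Real.exp (c₁ / 96) * Real.exp (c₁ / 48) :=
          mul_le_mul f1 (f3.trans f2) f5 (Real.exp_pos _).le
      _ = Real.exp (c₁ / 32) := by rw [← Real.exp_add]; congr 1; ring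
  have k1' : 0 ≤ (1 + c₁ / 96) / (1 - c₁ / 96) := by
    apply div_nonneg <;> linarith
  have k2 : ((1 + c₁ / 96) / (1 - c₁ / 96)) ^ (r ^ 5) ≤ Real.exp (c₁ / 32 * (r : ℝ) ^ 5) := by
    have := pow_le_pow_left₀ k1' k1 (r ^ 5)
    rw [← Real.exp_nat_mul] at this
    refine this.trans (le_of_eq ?_)
    congr 1
    push_cast
    ring
  have k3 : 1 / (c₁ / 96) ^ n = Real.exp (n * L) := by
    rw [Real.exp_nat_mul, hL, Real.exp_log (by positivity)]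
    rw [one_div, ← inv_pow]
    congr 1
    rw [inv_div]
  have k4 : (n : ℝ) * L ≤ c₁ / 32 * (r : ℝ) ^ 5 := by
    have g1 : (n : ℝ) ≤ (A + 1) * (r : ℝ) ^ 4 := by
      have : (1 : ℝ) ≤ (r : ℝ) ^ 4 := one_le_pow₀ hr2
      nlinarith
    have g2 : (n : ℝ) * L ≤ (A + 1) * (r : ℝ) ^ 4 * L := mul_le_mul_of_nonneg_right g1 hL0
    have g3 : 32 * (A + 1) * L * (r : ℝ) ^ 4 ≤ c₁ * r * (r : ℝ) ^ 4 :=
      mul_le_mul_of_nonneg_right hr3 (by positivity)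
    have g4 : c₁ * r * (r : ℝ) ^ 4 = c₁ * (r : ℝ) ^ 5 := by ring
    linarith
  have k5 : ((bseq (r ^ 5) n).card : ℝ) ≤ Real.exp (c₁ / 32 * (r : ℝ) ^ 5) * Real.exp (n * L) := by
    refine hb.trans ?_
    rw [div_eq_mul_one_div, k3]
    exact mul_le_mul_of_nonneg_right k2 (Real.exp_pos _).le
  have k6 : (15 : ℝ) ≤ c₁ * (r : ℝ) ^ 5 / 16 := by
    have g1 : (1 : ℝ) ≤ (r : ℝ) ^ 4 := one_le_pow₀ hr2
    have g2 : c₁ * r * 1 ≤ c₁ * r * (r : ℝ) ^ 4 := mul_le_mul_of_nonneg_left g1 (by positivity)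
    have g4 : c₁ * r * (r : ℝ) ^ 4 = c₁ * (r : ℝ) ^ 5 := by ring
    linarith
  calc ((bseq (r ^ 5) n).card : ℝ) * Real.exp (-(c₁ * (r : ℝ) ^ 5 / 8))
      ≤ Real.exp (c₁ / 32 * (r : ℝ) ^ 5) * Real.exp (n * L) * Real.exp (-(c₁ * (r : ℝ) ^ 5 / 8)) :=
        mul_le_mul_of_nonneg_right k5 (Real.exp_pos _).le
    _ = Real.exp (c₁ / 32 * (r : ℝ) ^ 5 + n * L + -(c₁ * (r : ℝ) ^ 5 / 8)) := by
        rw [← Real.exp_add, ← Real.exp_add]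
    _ ≤ Real.exp (-15) := by
        apply Real.exp_le_exp.2
        linarith
    _ ≤ 1 / 16 := by
        rw [Real.exp_neg, ← one_div]
        apply one_div_le_one_div_of_le (by norm_num)
        have := Real.add_one_le_exp (15 : ℝ)
        linarith

private theorem Fin5_ln (c : Crd) (y₀ : V) (Λ B : ℝ) :
    c.p y₀ - 13 * c.C - 40 * (Λ * B) ≤ ln c y₀ Λ B ∧ ln c y₀ Λ B ≤ c.p y₀ - 7 * c.C - 40 * (Λ * B) := by
  have h1 := abs_le.1 (c.rd_p (10 * c.C) 0)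
  have h2 := abs_le.1 (c.rd_p (20 * (Λ * B)) 0)
  have h3 : ln c y₀ Λ B = c.p y₀ - c.p (c.rd (10 * c.C) 0) - c.p (c.rd (20 * (Λ * B)) 0) - c.p (c.rd (20 * (Λ * B)) 0) := by
    unfold ln bv
    rw [map_sub, map_sub, map_sub]
  rw [h3]
  constructor <;> linarith [h1.1, h1.2, h2.1, h2.2]

private theorem Fin5_markov {Q : Par} {M : Mdl Q.a Q.b} (c : Crd) {X : ℝ} (hX : 0 < X) (y : V) :
    M.P (fun τ => ¬ (Ts Q.b c τ 0 y - c.p y ≤ X)) ≤ Sx M c y / X := by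
  refine le_trans (M.P_mono fun τ _ hτ => ?_)
    (M.markov (F := fun τ => max (Ts Q.b c τ 0 y - c.p y) 0) (fun τ _ => le_max_right _ _) hX)
  push Not at hτ
  exact le_trans hτ.le (le_max_left _ _)

open Classical in
private noncomputable def Fin5_cnt (b : ℝ) (c : Crd) (y₀ : V) (Λ B : ℝ) (m : ℕ) (κ : ℕ → ℝ) (τ : Env) : ℝ :=
  (((range m).filter fun j => ln c y₀ Λ B + B / 8 ≤ bc b c y₀ Λ B (2 * j) (κ (2 * j)) τ).card : ℝ)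

private theorem Fin5_num {b C C₂ c₁ η ρ t B m s X h k cst : ℝ} (hc₁ : 0 < c₁) (hη0 : 0 < η)
    (hη : 4096 * (b * C + 1) * η ≤ c₁) (hρ : 0 < ρ) (ht : 0 < t) (hB : 0 < B) (hX : X = 16 * C₂ * t) (hh : h = η * B)
    (hs : 2 * m * s = t) (hm : 2 * m * B = ρ * t)
    (hr : 128 * ((4 * b * C + 1) * (16 * C₂ + 1) + 2) ≤ c₁ * ρ)
    (hcst : cst = (4 * b * C + 1) * (2 * C + 40 * m * C) + 80 * b * C ^ 2 * m + 40 * m * C) (hct : cst ≤ t)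
    (hk : c₁ * m / 4 < k)
    (hf : k * (B / 8) ≤ (4 * b * C + 1) * (X + 2 * C + 2 * m * (s + 20 * C)) + 4 * b * C * m * (2 * h + 20 * C) +
          2 * m * (s + 20 * C)) : False := by
  have e1 : c₁ * m / 4 * (B / 8) < k * (B / 8) := mul_lt_mul_of_pos_right hk (by positivity)
  have e2 : c₁ * m / 4 * (B / 8) = c₁ * ρ * t / 64 := by
    have : c₁ * m / 4 * (B / 8) = c₁ * (2 * m * B) / 64 := by ring
    rw [this, hm]; ring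
  have e3 : (4 * b * C + 1) * (X + 2 * C + 2 * m * (s + 20 * C)) + 4 * b * C * m * (2 * h + 20 * C) +
          2 * m * (s + 20 * C) = ((4 * b * C + 1) * (16 * C₂ + 1) + 1) * t + 4 * b * C * η * (ρ * t) + cst := by
    have : (4 * b * C + 1) * (X + 2 * C + 2 * m * (s + 20 * C)) + 4 * b * C * m * (2 * h + 20 * C) +
          2 * m * (s + 20 * C) = (4 * b * C + 1) * (16 * C₂ * t + 2 * C + 2 * m * s + 40 * m * C) +
          4 * b * C * η * (2 * m * B) + 80 * b * C ^ 2 * m + (2 * m * s + 40 * m * C) := by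
      rw [hX, hh]; ring
    rw [this, hs, hm, hcst]; ring
  have e4 : ((4 * b * C + 1) * (16 * C₂ + 1) + 2) * t ≤ c₁ * ρ * t / 128 := by
    have := mul_le_mul_of_nonneg_right hr ht.le
    linarith
  have e5 : 4 * b * C * η * (ρ * t) ≤ c₁ * ρ * t / 1024 := by
    have f1 : 4096 * (b * C * η) ≤ c₁ := by nlinarith
    have f2 := mul_le_mul_of_nonneg_right f1 (mul_pos hρ ht).le
    have f3 : 4096 * (b * C * η) * (ρ * t) = 1024 * (4 * b * C * η * (ρ * t)) := by ring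
    have f4 : c₁ * (ρ * t) = c₁ * ρ * t := by ring
    linarith
  have e6 : 0 < c₁ * ρ * t := by positivity
  have e7 : ((4 * b * C + 1) * (16 * C₂ + 1) + 1) * t + cst ≤ ((4 * b * C + 1) * (16 * C₂ + 1) + 2) * t := by
    have : ((4 * b * C + 1) * (16 * C₂ + 1) + 2) * t = ((4 * b * C + 1) * (16 * C₂ + 1) + 1) * t + t := by ring
    linarith
  rw [e3] at hf
  linarith

/-- THE CONTRADICTION AT A RECORD.  PROOF. `C₁` = the maximum of the constants of `block_slow`, `no_lucky` (for `c`, `mir c`) and `10 (b / a) C` times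
that of `P_Fw`; `c₁` from `block_slow`.  Let
`η = min (1/8) (c₁ / (2^12 (b C + 1)))`, `A = 2^10 (C₂ + 1) / η`, `m` large (see below), `K = 2 m`,
`X = 16 C₂ K^(4/5) B`, `θ = C₃ K^(4/5) B` with `C₃` such that `P_Fw` gives `1/16`, `Λ = C₄ K^(4/5)` with `X + 2 θ ≤ Λ B / 4`, `Λ ≥ 8 η`, `s = K^(-1/5)`,
`h = η B`, `n ≤ A K^(4/5) + 1` a natural number with `3 (X + 2 C + K (s B + 20 C)) ≤ h n`, `p₀ = 1 / (64 K)`; then `B₀` large.  The following have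
probability at least `1 - 1/16` (resp. `15/16` in total for all `i`): `Ts 0 Y - p Y ≤ X` (Markov, `Ub` at the scale `K p y₀`); `Fw`, `Bw` with
`N = (b / a) nm Y` (or a simple upper bound) (`P_Fw` at this scale, `P_Bw`);
no region `i < K` lucky for `c` and for `mir c` (`no_lucky` at the scale `n = p y₀`, with `C₂ B` for its `B`, `Λ / C₂` for its `Λ` (so choose `Λ ≥ C₂`),
`s / C₂` for its `s`; `P_Lucky`: `2 K p₀`; the hypotheses for `mir c` are those for `c`: same `p`, `|q|`, `Kn`, `Db`); for every `z ∈ bseq K n` with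
`|rw z h i| ≤ 3 Λ B / 8` (so `|q (e - x)| ≤ Λ B / 2` in `block_slow`, `e = c.rd (i l) (rw z h i)`, `x = c.rd (i l) 0`) more than `c₁ m / 4` slow even blocks (`chern_rows` with `κ = rw z h`, `block_slow`; `count_small` with `c = c₁ / 8`).  So some
environment satisfies all of them, and `det_part` gives
`(c₁ m / 4) (B / 8) < (4 b C + 1) (X + 2 C + 2 m (s B + 20 C)) + 4 b C m (2 h + 20 C) + 2 m (s B + 20 C)`: false for `m` large and then `B` large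
(`X = 16 C₂ (2m)^(4/5) B`, `m s = m (2m)^(-1/5)`, `8 b C h ≤ c₁ B / 2^9`). -/
theorem contra (Q : Par) (g : V → ℝ) (c : Crd) (hg : IsMean Q g) (h : Cnr g c) (hcb : CornerBound g c) :
    ∃ C₁ : ℝ, 1 ≤ C₁ ∧ ∀ C₂ : ℝ, 1 ≤ C₂ → ∃ (K : ℕ) (B₀ : ℝ), 2 ≤ K ∧ 1 ≤ B₀ ∧
    ∀ (B R : ℝ) (M : Mdl Q.a Q.b) (y₀ : V), B₀ ≤ B → |c.q y₀| ≤ 9 * c.C → B₀ * B ≤ c.p y₀ → B₀ * c.p y₀ ^ 12 ≤ R →
      Good Q g R M → Ub M c (C₁ * c.p y₀) (C₂ * B) → Ub M c (C₁ * (K * c.p y₀)) (C₂ * ((K : ℝ) ^ ((4 : ℝ) / 5) * B)) →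
      B ≤ Sx M c y₀ → False := by
  have hC := c.one_le
  have hl := h.low
  have ha := Q.ha
  have hb : 0 < Q.b := Q.ha.trans Q.hab
  obtain ⟨Cb, hCb, Hb⟩ := block_slow Q g c hg hl hcb
  obtain ⟨C0, hC0, H0⟩ := no_lucky Q g c hg h hcb
  obtain ⟨C1, hC1, H1⟩ := no_lucky Q g (mir c) hg (Cnr_mir h) (Fin5_cb_mir hcb)
  obtain ⟨Cf, hCf, Hf⟩ := P_Fw Q g c hg hl
  have hab : 1 ≤ Q.b / Q.a := by rw [le_div_iff₀ ha]; linarith [Q.hab]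
  obtain ⟨D, hD⟩ : ∃ D : ℝ, D = 2 * c.C * (Q.b / Q.a) := ⟨_, rfl⟩
  have hD1 : 1 ≤ D := by rw [hD]; nlinarith
  have hCfD : 1 ≤ Cf * D := by nlinarith
  refine ⟨Cb + C0 + C1 + Cf * D, by linarith, fun C₂ hC₂ => ?_⟩
  obtain ⟨c₁, hc₁, hc₁1, Hb⟩ := Hb C₂ hC₂
  have hbC : 0 < Q.b * c.C := by positivity
  obtain ⟨η, hη0, hη8, hηc⟩ : ∃ η : ℝ, 0 < η ∧ η ≤ 1 / 8 ∧ 4096 * (Q.b * c.C + 1) * η ≤ c₁ := by
    refine ⟨min (1 / 8) (c₁ / (4096 * (Q.b * c.C + 1))), ?_, min_le_left _ _, ?_⟩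
    · apply lt_min (by norm_num)
      positivity
    · calc 4096 * (Q.b * c.C + 1) * min (1 / 8) (c₁ / (4096 * (Q.b * c.C + 1)))
          ≤ 4096 * (Q.b * c.C + 1) * (c₁ / (4096 * (Q.b * c.C + 1))) :=
            mul_le_mul_of_nonneg_left (min_le_right _ _) (by positivity)
        _ = c₁ := by field_simp
  obtain ⟨A, hA⟩ : ∃ A : ℝ, A = 3 * (16 * C₂ + 2) / η := ⟨_, rfl⟩
  have hA0 : 0 ≤ A := by rw [hA]; positivity
  obtain ⟨r₀, Hr₀⟩ := Fin5_card c₁ A hc₁ hc₁1 hA0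
  obtain ⟨u₀, hu₀⟩ := exists_nat_ge (128 * ((4 * Q.b * c.C + 1) * (16 * C₂ + 1) + 2) / c₁)
  obtain ⟨u, hu⟩ : ∃ u : ℕ, u = r₀ + u₀ + 1 := ⟨_, rfl⟩
  obtain ⟨m, hm⟩ : ∃ m : ℕ, m = 16 * u ^ 5 := ⟨_, rfl⟩
  have hu1 : 1 ≤ u := by omega
  have hm1 : 1 ≤ m := by
    have : 0 < u ^ 5 := pow_pos hu1 5
    omega
  have hmK : 2 * m = (2 * u) ^ 5 := by rw [hm]; ring
  obtain ⟨ρ, hρ⟩ : ∃ ρ : ℝ, ρ = ((2 * u : ℕ) : ℝ) := ⟨_, rfl⟩
  have hρ1 : 1 ≤ ρ := by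
    rw [hρ]; exact_mod_cast (by omega : 1 ≤ 2 * u)
  have hmρ : 2 * (m : ℝ) = ρ ^ 5 := by
    rw [hρ]; exact_mod_cast hmK
  have hmρ' : ((2 * m : ℕ) : ℝ) = ρ ^ 5 := by
    rw [hρ]; exact_mod_cast hmK
  have hK4 : ((2 * m : ℕ) : ℝ) ^ ((4 : ℝ) / 5) = ρ ^ 4 := by
    rw [hmρ', ← Real.rpow_natCast ρ 5, ← Real.rpow_mul (by linarith), ← Real.rpow_natCast ρ 4]
    norm_num
  have hr : 128 * ((4 * Q.b * c.C + 1) * (16 * C₂ + 1) + 2) ≤ c₁ * ρ := by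
    rw [div_le_iff₀ hc₁] at hu₀
    have : (u₀ : ℝ) ≤ ρ := by
      rw [hρ]; exact_mod_cast (by omega : u₀ ≤ 2 * u)
    nlinarith
  have hρ4 : 1 ≤ ρ ^ 4 := one_le_pow₀ hρ1
  obtain ⟨Λ, hΛ⟩ : ∃ Λ : ℝ, Λ = 64 * C₂ * (1 + 2 * Cf) * ρ ^ 4 := ⟨_, rfl⟩
  have hΛ1 : C₂ ≤ Λ := by
    rw [hΛ]
    have e1 : C₂ ≤ 64 * C₂ * (1 + 2 * Cf) := by nlinarith
    have e2 : 64 * C₂ * (1 + 2 * Cf) * 1 ≤ 64 * C₂ * (1 + 2 * Cf) * ρ ^ 4 :=
      mul_le_mul_of_nonneg_left hρ4 (by positivity)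
    linarith
  have hΛ2 : 1 ≤ Λ := hC₂.trans hΛ1
  obtain ⟨B1, hB1, Hb⟩ := Hb Λ hΛ2
  have hmpos : (0 : ℝ) < m := by exact_mod_cast hm1
  obtain ⟨D2, hD2, H0⟩ := H0 (1 / (ρ * C₂)) (Λ / C₂) (1 / (64 * (2 * m))) (by positivity)
    (by rw [le_div_iff₀ (by linarith)]; linarith) (by positivity)
  obtain ⟨D3, hD3, H1⟩ := H1 (1 / (ρ * C₂)) (Λ / C₂) (1 / (64 * (2 * m))) (by positivity)
    (by rw [le_div_iff₀ (by linarith)]; linarith) (by positivity)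
  obtain ⟨cst, hcst⟩ : ∃ cst : ℝ, cst = (4 * Q.b * c.C + 1) * (2 * c.C + 40 * m * c.C) + 80 * Q.b * c.C ^ 2 * m +
    40 * m * c.C := ⟨_, rfl⟩
  have hcst1 : 2 * c.C + 40 * m * c.C ≤ cst := by
    rw [hcst]
    have : 0 ≤ 4 * Q.b * c.C * (2 * c.C + 40 * m * c.C) := by positivity
    have : 0 ≤ 80 * Q.b * c.C ^ 2 * m + 40 * m * c.C := by positivity
    linarith
  have hcst0 : 0 ≤ cst := le_trans (by positivity) hcst1
  obtain ⟨B0, g0, g1, g2, g3, g4, g5, g6, g7, g8⟩ : ∃ B0 : ℝ, 1 ≤ B0 ∧ B1 ≤ B0 ∧ D2 * C₂ ≤ B0 ∧ D3 * C₂ ≤ B0 ∧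
      Cf * (D * (2 * m)) ^ 12 ≤ B0 ∧ 3 * c.C * (2 * m + 2) ≤ B0 ∧ 200 * Λ ≤ B0 ∧ 200 * c.C ≤ B0 ∧ cst ≤ B0 := by
    have e1 : 0 ≤ D2 * C₂ := by positivity
    have e2 : 0 ≤ D3 * C₂ := by positivity
    have e3 : 0 ≤ Cf * (D * (2 * m)) ^ 12 := by positivity
    have e4 : 0 ≤ 3 * c.C * (2 * m + 2) := by positivity
    refine ⟨B1 + D2 * C₂ + D3 * C₂ + Cf * (D * (2 * m)) ^ 12 + 3 * c.C * (2 * m + 2) + 200 * Λ + 200 * c.C + cst,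
      ?_, ?_, ?_, ?_, ?_, ?_, ?_, ?_, ?_⟩ <;> linarith
  refine ⟨2 * m, B0, by omega, g0, ?_⟩
  intro B R M y₀ hB hq hBP hR hG hU1 hU2 hSx
  have hB1' : 1 ≤ B := g0.trans hB
  have hBpos : 0 < B := by linarith
  have hPx : ∀ x : ℝ, x ≤ B0 → x * B ≤ c.p y₀ := fun x hx =>
    (mul_le_mul_of_nonneg_right hx hBpos.le).trans hBP
  have hP1 : 1 ≤ c.p y₀ := by
    have := hPx 1 g0
    linarith
  have hP12 : 0 ≤ c.p y₀ ^ 12 := by positivity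
  have hRx : ∀ x : ℝ, x ≤ B0 → x * c.p y₀ ^ 12 ≤ R := fun x hx =>
    (mul_le_mul_of_nonneg_right hx hP12).trans hR
  have hPP : c.p y₀ ≤ c.p y₀ ^ 12 := le_self_pow₀ hP1 (by norm_num)
  have hΛB : B ≤ Λ * B := Fin5_le_mul hΛ2 hBpos.le
  have hΛB0 : 0 < Λ * B := by positivity
  have hΛC : 200 * c.C ≤ Λ * B := (g7.trans hB).trans hΛB
  have hΛP : 200 * (Λ * B) ≤ c.p y₀ := by
    have := hPx _ g6
    linarith
  obtain ⟨hln1, hln2⟩ := Fin5_ln c y₀ Λ B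
  have hl1 : c.p y₀ / 2 ≤ ln c y₀ Λ B := by linarith
  have hl2 : ln c y₀ Λ B ≤ c.p y₀ - 7 * c.C := by linarith
  have hl3 : 10 * (Λ * B) ≤ ln c y₀ Λ B := by linarith
  obtain ⟨l, hldef⟩ : ∃ l : ℝ, l = ln c y₀ Λ B := ⟨_, rfl⟩
  have hm1' : (1 : ℝ) ≤ m := by exact_mod_cast hm1
  have hl4 : 2 * m * ln c y₀ Λ B + 3 * c.C ≤ 2 * m * c.p y₀ := by
    have e1 := mul_le_mul_of_nonneg_left hl2 (by positivity : (0 : ℝ) ≤ 2 * m)
    have e2 : c.C ≤ m * c.C := Fin5_le_mul hm1' (by linarith)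
    have e3 : 2 * (m : ℝ) * (c.p y₀ - 7 * c.C) = 2 * m * c.p y₀ - 14 * (m * c.C) := by ring
    linarith
  have hl0 : 0 ≤ 2 * m * ln c y₀ Λ B := by
    have : 0 ≤ ln c y₀ Λ B := by linarith
    positivity
  -- the end point
  obtain ⟨Y, hY⟩ : ∃ Y : V, Y = c.rd (2 * m * ln c y₀ Λ B + c.C) 0 := ⟨_, rfl⟩
  have hYp := abs_le.1 (c.rd_p (2 * m * ln c y₀ Λ B + c.C) 0)
  have hYq := c.rd_q (2 * m * ln c y₀ Λ B + c.C) 0
  rw [← hY, sub_zero] at hYq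
  rw [← hY] at hYp
  have hYp0 : 0 ≤ c.p Y := by linarith [hYp.1]
  have hYp1 : c.p Y ≤ 2 * m * c.p y₀ := by linarith [hYp.2]
  have hYn : Q.b / Q.a * nm Y ≤ D * (2 * m * c.p y₀) := by
    have e1 := c.nm_le Y
    have e2 : |c.p Y| + |c.q Y| ≤ 2 * (2 * m * c.p y₀) := by
      rw [abs_of_nonneg hYp0]
      linarith [hYp.2]
    have e3 : nm Y ≤ c.C * (2 * (2 * m * c.p y₀)) := e1.trans (mul_le_mul_of_nonneg_left e2 (by linarith))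
    calc Q.b / Q.a * nm Y ≤ Q.b / Q.a * (c.C * (2 * (2 * m * c.p y₀))) := mul_le_mul_of_nonneg_left e3 (by linarith)
      _ = D * (2 * m * c.p y₀) := by rw [hD]; ring
  obtain ⟨t, ht⟩ : ∃ t : ℝ, t = ρ ^ 4 * B := ⟨_, rfl⟩
  have htB : B ≤ t := by rw [ht]; exact Fin5_le_mul hρ4 hBpos.le
  have ht0 : 0 < t := by linarith
  rw [hK4, ← ht] at hU2
  have hC1pos : 1 ≤ Cb + C0 + C1 + Cf * D := by linarith
  have hmP : 0 ≤ 2 * m * c.p y₀ := by positivity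
  have hmP' : ((2 * m : ℕ) : ℝ) * c.p y₀ = 2 * m * c.p y₀ := by push_cast; ring
  rw [hmP'] at hU2
  have hCp : ∀ x : ℝ, 0 ≤ x → x ≤ (Cb + C0 + C1 + Cf * D) * x := fun x hx => Fin5_le_mul hC1pos hx
  have hSY : Sx M c Y ≤ C₂ * t := hU2 Y hYp0 (hYp1.trans (hCp _ hmP)) (by linarith)
  have hX0 : 0 < 16 * C₂ * t := by positivity
  have hθ0 : 0 < 16 * Cf * C₂ * t := by positivity
  -- event 1
  have q1 : M.P (fun τ => ¬ (Ts Q.b c τ 0 Y - c.p Y ≤ 16 * C₂ * t)) ≤ 1 / 16 := by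
    refine (Fin5_markov c hX0 Y).trans ?_
    rw [div_le_iff₀ hX0]
    linarith
  -- event 2
  have hnF : 1 ≤ D * (2 * m * c.p y₀) := by
    have e1 : 1 ≤ 2 * m * c.p y₀ := hP1.trans (Fin5_le_mul (by linarith) (by linarith))
    exact e1.trans (Fin5_le_mul hD1 (by linarith))
  have q2 : M.P (fun τ => ¬ Fw Q.b c (D * (2 * m * c.p y₀)) (16 * Cf * C₂ * t) τ) ≤ 1 / 16 := by
    have e1 : Cf * (D * (2 * m * c.p y₀)) ^ 12 ≤ R := by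
      have := hRx _ g4
      calc Cf * (D * (2 * m * c.p y₀)) ^ 12 = Cf * (D * (2 * m)) ^ 12 * c.p y₀ ^ 12 := by ring
        _ ≤ R := this
    have e2 : Ub M c (Cf * (D * (2 * m * c.p y₀))) (C₂ * t) := by
      refine Fin5_Ub hU2 ?_ le_rfl
      have : Cf * (D * (2 * m * c.p y₀)) = (Cf * D) * (2 * m * c.p y₀) := by ring
      rw [this]
      exact mul_le_mul_of_nonneg_right (by linarith) hmP
    refine (Hf _ R M hnF e1 hG (C₂ * t) ((by linarith : 1 ≤ t).trans (Fin5_le_mul hC₂ ht0.le)) e2 _ hθ0).trans ?_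
    rw [div_le_iff₀ hθ0]
    linarith
  have q3 : M.P (fun τ => ¬ Bw Q.b c (D * (2 * m * c.p y₀)) (16 * Cf * C₂ * t) Y τ) ≤ 1 / 16 := by
    rw [P_Bw hG]
    exact q2
  -- lucky
  have hs0 : 0 ≤ B / ρ := by positivity
  have hD2B : D2 ≤ B0 := (by rw [mul_comm]; exact Fin5_le_mul hC₂ (by linarith) : D2 ≤ D2 * C₂).trans g2
  have hD3B : D3 ≤ B0 := (by rw [mul_comm]; exact Fin5_le_mul hC₂ (by linarith) : D3 ≤ D3 * C₂).trans g3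
  have k1 : Λ / C₂ * (C₂ * B) = Λ * B := by field_simp
  have k2 : 1 / (ρ * C₂) * (C₂ * B) = B / ρ := by field_simp
  have k3 : (((2 * m : ℕ) : ℝ)) * (1 / (64 * (2 * m))) = 1 / 64 := by
    push_cast
    field_simp
  have q4 : M.P (fun τ => ¬ ∀ i < 2 * m, ¬ Lucky Q.b c (c.rd (i * ln c y₀ Λ B) 0) (ln c y₀ Λ B) (Λ * B) (B / ρ) τ) ≤
      1 / 64 := by
    rw [← k3]
    refine Fin5_union M (p := fun i τ => Lucky Q.b c (c.rd (i * ln c y₀ Λ B) 0) (ln c y₀ Λ B) (Λ * B) (B / ρ) τ)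
      fun i _ => ?_
    refine (P_Lucky hG c _ _ _ _).le.trans ?_
    have := H0 (c.p y₀) (C₂ * B) R M hP1 (hRx _ hD2B) hG
      (Fin5_Ub hU1 (mul_le_mul_of_nonneg_right (by linarith) (by linarith)) le_rfl)
      ((hD2B.trans hB).trans (Fin5_le_mul hC₂ hBpos.le))
      (by have := hPx _ g2; linarith) (ln c y₀ Λ B) hl1 (by linarith)
    rw [k1, k2] at this
    exact this
  have q5 : M.P (fun τ => ¬ ∀ i < 2 * m, ¬ Lucky Q.b (mir c) (c.rd (i * ln c y₀ Λ B) 0) (ln c y₀ Λ B) (Λ * B) (B / ρ) τ) ≤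
      1 / 64 := by
    rw [← k3]
    refine Fin5_union M (p := fun i τ => Lucky Q.b (mir c) (c.rd (i * ln c y₀ Λ B) 0) (ln c y₀ Λ B) (Λ * B) (B / ρ) τ)
      fun i _ => ?_
    refine (P_Lucky hG (mir c) _ _ _ _).le.trans ?_
    have := H1 (c.p y₀) (C₂ * B) R M hP1 (hRx _ hD3B) hG
      ((Ub_mir M c _ _).2 (Fin5_Ub hU1 (mul_le_mul_of_nonneg_right (by linarith) (by linarith)) le_rfl))
      ((hD3B.trans hB).trans (Fin5_le_mul hC₂ hBpos.le))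
      (by have := hPx _ g3; linarith) (ln c y₀ Λ B) hl1 (by linarith)
    rw [k1, k2] at this
    exact this
  -- rows
  obtain ⟨n, hn⟩ : ∃ n : ℕ, n = ⌈A * ρ ^ 4⌉₊ := ⟨_, rfl⟩
  have hn1 : A * ρ ^ 4 ≤ n := by rw [hn]; exact Nat.le_ceil _
  have hn2 : (n : ℝ) ≤ A * ρ ^ 4 + 1 := by
    rw [hn]; exact (Nat.ceil_lt_add_one (by positivity)).le
  have hR3 : 3 * c.C * (2 * m * ln c y₀ Λ B + 2 * (Λ * B)) + 3 * c.C ≤ R := by
    have e1 := hRx _ g5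
    have e2 : 3 * c.C * (2 * m + 2) * c.p y₀ ≤ 3 * c.C * (2 * m + 2) * c.p y₀ ^ 12 :=
      mul_le_mul_of_nonneg_left hPP (by positivity)
    have e3 : 3 * c.C * (2 * m * ln c y₀ Λ B + 2 * (Λ * B)) ≤ 3 * c.C * (2 * m * c.p y₀ + c.p y₀) :=
      mul_le_mul_of_nonneg_left (by linarith) (by positivity)
    have e4 : 3 * c.C * 1 ≤ 3 * c.C * c.p y₀ := mul_le_mul_of_nonneg_left hP1 (by positivity)
    have e5 : 3 * c.C * (2 * m + 2) * c.p y₀ = 3 * c.C * (2 * m * c.p y₀ + c.p y₀) + 3 * c.C * c.p y₀ := by ring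
    linarith
  have hUb : Ub M c (Cb * c.p y₀) (C₂ * B) :=
    Fin5_Ub hU1 (mul_le_mul_of_nonneg_right (by linarith) (by linarith)) le_rfl
  have hslow : ∀ z ∈ (bseq (2 * m) n).filter
      (fun z => ∀ i ≤ 2 * m, |Pool.Agent.W_1b8d5d_c1.rw z (η * B) i| ≤ 3 * (Λ * B) / 8),
      M.P (fun τ => Fin5_cnt Q.b c y₀ Λ B m (fun i => Pool.Agent.W_1b8d5d_c1.rw z (η * B) i) τ ≤ c₁ * m / 4) ≤
        Real.exp (-(c₁ * m / 4)) := by
    intro z hz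
    have hz2 := (mem_filter.1 hz).2
    refine chern_rows hG m (by linarith) (by linarith) hR3 (fun i => Pool.Agent.W_1b8d5d_c1.rw z (η * B) i) fun j hj => ?_
    refine Hb B R M y₀ (g1.trans hB) hq (hPx _ g1) (hRx _ g1) hG hUb hSx
      (c.rd (((2 * j : ℕ) : ℝ) * ln c y₀ Λ B) 0)
      (c.rd (((2 * j : ℕ) : ℝ) * ln c y₀ Λ B) (Pool.Agent.W_1b8d5d_c1.rw z (η * B) (2 * j))) ?_ ?_
    · have f1 := abs_le.1 (c.rd_p (((2 * j : ℕ) : ℝ) * ln c y₀ Λ B) 0)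
      have f2 := abs_le.1 (c.rd_p (((2 * j : ℕ) : ℝ) * ln c y₀ Λ B) (Pool.Agent.W_1b8d5d_c1.rw z (η * B) (2 * j)))
      rw [map_sub, abs_le]
      constructor <;> linarith [f1.1, f1.2, f2.1, f2.2]
    · have f1 := abs_le.1 (c.rd_q (((2 * j : ℕ) : ℝ) * ln c y₀ Λ B) 0)
      have f2 := abs_le.1 (c.rd_q (((2 * j : ℕ) : ℝ) * ln c y₀ Λ B) (Pool.Agent.W_1b8d5d_c1.rw z (η * B) (2 * j)))
      have f3 := abs_le.1 (hz2 (2 * j) (by omega))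
      rw [map_sub, abs_le]
      constructor <;> linarith [f1.1, f1.2, f2.1, f2.2, f3.1, f3.2]
  have q6 : M.P (fun τ => ¬ ∀ z ∈ (bseq (2 * m) n).filter
      (fun z => ∀ i ≤ 2 * m, |Pool.Agent.W_1b8d5d_c1.rw z (η * B) i| ≤ 3 * (Λ * B) / 8),
      ¬ (Fin5_cnt Q.b c y₀ Λ B m (fun i => Pool.Agent.W_1b8d5d_c1.rw z (η * B) i) τ ≤ c₁ * m / 4)) ≤ 1 / 16 := by
    refine (Fin5_unionF M _ (p := fun z τ =>
      Fin5_cnt Q.b c y₀ Λ B m (fun i => Pool.Agent.W_1b8d5d_c1.rw z (η * B) i) τ ≤ c₁ * m / 4) hslow).trans ?_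
    have e1 := Hr₀ (2 * u) (2 * m) (by omega) hmK n (by rw [← hρ]; exact hn2)
    rw [← hρ] at e1
    have e2 : c₁ * m / 4 = c₁ * ρ ^ 5 / 8 := by
      rw [← hmρ]; ring
    rw [e2]
    refine le_trans (mul_le_mul_of_nonneg_right ?_ (Real.exp_pos _).le) e1
    exact_mod_cast card_le_card (filter_subset _ _)
  obtain ⟨τ, hτ, p1, p2, p3, p4, p5, p6⟩ := Fin5_exists M
    (fun τ => Ts Q.b c τ 0 Y - c.p Y ≤ 16 * C₂ * t)
    (fun τ => Fw Q.b c (D * (2 * m * c.p y₀)) (16 * Cf * C₂ * t) τ)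
    (fun τ => Bw Q.b c (D * (2 * m * c.p y₀)) (16 * Cf * C₂ * t) Y τ)
    (fun τ => ∀ i < 2 * m, ¬ Lucky Q.b c (c.rd (i * ln c y₀ Λ B) 0) (ln c y₀ Λ B) (Λ * B) (B / ρ) τ)
    (fun τ => ∀ i < 2 * m, ¬ Lucky Q.b (mir c) (c.rd (i * ln c y₀ Λ B) 0) (ln c y₀ Λ B) (Λ * B) (B / ρ) τ)
    (fun τ => ∀ z ∈ (bseq (2 * m) n).filter
      (fun z => ∀ i ≤ 2 * m, |Pool.Agent.W_1b8d5d_c1.rw z (η * B) i| ≤ 3 * (Λ * B) / 8),
      ¬ (Fin5_cnt Q.b c y₀ Λ B m (fun i => Pool.Agent.W_1b8d5d_c1.rw z (η * B) i) τ ≤ c₁ * m / 4))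
    (by linarith)
  have hms : 2 * m * (B / ρ) = t := by
    rw [hmρ, ht]
    have : ρ ≠ 0 := by linarith
    field_simp
  have hmB : 2 * m * B = ρ * t := by
    rw [hmρ, ht]; ring
  have hct : cst ≤ t := (g8.trans hB).trans htB
  have hηn : 3 * (16 * C₂ * t + 2 * c.C + 2 * m * (B / ρ + 20 * c.C)) ≤ η * B * n := by
    have e1 : 16 * C₂ * t + 2 * c.C + 2 * m * (B / ρ + 20 * c.C) = 16 * C₂ * t + t + (2 * c.C + 40 * m * c.C) := by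
      have : 2 * m * (B / ρ + 20 * c.C) = 2 * m * (B / ρ) + 40 * m * c.C := by ring
      rw [this, hms]; ring
    have e2 : η * B * (A * ρ ^ 4) ≤ η * B * n := mul_le_mul_of_nonneg_left hn1 (by positivity)
    have e3 : η * B * (A * ρ ^ 4) = 3 * (16 * C₂ + 2) * t := by
      rw [hA, ht]; field_simp
    rw [e1]
    linarith
  have hW : 16 * C₂ * t + 2 * (16 * Cf * C₂ * t) ≤ Λ * B / 4 := by
    rw [hΛ, ht]
    apply le_of_eq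
    ring
  obtain ⟨z, hz, hz1, hz2⟩ := det_part hτ hq (Λ := Λ) (B := B) (N := D * (2 * m * c.p y₀)) (θ := 16 * Cf * C₂ * t)
    (s := B / ρ) (h := η * B) (X := 16 * C₂ * t) m n hΛC hl3 (by positivity)
    (by
      have := mul_le_mul_of_nonneg_right hη8 hBpos.le
      linarith) hs0 p2 (by rw [← hY]; exact p3) (by rw [← hY]; exact hYn) (by rw [← hY]; exact p1) hW p4 p5 hηn
  have hk := p6 z (mem_filter.2 ⟨hz, hz1⟩)
  rw [not_le] at hk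
  exact Fin5_num (k := Fin5_cnt Q.b c y₀ Λ B m (fun i => Pool.Agent.W_1b8d5d_c1.rw z (η * B) i) τ)
    hc₁ hη0 hηc (by linarith) ht0 hBpos rfl rfl hms hmB hr hcst hct hk hz2

end Pool.Agent.W_1b8d5d_c1
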