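import Pool.Agent.W_1b8d5d_c1.SProp
import Pool.Agent.W_1b8d5d_h85.FlatA

/-!
MP_1b8d5d_pr, proofs row 571, (5a): the chain of the flat principle; passage time to a random point.
-/

set_option autoImplicit false

namespace Pool.Agent.W_1b8d5d_c1

open Finset Pool.Agent.W_1b8d5d_h85

/-- Mean passage times between arbitrary points.  PROOF.  `Good.inv`, `T_sh`. -/
theorem Good.E_T {Q : Par} {g : V → ℝ} {R : ℝ} {M : Mdl Q.a Q.b} (h : Good Q g R M) (x y : V) :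
    M.E (fun τ => T τ x y) = M.E fun τ => T τ 0 (y - x) := by
  rw [← h.inv x (fun τ => T τ 0 (y - x))]
  refine congrArg M.E (funext fun τ => ?_)
  rw [T_sh, zero_add, sub_add_cancel]

/-- Invariance of probabilities. -/
theorem Good.P_sh {Q : Par} {g : V → ℝ} {R : ℝ} {M : Mdl Q.a Q.b} (h : Good Q g R M) (z : V)
    (p : Env → Prop) : M.P (fun τ => p (sh z τ)) = M.P p := by
  classical
  rw [Mdl.P_def, Mdl.P_def]
  exact h.inv z (fun τ => if p τ then (1 : ℝ) else 0)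

theorem Good.P_rf {Q : Par} {g : V → ℝ} {R : ℝ} {M : Mdl Q.a Q.b} (h : Good Q g R M)
    (p : Env → Prop) : M.P (fun τ => p (rf τ)) = M.P p := by
  classical
  rw [Mdl.P_def, Mdl.P_def]
  exact h.refl (fun τ => if p τ then (1 : ℝ) else 0)

/-- The variance bound between arbitrary points. -/
theorem Good.var' {Q : Par} {g : V → ℝ} {R : ℝ} {M : Mdl Q.a Q.b} (h : Good Q g R M) {l : ℝ}
    {x y : V} (hl : 1 ≤ l) (hxy : nm (y - x) ≤ l) (hR : l ≤ R) :
    M.E (fun τ => (T τ x y - M.E fun τ => T τ x y) ^ 2) ≤ Q.K * S l ^ 2 := by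
  have h1 := h.inv x (fun τ => (T τ 0 (y - x) - M.E fun τ => T τ 0 (y - x)) ^ 2)
  have h2 : (M.E fun τ => (T τ x y - M.E fun τ => T τ x y) ^ 2) =
      M.E fun τ => (T (sh x τ) 0 (y - x) - M.E fun τ => T τ 0 (y - x)) ^ 2 := by
    rw [h.E_T x y]
    refine congrArg M.E (funext fun τ => ?_)
    rw [T_sh, zero_add, sub_add_cancel]
  rw [h2, h1]
  exact h.var l (y - x) hl hxy hR

/-- `|E T(x,y) - g (y - x)| ≤ 1`. -/
theorem Good.mean' {Q : Par} {g : V → ℝ} {R : ℝ} {M : Mdl Q.a Q.b} (h : Good Q g R M) {x y : V}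
    (hR : nm (y - x) ≤ R) : |M.E (fun τ => T τ x y) - g (y - x)| ≤ 1 := by
  rw [h.E_T x y]
  exact h.mean (y - x) hR

/-- The passage time to a random point.  PROOF.  `δ = X^(5/6)`; net points `δ * (i, j)` rounded, at most `(2X/δ + 3)²` of them;
`T(0,Z) - g(Z) ≥ - 1 - 4 b (δ + 1) - ∑ over the net |T(0,x') - E T(0,x')|`, and `E|·| ≤ √(K) S X ≤ √(2 K X)`
(`Ex_abs_le_sqrt`). -/
theorem random_point (Q : Par) : ∃ C : ℝ, ∀ (g : V → ℝ) (R : ℝ) (M : Mdl Q.a Q.b), IsMean Q g →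
    Good Q g R M → ∀ X : ℝ, 1 ≤ X → 2 * X ≤ R → ∀ Z : Env → V, (∀ τ, nm (Z τ) ≤ X) →
      M.E (fun τ => g (Z τ)) - C * X ^ (5 / 6 : ℝ) ≤ M.E fun τ => T τ 0 (Z τ) := by
  have hK0 : 0 ≤ Q.K := zero_le_one.trans Q.hK
  have hb0 : 0 < Q.b := Q.ha.trans Q.hab
  refine ⟨1 + 4 * Q.b + 25 * Real.sqrt (2 * Q.K), ?_⟩
  intro g R M hg hG X hX hXR Z hZ
  set δ : ℝ := X ^ (5 / 6 : ℝ) with hδ
  have hX0 : (0 : ℝ) < X := by linarith
  have hδ1 : 1 ≤ δ := Real.one_le_rpow hX (by norm_num)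
  have hδ0 : 0 < δ := by linarith
  set n : ℕ := ⌈X / δ⌉₊ with hn
  have hnX : X / δ ≤ n := Nat.le_ceil _
  set c : V → V := fun x => (⌊(x.1 : ℝ) / δ⌋, ⌊(x.2 : ℝ) / δ⌋) with hc
  set U : Finset V := Icc (-(n : ℤ)) n ×ˢ Icc (-(n : ℤ)) n with hU
  classical
  have hrep : ∀ u : V, ∃ r : V, nm r ≤ X ∧ ((∃ x, nm x ≤ X ∧ c x = u) → c r = u) := by
    intro u
    by_cases h : ∃ x, nm x ≤ X ∧ c x = u
    · obtain ⟨x, hx, hxu⟩ := h
      exact ⟨x, hx, fun _ => hxu⟩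
    · exact ⟨0, by rw [nm_zero]; exact hX0.le, fun h' => absurd h' h⟩
  choose rep hrep1 hrep2 using hrep
  have hcU : ∀ x, nm x ≤ X → c x ∈ U := by
    intro x hx
    have hx1 : |(x.1 : ℝ)| ≤ X := by
      have := abs_nonneg (x.2 : ℝ)
      unfold nm at hx
      linarith
    have hx2 : |(x.2 : ℝ)| ≤ X := by
      have := abs_nonneg (x.1 : ℝ)
      unfold nm at hx
      linarith
    have key : ∀ t : ℝ, |t| ≤ X → ⌊t / δ⌋ ∈ Icc (-(n : ℤ)) n := by
      intro t ht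
      rw [abs_le] at ht
      rw [mem_Icc]
      constructor
      · rw [Int.le_floor]
        push_cast
        have : -(X / δ) ≤ t / δ := by
          rw [← neg_div]
          exact div_le_div_of_nonneg_right ht.1 hδ0.le
        linarith
      · have h1 : (⌊t / δ⌋ : ℝ) ≤ t / δ := Int.floor_le _
        have h2 : t / δ ≤ X / δ := div_le_div_of_nonneg_right ht.2 hδ0.le
        have h3 : (⌊t / δ⌋ : ℝ) ≤ ((n : ℤ) : ℝ) := by
          push_cast
          linarith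
        exact_mod_cast h3
    rw [hU, mem_product]
    exact ⟨key _ hx1, key _ hx2⟩
  have hnear : ∀ x, nm x ≤ X → nm (x - rep (c x)) ≤ 2 * δ := by
    intro x hx
    have h1 : c (rep (c x)) = c x := hrep2 (c x) ⟨x, hx, rfl⟩
    have h2 := congrArg Prod.fst h1
    have h3 := congrArg Prod.snd h1
    simp only [hc] at h2 h3
    have key : ∀ s t : ℝ, ⌊s / δ⌋ = ⌊t / δ⌋ → |t - s| ≤ δ := by
      intro s t hst
      have h4 := Int.abs_sub_lt_one_of_floor_eq_floor hst.symm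
      rw [← sub_div, abs_div, abs_of_pos hδ0, div_lt_one hδ0] at h4
      exact h4.le
    have h5 := key _ _ h2
    have h6 := key _ _ h3
    unfold nm
    simp only [Prod.fst_sub, Prod.snd_sub, Int.cast_sub]
    linarith
  have hpt : ∀ τ, Bd Q.a Q.b τ → g (Z τ) - (1 + 4 * Q.b * δ) -
      ∑ u ∈ U, |T τ 0 (rep u) - M.E fun τ => T τ 0 (rep u)| ≤ T τ 0 (Z τ) := by
    intro τ hτ
    obtain ⟨v, hv⟩ : ∃ v : V, v = c (Z τ) := ⟨_, rfl⟩
    have h2 := hnear _ (hZ τ)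
    have hvU : v ∈ U := by
      rw [hv]
      exact hcU _ (hZ τ)
    rw [← hv] at h2
    have h1 := T_lip hτ Q.ha.le 0 (Z τ) (rep v)
    have h3 := hg.lip (Z τ) (rep v)
    have h4 := hG.mean (rep v) (by
      have := hrep1 v
      linarith)
    have h5 : |T τ 0 (rep v) - M.E fun τ => T τ 0 (rep v)| ≤
        ∑ u ∈ U, |T τ 0 (rep u) - M.E fun τ => T τ 0 (rep u)| :=
      single_le_sum (f := fun u => |T τ 0 (rep u) - M.E fun τ => T τ 0 (rep u)|)
        (fun u _ => abs_nonneg _) hvU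
    have h6 := neg_abs_le (T τ 0 (rep v) - M.E fun τ => T τ 0 (rep v))
    have h7 : Q.b * nm (Z τ - rep v) ≤ Q.b * (2 * δ) := mul_le_mul_of_nonneg_left h2 hb0.le
    rw [abs_le] at h1 h3 h4
    linarith [h1.1, h1.2, h3.1, h3.2, h4.1, h4.2]
  have hE := M.E_mono hpt
  have hE2 : (M.E fun τ => g (Z τ) - (1 + 4 * Q.b * δ) -
      ∑ u ∈ U, |T τ 0 (rep u) - M.E fun τ => T τ 0 (rep u)|) =
      (M.E fun τ => g (Z τ)) - (1 + 4 * Q.b * δ) -
      ∑ u ∈ U, M.E fun τ => |T τ 0 (rep u) - M.E fun τ => T τ 0 (rep u)| := by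
    rw [Mdl.E_sub, Mdl.E_sub, Mdl.E_const, Mdl.E_sum]
  rw [hE2] at hE
  have hone : ∀ u, (M.E fun τ => |T τ 0 (rep u) - M.E fun τ => T τ 0 (rep u)|) ≤
      Real.sqrt (2 * Q.K) * Real.sqrt X := by
    intro u
    have h1 : (M.E fun τ => |T τ 0 (rep u) - M.E fun τ => T τ 0 (rep u)|) ≤
        Real.sqrt (M.E fun τ => (T τ 0 (rep u) - M.E fun τ => T τ 0 (rep u)) ^ 2) :=
      Ex_abs_le_sqrt (fun ω => T (M.env ω) 0 (rep u) - M.E fun τ => T τ 0 (rep u))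
    have h2 := hG.var X (rep u) hX (hrep1 u) (by linarith)
    refine h1.trans ?_
    rw [← Real.sqrt_mul (by positivity)]
    apply Real.sqrt_le_sqrt
    refine h2.trans ?_
    have h3 : S X ^ 2 ≤ 2 * X := by
      have h4 := pow_le_pow_left₀ (S_nonneg X) (S_le_sqrt hX0.le) 2
      rwa [Real.sq_sqrt (by positivity)] at h4
    have := mul_le_mul_of_nonneg_left h3 hK0
    linarith
  have hsum : ∑ u ∈ U, (M.E fun τ => |T τ 0 (rep u) - M.E fun τ => T τ 0 (rep u)|) ≤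
      25 * Real.sqrt (2 * Q.K) * δ := by
    have h1 : ∑ u ∈ U, (M.E fun τ => |T τ 0 (rep u) - M.E fun τ => T τ 0 (rep u)|) ≤
        (U.card : ℝ) * (Real.sqrt (2 * Q.K) * Real.sqrt X) := by
      rw [← nsmul_eq_mul]
      exact sum_le_card_nsmul _ _ _ fun u _ => hone u
    refine h1.trans ?_
    have hcard : (U.card : ℝ) = (2 * n + 1) ^ 2 := by
      rw [hU, card_product, Int.card_Icc]
      have : (n : ℤ) + 1 - -(n : ℤ) = ((2 * n + 1 : ℕ) : ℤ) := by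
        push_cast
        ring
      rw [this, Int.toNat_natCast]
      push_cast
      ring
    have hx6 : X / δ = X ^ (1 / 6 : ℝ) := by
      rw [hδ]
      nth_rw 1 [← Real.rpow_one X]
      rw [← Real.rpow_sub hX0]
      norm_num
    have hx61 : 1 ≤ X ^ (1 / 6 : ℝ) := Real.one_le_rpow hX (by norm_num)
    have hn1 : (n : ℝ) ≤ X ^ (1 / 6 : ℝ) + 1 := by
      rw [← hx6]
      exact (Nat.ceil_lt_add_one (by positivity)).le
    have hn2 : (2 * (n : ℝ) + 1) ≤ 5 * X ^ (1 / 6 : ℝ) := by linarith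
    have hn3 : (2 * (n : ℝ) + 1) ^ 2 ≤ 25 * X ^ (1 / 3 : ℝ) := by
      have h2 := pow_le_pow_left₀ (by positivity) hn2 2
      refine h2.trans (le_of_eq ?_)
      rw [mul_pow, ← Real.rpow_natCast (X ^ (1 / 6 : ℝ)), ← Real.rpow_mul hX0.le]
      norm_num
    rw [hcard]
    have h4 : X ^ (1 / 3 : ℝ) * Real.sqrt X = δ := by
      rw [Real.sqrt_eq_rpow, ← Real.rpow_add hX0, hδ]
      norm_num
    calc (2 * (n : ℝ) + 1) ^ 2 * (Real.sqrt (2 * Q.K) * Real.sqrt X)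
        ≤ 25 * X ^ (1 / 3 : ℝ) * (Real.sqrt (2 * Q.K) * Real.sqrt X) :=
          mul_le_mul_of_nonneg_right hn3 (by positivity)
      _ = 25 * Real.sqrt (2 * Q.K) * (X ^ (1 / 3 : ℝ) * Real.sqrt X) := by ring
      _ = 25 * Real.sqrt (2 * Q.K) * δ := by rw [h4]
  nlinarith

end Pool.Agent.W_1b8d5d_c1
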