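import Pool.Agent.W_1b8d5d_c1.FlatA

/-!
MP_1b8d5d_pr, proofs row 571, (5a): the flat principle.
-/

set_option autoImplicit false

namespace Pool.Agent.W_1b8d5d_c1

open Finset Pool.Agent.W_1b8d5d_h85

/-- The quadrant. -/
def Qd (c : Crd) (β : ℝ) (x : V) : Set V := {z | c.p x ≤ c.p z ∧ c.q x - β ≤ c.q z}

/-- The chain `x_0 = 0`, `x_{k+1} = x_k + Y (environment seen from x_k)`. -/
def chain (Y : Env → V) : ℕ → Env → V
  | 0, _ => 0
  | k + 1, τ => chain Y k τ + Y (sh (chain Y k τ) τ)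

theorem chain_nm {Y : Env → V} {H : ℝ} (hY : ∀ τ, nm (Y τ) ≤ H) (k : ℕ) (τ : Env) :
    nm (chain Y k τ) ≤ k * H := by
  induction k with
  | zero => simp [chain, nm_zero]
  | succ k ih =>
    have h1 := nm_add_le (chain Y k τ) (Y (sh (chain Y k τ) τ))
    have h2 := hY (sh (chain Y k τ) τ)
    rw [chain]
    push_cast
    linarith

private theorem flatB_Qd_add {c : Crd} {β : ℝ} {x y z : V} :
    z + x ∈ Qd c β (y + x) ↔ z ∈ Qd c β y := by
  simp only [Qd, Set.mem_ofPred_eq, map_add]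
  constructor
  · rintro ⟨h1, h2⟩
    exact ⟨by linarith, by linarith⟩
  · rintro ⟨h1, h2⟩
    exact ⟨by linarith, by linarith⟩

private theorem flatB_edg_add {c : Crd} {β : ℝ} {x y : V} {e : Edge} :
    ((e.1 + x, e.2) : Edge) ∈ edg (Qd c β (y + x)) ↔ e ∈ edg (Qd c β y) := by
  simp only [edg, Set.mem_ofPred_eq]
  rw [flatB_Qd_add, add_right_comm, flatB_Qd_add]

private theorem flatB_edg_mono {c : Crd} {β : ℝ} {x y : V} (hp : c.p x ≤ c.p y)
    (hq : c.q x ≤ c.q y) {e : Edge} (h : e ∈ edg (Qd c β y)) : e ∈ edg (Qd c β x) := by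
  simp only [edg, Qd, Set.mem_ofPred_eq] at h ⊢
  obtain ⟨⟨h1, h2⟩, h3, h4⟩ := h
  exact ⟨⟨by linarith, by linarith⟩, by linarith, by linarith⟩

/-- The event `{x_k = y}` does not depend on the edges of the quadrant at `y`.  PROOF.  Induction: `{x_{k+1} = y}` is the union over
`x` of `{x_k = x}` and `{Y (sh x τ) = y - x}`; if the latter is possible then `c.p (y - x), c.q (y - x) ≥ 0`, so
`Qd c β y ⊆ Qd c β x`; the second event depends on the edges `e` with `(e.1 - x, e.2)` in the set of `hdep`. -/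
theorem chain_dep (c : Crd) {β H : ℝ} (hβ : 0 ≤ β) (hH : 0 ≤ H) {Y : Env → V}
    (hY : ∀ τ, nm (Y τ) ≤ H ∧ 0 ≤ c.p (Y τ) ∧ 0 ≤ c.q (Y τ))
    (hdep : ∀ y, DependsOn (fun τ => Y τ = y)
      {e | e ∈ edg (Qd c β 0) ∧ nm e.1 ≤ H ∧ e ∉ edg (Qd c β y)}) (k : ℕ) (y : V) :
    DependsOn (fun τ => chain Y k τ = y) {e | nm e.1 ≤ k * H ∧ e ∉ edg (Qd c β y)} := by
  induction k generalizing y with
  | zero =>
    intro τ τ' _
    rfl
  | succ k ih =>
    have key : ∀ τ τ' : Env,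
        (∀ e ∈ {e : Edge | nm e.1 ≤ ((k + 1 : ℕ) : ℝ) * H ∧ e ∉ edg (Qd c β y)}, τ e = τ' e) →
        chain Y (k + 1) τ = y → chain Y (k + 1) τ' = y := by
      intro τ τ' hag hτ
      set x : V := chain Y k τ with hx
      have hxk : nm x ≤ k * H := chain_nm (fun τ => (hY τ).1) k τ
      have hstep : x + Y (sh x τ) = y := hτ
      have hYx : Y (sh x τ) = y - x := by
        rw [← hstep]
        abel
      have hp : c.p x ≤ c.p y := by
        rw [← hstep, map_add]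
        linarith [(hY (sh x τ)).2.1]
      have hq : c.q x ≤ c.q y := by
        rw [← hstep, map_add]
        linarith [(hY (sh x τ)).2.2]
      have h1 : chain Y k τ' = x := by
        have h0 : ∀ e ∈ {e : Edge | nm e.1 ≤ (k : ℝ) * H ∧ e ∉ edg (Qd c β x)}, τ e = τ' e := by
          rintro e ⟨h3, h4⟩
          refine hag e ⟨?_, fun h5 => h4 (flatB_edg_mono hp hq h5)⟩
          push_cast
          linarith
        have h2 := ih x h0
        exact Eq.mp h2 hx.symm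
      have h2 : Y (sh x τ') = y - x := by
        have h0 : ∀ e ∈ {e : Edge | e ∈ edg (Qd c β 0) ∧ nm e.1 ≤ H ∧ e ∉ edg (Qd c β (y - x))},
            sh x τ e = sh x τ' e := by
          rintro e ⟨h4, h5, h6⟩
          refine hag (e.1 + x, e.2) ⟨?_, fun h7 => h6 ?_⟩
          · have := nm_add_le e.1 x
            push_cast
            show nm (e.1 + x) ≤ _
            linarith
          · have h8 : y = (y - x) + x := by abel
            rw [h8] at h7
            exact flatB_edg_add.1 h7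
        have h3 := hdep (y - x) h0
        exact Eq.mp h3 hYx
      show chain Y k τ' + Y (sh (chain Y k τ') τ') = y
      rw [h1, h2]
      abel
    intro τ τ' h
    exact propext ⟨key τ τ' h, key τ' τ fun e he => (h e he).symm⟩

/-- One step: the mean of `A` seen from `x_k` is the mean of `A`.  PROOF.  Sum over the values `x` of `x_k` (`nm x ≤ k H`, finitely many):
`{x_k = x}` and `A (sh x ·)` depend on disjoint sets of edges (`chain_dep`; `A (sh x ·)` depends on edges in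
`edg (Qd c β x)` with `nm e.1 ≤ nm x + H`), `Good.indep`, `Good.inv`. -/
theorem chain_step {Q : Par} {g : V → ℝ} {R : ℝ} {M : Mdl Q.a Q.b} (hM : Good Q g R M) (c : Crd)
    {β H : ℝ} (hβ : 0 ≤ β) (hH : 0 ≤ H) {Y : Env → V} {A : Env → ℝ}
    (hY : ∀ τ, nm (Y τ) ≤ H ∧ 0 ≤ c.p (Y τ) ∧ 0 ≤ c.q (Y τ))
    (hdep : ∀ y, DependsOn (fun τ => Y τ = y)
      {e | e ∈ edg (Qd c β 0) ∧ nm e.1 ≤ H ∧ e ∉ edg (Qd c β y)})
    (hA : DependsOn A {e | e ∈ edg (Qd c β 0) ∧ nm e.1 ≤ H}) (k : ℕ) (hR : (k + 1) * H ≤ R) :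
    M.E (fun τ => A (sh (chain Y k τ) τ)) = M.E A := by
  classical
  set s : Finset V := (univ : Finset M.Ω).image (fun ω => chain Y k (M.env ω)) with hs
  have hmem : ∀ ω, chain Y k (M.env ω) ∈ s := fun ω => mem_image_of_mem _ (mem_univ ω)
  have e1 : M.E (fun τ => A (sh (chain Y k τ) τ)) =
      M.E (fun τ => ∑ x ∈ s, (if chain Y k τ = x then (1 : ℝ) else 0) * A (sh x τ)) := by
    unfold Mdl.E
    refine Ex_congr fun ω => ?_
    simp only [ite_mul, one_mul, zero_mul]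
    rw [Finset.sum_ite_eq, if_pos (hmem ω)]
  have e2 : M.E (fun τ => ∑ x ∈ s, (if chain Y k τ = x then (1 : ℝ) else 0)) = 1 := by
    have : M.E (fun τ => ∑ x ∈ s, (if chain Y k τ = x then (1 : ℝ) else 0)) = M.E (fun _ => 1) := by
      unfold Mdl.E
      refine Ex_congr fun ω => ?_
      show ∑ x ∈ s, (if chain Y k (M.env ω) = x then (1 : ℝ) else 0) = 1
      rw [Finset.sum_ite_eq, if_pos (hmem ω)]
    rw [this, M.E_const]
  rw [e1, M.E_sum s (fun x τ => (if chain Y k τ = x then (1 : ℝ) else 0) * A (sh x τ))]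
  have e3 : ∀ x ∈ s, M.E (fun τ => (if chain Y k τ = x then (1 : ℝ) else 0) * A (sh x τ)) =
      M.E (fun τ => if chain Y k τ = x then (1 : ℝ) else 0) * M.E A := by
    intro x hx
    rw [hs, mem_image] at hx
    obtain ⟨ω, -, hω⟩ := hx
    have hxk : nm x ≤ k * H := by
      rw [← hω]
      exact chain_nm (fun τ => (hY τ).1) k _
    have hdisj : Disjoint {e : Edge | nm e.1 ≤ k * H ∧ e ∉ edg (Qd c β x)}
        {e : Edge | e ∈ edg (Qd c β x) ∧ nm e.1 ≤ (k + 1) * H} := by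
      rw [Set.disjoint_left]
      rintro e ⟨-, h1⟩ ⟨h2, -⟩
      exact h1 h2
    rw [hM.indep _ _ hdisj ?_ _ _ ?_ ?_, hM.inv x A]
    · rintro e (⟨h1, -⟩ | ⟨-, h1⟩)
      · linarith
      · linarith
    · intro τ τ' h
      have h1 := chain_dep c hβ hH hY hdep k x h
      have h2 : (chain Y k τ = x) = (chain Y k τ' = x) := h1
      simp only [h2]
    · intro τ τ' h
      refine hA (fun e he => ?_)
      obtain ⟨h1, h2⟩ := he
      refine h (e.1 + x, e.2) ⟨?_, ?_⟩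
      · have h3 : x = 0 + x := by abel
        have h4 := (flatB_edg_add (c := c) (β := β) (x := x) (y := 0) (e := e)).2 h1
        rwa [zero_add] at h4
      · have := nm_add_le e.1 x
        show nm (e.1 + x) ≤ _
        linarith
  rw [sum_congr rfl e3, ← sum_mul,
    ← M.E_sum s (fun x τ => if chain Y k τ = x then (1 : ℝ) else 0), e2, one_mul]

private theorem flatB_sum {a b : ℝ} (ha : 0 ≤ a) (c : Crd) {Y : Env → V} {A : Env → ℝ}
    (hT : ∀ τ, Bd a b τ → T τ 0 (Y τ) - (c.p (Y τ) + c.q (Y τ)) ≤ A τ) {τ : Env}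
    (hτ : Bd a b τ) (K : ℕ) :
    T τ 0 (chain Y K τ) - (c.p (chain Y K τ) + c.q (chain Y K τ)) ≤
      ∑ k ∈ range K, A (sh (chain Y k τ) τ) := by
  induction K with
  | zero =>
    simp only [chain, map_zero, range_zero, sum_empty]
    rw [T_self hτ ha]
    norm_num
  | succ K ih =>
    rw [sum_range_succ]
    set x : V := chain Y K τ with hx
    have h1 := hT (sh x τ) (Bd_sh hτ x)
    have h2 := T_triangle hτ ha 0 x (x + Y (sh x τ))
    have h3 : T (sh x τ) 0 (Y (sh x τ)) = T τ x (x + Y (sh x τ)) := by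
      rw [T_sh, zero_add, add_comm (Y (sh x τ)) x]
    have h4 : chain Y (K + 1) τ = x + Y (sh x τ) := rfl
    rw [h4, map_add, map_add]
    rw [h3] at h1
    linarith

/-- **The flat principle.**  PROOF.  `K = ⌊H^11⌋` steps, `X = H^12`: by `T_triangle`, `T_sh` and `hT`,
`T(0,x_K) - (p+q)(x_K) ≤ ∑_{k<K} A (sh x_k τ)`, so its mean is `≤ K E A` (`chain_step`); by `random_point` (`Z = x_K`) and
`hl` it is `≥ - C X^(5/6) = - C H^10`. -/
theorem flat (Q : Par) (g : V → ℝ) (c : Crd) (hg : IsMean Q g) (hl : ∀ z, c.p z + c.q z ≤ g z) :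
    ∃ H₀ : ℝ, 1 ≤ H₀ ∧ ∀ H ≥ H₀, ∀ (R : ℝ) (M : Mdl Q.a Q.b), 8 * H ^ 12 ≤ R → Good Q g R M →
    ∀ (β : ℝ) (Y : Env → V) (A : Env → ℝ), 0 ≤ β →
      (∀ τ, nm (Y τ) ≤ H ∧ 0 ≤ c.p (Y τ) ∧ 0 ≤ c.q (Y τ)) →
      (∀ y, DependsOn (fun τ => Y τ = y)
        {e | e ∈ edg (Qd c β 0) ∧ nm e.1 ≤ H ∧ e ∉ edg (Qd c β y)}) →
      DependsOn A {e | e ∈ edg (Qd c β 0) ∧ nm e.1 ≤ H} →
      (∀ τ, Bd Q.a Q.b τ → T τ 0 (Y τ) - (c.p (Y τ) + c.q (Y τ)) ≤ A τ) →
      -1 ≤ M.E A := by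
  obtain ⟨C, hC⟩ := random_point Q
  refine ⟨|C| + 2, by linarith [abs_nonneg C], ?_⟩
  intro H hH R M hR hM β Y A hβ hY hdep hA hT
  have hC0 := abs_nonneg C
  have hH1 : 1 ≤ H := by linarith
  have hH0 : 0 ≤ H := by linarith
  set K : ℕ := ⌊H ^ 11⌋₊ with hK
  have hK1 : (K : ℝ) ≤ H ^ 11 := Nat.floor_le (by positivity)
  have hK2 : H ^ 11 < K + 1 := Nat.lt_floor_add_one _
  have hKH : (K : ℝ) * H ≤ H ^ 12 := by
    calc (K : ℝ) * H ≤ H ^ 11 * H := mul_le_mul_of_nonneg_right hK1 hH0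
      _ = H ^ 12 := by ring
  have hH12 : 1 ≤ H ^ 12 := one_le_pow₀ hH1
  have ha : 0 ≤ Q.a := Q.ha.le
  -- upper bound
  have hup : M.E (fun τ => T τ 0 (chain Y K τ) -
      (c.p (chain Y K τ) + c.q (chain Y K τ))) ≤ K * M.E A := by
    refine (M.E_mono fun τ hτ => flatB_sum ha c hT hτ K).trans ?_
    rw [M.E_sum (range K) (fun k τ => A (sh (chain Y k τ) τ))]
    rw [sum_congr rfl (fun k hk => chain_step hM c hβ hH0 hY hdep hA k ?_), sum_const, card_range,
      nsmul_eq_mul]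
    have h1 : (k : ℝ) + 1 ≤ K := by exact_mod_cast mem_range.1 hk
    have h2 : ((k : ℝ) + 1) * H ≤ K * H := mul_le_mul_of_nonneg_right h1 hH0
    linarith
  -- lower bound
  have hrp := hC g R M hg hM (H ^ 12) hH12 (by linarith) (fun τ => chain Y K τ)
    (fun τ => (chain_nm (fun τ => (hY τ).1) K τ).trans hKH)
  have hpow : (H ^ 12) ^ (5 / 6 : ℝ) = H ^ 10 := by
    rw [← Real.rpow_natCast H 12, ← Real.rpow_mul hH0, ← Real.rpow_natCast H 10]
    norm_num
  rw [hpow] at hrp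
  have hgE : M.E (fun τ => c.p (chain Y K τ) + c.q (chain Y K τ)) ≤
      M.E (fun τ => g (chain Y K τ)) := M.E_mono fun τ _ => hl _
  rw [M.E_sub (fun τ => T τ 0 (chain Y K τ))
    (fun τ => c.p (chain Y K τ) + c.q (chain Y K τ))] at hup
  have hlow : -(C * H ^ 10) ≤ K * M.E A := by linarith
  by_contra hneg
  push Not at hneg
  have hH11 : H ^ 11 = H * H ^ 10 := by ring
  have hH10 : 1 ≤ H ^ 10 := one_le_pow₀ hH1
  have hCabs : C * H ^ 10 ≤ |C| * H ^ 10 :=
    mul_le_mul_of_nonneg_right (le_abs_self C) (by positivity)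
  have hbig : (|C| + 2) * H ^ 10 ≤ H * H ^ 10 := mul_le_mul_of_nonneg_right hH (by positivity)
  have hKpos : (0 : ℝ) < K := by
    have : 1 ≤ H ^ 11 := one_le_pow₀ hH1
    nlinarith
  have h5 : (K : ℝ) * M.E A < -K := by nlinarith
  nlinarith

end Pool.Agent.W_1b8d5d_c1
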