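import Pool.Agent.W_1b8d5d_c1.Max1
import Pool.Agent.W_1b8d5d_c1.Sel

/-!
MP_1b8d5d_pr (N2): the maximal inequality.
-/

set_option autoImplicit false

namespace Pool.Agent.W_1b8d5d_c1

open Finset Pool.Agent.W_1b8d5d_h85

private theorem Max2_ball (r : ℝ) : {w : V | nm w ≤ r}.Finite := by
  refine Set.Finite.subset (Set.finite_Icc ((-⌈r⌉, -⌈r⌉) : V) (⌈r⌉, ⌈r⌉)) ?_
  intro w hw
  have hw' : nm w ≤ r := hw
  unfold nm at hw'
  have h3 := Int.le_ceil r
  have h1 : |(w.1 : ℝ)| ≤ ⌈r⌉ := by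
    have := abs_nonneg (w.2 : ℝ)
    linarith
  have h2 : |(w.2 : ℝ)| ≤ ⌈r⌉ := by
    have := abs_nonneg (w.1 : ℝ)
    linarith
  rw [abs_le] at h1 h2
  have a1 : -⌈r⌉ ≤ w.1 := by exact_mod_cast h1.1
  have a2 : w.1 ≤ ⌈r⌉ := by exact_mod_cast h1.2
  have b1 : -⌈r⌉ ≤ w.2 := by exact_mod_cast h2.1
  have b2 : w.2 ≤ ⌈r⌉ := by exact_mod_cast h2.2
  exact ⟨⟨a1, b1⟩, ⟨a2, b2⟩⟩

private theorem Max2_Wd {c : Crd} {x z : V} : z ∈ Wd c x ↔ z - x ∈ Wd c 0 := by
  simp [Wd]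

private theorem Max2_rd (c : Crd) {α : ℝ} (h : 18 * c.C ≤ α) :
    c.rd α 0 ∈ Kn c ∧ |c.p (c.rd α 0) - α| ≤ c.C ∧ |c.q (c.rd α 0)| ≤ c.C := by
  have h1 := c.rd_p α 0
  have h2 := c.rd_q α 0
  rw [sub_zero] at h2
  refine ⟨?_, h1, h2⟩
  rw [mem_Kn]
  rw [abs_le] at h1
  linarith [h1.1]

private theorem Max2_Db {c : Crd} {x y : V} : Db c x y ⊆ Wd c x := by
  intro z hz
  exact Max2_Wd.2 (Kn_subset_Wd c hz.1)

/-- THE MAXIMAL INEQUALITY.  PROOF. Let `s` be the finite set of the `w ∈ Wd c 0` with `lev c w ≤ n + 2 C`, enumerated by `exists_enum` with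
nondecreasing levels.  `flat_sel` with `K i τ = (T (res b (Aw c (w i)) τ) 0 (w i) ≤ lev c (w i) - θ)`, `D i = Aw c (w i)`,
`y i = w i + c.rd (n + 20 C - lev c (w i)) 0`, `yd = c.rd (n + 20 C) 0`,
`A i τ = (T (res b (Aw c (w i)) τ) 0 (w i) - lev c (w i)) + (Ts τ (w i) (y i) - lev c (y i - w i))`, `Ad τ = Ts τ 0 yd - lev c yd`.
On `Fst K i`: `A i ≤ - θ + (Ts τ (w i) (y i) - p (y i - w i))⁺ + C`.  `Fst K i` depends on `Aw c (w i)` (`Aw_mono`), `Ts τ (w i) (y i)` on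
the edges of `Db c (w i) (y i) ⊆ Wd c (w i)`: `Good.indep` and `Good.E_Ts` give
`E (1_{Fst K i} (Ts - p)⁺) ≤ P (Fst K i) * B`.  So `-1 ≤ - θ P + B P + C P + B + C`, `P = P (exists i, Fst K i)`, and `θ P ≤ 2 B + 2 C + 1`.
`bad_cand`: the event of the statement implies that some `K i` holds. -/
theorem maxineq (Q : Par) (g : V → ℝ) (c : Crd) (hg : IsMean Q g) (hl : ∀ z, c.p z + c.q z ≤ g z) :
    ∃ C : ℝ, 1 ≤ C ∧ ∀ (n R : ℝ) (M : Mdl Q.a Q.b), 1 ≤ n → C * n ^ 12 ≤ R → Good Q g R M →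
    ∀ B : ℝ, 1 ≤ B → Ub M c (C * n) B → ∀ θ : ℝ, 0 < θ →
      M.P (fun τ => ∃ z ∈ Wd c 0, lev c z ≤ n ∧ T (res Q.b (edg (Wd c 0)) τ) 0 z ≤ lev c z - θ) ≤ C * B / θ := by
  classical
  obtain ⟨H₀, hH₀, hflat⟩ := flat_sel Q g c hg hl
  have hC := c.one_le
  have hC0 : 0 < c.C := by linarith
  have hCC : c.C ≤ c.C ^ 2 := by nlinarith
  obtain ⟨C1, hC1a, hC1b⟩ : ∃ C1 : ℝ, H₀ ≤ C1 ∧ 100 * c.C ^ 2 ≤ C1 :=
    ⟨max H₀ (100 * c.C ^ 2), le_max_left _ _, le_max_right _ _⟩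
  have hC1 : 1 ≤ C1 := hH₀.trans hC1a
  have hC12 : C1 ≤ C1 ^ 12 := le_self_pow₀ hC1 (by norm_num)
  have hCbig : 800 * c.C ≤ 8 * C1 ^ 12 := by linarith
  refine ⟨8 * C1 ^ 12, by linarith, ?_⟩
  intro n R M hn hR hG B hB hU θ hθ
  have hn0 : 0 < n := by linarith
  have hn12 : n ≤ n ^ 12 := le_self_pow₀ hn (by norm_num)
  obtain ⟨H, hHdef⟩ : ∃ H : ℝ, H = C1 * n := ⟨_, rfl⟩
  have hC1n : C1 ≤ C1 * n := by nlinarith
  have hHH₀ : H₀ ≤ H := by rw [hHdef]; linarith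
  have hH12 : 8 * H ^ 12 ≤ R := by
    rw [hHdef, mul_pow, ← mul_assoc]
    exact hR
  have hHbig : 100 * c.C ^ 2 * n ≤ H := by
    rw [hHdef]
    exact mul_le_mul_of_nonneg_right hC1b hn0.le
  have hH1 : 1 ≤ H := hH₀.trans hHH₀
  have hHR : H ≤ R := by
    have : H ≤ H ^ 12 := le_self_pow₀ hH1 (by norm_num)
    linarith
  -- numbers
  have hCn : c.C ≤ c.C * n := by nlinarith
  have hCCn : c.C * n ≤ c.C ^ 2 * n := mul_le_mul_of_nonneg_right hCC hn0.le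
  have hCC2 : c.C ^ 2 ≤ c.C ^ 2 * n := by nlinarith [sq_nonneg c.C]
  have hsq : c.C * c.C = c.C ^ 2 := by ring
  -- the candidates
  have hfin : {w : V | w ∈ Wd c 0 ∧ lev c w ≤ n + 2 * c.C}.Finite :=
    (Max2_ball (3 * c.C * (n + 2 * c.C))).subset fun w hw =>
      (nm_le_lev hw.1).trans (mul_le_mul_of_nonneg_left hw.2 (by positivity))
  obtain ⟨m, w, hw1, hw2, hw3⟩ := exists_enum hfin.toFinset (lev c)
  have hwW : ∀ i, w i ∈ Wd c 0 := fun i => ((Set.Finite.mem_toFinset hfin).1 (hw1 i)).1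
  have hwL : ∀ i, lev c (w i) ≤ n + 2 * c.C := fun i => ((Set.Finite.mem_toFinset hfin).1 (hw1 i)).2
  have hwn : ∀ i, nm (w i) ≤ 3 * c.C * (n + 2 * c.C) := fun i =>
    (nm_le_lev (hwW i)).trans (mul_le_mul_of_nonneg_left (hwL i) (by positivity))
  have hw0 : ∀ i, 0 ≤ lev c (w i) := fun i => lev_nonneg (hwW i)
  obtain ⟨r, hr⟩ : ∃ r : Fin m → V, ∀ i, r i = c.rd (n + 20 * c.C - lev c (w i)) 0 := ⟨_, fun _ => rfl⟩
  have hrd : ∀ i, r i ∈ Kn c ∧ |c.p (r i) - (n + 20 * c.C - lev c (w i))| ≤ c.C ∧ |c.q (r i)| ≤ c.C := by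
    intro i
    rw [hr i]
    refine Max2_rd c ?_
    have := hwL i
    linarith
  have hrp0 : ∀ i, 0 ≤ c.p (r i) := fun i => Kn_p_nonneg (hrd i).1
  have hrpU : ∀ i, c.p (r i) ≤ n + 21 * c.C := by
    intro i
    have h1 := (abs_le.1 (hrd i).2.1).2
    have h2 := hw0 i
    linarith
  obtain ⟨y, hy⟩ : ∃ y : Fin m → V, ∀ i, y i = w i + r i := ⟨_, fun _ => rfl⟩
  have hyw : ∀ i, y i - w i = r i := fun i => by rw [hy i]; abel
  have hyW : ∀ i, y i ∈ Wd c 0 := fun i => Kn_add_Wd (hwW i) (by rw [hyw i]; exact (hrd i).1)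
  have hyWw : ∀ i, y i ∈ Wd c (w i) := fun i => Max2_Wd.2 (by rw [hyw i]; exact Kn_subset_Wd c (hrd i).1)
  have hylev : ∀ i, lev c (w i) ≤ lev c (y i) := fun i => Wd_lev (hyWw i)
  have hrn : ∀ i, nm (r i) ≤ c.C * (n + 22 * c.C) := by
    intro i
    refine (c.nm_le (r i)).trans (mul_le_mul_of_nonneg_left ?_ hC0.le)
    have h1 := hrpU i
    have h2 := (hrd i).2.2
    rw [abs_of_nonneg (hrp0 i)]
    linarith
  have hyn : ∀ i, nm (y i) ≤ H := by
    intro i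
    have h1 := nm_add_le (w i) (r i)
    have h2 := hwn i
    have h3 := hrn i
    rw [hy i]
    nlinarith
  -- the default
  obtain ⟨yd, hyd⟩ : ∃ yd : V, yd = c.rd (n + 20 * c.C) 0 := ⟨_, rfl⟩
  have hydK : yd ∈ Kn c ∧ |c.p yd - (n + 20 * c.C)| ≤ c.C ∧ |c.q yd| ≤ c.C := by
    rw [hyd]
    exact Max2_rd c (by linarith)
  have hyd0 : 0 ≤ c.p yd := Kn_p_nonneg hydK.1
  have hydU : c.p yd ≤ n + 21 * c.C := by
    have h1 := (abs_le.1 hydK.2.1).2
    linarith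
  have hydW : yd ∈ Wd c 0 := Kn_subset_Wd c hydK.1
  have hydn : nm yd ≤ H := by
    have h1 : nm yd ≤ c.C * (n + 22 * c.C) := by
      refine (c.nm_le yd).trans (mul_le_mul_of_nonneg_left ?_ hC0.le)
      have h2 := hydK.2.2
      rw [abs_of_nonneg hyd0]
      linarith
    nlinarith
  have hydlev : n + 18 * c.C ≤ lev c yd := by
    have h1 := (abs_le.1 hydK.2.1).1
    have h2 := (abs_le.1 hydK.2.2).1
    unfold lev
    linarith
  -- sets of edges
  have hAwn : ∀ i, ∀ e ∈ Aw c (w i), e ∈ edg (Wd c 0) ∧ nm e.1 ≤ H := by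
    intro i e he
    refine ⟨he.1, ?_⟩
    have h1 := Aw_nm he
    have h2 := hwL i
    have h3 : 3 * c.C * (lev c (w i) + 2 * c.C) ≤ 3 * c.C * (n + 4 * c.C) :=
      mul_le_mul_of_nonneg_left (by linarith) (by positivity)
    nlinarith
  have hDbsub : ∀ i, edg (Db c (w i) (y i)) ⊆ edg (Wd c (w i)) := fun i => edg_mono Max2_Db
  have hDbn : ∀ i, ∀ e ∈ edg (Db c (w i) (y i)), e ∈ edg (Wd c 0) ∧ nm e.1 ≤ H := by
    intro i e he
    refine ⟨edg_mono (Wd_subset (hwW i)) (hDbsub i he), ?_⟩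
    have h1 := Db_nm he.1
    rw [hyw i] at h1
    have h2 := nm_add_le (e.1 - w i) (w i)
    rw [sub_add_cancel] at h2
    have h3 := hwn i
    have h4 : 2 * c.C * c.p (r i) ≤ 2 * c.C * (n + 21 * c.C) :=
      mul_le_mul_of_nonneg_left (hrpU i) (by positivity)
    nlinarith
  have hDbdn : ∀ e ∈ edg (Db c 0 yd), e ∈ edg (Wd c 0) ∧ nm e.1 ≤ H := by
    intro e he
    refine ⟨edg_mono Max2_Db he, ?_⟩
    have h1 := Db_nm he.1
    rw [sub_zero, sub_zero] at h1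
    have h4 : 2 * c.C * c.p yd ≤ 2 * c.C * (n + 21 * c.C) :=
      mul_le_mul_of_nonneg_left hydU (by positivity)
    nlinarith
  -- events and costs
  obtain ⟨K, hK⟩ : ∃ K : Fin m → Env → Prop,
      ∀ i τ, K i τ ↔ T (res Q.b (Aw c (w i)) τ) 0 (w i) ≤ lev c (w i) - θ := ⟨_, fun _ _ => Iff.rfl⟩
  have hKdep : ∀ i, DependsOn (K i) (Aw c (w i)) := by
    intro i τ τ' h
    have h1 := dependsOn_T_res Q.b (Aw c (w i)) 0 (w i) h
    simp only at h1
    exact propext (by rw [hK, hK, h1])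
  obtain ⟨A, hA⟩ : ∃ A : Fin m → Env → ℝ, ∀ i τ, A i τ =
      (T (res Q.b (Aw c (w i)) τ) 0 (w i) - lev c (w i)) + (Ts Q.b c τ (w i) (y i) - lev c (y i - w i)) :=
    ⟨_, fun _ _ => rfl⟩
  obtain ⟨Ad, hAd⟩ : ∃ Ad : Env → ℝ, ∀ τ, Ad τ = Ts Q.b c τ 0 yd - lev c yd := ⟨_, fun _ => rfl⟩
  have hAdep : ∀ i, DependsOn (A i) {e | e ∈ edg (Wd c 0) ∧ nm e.1 ≤ H} := by
    intro i τ τ' h
    have h1 := dependsOn_T_res Q.b (Aw c (w i)) 0 (w i) fun e he => h e (hAwn i e he)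
    have h2 := Ts_dep Q.b c (w i) (y i) fun e he => h e (hDbn i e he)
    simp only at h1 h2
    rw [hA, hA, h1, h2]
  have hAddep : DependsOn Ad {e | e ∈ edg (Wd c 0) ∧ nm e.1 ≤ H} := by
    intro τ τ' h
    have h2 := Ts_dep Q.b c 0 yd fun e he => h e (hDbdn e he)
    simp only at h2
    rw [hAd, hAd, h2]
  have hmain := hflat H hHH₀ R M hH12 hG m K (fun i => Aw c (w i)) y yd A Ad
    (fun i => ⟨hyn i, hyW i⟩) hydn hydW hKdep hAwn
    (fun i j hji e he => Aw_disj ((hw3 i j hji).trans (hylev i)) he)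
    (fun j e he => Aw_disj (by have := hwL j; linarith) he)
    hAdep hAddep
    (by
      intro i τ hτ _
      have h1 := T_triangle hτ Q.ha.le 0 (w i) (y i)
      have h2 := T_le_res Q.ha.le hτ (Aw c (w i)) 0 (w i)
      have h3 := T_le_Ts Q.ha.le hτ c (w i) (y i)
      have h4 := lev_add c (w i) (y i - w i)
      rw [add_sub_cancel] at h4
      have h5 : c.p (y i) + c.q (y i) = lev c (y i) := rfl
      rw [hA, h5]
      linarith)
    (by
      intro τ hτ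
      have h3 := T_le_Ts Q.ha.le hτ c 0 yd
      have h5 : c.p yd + c.q yd = lev c yd := rfl
      rw [hAd, h5]
      linarith)
  -- the positive parts
  obtain ⟨X, hX⟩ : ∃ X : Fin m → Env → ℝ, ∀ i τ, X i τ = max (Ts Q.b c τ (w i) (y i) - c.p (r i)) 0 :=
    ⟨_, fun _ _ => rfl⟩
  obtain ⟨Xd, hXd⟩ : ∃ Xd : Env → ℝ, ∀ τ, Xd τ = max (Ts Q.b c τ 0 yd - c.p yd) 0 := ⟨_, fun _ => rfl⟩
  have hCCn' : n + 21 * c.C ≤ 8 * C1 ^ 12 * n := by
    have h1 : 800 * c.C * n ≤ 8 * C1 ^ 12 * n := mul_le_mul_of_nonneg_right hCbig hn0.le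
    nlinarith
  have hXE : ∀ i, M.E (X i) ≤ B := by
    intro i
    have h1 := hG.E_Ts c (fun t => max (t - c.p (r i)) 0) (w i) (y i)
    rw [hyw i] at h1
    have h2 : M.E (X i) = Sx M c (r i) := by
      rw [Sx, ← h1]
      exact congrArg M.E (funext fun τ => hX i τ)
    rw [h2]
    exact hU (r i) (hrp0 i) ((hrpU i).trans hCCn') (by have := (hrd i).2.2; linarith)
  have hXdE : M.E Xd ≤ B := by
    have h2 : M.E Xd = Sx M c yd := by
      rw [Sx]
      exact congrArg M.E (funext fun τ => hXd τ)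
    rw [h2]
    exact hU yd hyd0 (hydU.trans hCCn') (by have := hydK.2.2; linarith)
  -- independence
  obtain ⟨I, hI⟩ : ∃ I : Fin m → Env → ℝ, ∀ i τ, I i τ = if Fst K i τ then (1 : ℝ) else 0 :=
    ⟨_, fun _ _ => rfl⟩
  have hI0 : ∀ i τ, 0 ≤ I i τ := by
    intro i τ
    rw [hI]
    split_ifs <;> norm_num
  have hIdep : ∀ i, DependsOn (I i) (Aw c (w i)) := by
    intro i τ τ' h
    have h1 : ∀ j, j ≤ i → K j τ = K j τ' := fun j hj =>
      hKdep j fun e he => h e (Aw_mono (hw3 i j hj) he)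
    have h2 : Fst K i τ ↔ Fst K i τ' := by
      unfold Fst
      rw [h1 i le_rfl]
      refine and_congr_right fun _ => forall_congr' fun j => ?_
      refine imp_congr_right fun hj => ?_
      rw [h1 j hj.le]
    rw [hI, hI]
    exact if_congr h2 rfl rfl
  have hXdep : ∀ i, DependsOn (X i) (edg (Db c (w i) (y i))) := by
    intro i τ τ' h
    have h2 := Ts_dep Q.b c (w i) (y i) h
    simp only at h2
    rw [hX, hX, h2]
  have hind : ∀ i, M.E (fun τ => I i τ * X i τ) ≤ M.E (I i) * B := by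
    intro i
    have h1 := hG.indep (Aw c (w i)) (edg (Db c (w i) (y i)))
      (Set.disjoint_left.2 fun e he he' => Aw_disj le_rfl he (hDbsub i he'))
      (by
        rintro e (he | he)
        · exact (hAwn i e he).2.trans hHR
        · exact (hDbn i e he).2.trans hHR)
      (I i) (X i) (hIdep i) (hXdep i)
    rw [h1]
    exact mul_le_mul_of_nonneg_left (hXE i) (M.E_nonneg fun τ _ => hI0 i τ)
  -- the upper bound
  have hup : (M.E fun τ => (∑ i, if Fst K i τ then A i τ else 0) + if Non K τ then Ad τ else 0)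
      ≤ M.E fun τ => (∑ i, ((c.C - θ) * I i τ + I i τ * X i τ)) + (Xd τ + c.C) := by
    refine M.E_mono fun τ hτ => ?_
    refine add_le_add (sum_le_sum fun i _ => ?_) ?_
    · rw [hI]
      by_cases h : Fst K i τ
      · rw [if_pos h, if_pos h]
        have h1 := (hK i τ).1 h.1
        have h2 : Ts Q.b c τ (w i) (y i) - c.p (r i) ≤ X i τ := by
          rw [hX]
          exact le_max_left _ _
        have h3 := (abs_le.1 (hrd i).2.2).1
        have h4 : lev c (y i - w i) = c.p (r i) + c.q (r i) := by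
          rw [hyw i]
          rfl
        rw [hA, h4]
        linarith
      · rw [if_neg h, if_neg h]
        simp
    · have h0 : 0 ≤ Xd τ := by
        rw [hXd]
        exact le_max_right _ _
      by_cases h : Non K τ
      · rw [if_pos h]
        have h2 : Ts Q.b c τ 0 yd - c.p yd ≤ Xd τ := by
          rw [hXd]
          exact le_max_left _ _
        have h3 := (abs_le.1 hydK.2.2).1
        have h4 : lev c yd = c.p yd + c.q yd := rfl
        rw [hAd, h4]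
        linarith
      · rw [if_neg h]
        linarith
  have hup2 : (M.E fun τ => (∑ i, ((c.C - θ) * I i τ + I i τ * X i τ)) + (Xd τ + c.C))
      = (∑ i, ((c.C - θ) * M.E (I i) + M.E (fun τ => I i τ * X i τ))) + (M.E Xd + c.C) := by
    rw [Mdl.E_add, Mdl.E_add, Mdl.E_const, Mdl.E_sum]
    congr 1
    refine sum_congr rfl fun i _ => ?_
    rw [Mdl.E_add, Mdl.E_mul_left]
  have hsum : ∑ i, ((c.C - θ) * M.E (I i) + M.E (fun τ => I i τ * X i τ))
      ≤ ∑ i, (c.C - θ + B) * M.E (I i) := by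
    refine sum_le_sum fun i _ => ?_
    have := hind i
    linarith
  rw [← mul_sum] at hsum
  obtain ⟨P, hP⟩ : ∃ P : ℝ, P = ∑ i, M.E (I i) := ⟨_, rfl⟩
  rw [← hP] at hsum
  have hP0 : 0 ≤ P := by
    rw [hP]
    exact sum_nonneg fun i _ => M.E_nonneg fun τ _ => hI0 i τ
  have hP1 : P ≤ 1 := by
    rw [hP, ← Mdl.E_sum]
    refine M.E_le_of_le fun τ _ => ?_
    rcases Fst_or_Non K τ with ⟨i, hi⟩ | h
    · have h1 : ∀ j ∈ (univ : Finset (Fin m)), j ≠ i → I j τ = 0 := by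
        intro j _ hj
        rw [hI]
        exact if_neg fun h => hj (Fst_unique h hi)
      rw [sum_eq_single i h1 (fun h => absurd (mem_univ i) h), hI]
      split_ifs <;> norm_num
    · have h1 : ∀ j ∈ (univ : Finset (Fin m)), I j τ = 0 := by
        intro j _
        rw [hI]
        exact if_neg fun h' => h j h'.1
      rw [sum_congr rfl h1, sum_const_zero]
      norm_num
  have hθP : θ * P ≤ 1 + 2 * c.C + 2 * B := by
    have h1 : (c.C + B) * P ≤ (c.C + B) * 1 := mul_le_mul_of_nonneg_left hP1 (by linarith)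
    nlinarith
  -- the event
  have hev : M.P (fun τ => ∃ z ∈ Wd c 0, lev c z ≤ n ∧ T (res Q.b (edg (Wd c 0)) τ) 0 z ≤ lev c z - θ) ≤ P := by
    rw [Mdl.P_def, hP, ← Mdl.E_sum]
    refine M.E_mono fun τ hτ => ?_
    by_cases h : ∃ z ∈ Wd c 0, lev c z ≤ n ∧ T (res Q.b (edg (Wd c 0)) τ) 0 z ≤ lev c z - θ
    · rw [if_pos h]
      obtain ⟨z, hz, hzn, hzb⟩ := h
      obtain ⟨w', hw', hw'n, hw'b⟩ := bad_cand hg hl hτ hz hzn hzb
      obtain ⟨i, hi⟩ := hw2 w' ((Set.Finite.mem_toFinset hfin).2 ⟨hw', hw'n⟩)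
      have hKi : K i τ := by
        rw [hK, hi]
        exact hw'b
      rcases Fst_or_Non K τ with ⟨j, hj⟩ | h'
      · have h1 : I j τ ≤ ∑ i, I i τ :=
          single_le_sum (f := fun i => I i τ) (fun i _ => hI0 i τ) (mem_univ j)
        refine le_trans ?_ h1
        rw [hI, if_pos hj]
      · exact absurd hKi (h' i)
    · rw [if_neg h]
      exact sum_nonneg fun i _ => hI0 i τ
  refine hev.trans ?_
  rw [le_div_iff₀ hθ]
  have h1 : 800 * c.C * B ≤ 8 * C1 ^ 12 * B := mul_le_mul_of_nonneg_right hCbig (by linarith)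
  nlinarith

end Pool.Agent.W_1b8d5d_c1
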