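import Pool.Agent.W_1b8d5d_c1.Geo
import Pool.Agent.W_1b8d5d_c1.FlatA

/-!
MP_1b8d5d_pr (N2): geodesics do not leave the cone: the gap and the net estimate.
-/

set_option autoImplicit false

namespace Pool.Agent.W_1b8d5d_c1

open Finset Pool.Agent.W_1b8d5d_h85

/-- The gap at the starting side.  PROOF. If `p z ≥ D / 2` then `|q z| > D / 6`, `|q (z - x)| ≥ D / 6 - D / 100` and
`g (z - x) + g (y - z) ≥ p (y - x) + |q (z - x)|`.  Otherwise `p (z - x) < - D / 2`, so `g (z - x) ≥ a nm (z - x) ≥ a D / (2 C)` and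
`g (y - z) ≥ p (y - z) ≥ p (y - x)`. -/
theorem gap {Q : Par} {g : V → ℝ} (hg : IsMean Q g) {c : Crd} (hl : ∀ z, c.p z + |c.q z| ≤ g z) :
    ∃ c₀ : ℝ, 0 < c₀ ∧ ∀ (D : ℝ) (x y z : V), 0 < D → D ≤ c.p x → |c.q x| ≤ D / 100 → z ∉ Kn c →
      c.p (y - x) + 2 * c₀ * D ≤ g (z - x) + g (y - z) := by
  refine ⟨1 / 20, by norm_num, ?_⟩
  intro D x y z hD hDx hqx hz
  have h1 : c.p z < 3 * |c.q z| := not_le.1 hz
  have h2 := hl (z - x)
  have h3 := hl (y - z)
  have h4 := hg.low (z - x)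
  have h5 : 0 ≤ Q.a * nm (z - x) := mul_nonneg Q.ha.le (nm_nonneg _)
  have h6 := abs_nonneg (c.q (y - z))
  have h7 : |c.q z| ≤ |c.q (z - x)| + |c.q x| := by
    have := abs_add_le (c.q (z - x)) (c.q x)
    rwa [← map_add, sub_add_cancel] at this
  rw [map_sub] at h3 ⊢
  by_cases hp : D / 2 ≤ c.p z
  · rw [map_sub] at h2
    linarith
  · push Not at hp
    linarith

/-- The gap at the end side (reflection of `gap`, `g (-z) = g z`). -/
theorem gap' {Q : Par} {g : V → ℝ} (hg : IsMean Q g) {c : Crd} (hl : ∀ z, c.p z + |c.q z| ≤ g z) :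
    ∃ c₀ : ℝ, 0 < c₀ ∧ ∀ (D : ℝ) (x y z r : V), 0 < D → D ≤ c.p (r - y) → |c.q (r - y)| ≤ D / 100 → r - z ∉ Kn c →
      c.p (y - x) + 2 * c₀ * D ≤ g (z - x) + g (y - z) := by
  obtain ⟨c₀, hc₀, h⟩ := gap hg hl
  refine ⟨c₀, hc₀, ?_⟩
  intro D x y z r hD h1 h2 h3
  have h4 := h D (r - y) (r - x) (r - z) hD h1 h2 h3
  have e1 : r - x - (r - y) = y - x := by abel
  have e2 : r - z - (r - y) = y - z := by abel
  have e3 : r - x - (r - z) = z - x := by abel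
  rw [e1, e2, e3] at h4
  linarith

/-- Points in the same square of side `δ`. -/
private theorem Mean1_near {δ : ℝ} (hδ : 0 < δ) {x z : V}
    (h1 : ⌊(x.1 : ℝ) / δ⌋ = ⌊(z.1 : ℝ) / δ⌋) (h2 : ⌊(x.2 : ℝ) / δ⌋ = ⌊(z.2 : ℝ) / δ⌋) :
    nm (x - z) ≤ 2 * δ := by
  have key : ∀ s t : ℝ, ⌊s / δ⌋ = ⌊t / δ⌋ → |s - t| ≤ δ := by
    intro s t hst
    have h4 := Int.abs_sub_lt_one_of_floor_eq_floor hst
    rw [← sub_div, abs_div, abs_of_pos hδ, div_lt_one hδ] at h4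
    exact h4.le
  have h5 := key _ _ h1
  have h6 := key _ _ h2
  unfold nm
  simp only [Prod.fst_sub, Prod.snd_sub, Int.cast_sub]
  linarith

private theorem Mean1_floor {δ X t : ℝ} (hδ : 0 < δ) {n : ℕ} (hn : X / δ ≤ n) (ht : |t| ≤ X) :
    ⌊t / δ⌋ ∈ Icc (-(n : ℤ)) n := by
  rw [abs_le] at ht
  rw [mem_Icc]
  constructor
  · rw [Int.le_floor]
    push_cast
    have : -(X / δ) ≤ t / δ := by
      rw [← neg_div]
      exact div_le_div_of_nonneg_right ht.1 hδ.le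
    linarith
  · have h1 : (⌊t / δ⌋ : ℝ) ≤ t / δ := Int.floor_le _
    have h2 : t / δ ≤ X / δ := div_le_div_of_nonneg_right ht.2 hδ.le
    have h3 : (⌊t / δ⌋ : ℝ) ≤ ((n : ℤ) : ℝ) := by
      push_cast
      linarith
    exact_mod_cast h3

private theorem Mean1_card (n : ℕ) : ((Icc (-(n : ℤ)) n ×ˢ Icc (-(n : ℤ)) n).card : ℝ) = (2 * n + 1) ^ 2 := by
  rw [card_product, Int.card_Icc]
  have : (n : ℤ) + 1 - -(n : ℤ) = ((2 * n + 1 : ℕ) : ℤ) := by
    push_cast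
    ring
  rw [this, Int.toNat_natCast]
  push_cast
  ring

/-- A passage time is much smaller than its mean: Chebyshev. -/
private theorem Mean1_cheb {Q : Par} {g : V → ℝ} {R : ℝ} {M : Mdl Q.a Q.b} (h : Good Q g R M) {x y : V}
    {l s : ℝ} (hl : 1 ≤ l) (hlR : l ≤ R) (hs : 0 < s) (hxy : nm (y - x) ≤ l) :
    M.P (fun τ => T τ x y ≤ g (y - x) - 1 - s) ≤ Q.K * l / s ^ 2 := by
  have h1 := M.chebyshev (fun τ => T τ x y) hs
  have h2 := h.var' hl hxy hlR
  have h3 := abs_le.1 (h.mean' (x := x) (y := y) (hxy.trans hlR))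
  rw [S_sq (zero_le_one.trans hl)] at h2
  refine (M.P_mono fun τ _ hτ => ?_).trans (h1.trans (div_le_div_of_nonneg_right h2 (by positivity)))
  show s ≤ |T τ x y - M.E fun τ => T τ x y|
  refine le_trans ?_ (neg_le_abs _)
  linarith [h3.1]

/-- The net estimate.  PROOF. Choose a maximal set of points of `S` (finitely many, at most `C` = a constant depending on `c₀, C₀, b`) such that
every point of `S` is within `nm`-distance `c₀ α / (8 b)` of one of them, for instance one point of `S` in every square of a subdivision.  For a net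
point `z'` near `z`: `T x z' + T z' y ≤ T x z + T z y + c₀ α / 4`, while `g (z' - x) + g (y - z') ≥ v + 2 c₀ α`, so one of the two
`T` is smaller than its mean by `c₀ α / 4` (`Good.mean'` costs `1`, take `α` large; for small `α` the bound is trivial): Chebyshev with
`Good.var'` (variance `≤ K (2 C₀ α)`). -/
theorem leave (Q : Par) (g : V → ℝ) (hg : IsMean Q g) {c₀ C₀ : ℝ} (hc : 0 < c₀) (hC : 1 ≤ C₀) :
    ∃ C : ℝ, 1 ≤ C ∧ ∀ (α R : ℝ) (M : Mdl Q.a Q.b), 1 ≤ α → C * α ≤ R → Good Q g R M →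
    ∀ (x y : V) (S : Set V) (v : ℝ), nm (y - x) ≤ C₀ * α →
      (∀ z ∈ S, nm (z - x) ≤ C₀ * α ∧ v + 2 * c₀ * α ≤ g (z - x) + g (y - z)) →
      M.P (fun τ => ∃ z ∈ S, T τ x z + T τ z y ≤ v + c₀ * α) ≤ C / α := by
  classical
  have hK0 : 0 < Q.K := zero_lt_one.trans_le Q.hK
  have hb0 : 0 < Q.b := Q.ha.trans Q.hab
  have hC0 : 0 < C₀ := zero_lt_one.trans_le hC
  set n : ℕ := ⌈16 * Q.b * C₀ / c₀⌉₊ with hn
  set C : ℝ := 1 + 2 * C₀ + 8 / c₀ + (2 * n + 1) ^ 2 * (64 * Q.K * C₀ / c₀ ^ 2) with hCdef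
  have hC1 : 0 ≤ 8 / c₀ := by positivity
  have hC2 : 0 ≤ (2 * (n : ℝ) + 1) ^ 2 * (64 * Q.K * C₀ / c₀ ^ 2) := by positivity
  refine ⟨C, by linarith, ?_⟩
  intro α R M hα hR hG x y S v hxy hS
  have hα0 : 0 < α := by linarith
  by_cases hsm : α < 8 / c₀
  · refine (M.P_le_one _).trans ?_
    rw [le_div_iff₀ hα0]
    linarith
  push Not at hsm
  have hsm' : 8 ≤ c₀ * α := by
    rw [div_le_iff₀ hc] at hsm
    linarith
  set δ : ℝ := c₀ * α / (16 * Q.b) with hδ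
  have hδ0 : 0 < δ := by positivity
  have hnX : C₀ * α / δ ≤ n := by
    have e : C₀ * α / δ = 16 * Q.b * C₀ / c₀ := by
      rw [hδ]
      field_simp
    rw [e]
    exact Nat.le_ceil _
  set cl : V → V := fun z => (⌊(((z - x).1 : ℤ) : ℝ) / δ⌋, ⌊(((z - x).2 : ℤ) : ℝ) / δ⌋) with hcl
  set U : Finset V := Icc (-(n : ℤ)) n ×ˢ Icc (-(n : ℤ)) n with hU
  have hclU : ∀ z ∈ S, cl z ∈ U := by
    intro z hz
    have h0 := (hS z hz).1
    have hx1 : |(((z - x).1 : ℤ) : ℝ)| ≤ C₀ * α := by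
      have := abs_nonneg (((z - x).2 : ℤ) : ℝ)
      unfold nm at h0
      linarith
    have hx2 : |(((z - x).2 : ℤ) : ℝ)| ≤ C₀ * α := by
      have := abs_nonneg (((z - x).1 : ℤ) : ℝ)
      unfold nm at h0
      linarith
    rw [hU, mem_product]
    exact ⟨Mean1_floor hδ0 hnX hx1, Mean1_floor hδ0 hnX hx2⟩
  have hrep : ∀ u : V, ∃ r : V, (∃ z ∈ S, cl z = u) → r ∈ S ∧ cl r = u := by
    intro u
    by_cases h : ∃ z ∈ S, cl z = u
    · obtain ⟨z, hz, hzu⟩ := h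
      exact ⟨z, fun _ => ⟨hz, hzu⟩⟩
    · exact ⟨0, fun h' => absurd h' h⟩
  choose rep hrep using hrep
  have hnear : ∀ z ∈ S, nm (z - rep (cl z)) ≤ c₀ * α / (8 * Q.b) := by
    intro z hz
    have h1 : cl (rep (cl z)) = cl z := (hrep (cl z) ⟨z, hz, rfl⟩).2
    have h2 := congrArg Prod.fst h1
    have h3 := congrArg Prod.snd h1
    have h4 := Mean1_near hδ0 h2.symm h3.symm
    have e : z - x - (rep (cl z) - x) = z - rep (cl z) := by abel
    rw [e] at h4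
    have e2 : 2 * δ = c₀ * α / (8 * Q.b) := by
      rw [hδ]
      field_simp
      ring
    rwa [e2] at h4
  have hl1 : 1 ≤ 2 * C₀ * α := by nlinarith
  have hlR : 2 * C₀ * α ≤ R := by
    have : 2 * C₀ * α ≤ C * α := by
      apply mul_le_mul_of_nonneg_right _ hα0.le
      linarith
    linarith
  have hs0 : 0 < c₀ * α / 4 := by positivity
  have hone : ∀ r ∈ S, M.P (fun τ => T τ x r + T τ r y ≤ v + c₀ * α + c₀ * α / 4) ≤
      64 * Q.K * C₀ / c₀ ^ 2 / α := by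
    intro r hr
    obtain ⟨h1, h2⟩ := hS r hr
    have h3 : nm (y - r) ≤ 2 * C₀ * α := by
      have e : y - r = (y - x) + -(r - x) := by abel
      rw [e]
      refine (nm_add_le _ _).trans ?_
      rw [nm_neg]
      linarith
    have h4 : nm (r - x) ≤ 2 * C₀ * α := by linarith [nm_nonneg (r - x)]
    have h5 := Mean1_cheb hG hl1 hlR hs0 h4
    have h6 := Mean1_cheb hG hl1 hlR hs0 h3
    have h7 : M.P (fun τ => T τ x r + T τ r y ≤ v + c₀ * α + c₀ * α / 4) ≤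
        M.P (fun τ => T τ x r ≤ g (r - x) - 1 - c₀ * α / 4 ∨ T τ r y ≤ g (y - r) - 1 - c₀ * α / 4) := by
      refine M.P_mono fun τ _ hτ => ?_
      by_contra hcon
      push Not at hcon
      linarith [hcon.1, hcon.2]
    refine h7.trans ((M.P_or _ _).trans ?_)
    have e : 64 * Q.K * C₀ / c₀ ^ 2 / α = Q.K * (2 * C₀ * α) / (c₀ * α / 4) ^ 2 +
        Q.K * (2 * C₀ * α) / (c₀ * α / 4) ^ 2 := by
      field_simp
      ring
    rw [e]
    linarith
  have hmain : M.P (fun τ => ∃ z ∈ S, T τ x z + T τ z y ≤ v + c₀ * α) ≤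
      M.P (fun τ => ∃ u ∈ U, rep u ∈ S ∧ T τ x (rep u) + T τ (rep u) y ≤ v + c₀ * α + c₀ * α / 4) := by
    refine M.P_mono fun τ hτ hz => ?_
    obtain ⟨z, hz, hzT⟩ := hz
    refine ⟨cl z, hclU z hz, (hrep (cl z) ⟨z, hz, rfl⟩).1, ?_⟩
    have h1 := hnear z hz
    have h2 := abs_le.1 (T_lip hτ Q.ha.le x z (rep (cl z)))
    have h3 := abs_le.1 (T_lip' hτ Q.ha.le z (rep (cl z)) y)
    have h4 : Q.b * nm (z - rep (cl z)) ≤ c₀ * α / 8 := by
      have := mul_le_mul_of_nonneg_left h1 hb0.le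
      have e : Q.b * (c₀ * α / (8 * Q.b)) = c₀ * α / 8 := by
        field_simp
      rwa [e] at this
    linarith [h2.1, h3.1]
  refine hmain.trans ((M.P_exists_le U _).trans ?_)
  have hsum : ∑ u ∈ U, M.P (fun τ => rep u ∈ S ∧ T τ x (rep u) + T τ (rep u) y ≤ v + c₀ * α + c₀ * α / 4) ≤
      (U.card : ℝ) * (64 * Q.K * C₀ / c₀ ^ 2 / α) := by
    rw [← nsmul_eq_mul]
    refine sum_le_card_nsmul _ _ _ fun u _ => ?_
    by_cases hu : rep u ∈ S
    · exact (M.P_mono fun τ _ h => h.2).trans (hone _ hu)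
    · have h0 : M.P (fun τ => rep u ∈ S ∧ T τ x (rep u) + T τ (rep u) y ≤ v + c₀ * α + c₀ * α / 4) ≤
          M.P (fun _ => False) := M.P_mono fun τ _ h => hu h.1
      have h1 : M.P (fun _ => False) = 0 := by
        rw [Mdl.P_def]
        simp only [if_false]
        exact M.E_const 0
      rw [h1] at h0
      exact h0.trans (by positivity)
  refine hsum.trans ?_
  rw [hU, Mean1_card, ← mul_div_assoc]
  apply div_le_div_of_nonneg_right _ hα0.le
  linarith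

/-- `E |T x y - g (y - x)| ≤ C √n`. -/
theorem abs_dev (Q : Par) (g : V → ℝ) : ∃ C : ℝ, 1 ≤ C ∧ ∀ (n R : ℝ) (M : Mdl Q.a Q.b), 1 ≤ n → n ≤ R →
    Good Q g R M → ∀ x y : V, nm (y - x) ≤ n → M.E (fun τ => |T τ x y - g (y - x)|) ≤ C * Real.sqrt n := by
  refine ⟨Real.sqrt Q.K + 1, by linarith [Real.sqrt_nonneg Q.K], ?_⟩
  intro n R M hn hnR hG x y hxy
  have h1 := hG.var' hn hxy hnR
  have h2 := hG.mean' (x := x) (y := y) (hxy.trans hnR)
  have h3 : M.E (fun τ => |T τ x y - M.E fun τ => T τ x y|) ≤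
      Real.sqrt (M.E fun τ => (T τ x y - M.E fun τ => T τ x y) ^ 2) :=
    Ex_abs_le_sqrt (fun ω => T (M.env ω) x y - M.E fun τ => T τ x y)
  have h4 : Real.sqrt (M.E fun τ => (T τ x y - M.E fun τ => T τ x y) ^ 2) ≤ Real.sqrt Q.K * Real.sqrt n := by
    rw [← Real.sqrt_mul (zero_le_one.trans Q.hK)]
    apply Real.sqrt_le_sqrt
    rwa [S_sq (zero_le_one.trans hn)] at h1
  have h5 : M.E (fun τ => |T τ x y - g (y - x)|) ≤ M.E (fun τ => |T τ x y - M.E fun τ => T τ x y| + 1) := by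
    refine M.E_mono fun τ _ => ?_
    have h6 := abs_add_le (T τ x y - M.E fun τ => T τ x y) ((M.E fun τ => T τ x y) - g (y - x))
    rw [sub_add_sub_cancel] at h6
    linarith
  have h7 : M.E (fun τ => |T τ x y - M.E fun τ => T τ x y| + 1) =
      M.E (fun τ => |T τ x y - M.E fun τ => T τ x y|) + 1 := by
    rw [Mdl.E_add, Mdl.E_const]
  have h8 : 1 ≤ Real.sqrt n := Real.one_le_sqrt.2 hn
  rw [h7] at h5
  linarith

end Pool.Agent.W_1b8d5d_c1
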