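import Pool.Agent.W_1b8d5d_c1.Defs

/-!
MP_1b8d5d_pr (N2): properties of `S x = √x`.
-/

set_option autoImplicit false

namespace Pool.Agent.W_1b8d5d_c1

open Pool.Agent.W_1b8d5d_h85

theorem S_nonneg (x : ℝ) : 0 ≤ S x := Real.sqrt_nonneg _

theorem S_sq {x : ℝ} (hx : 0 ≤ x) : S x ^ 2 = x := Real.sq_sqrt hx

theorem S_pos {x : ℝ} (hx : 0 < x) : 0 < S x := Real.sqrt_pos.2 hx

theorem S_mono {x y : ℝ} (_hx : 0 ≤ x) (hxy : x ≤ y) : S x ≤ S y := Real.sqrt_le_sqrt hxy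

theorem S_mul {c x : ℝ} (hc : 0 ≤ c) : S (c * x) = Real.sqrt c * S x := Real.sqrt_mul hc x

theorem S_mul_le {c x : ℝ} (hc : 1 ≤ c) (_hx : 0 ≤ x) : S (c * x) ≤ Real.sqrt c * S x :=
  (S_mul (zero_le_one.trans hc)).le

theorem S_mul_le' {c x : ℝ} (hc : 0 ≤ c) (_hx : 0 ≤ x) : S (c * x) ≤ (Real.sqrt c + 1) * S x := by
  rw [S_mul hc]
  have := S_nonneg x
  nlinarith

theorem S_le_sqrt {x : ℝ} (hx : 0 ≤ x) : S x ≤ Real.sqrt (2 * x) := Real.sqrt_le_sqrt (by linarith)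

theorem S_le_two_sqrt {x : ℝ} (_hx : 0 ≤ x) : S x ≤ 2 * Real.sqrt x := by
  have := Real.sqrt_nonneg x
  unfold S
  linarith

theorem S_ge {x : ℝ} (hx : 1 ≤ x) : 1 / 2 ≤ S x := by
  have : 1 ≤ S x := Real.one_le_sqrt.2 hx
  linarith

theorem half_le_S {x : ℝ} (hx : 1 ≤ x) : 1 / 2 ≤ S x := S_ge hx

end Pool.Agent.W_1b8d5d_c1
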