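import Mathlib

/-!
MP_1b8d5d_pr (N2): a good scale: all larger scales are controlled.
-/

set_option autoImplicit false

namespace Pool.Agent.W_1b8d5d_c1

open Finset

/-- A good scale in an explicit window; `a i = f (k ^ i)` for an absolute constant `k`; ALL larger scales (up to `I`) are controlled. -/
theorem scale_all (a : ℕ → ℝ) {C : ℝ} {k : ℕ} (hk : 2 ≤ k) (i₀ I : ℕ) (h1 : 1 ≤ a i₀)
    (hI : 16 * i₀ + 20 * ⌈C⌉₊ ≤ I) (hC : ∀ i ≤ I, a i ≤ C * ((k : ℝ) ^ i) ^ ((3 : ℝ) / 4)) :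
    ∃ i, i₀ ≤ i ∧ i ≤ 16 * i₀ + 20 * ⌈C⌉₊ ∧ ∀ j, i + j ≤ I → a (i + j) ≤ ((k : ℝ) ^ j) ^ ((4 : ℝ) / 5) * a i := by
  have hk0 : (0 : ℝ) < k := by positivity
  have hk1 : (1 : ℝ) < k := by exact_mod_cast (by omega : 1 < k)
  set n := 16 * i₀ + 20 * ⌈C⌉₊ with hn
  have hne : (Icc i₀ I).Nonempty := ⟨i₀, mem_Icc.2 ⟨le_rfl, by omega⟩⟩
  obtain ⟨i, hi, hmax⟩ := exists_max_image (Icc i₀ I) (fun i => a i / ((k : ℝ) ^ i) ^ ((4 : ℝ) / 5)) hne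
  rw [mem_Icc] at hi
  have hp : ∀ i : ℕ, (0 : ℝ) < ((k : ℝ) ^ i) ^ ((4 : ℝ) / 5) := fun i => by positivity
  refine ⟨i, hi.1, ?_, ?_⟩
  · by_contra hcon
    push Not at hcon
    have h2 := hmax i₀ (mem_Icc.2 ⟨le_rfl, by omega⟩)
    have h3 := hC i hi.2
    -- `1 / (k ^ i₀) ^ (4/5) ≤ C / (k ^ i) ^ (1/20)`
    have h4 : 1 / ((k : ℝ) ^ i₀) ^ ((4 : ℝ) / 5) ≤ a i / ((k : ℝ) ^ i) ^ ((4 : ℝ) / 5) :=
      (div_le_div_of_nonneg_right h1 (hp i₀).le).trans h2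
    rw [div_le_div_iff₀ (hp i₀) (hp i)] at h4
    have h5 : 1 * ((k : ℝ) ^ i) ^ ((4 : ℝ) / 5) ≤
        C * ((k : ℝ) ^ i) ^ ((3 : ℝ) / 4) * ((k : ℝ) ^ i₀) ^ ((4 : ℝ) / 5) :=
      h4.trans (mul_le_mul_of_nonneg_right h3 (hp i₀).le)
    have e1 : ((k : ℝ) ^ i) ^ ((4 : ℝ) / 5) = (k : ℝ) ^ ((1 : ℝ) / 20 * i - (4 : ℝ) / 5 * i₀) *
        (((k : ℝ) ^ i) ^ ((3 : ℝ) / 4) * ((k : ℝ) ^ i₀) ^ ((4 : ℝ) / 5)) := by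
      rw [← Real.rpow_natCast (k : ℝ) i, ← Real.rpow_natCast (k : ℝ) i₀, ← Real.rpow_mul hk0.le,
        ← Real.rpow_mul hk0.le, ← Real.rpow_mul hk0.le, ← Real.rpow_add hk0, ← Real.rpow_add hk0]
      congr 1
      ring
    rw [one_mul, e1, mul_assoc] at h5
    have h6 : (0 : ℝ) < ((k : ℝ) ^ i) ^ ((3 : ℝ) / 4) * ((k : ℝ) ^ i₀) ^ ((4 : ℝ) / 5) := by positivity
    have h7 : (k : ℝ) ^ ((1 : ℝ) / 20 * i - (4 : ℝ) / 5 * i₀) ≤ C := le_of_mul_le_mul_right h5 h6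
    have hiR : (16 * i₀ + 20 * ⌈C⌉₊ : ℝ) < i := by exact_mod_cast hcon
    have h8 : (k : ℝ) ^ ((⌈C⌉₊ : ℝ)) ≤ (k : ℝ) ^ ((1 : ℝ) / 20 * i - (4 : ℝ) / 5 * i₀) :=
      Real.rpow_le_rpow_of_exponent_le hk1.le (by linarith)
    have h9 : (2 : ℝ) ^ ((⌈C⌉₊ : ℝ)) ≤ (k : ℝ) ^ ((⌈C⌉₊ : ℝ)) :=
      Real.rpow_le_rpow (by norm_num) (by exact_mod_cast hk) (Nat.cast_nonneg _)
    have h10 : ((⌈C⌉₊ : ℝ)) < (2 : ℝ) ^ ((⌈C⌉₊ : ℝ)) := by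
      rw [Real.rpow_natCast]
      exact_mod_cast Nat.lt_two_pow_self
    have h11 := Nat.le_ceil C
    linarith
  · intro j hj
    have h2 := hmax (i + j) (mem_Icc.2 ⟨by omega, hj⟩)
    have e1 : ((k : ℝ) ^ (i + j)) ^ ((4 : ℝ) / 5) = ((k : ℝ) ^ j) ^ ((4 : ℝ) / 5) * ((k : ℝ) ^ i) ^ ((4 : ℝ) / 5) := by
      rw [pow_add, Real.mul_rpow (by positivity) (by positivity), mul_comm]
    rw [div_le_div_iff₀ (hp (i + j)) (hp i), e1] at h2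
    have h3 : a (i + j) * ((k : ℝ) ^ i) ^ ((4 : ℝ) / 5) ≤
        (((k : ℝ) ^ j) ^ ((4 : ℝ) / 5) * a i) * ((k : ℝ) ^ i) ^ ((4 : ℝ) / 5) := by
      linarith
    exact le_of_mul_le_mul_right h3 (hp i)

end Pool.Agent.W_1b8d5d_c1
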